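import Pool.Agent.Helper52.GF.Kv
import Pool.Agent.Helper87.NSL.Costr

/-! PAIRS `(system of leaves, partition R)`, K-language: the kind, truncations, robust classes of pairs. -/

set_option autoImplicit false

namespace Pool.Agent.Helper52.GF

open Finset Filter Topology Matrix Pool.Agent.Helper69.RK Pool.Agent.Helper31.EC Pool.Agent.Helper31.EC.Sp
open Pool.Agent.Helper40.EL Pool.Agent.Helper89.LX Pool.Agent.Helper59.EV Pool.Agent.Helper49.MD
open Pool.Agent.Helper84.MT Pool.Agent.Helper3.LF Pool.Agent.Helper36.AM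
open Pool.Agent.Helper95.LF (PdM)
open Pool.Agent.Helper47.FN (KR lftR obR cnR pfm)

noncomputable section

variable {S T : Sp} {M : ℕ} {E : ℕ → ℕ} {ι : Type}

/-! ### the kind of pairs -/

/-- the system of a pair -/
def prR (M : ℕ) (ι : Type) : Km (KR M ι) (KM M ι) where
  f := fun F x => (x : FMs F.Ω M ι × Setoid F.Ω).1
  im := fun _ _ _ _ _ => rfl

/-- the partition of a pair -/
def puR (M : ℕ) (ι : Type) : Pu (KR M ι) where
  X := fun F x => (x : FMs F.Ω M ι × Setoid F.Ω).2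
  im := fun _ _ _ _ _ => rfl

/-- the cells of level `r` of the point of a pair -/
def puL (M : ℕ) (ι : Type) (r : ℝ) : Pu (KR M ι) where
  X := fun F x => Setoid.ker fun ω => cell (dlF F r) ((x : FMs F.Ω M ι × Setoid F.Ω).1.Q ω)
  im := fun _ _ _ _ _ => rfl

/-- everything -/
def puT (M : ℕ) (ι : Type) : Pu (KR M ι) where
  X := fun _ _ => Setoid.ker fun ω => ω
  im := fun _ _ _ _ _ => rfl

/-- THE RESOLUTIONS: the partition `R`, the cells of level `r` of the point, everything (= no condition) -/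
inductive Rs : Type
  | R : Rs
  | L : ℝ → Rs
  | T : Rs

/-- the partition of a resolution -/
def Wp (M : ℕ) (ι : Type) : Rs → Pu (KR M ι)
  | .R => puR M ι
  | .L r => puL M ι r
  | .T => puT M ι

/-- the partition of a resolution, pairs -/
def Wq (s : MSys S M E ι) (R : ∀ k, Setoid (S.F k).Ω) : Rs → Part S
  | .R => fun k => fc (R k)
  | .L r => pcr s.Q r
  | .T => fun _ => fc (Setoid.ker fun ω => ω)

theorem Wp_obR (s : MSys S M E ι) (R : ∀ k, Setoid (S.F k).Ω) (w : Rs) : (Wp M ι w).pt (obR s R) = Wq s R w := by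
  cases w <;> rfl

/-- `everything` is no condition -/
theorem leak_T {F : FSp} (l : FLab F) : l.leak (fc (Setoid.ker fun ω => ω)) = 0 := by
  show I l.v l.p.top (l.p.map (fc (Setoid.ker fun ω => ω))) = 0
  rw [I_eq']
  have h1 : l.p.top ≤ l.p.map (fc (Setoid.ker fun ω : F.Ω => ω)) := le_refl _
  rw [h_zero h1, h_zero (h1.trans le_sup_right), sub_zero]

theorem kz_T (l : Lab S) : (LC.kz fun k => (fc (Setoid.ker fun ω => ω) : FL (S.F k))).ev l :=
  Eventually.of_forall fun k => leak_T (l k)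

/-- LABELS OF THE TYPES: no condition at the point -/
theorem KLb_T {s : MSys S M E ι} {R : ∀ k, Setoid (S.F k).Ω} {c : ℝ} {l : Lab S} :
    KLb s (Wq s R .T) (Wq s R .T) c l ↔ ∀ i, Nul S fun k => (l k).leak ((s.lf i).win c k) := by
  rw [KLb_iff]
  exact ⟨fun h => h.1, fun h => ⟨h, kz_T l⟩⟩

/-- ORDINARY LABELS: small leaks at the cells of level `r` and at the windows -/
theorem KLb_L {s : MSys S M E ι} {R : ∀ k, Setoid (S.F k).Ω} {r c : ℝ} {l : Lab S} :
    KLb s (Wq s R (.L r)) (Wq s R .T) c l ↔ l.DMf (scn s r c) := by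
  have e : scw s (Wq s R (.L r)) c = scn s r c := scw_scn s r c
  unfold KLb
  rw [e]
  exact ⟨fun h => h.1, fun h => ⟨h, kz_T l⟩⟩

/-- change of the unit of pairs -/
def kuR (M : ℕ) (ι : Type) : Ku (KR M ι) where
  u := fun _ _ _ x => x
  im := fun _ _ _ _ _ _ _ => rfl

/-- the object of a pair is given by the pair -/
theorem giv_obR (s : MSys S M E ι) (R : ∀ k, Setoid (S.F k).Ω) : Giv s ((prR M ι).o (obR s R)) :=
  ⟨Eventually.of_forall fun _ => rfl, fun _ => Eventually.of_forall fun _ => rfl⟩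

theorem puR_obR (s : MSys S M E ι) (R : ∀ k, Setoid (S.F k).Ω) : (puR M ι).pt (obR s R) = fun k => fc (R k) := rfl

theorem puL_obR (s : MSys S M E ι) (R : ∀ k, Setoid (S.F k).Ω) (r : ℝ) :
    (puL M ι r).pt (obR s R) = pcr s.Q r := rfl

theorem cnR_scw (s : MSys S M E ι) (R : ∀ k, Setoid (S.F k).Ω) (c : ℝ) :
    pfm (cnR s R c) = scw s (fun k => fc (R k)) c := funext fun i => by cases i <;> rfl

theorem cndR_scw (s : MSys S M E ι) (R : ∀ k, Setoid (S.F k).Ω) (c : ℝ) :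
    Pool.Agent.Helper87.NSL.cndR s R c = scw s (fun k => fc (R k)) c := funext fun i => by cases i <;> rfl

/-- truncations of given objects -/
theorem giv_trn {s : MSys S M E ι} {x : (KR M ι).Ob S} (h : Giv s ((prR M ι).o x)) {e : ℝ} (he : 0 < e)
    (h1 : e ≤ 1) : Giv (s.trn e he h1) ((prR M ι).o ((kuR M ι).o e he x)) := h

theorem isK_trn [Encodable ι] {e : ℝ} (he : 0 < e) (h1 : e ≤ 1) :
    UnCl (kuR M ι) e he (isK E (prR M ι)) := by
  rintro S x ⟨s, hs⟩
  exact ⟨s.trn e he h1, giv_trn hs he h1⟩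

theorem obR_trn (s : MSys S M E ι) (R : ∀ k, Setoid (S.F k).Ω) {e : ℝ} (he : 0 < e) (h1 : e ≤ 1) :
    (kuR M ι).o e he (obR s R) = obR (S := S.chg S.tr e he) (s.trn e he h1) R := rfl

/-! ### robust classes of pairs -/

variable [Encodable ι]

/-- robust classes of pairs -/
abbrev RbP (Y : ℕ → Pt (KR M ι) (isK E (prR M ι))) (f g : ℕ → Rs) (C : (KR M ι).Pd) (c : KC M) : Prop :=
  RbK (prR M ι) Y (fun n => Wp M ι (f n)) (fun n => Wp M ι (g n)) C c

/-- robust truncations of pairs -/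
abbrev RbV (Y : ℕ → Pt (KR M ι) (isK E (prR M ι))) (f g : ℕ → Rs) (e : ℝ) (he : 0 < e) (C : (KR M ι).Pd)
    (c : KC M) : Prop := RbU (prR M ι) Y (fun n => Wp M ι (f n)) (fun n => Wp M ι (g n)) (kuR M ι) e he C c

/-- EXISTENCE OF ROBUST CLASSES OF PAIRS: K-labels with small leaks at the resolution `f n` and exactly no leak at the
resolution `g n`, countably many `n`; the truncations `u j` -/
theorem exists_robustR {C : (KR M ι).Pd} (hC : Cls C) (hM : ∀ S x, C S x → isK E (prR M ι) S x)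
    (Y : ℕ → Pt (KR M ι) (isK E (prR M ι))) (f g : ℕ → Rs) (u : ℕ → ℝ) (hu : ∀ j, 0 < u j) (hu1 : ∀ j, u j ≤ 1) :
    ∃ C' : (KR M ι).Pd, Cls C' ∧ (∀ S x, C' S x → C S x) ∧ (∃ c : KC M, RbP Y f g C' c) ∧
      ∀ j, ∃ c : KC M, RbV Y f g (u j) (hu j) C' c :=
  stage_k (prR M ι) hC hM Y (fun n => Wp M ι (f n)) (fun n => Wp M ι (g n)) (kuR M ι) u hu
    fun j => isK_trn (hu j) (hu1 j)

/-- the members of `TT` whose objects are in `C` -/
def cutR (TT : ∀ S : Sp, MSys S M E ι → (∀ k, Setoid (S.F k).Ω) → Prop) (C : (KR M ι).Pd) :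
    ∀ S : Sp, MSys S M E ι → (∀ k, Setoid (S.F k).Ω) → Prop := fun S s R => TT S s R ∧ C S (obR s R)

omit [Encodable ι] in
theorem obR_ev [Finite ι] {s : MSys S M E ι} {R : ∀ k, Setoid (S.F k).Ω} {x : (KR M ι).Ob S}
    (h : Giv s (fun k => (x k : FMs (S.F k).Ω M ι × Setoid (S.F k).Ω).1))
    (hR : ∀ᶠ k in UF, R k = (x k : FMs (S.F k).Ω M ι × Setoid (S.F k).Ω).2) : ∀ᶠ k in UF, obR s R k = x k := by
  filter_upwards [giv_iff.mp h, hR] with k a b
  exact Prod.ext a b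

omit [Encodable ι] in
theorem lftR_isK [Encodable ι] {TT : ∀ S : Sp, MSys S M E ι → (∀ k, Setoid (S.F k).Ω) → Prop} {S : Sp}
    {x : (KR M ι).Ob S} (h : lftR TT S x) : isK E (prR M ι) S x := by
  obtain ⟨s, R, h1, _, _⟩ := h
  exact ⟨s, h1⟩

omit [Encodable ι] in
theorem lftR_cutR [Finite ι] {TT : ∀ S : Sp, MSys S M E ι → (∀ k, Setoid (S.F k).Ω) → Prop} {C : (KR M ι).Pd}
    (hC : Inv C) (h : ∀ S x, C S x → lftR TT S x) : lftR (cutR TT C) = C := by
  funext S x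
  apply propext
  constructor
  · rintro ⟨s, R, h1, h2, _, h3⟩
    exact hC S (obR s R) x (obR_ev h1 h2) h3
  · intro hx
    obtain ⟨s, R, h1, h2, h3⟩ := h S x hx
    exact ⟨s, R, h1, h2, h3, hC S x (obR s R) ((obR_ev h1 h2).mono fun _ hk => hk.symm) hx⟩

/-- ROBUST SUBCLASSES of a class of pairs -/
theorem robust_pairs [Finite ι] {TT : ∀ S : Sp, MSys S M E ι → (∀ k, Setoid (S.F k).Ω) → Prop} (hT : Cls (lftR TT))
    (Y : ℕ → Pt (KR M ι) (isK E (prR M ι))) (f g : ℕ → Rs) (u : ℕ → ℝ) (hu : ∀ j, 0 < u j) (hu1 : ∀ j, u j ≤ 1) :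
    ∃ C : (KR M ι).Pd, Cls C ∧ (∀ S x, C S x → lftR TT S x) ∧ lftR (cutR TT C) = C ∧
      (∃ c : KC M, RbP Y f g C c) ∧ ∀ j, ∃ c : KC M, RbV Y f g (u j) (hu j) C c := by
  obtain ⟨C, h1, h2, h3, h4⟩ := exists_robustR hT (fun S x hx => lftR_isK hx) Y f g u hu hu1
  exact ⟨C, h1, h2, lftR_cutR h1.ev h2, h3, h4⟩

end

end Pool.Agent.Helper52.GF
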