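import Pool.Agent.Helper52.GF.Ki
import Pool.Agent.Helper49.MD.Dl

/-! UNIVERSAL K-LABELS: one K-label which carries the maximal informations about countably many bounded partitions (there
is no bound on the information of K-labels, the partition with exactly no leak may be arbitrarily fine). -/

set_option autoImplicit false

namespace Pool.Agent.Helper52.GF

open Finset Filter Topology Matrix Pool.Agent.Helper69.RK Pool.Agent.Helper31.EC Pool.Agent.Helper31.EC.Sp
open Pool.Agent.Helper40.EL Pool.Agent.Helper89.LX Pool.Agent.Helper59.EV Pool.Agent.Helper49.MD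

noncomputable section

/-- the information of a join about a partition -/
theorem vX_join {F : FSp} (l l' : FLab F) (x : FL F) : vX (l.join l') x = vX l x +
    I ((l.am l').p2.map l'.v) ((l.am l').p1.map (l.p.map x)) ((l.am l').p1.map l.v) := by
  have h0 : vX (l.join l') x =
      I ((l.am l').p1.map l.v ⊔ (l.am l').p2.map l'.v) ((l.am l').p1.map (l.p.map x)) ⊥ := by
    unfold vX
    rw [FLab.join_map]
    rfl
  have h2 := (l.am l').p1.I_map l.v (l.p.map x) ⊥
  rw [(l.am l').p1.map_bot] at h2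
  rw [h0, I_chain, sup_bot_eq, h2]
  rfl

theorem vX_join_left {F : FSp} (l l' : FLab F) (x : FL F) : vX l x ≤ vX (l.join l') x := by
  rw [vX_join]
  have := I_nonneg ((l.am l').p2.map l'.v) ((l.am l').p1.map (l.p.map x)) ((l.am l').p1.map l.v)
  linarith

theorem vX_join_right {F : FSp} (l l' : FLab F) (x : FL F) : vX l' x ≤ vX (l.join l') x := by
  have h0 : vX (l.join l') x =
      I ((l.am l').p1.map l.v ⊔ (l.am l').p2.map l'.v) ((l.am l').p1.map (l.p.map x)) ⊥ := by
    unfold vX
    rw [FLab.join_map]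
    rfl
  have h1 := (l.am l').p2.I_map l'.v (l'.p.map x) ⊥
  rw [(l.am l').p2.map_bot, ← FLab.am_map] at h1
  rw [h0]
  unfold vX
  rw [← h1]
  exact I_mono_left (le_sup_right.trans le_sup_left)

variable {K : FK} {B : K.Pd} {κ : Type} [Encodable κ]

/-- the join of the first labels -/
def jns {S : Sp} (l : ℕ → Lab S) : ℕ → Lab S
  | 0 => l 0
  | n + 1 => (jns l n).join (l (n + 1))

omit [Encodable κ] in
theorem jns_dm {S : Sp} {A : κ → Part S} {l : ℕ → Lab S} (h : ∀ n, (l n).DMf A) (n : ℕ) : (jns l n).DMf A := by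
  induction n with
  | zero => exact h 0
  | succ n ih => exact ih.join (h (n + 1))

theorem jns_ev {S : Sp} {C : LC S} {l : ℕ → Lab S} (h : ∀ n, C.ev (l n)) (n : ℕ) : C.ev (jns l n) := by
  induction n with
  | zero => exact h 0
  | succ n ih => exact LC.ev.join ih (h (n + 1))

theorem jns_vX {S : Sp} (l : ℕ → Lab S) (k : ℕ) (x : FL (S.F k)) {i n : ℕ} (hi : i ≤ n) :
    vX (l i k) x ≤ vX (jns l n k) x := by
  induction n with
  | zero =>
    have : i = 0 := by omega
    rw [this]
    exact le_rfl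
  | succ n ih =>
    rcases Nat.lt_or_ge n i with h | h
    · have : i = n + 1 := by omega
      rw [this]
      exact vX_join_right (jns l n k) (l (n + 1) k) x
    · exact (ih h).trans (vX_join_left (jns l n k) (l (n + 1) k) x)

/-- EXISTENCE OF UNIVERSAL LABELS OF A CLASS -/
theorem exists_uni (X : ℕ → Pt K B) (A : Cd K κ) (L : Lq K) {S : Sp} {x : K.Ob S} (hx : B S x) :
    ∃ l : Lab S, l.DMf (A.cf x) ∧ (L.lc x).ev l ∧ ∀ n, ul (vxs l ((X n).pt x)) = kiv (X n) A L x := by
  classical
  choose l hl hz hv using fun n => kiv_attained (X n) A L hx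
  have hjd := jns_dm hl
  have hje := jns_ev hz
  have hjv : ∀ i n, i ≤ n → kiv (X i) A L x ≤ ul (vxs (jns l n) ((X i).pt x)) := by
    intro i n hi
    rw [← hv i]
    exact ul_mono (vxs_UB (X i) hx (l i)) (vxs_UB (X i) hx (jns l n)) (Eventually.of_forall fun k =>
      div_le_div_of_nonneg_right (jns_vX l k _ hi) (S.F k).pos.le)
  have hG : ∀ j : ℕ, ∀ᶠ k in UF, ((∀ i, Used (1 / ((j : ℝ) + 1)) i →
      (jns l j k).leak (A.cf x i k) / (S.F k).n ≤ 1 / ((j : ℝ) + 1)) ∧ L.P (S.F k) (x k) (jns l j k)) ∧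
      ∀ n ∈ Finset.range (j + 1), kiv (X n) A L x - 1 / ((j : ℝ) + 1) ≤ vxs (jns l j) ((X n).pt x) k := by
    intro j
    have hp : (0 : ℝ) < 1 / ((j : ℝ) + 1) := by positivity
    refine (Filter.Eventually.and ?_ (hje j)).and ((Finset.eventually_all _).mpr fun n hn => ?_)
    · refine ev_used hp fun i => ?_
      have h2 : Tendsto (fun k => (jns l j k).leak (A.cf x i k) / (S.F k).n) UF (𝓝 0) := hjd j i
      exact (h2.eventually (gt_mem_nhds hp)).mono fun k hk => hk.le
    · have h3 := hjv n j (by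
        have := Finset.mem_range.mp hn
        omega)
      exact (eventually_gt_of_lt_ul (vxs_UB (X n) hx (jns l j)) (lt_of_lt_of_le (by linarith) h3)).mono
        fun k hk => hk.le
  obtain ⟨y, J, hJ, _, hy⟩ := dia' (X := fun k => FLab (S.F k)) (fun j k => jns l j k) (fun j k w =>
    ((∀ i, Used (1 / ((j : ℝ) + 1)) i → w.leak (A.cf x i k) / (S.F k).n ≤ 1 / ((j : ℝ) + 1)) ∧
      L.P (S.F k) (x k) w) ∧
      ∀ n ∈ Finset.range (j + 1), kiv (X n) A L x - 1 / ((j : ℝ) + 1) ≤ vX w ((X n).pt x k) / (S.F k).n) hG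
  have h0 := inv_tendsto hJ
  have hd : Lab.DMf y (A.cf x) := by
    intro i
    refine tendsto_of_tendsto_of_tendsto_of_le_of_le' tendsto_const_nhds h0
      (Eventually.of_forall fun k => div_nonneg (FLab.leak_nonneg _ _) (S.F k).pos.le) ?_
    filter_upwards [hy, used_ev h0 i] with k hk hu
    exact hk.1.1 i hu
  have he : (L.lc x).ev y := hy.mono fun k hk => hk.1.2
  refine ⟨y, hd, he, fun n => le_antisymm (vxs_le_kiv (X n) A L hx hd he) ?_⟩
  have h4 : Tendsto (fun k => kiv (X n) A L x - 1 / ((J k : ℝ) + 1)) UF (𝓝 (kiv (X n) A L x)) := by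
    have := h0.const_sub (kiv (X n) A L x)
    rwa [sub_zero] at this
  refine le_of_tendsto_of_tendsto h4 (ul_tendsto (vxs_UB (X n) hx y)) ?_
  filter_upwards [hy, hJ.eventually (eventually_ge_atTop n)] with k hk h5
  exact hk.2 n (Finset.mem_range.mpr (by omega))

/-- a universal label carries all informations of the other labels of the class about the partition -/
theorem uni_nul (X : Pt K B) (A : Cd K κ) (L : Lq K) {S : Sp} {x : K.Ob S} (hx : B S x) {l l' : Lab S}
    (hl : l.DMf (A.cf x)) (hz : (L.lc x).ev l) (hv : ul (vxs l (X.pt x)) = kiv X A L x) (hl' : l'.DMf (A.cf x))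
    (hz' : (L.lc x).ev l') :
    Nul S (fun k => I (((l k).am (l' k)).p2.map (l' k).v) (((l k).am (l' k)).p1.map ((l k).p.map (X.pt x k)))
      (((l k).am (l' k)).p1.map (l k).v)) := by
  have h1 := vxs_le_kiv X A L hx (hl.join hl') (LC.ev.join hz hz')
  have t1 := ul_tendsto (vxs_UB X hx l)
  have t2 := ul_tendsto (vxs_UB X hx (l.join l'))
  have t3 := t2.sub t1
  have e : (fun k => I (((l k).am (l' k)).p2.map (l' k).v) (((l k).am (l' k)).p1.map ((l k).p.map (X.pt x k)))
      (((l k).am (l' k)).p1.map (l k).v) / (S.F k).n) =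
      fun k => vxs (l.join l') (X.pt x) k - vxs l (X.pt x) k := by
    funext k
    have h2 := vX_join (l k) (l' k) (X.pt x k)
    unfold vxs
    rw [← sub_div]
    congr 1
    have h3 : vX ((l.join l') k) (X.pt x k) = vX ((l k).join (l' k)) (X.pt x k) := rfl
    rw [h3, h2]
    ring
  show Tendsto (fun k => _ / (S.F k).n) UF (𝓝 0)
  rw [e]
  have h4 : 0 ≤ ul (vxs (l.join l') (X.pt x)) - ul (vxs l (X.pt x)) :=
    ge_of_tendsto' t3 fun k => by
      show 0 ≤ vX ((l k).join (l' k)) (X.pt x k) / (S.F k).n - vX (l k) (X.pt x k) / (S.F k).n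
      rw [← sub_div]
      exact div_nonneg (sub_nonneg.mpr (vX_join_left _ _ _)) (S.F k).pos.le
  have h5 : ul (vxs (l.join l') (X.pt x)) - ul (vxs l (X.pt x)) = 0 := le_antisymm (by linarith) h4
  rw [h5] at t3
  exact t3

end

end Pool.Agent.Helper52.GF
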