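import Pool.Agent.Helper52.GF.Rcf

/-! ENTROPIES OF THE DIGITS OF THE POINT OVER THE WINDOWS of the types (unit directions of the types): constant in robust
classes, for all real levels and windows. -/

set_option autoImplicit false

namespace Pool.Agent.Helper52.GF

open Finset Filter Topology Matrix Pool.Agent.Helper69.RK Pool.Agent.Helper31.EC Pool.Agent.Helper31.EC.Sp
open Pool.Agent.Helper40.EL Pool.Agent.Helper89.LX Pool.Agent.Helper59.EV Pool.Agent.Helper49.MD
open Pool.Agent.Helper84.MT Pool.Agent.Helper3.LF Pool.Agent.Helper36.AM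

noncomputable section

variable {S T : Sp} {M : ℕ} {E : ℕ → ℕ} {ι : Type} {K : FK} (m : Km K (KM M ι))

/-- the window `c` of the type `i`, as an attached partition -/
def winp (M : ℕ) (i : ι) (c : ℝ) : Pu (KM M ι) where
  X := fun F x => ((x : FMs F.Ω M ι).lf i).La ⊓ Setoid.ker fun ω => cell (dlF F c) (((x : FMs F.Ω M ι).lf i).Y ω)
  im := fun _ _ _ _ _ => rfl

theorem winp_pt {s : MSys S M E ι} {x : (KM M ι).Ob S} (h : Giv s x) (i : ι) (c : ℝ) :
    ∀ᶠ k in UF, (winp M i c).pt x k = (s.lf i).win c k := by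
  filter_upwards [h.2 i] with k hk
  show FLf.win (S.F k) ((x k : FMs (S.F k).Ω M ι).lf i) c = _
  rw [← hk]
  rfl

variable [Encodable ι]

/-- the entropy of the partition `X` of the point over the window `c` of the type `i` -/
def hwn (E : ℕ → ℕ) (m : Km K (KM M ι)) (X : XI M) (p : ℝ × ℝ) (i : ι) (c : ℝ) : Dv K (isK E m) :=
  hwv (ptk E m X p) ((winp M i c).cm m)

theorem hwn_f {s : MSys S M E ι} {x : K.Ob S} (hs : Giv s (m.o x)) (X : XI M) (p : ℝ × ℝ) (i : ι) (c : ℝ) {P : Part S}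
    (hP : ∀ᶠ k in UF, (ptk E m X p).pt x k = P k) :
    (hwn E m X p i c).f x = ul (fun k => Pool.Agent.Helper31.EC.h (P k) ((s.lf i).win c k) / (S.F k).n) := by
  refine ul_congr ?_
  filter_upwards [hP, winp_pt hs i c] with k a b
  have e : (hwn E m X p i c).v (S.F k) (x k) =
    Pool.Agent.Helper31.EC.h ((ptk E m X p).pt x k) ((winp M i c).pt (m.o x) k) / (S.F k).n := rfl
  rw [e, a, b]

/-- Lipschitz in the levels and in the window -/
theorem hwn_le {x : K.Ob S} (hx : isK E m S x) (X : XI M) (p q : ℝ × ℝ) (i : ι) (c c' : ℝ) :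
    (hwn E m X p i c).f x ≤ (hwn E m X q i c').f x + (M * 2 * dist p q + E 0 * |c' - c|) := by
  obtain ⟨s, hs⟩ := hx
  have hx : isK E m S x := ⟨s, hs⟩
  refine le_of_forall_pos_le_add fun ε hε => ?_
  have t1 := (hwn E m X p i c).tendsto hx
  have t2 := ((hwn E m X q i c').tendsto hx).add_const (M * 2 * dist p q + E 0 * |c' - c| + ε)
  have key : (hwn E m X p i c).f x ≤ (hwn E m X q i c').f x + (M * 2 * dist p q + E 0 * |c' - c| + ε) := by
    refine le_of_tendsto_of_tendsto t1 t2 ?_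
    filter_upwards [ptx_rate (E := E) hx X p q (half_pos hε), win_rate (s.lf i) c' c (half_pos hε), winp_pt hs i c,
      winp_pt hs i c'] with k a b e1 e2
    have hn := (S.F k).pos
    have a' : Pool.Agent.Helper31.EC.h ((ptk E m X p).pt x k) ((ptk E m X q).pt x k) ≤
      (M * 2 * dist p q + ε / 2) * (S.F k).n := a
    have f1 : (hwn E m X p i c).v (S.F k) (x k) =
      Pool.Agent.Helper31.EC.h ((ptk E m X p).pt x k) ((winp M i c).pt (m.o x) k) / (S.F k).n := rfl
    have f2 : (hwn E m X q i c').v (S.F k) (x k) =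
      Pool.Agent.Helper31.EC.h ((ptk E m X q).pt x k) ((winp M i c').pt (m.o x) k) / (S.F k).n := rfl
    rw [f1, f2, e1, e2, div_le_iff₀ hn, add_mul, div_mul_cancel₀ _ hn.ne']
    have h1 := h_tri3 ((ptk E m X p).pt x k) ((s.lf i).win c' k) ((s.lf i).win c k)
    have h2 : Pool.Agent.Helper31.EC.h ((ptk E m X p).pt x k) ((s.lf i).win c' k) ≤
        Pool.Agent.Helper31.EC.h ((ptk E m X p).pt x k) ((ptk E m X q).pt x k) +
        Pool.Agent.Helper31.EC.h ((ptk E m X q).pt x k) ((s.lf i).win c' k) := h_tri3 _ _ _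
    have h3 : Pool.Agent.Helper31.EC.h ((s.lf i).win c' k) ((s.lf i).win c k) ≤
        (E 0 * |c' - c| + ε / 2) * (S.F k).n := by
      refine b.trans (mul_le_mul_of_nonneg_right (add_le_add ?_ le_rfl) hn.le)
      have e3 : ((s.lf i).e : ℝ) ≤ E 0 := by exact_mod_cast (s.lf i).he
      exact mul_le_mul_of_nonneg_right e3 (abs_nonneg _)
    have h4 : (M * 2 * dist p q + E 0 * |c' - c| + ε) * (S.F k).n = (M * 2 * dist p q + ε / 2) * (S.F k).n +
      (E 0 * |c' - c| + ε / 2) * (S.F k).n := by ring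
    rw [h4]
    linarith
  linarith

theorem hwn_cont {x : K.Ob S} (hx : isK E m S x) (X : XI M) (i : ι) :
    Continuous fun q : (ℝ × ℝ) × ℝ => (hwn E m X q.1 i q.2).f x := by
  refine cont_of_le (L := M * 2 + E 0) (by positivity) fun p q => ?_
  refine (hwn_le m hx X p.1 q.1 i p.2 q.2).trans (add_le_add le_rfl ?_)
  have h1 : dist p.1 q.1 ≤ dist p q := le_max_left _ _
  have h2 : |q.2 - p.2| ≤ dist p q := by
    rw [abs_sub_comm, ← Real.dist_eq]
    exact le_max_right _ _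
  have h3 : (M : ℝ) * 2 * dist p.1 q.1 ≤ M * 2 * dist p q := mul_le_mul_of_nonneg_left h1 (by positivity)
  have h4 : (E 0 : ℝ) * |q.2 - p.2| ≤ E 0 * dist p q := mul_le_mul_of_nonneg_left h2 (Nat.cast_nonneg _)
  linarith

/-- ROBUST WINDOWS -/
def RbW (E : ℕ → ℕ) (m : Km K (KM M ι)) (B : K.Pd) (w : XI M → ι → ℝ × ℝ → ℝ → ℝ) : Prop :=
  ∀ S x, B S x → ∀ X i p c, (hwn E m X p i c).f (S := S) x = w X i p c

theorem RbW.sub {B B' : K.Pd} {w : XI M → ι → ℝ × ℝ → ℝ → ℝ} (h : RbW E m B w) (hB : ∀ S x, B' S x → B S x) :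
    RbW E m B' w := fun S x hx => h S x (hB S x hx)

theorem stage_w {B : K.Pd} (hC : Cls B) (hM : ∀ S x, B S x → isK E m S x) :
    ∃ B' : K.Pd, Cls B' ∧ (∀ S x, B' S x → B S x) ∧ ∃ w : XI M → ι → ℝ × ℝ → ℝ → ℝ, RbW E m B' w := by
  by_cases hne : Nonempty ι
  · obtain ⟨v, hv⟩ := stage_mono_cont hC hM (ι := XI M × ι) (P := (ℝ × ℝ) × ℝ)
      (fun i q _ => dvF (isK_imCl m) (hwn E m i.1 q.1 i.2 q.2)) (fun _ _ _ _ _ _ _ _ => le_rfl)
      (fun i _ S x hx => hwn_cont m hx i.1 i.2)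
    exact ⟨_, hv, fun S x hx => hx.1, fun X i p c => v (X, i) (p, c) 0, fun S x hx X i p c => hx.2 (X, i) (p, c) 0⟩
  · exact ⟨B, hC, fun _ _ hx => hx, fun _ _ _ _ => 0, fun S x hx X i => absurd ⟨i⟩ hne⟩

end

end Pool.Agent.Helper52.GF
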