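import Pool.Agent.Helper52.GF.Rcf
import Pool.Agent.Helper52.GF.Uni
import Pool.Agent.Helper52.GF.Win
import Pool.Agent.Helper29.MX.Bas

/-! THE DEFINITIONS OF `Helper29.MX` IN ROBUST CLASSES: K-labels, K-forms, volumes, least entropies, stability and
deficit on all events are constants. -/

set_option autoImplicit false

namespace Pool.Agent.Helper52.GF

open Finset Filter Topology Matrix Pool.Agent.Helper69.RK Pool.Agent.Helper31.EC Pool.Agent.Helper31.EC.Sp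
open Pool.Agent.Helper40.EL Pool.Agent.Helper89.LX Pool.Agent.Helper59.EV Pool.Agent.Helper49.MD
open Pool.Agent.Helper84.MT Pool.Agent.Helper3.LF Pool.Agent.Helper36.AM
open Pool.Agent.Helper29

noncomputable section

variable {S T : Sp} {M : ℕ} {E : ℕ → ℕ} {ι : Type}

/-! ### labels and forms -/

theorem mx_KLb {s : MSys S M E ι} {R : MX.Rsl S} {c : ℝ} {l : Lab S} :
    MX.KLb s R c l ↔ KLb s (fun k => fc (R k)) (fun k => fc (R k)) c l := by
  unfold MX.KLb KLb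
  rw [cndR_scw]

theorem mx_KAd [Finite ι] {s : MSys S M E ι} {R : MX.Rsl S} {D : ℕ} {c : ℝ} {y : ∀ k, FD (S.F k) (Mon M D)} :
    MX.KAd s R D c y ↔ KFm s (fun k => fc (R k)) (fun k => fc (R k)) c y := by
  have h := KFm_iff (s := s) (A := fun k => fc (R k)) (B := fun k => fc (R k)) (c := c) (y := y)
  rw [← cndR_scw s R c] at h
  exact h.symm

theorem mx_KOp [Finite ι] {s : MSys S M E ι} {R : MX.Rsl S} {D : ℕ} {c : ℝ} {y : ∀ k, FD (S.F k) (Mon M D)} :
    MX.KOp s R D c y ↔ KOpt s (fun k => fc (R k)) (fun k => fc (R k)) c y := by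
  have h := KOpt_iff (s := s) (A := fun k => fc (R k)) (B := fun k => fc (R k)) (c := c) (z := y)
  rw [← cndR_scw s R c] at h
  exact h.symm

/-- the entropy of the digits over a label -/
theorem H_pcr (l : Lab S) (Q : S.VV M) (r : ℝ) : H (up1 l (Q.dg r)) =
    ul (fun k => Pool.Agent.Helper31.EC.h ((l k).p.map (pcr Q r k)) (l k).v / (S.F k).n) := by
  have e : Q.dg r = cl (Q.bdd r).toInf := io_eq (Q.bdd r)
  rw [e, H_up1_cl]
  rfl

/-! ### values of an object -/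

variable {K : FK} {m : Km K (KM M ι)} [Encodable ι]

section
variable {V W : Pu K} {x : K.Ob S} {s : MSys S M E ι} (hs : Giv s (m.o x)) {R : MX.Rsl S}
  (hR : ∀ᶠ k in UF, V.pt x k = fc (R k)) (hW : ∀ᶠ k in UF, W.pt x k = fc (R k))

include hs hR hW

theorem mx_volK_kvm [Finite ι] (D : ℕ) (c : ℝ) : MX.volK s R D c = kvm E m D V W c x := by
  obtain ⟨z, hz, e⟩ := kvm_attained m hs D hR hW c
  obtain ⟨y, hy⟩ := (gaq s.Q D).exists_optfK (MX.KZ R) (Pool.Agent.Helper87.NSL.cndR s R c)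
  have h1 : MX.volK s R D c ≤ vol s.Q D z := MX.volK_le_of (mx_KAd.mpr hz)
  have h2 : MX.volK s R D c = vol s.Q D y := MX.volK_of_opt hy
  refine le_antisymm (h1.trans_eq e) ?_
  rw [h2]
  exact kvm_le_vol m hs hR hW (mx_KAd.mp hy.1)

/-- the least entropy of the digits of level `r` over the K-labels -/
theorem mx_H_attained (r c : ℝ) (X : Pt K (isK E m)) (hX : ∀ᶠ k in UF, X.pt x k = pcr s.Q r k) :
    ∃ l : Lab S, MX.KLb s R c l ∧ H (up1 l (s.Q.dg r)) = kvh m X V W c x := by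
  have hx : isK E m S x := ⟨s, hs⟩
  obtain ⟨l, hl, e⟩ := kvi_attained m X hx hs hR hW c
  refine ⟨l, mx_KLb.mpr hl, ?_⟩
  rw [H_pcr]
  have h2 := (hxs_tendsto X hx).sub (ul_tendsto (vxs_UB X hx l))
  rw [e] at h2
  refine ul_eq (h2.congr' ?_)
  filter_upwards [hX] with k hk
  unfold hxs vxs
  rw [hk, h_eq_vX, sub_div]

theorem mx_H_le (r c : ℝ) (X : Pt K (isK E m)) (hX : ∀ᶠ k in UF, X.pt x k = pcr s.Q r k) {l : Lab S}
    (hl : MX.KLb s R c l) : kvh m X V W c x ≤ H (up1 l (s.Q.dg r)) := by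
  rw [H_pcr]
  exact kvh_le m X ⟨s, hs⟩ hs hR hW (mx_KLb.mp hl) hX

theorem mx_HK_kvh (c : ℝ) (X : Pt K (isK E m)) (hX : ∀ᶠ k in UF, X.pt x k = pcr s.Q 1 k) :
    MX.HK s R c = kvh m X V W c x := by
  obtain ⟨l, hl, e⟩ := mx_H_attained hs hR hW 1 c X hX
  have hb : BddBelow {v | ∃ l : Lab S, MX.KLb s R c l ∧ v = H (up1 l (s.Q.dg 1))} := by
    refine ⟨kvh m X V W c x, ?_⟩
    rintro v ⟨l', hl', rfl⟩
    exact mx_H_le hs hR hW 1 c X hX hl'
  refine le_antisymm (csInf_le hb ⟨l, hl, e.symm⟩) (le_csInf ⟨_, l, hl, rfl⟩ ?_)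
  rintro v ⟨l', hl', rfl⟩
  exact mx_H_le hs hR hW 1 c X hX hl'

end

/-! ### members of robust classes -/

section
variable {Y : ℕ → Pt K (isK E m)} {V W : ℕ → Pu K} {C : KC M} {B : K.Pd} {x : K.Ob S} {s : MSys S M E ι} {n : ℕ}
  {R : MX.Rsl S}

theorem mx_volK [Finite ι] (h : RbK m Y V W B C) (hx : B S x) (hs : Giv s (m.o x))
    (hR : ∀ᶠ k in UF, (V n).pt x k = fc (R k)) (hW : ∀ᶠ k in UF, (W n).pt x k = fc (R k)) (D : ℕ) (c : ℝ) : MX.volK s R D c = C.v D n c := by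
  rw [mx_volK_kvm hs hR hW D c]
  exact (h S x hx).pv D n c

theorem mx_volKO [Finite ι] (h : RbK m Y V W B C) (hx : B S x) (hs : Giv s (m.o x))
    (hR : ∀ᶠ k in UF, (V n).pt x k = fc (R k)) (hW : ∀ᶠ k in UF, (W n).pt x k = fc (R k)) (c : ℝ) : MX.volKO s R c = ⨅ D : ℕ, C.v D n c := by
  unfold MX.volKO
  exact congrArg _ (funext fun D => mx_volK h hx hs hR hW D c)

theorem mx_HK (h : RbK m Y V W B C) (hx : B S x) (hs : Giv s (m.o x))
    (hR : ∀ᶠ k in UF, (V n).pt x k = fc (R k)) (hW : ∀ᶠ k in UF, (W n).pt x k = fc (R k)) (c : ℝ) :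
    MX.HK s R c = C.H n (Sum.inr none) none (1, 0) c := by
  rw [mx_HK_kvh hs hR hW c (pty E m Y (Sum.inr none) none (1, 0)) (pql_pt hs 1)]
  have e1 := (h S x hx).pa n (Sum.inr none) none (1, 0) c
  have e2 := (h S x hx).pb (Sum.inr none) none (1, 0)
  show iv (pty E m Y (Sum.inr none) none (1, 0)) (c0 K) x - kvi m (pty E m Y (Sum.inr none) none (1, 0)) (V n) (W n) c x = _
  rw [e1, e2]
  rfl

theorem mx_H (h : RbK m Y V W B C) (hx : B S x) (hs : Giv s (m.o x)) (r : ℝ) :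
    H (s.Q.dg r) = C.b (Sum.inr none) none (r, 0) := by
  have h1 := (h S x hx).ent0 (Sum.inr none) none (r, 0)
  have e : s.Q.dg r = cl (s.Q.bdd r).toInf := io_eq (s.Q.bdd r)
  have h2 : H (s.Q.dg r) = ul (hxs ((pty E m Y (Sum.inr none) none (r, 0)).pt x)) := by
    rw [e]
    refine ul_congr ?_
    filter_upwards [pql_pt hs r] with k hk
    unfold hxs
    have e1 : (pty E m Y (Sum.inr none) none (r, 0)).pt x k = pcr s.Q r k := hk
    rw [e1]
    have e2 : S.tr k ⊓ (S.F k).Z = (S.F k).Z := top_inf_eq _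
    show (S.F k).e (Setoid.ker (s.Q.cellv r k)) (S.tr k ⊓ (S.F k).Z) / (S.F k).n = _
    rw [e2]
    rfl
  rw [h2]
  exact ul_eq h1

/-- STABLE = the constants at the window `0` -/
theorem mx_Stb [Finite ι] (hI : ImCl B) (h : RbK m Y V W B C) (hx : B S x) (hs : Giv s (m.o x))
    (hR : ∀ᶠ k in UF, (V n).pt x k = fc (R k)) (hW : ∀ᶠ k in UF, (W n).pt x k = fc (R k)) (ε : ℝ) : MX.Stb ε s R ↔ (M : ℝ) - ε ≤ ⨅ D : ℕ, C.v D n 0 := by
  constructor
  · intro h1
    have hG : 0 < ul (S.pr fun _ _ => True) := by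
      have e1 : ul (S.pr fun _ _ => True) = 1 := ul_eq ((Typ_iff _).mp Typ_true)
      rw [e1]
      exact one_pos
    have h2 := h1 S (Pj.id S) (fun _ _ => True) hG
    have h3 : (M : ℝ) - ε ≤ MX.volKO (s.im (Pj.id S) (fun _ _ => True) hG) R 0 := h2
    rwa [mx_volKO h (hI S x hx S (Pj.id S) _ hG) (giv_imo hs (Pj.id S) _ hG)
      (pu_im_pt (V n) (Pj.id S) (fun _ _ => True) hR) (pu_im_pt (W n) (Pj.id S) (fun _ _ => True) hW) 0] at h3
  · intro h1 T p A hA
    show (M : ℝ) - ε ≤ MX.volKO (s.im p A hA) R 0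
    rw [mx_volKO h (hI S x hx T p A hA) (giv_imo hs p A hA) (pu_im_pt (V n) p A hR) (pu_im_pt (W n) p A hW) 0]
    exact h1

/-- DEFICIENT = the constant entropy -/
theorem mx_Dfc (hI : ImCl B) (h : RbK m Y V W B C) (hx : B S x) (hs : Giv s (m.o x)) (b : ℝ) :
    MX.Dfc b s ↔ C.b (Sum.inr none) none (b, 0) < M * b := by
  constructor
  · intro h1
    have hG : 0 < ul (S.pr fun _ _ => True) := by
      have e1 : ul (S.pr fun _ _ => True) = 1 := ul_eq ((Typ_iff _).mp Typ_true)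
      rw [e1]
      exact one_pos
    have h2 := h1 S (Pj.id S) (fun _ _ => True) hG
    rwa [mx_H h (hI S x hx S (Pj.id S) _ hG) (giv_imo hs (Pj.id S) _ hG) b] at h2
  · intro h1 T p A hA
    rw [mx_H h (hI S x hx T p A hA) (giv_imo hs p A hA) b]
    exact h1

/-- UNIT DIRECTIONS OF A TYPE = the constants of the windows -/
theorem mx_Ud (hI : ImCl B) {w : XI M → ι → ℝ × ℝ → ℝ → ℝ} (h : RbW E m B w) (hx : B S x) (hs : Giv s (m.o x))
    (v : ℕ) (i : ι) : MX.Ud v s i ↔ ∀ c c' : ℝ, 0 ≤ c → c ≤ c' → c' ≤ 1 →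
      (v : ℝ) * (c' - c) ≤ w (Sum.inr none) i (c', 0) c := by
  have key : ∀ (T : Sp) (p : Pj T S) (A : ∀ k, (T.F k).Ω → Prop) (hA : 0 < ul (T.pr A)) (c c' : ℝ),
      ul (fun k => Pool.Agent.Helper31.EC.h (fc (Setoid.ker ((s.im p A hA).Q.cellv c' k)))
        (((s.im p A hA).lf i).win c k) / ((Sp.im p A).F k).n) = w (Sum.inr none) i (c', 0) c := by
    intro T p A hA c c'
    rw [← h _ _ (hI S x hx T p A hA) (Sum.inr none) i (c', 0) c]
    exact (hwn_f m (giv_imo hs p A hA) (Sum.inr none) (c', 0) i c (P := pcr (s.im p A hA).Q c')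
      (pql_pt (giv_imo hs p A hA) c')).symm
  constructor
  · intro h1 c c' h2 h3 h4
    have hG : 0 < ul (S.pr fun _ _ => True) := by
      have e1 : ul (S.pr fun _ _ => True) = 1 := ul_eq ((Typ_iff _).mp Typ_true)
      rw [e1]
      exact one_pos
    have h5 := h1 S (Pj.id S) (fun _ _ => True) hG c c' h2 h3 h4
    rwa [key S (Pj.id S) (fun _ _ => True) hG c c'] at h5
  · intro h1 T p A hA c c' h2 h3 h4
    rw [key T p A hA c c']
    exact h1 c c' h2 h3 h4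

end

end

end Pool.Agent.Helper52.GF
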