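import Pool.Agent.Helper52.GF.Mon

/-! ROBUST CLASSES OF SYSTEMS OF LEAVES: in every class of systems which is closed under slow diagonals and restrictions
there is a subclass on which the informations of `kappa_c`, the entropies of the cells of the point over `kappa_c` and the
volumes are constant, for ALL windows `c` and all levels of the cells; `kappa_c` of slow diagonals. -/

set_option autoImplicit false

namespace Pool.Agent.Helper52.GF

open Finset Filter Topology Matrix Pool.Agent.Helper69.RK Pool.Agent.Helper31.EC Pool.Agent.Helper31.EC.Sp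
open Pool.Agent.Helper40.EL Pool.Agent.Helper89.LX Pool.Agent.Helper59.EV Pool.Agent.Helper49.MD
open Pool.Agent.Helper84.MT Pool.Agent.Helper36.AM Pool.Agent.Helper3.LF

noncomputable section

variable {S T : Sp} {M : ℕ} {E : ℕ → ℕ} {ι : Type}

/-! ### finitely many types -/

/-- for finitely many types: given = equal -/
theorem giv_iff [Finite ι] {s : MSys S M E ι} {x : (KM M ι).Ob S} : Giv s x ↔ ∀ᶠ k in UF, ob s k = x k := by
  constructor
  · rintro ⟨h1, h2⟩
    filter_upwards [h1, eventually_all.mpr h2] with k a b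
    have e1 : (fun i => lob (s.lf i) k) = (x k : FMs (S.F k).Ω M ι).lf := funext b
    show (⟨s.Q.v k, fun i => lob (s.lf i) k⟩ : FMs (S.F k).Ω M ι) = x k
    rw [a, e1]
    rfl
  · intro h
    refine ⟨?_, fun i => ?_⟩
    · filter_upwards [h] with k hk
      rw [← hk]
      rfl
    · filter_upwards [h] with k hk
      rw [← hk]
      rfl

theorem isM_isMc [Encodable ι] {x : (KM M ι).Ob S} (h : isM M E ι S x) : isMc M E ι S x := by
  obtain ⟨s, hs⟩ := h
  refine ⟨s, ?_, fun i => ?_⟩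
  · filter_upwards [hs] with k hk
    rw [← hk]
    rfl
  · filter_upwards [hs] with k hk
    rw [← hk]
    rfl

theorem isMc_isM [Finite ι] [Encodable ι] {x : (KM M ι).Ob S} (h : isMc M E ι S x) : isM M E ι S x := by
  obtain ⟨s, hs⟩ := h
  exact ⟨s, giv_iff.mp hs⟩

variable [Encodable ι]

/-! ### the family of partitions -/

/-- indices of the partitions of the point: some coordinates to one level, all to one level, `cel2` -/
abbrev XI (M : ℕ) : Type := Set (Fin M) ⊕ Option (Fin M)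

/-- the partitions of the point -/
def ptx (M : ℕ) (E : ℕ → ℕ) (ι : Type) [Encodable ι] (X : XI M) (p : ℝ × ℝ) : Pt (KM M ι) (isMc M E ι) :=
  match X with
  | Sum.inl J => pqs M E ι (fun j => j ∈ J) p.1
  | Sum.inr none => pql M E ι p.1
  | Sum.inr (some z) => pq2 M E ι z p.1 p.2

theorem ptx_cont {κ : Type} [Encodable κ] {A : Cd (KM M ι) κ} {x : (KM M ι).Ob S} (hx : isMc M E ι S x) (X : XI M) :
    Continuous fun p : ℝ × ℝ => iv (ptx M E ι X p) A x := by
  rcases X with J | X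
  · exact (pqs_cont hx (fun j => j ∈ J)).comp continuous_fst
  · rcases X with _ | z
    · exact (pql_cont hx).comp continuous_fst
    · exact pq2_cont hx z

/-! ### the robust class -/

/-- CONSTANTS of a class: `a n X p c` = information of `kappa` (conditions `(R n, c)`) about the partition `(X, p)`,
`b X p` = entropy of the partition, `v D n c` = volume -/
structure Rbc (C : (KM M ι).Pd) (E : ℕ → ℕ) (R : ℕ → ℝ) where
  le : ∀ S x, C S x → isMc M E ι S x
  a : ℕ → XI M → ℝ × ℝ → ℝ → ℝ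
  b : XI M → ℝ × ℝ → ℝ
  v : ℕ → ℕ → ℝ → ℝ
  pa : ∀ S x, C S x → ∀ n X p c, iv (ptx M E ι X p) (cdm M ι (R n) c) x = a n X p c
  pb : ∀ S x, C S x → ∀ X p, iv (ptx M E ι X p) (c0 (KM M ι)) x = b X p
  pv : ∀ S x, C S x → ∀ D n c, vlm M E ι D (R n) c x = v D n c

def Rbc.sub {C C' : (KM M ι).Pd} {R : ℕ → ℝ} (h : Rbc C E R) (hC : ∀ S x, C' S x → C S x) : Rbc C' E R :=
  ⟨fun S x hx => h.le S x (hC S x hx), h.a, h.b, h.v, fun S x hx => h.pa S x (hC S x hx),
    fun S x hx => h.pb S x (hC S x hx), fun S x hx => h.pv S x (hC S x hx)⟩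

/-- EXISTENCE OF ROBUST SUBCLASSES -/
theorem exists_robust {C : (KM M ι).Pd} (hC : Cls C) (hM : ∀ S x, C S x → isMc M E ι S x) (R : ℕ → ℝ) :
    ∃ C' : (KM M ι).Pd, Cls C' ∧ (∀ S x, C' S x → C S x) ∧ Nonempty (Rbc C' E R) := by
  -- informations and entropies
  obtain ⟨w, h1⟩ := stage_mono_cont hC hM (ι := Option ℕ × XI M) (P := ℝ × ℝ)
    (fun i p c => match i.1 with
      | none => hxm (ptx M E ι i.2 p)
      | some n => ivm (ptx M E ι i.2 p) (R n) c)
    (by
      rintro ⟨i, X⟩ p S x hx c c' hc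
      rcases i with _ | n
      · exact le_rfl
      · exact ivm_mono (ptx M E ι X p) le_rfl hc hx)
    (by
      rintro ⟨i, X⟩ c S x hx
      rcases i with _ | n
      · exact ptx_cont hx X
      · exact ptx_cont hx X)
  -- volumes
  obtain ⟨v, h2⟩ := stage_mono h1 (fun S x hx => hM S x hx.1) (ι := ℕ × ℕ) (fun i c => gvM M E ι i.1 (R i.2) c)
    (fun i S x hx c c' hc => gvM_mono i.1 le_rfl hc hx)
  refine ⟨_, h2, fun S x hx => hx.1.1, ⟨⟨fun S x hx => hM S x hx.1.1, fun n X p c => w (some n, X) p c,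
    fun X p => w (none, X) p 0, fun D n c => M - v (D, n) c, fun S x hx n X p c => hx.1.2 (some n, X) p c,
    fun S x hx X p => hx.1.2 (none, X) p 0, fun S x hx D n c => ?_⟩⟩⟩
  rw [vlm_eq]
  rw [hx.2 (D, n) c]

namespace Rbc

variable {C : (KM M ι).Pd} {R : ℕ → ℝ} (h : Rbc C E R)

/-- the constants of the entropies over `kappa` -/
def H (n : ℕ) (X : XI M) (p : ℝ × ℝ) (c : ℝ) : ℝ := h.b X p - h.a n X p c

/-- THE INFORMATION of the maximal label of the conditions `(R n, c)` -/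
theorem info {s : MSys S M E ι} {x : (KM M ι).Ob S} (hs : Giv s x) (hx : C S x) {n : ℕ} {c : ℝ} {l : Lab S}
    (hl : l.IsMaxf (scn s (R n) c)) : l.info = h.a n (Sum.inr none) (R n, 0) c :=
  (scn_info hs hl).trans (h.pa S x hx n (Sum.inr none) (R n, 0) c)

/-- ENTROPY of the cells of the point over the maximal label -/
theorem ent {s : MSys S M E ι} {x : (KM M ι).Ob S} (hs : Giv s x) (hx : C S x) {n : ℕ} {c : ℝ} {l : Lab S}
    (hl : l.IsMaxf (scn s (R n) c)) (X : XI M) (p : ℝ × ℝ) {A : Part S}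
    (hA : ∀ᶠ k in UF, (ptx M E ι X p).pt x k = A k) :
    Tendsto (fun k => Pool.Agent.Helper31.EC.h ((l k).p.map (A k)) (l k).v / (S.F k).n) UF (𝓝 (h.H n X p c)) := by
  have h1 := scn_h (ptx M E ι X p) hs hl hA
  have e : hv (ptx M E ι X p) (cdm M ι (R n) c) x = h.H n X p c := by
    unfold hv Rbc.H
    rw [h.pa S x hx, h.pb S x hx]
  rw [e] at h1
  exact h1

/-- `h(cel2 | kappa)` -/
theorem cel2 {s : MSys S M E ι} {x : (KM M ι).Ob S} (hs : Giv s x) (hx : C S x) {n : ℕ} {c : ℝ} {l : Lab S}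
    (hl : l.IsMaxf (scn s (R n) c)) (z : Fin M) (a b : ℝ) :
    Tendsto (fun k => Pool.Agent.Helper31.EC.h ((l k).p.map (Pool.Agent.Helper36.AM.cel2 s.Q z a b k)) (l k).v /
      (S.F k).n) UF (𝓝 (h.H n (Sum.inr (some z)) (a, b) c)) :=
  h.ent hs hx hl (Sum.inr (some z)) (a, b) (pq2_pt hs z a b)

/-- `h(cell of level r | kappa)` -/
theorem cell {s : MSys S M E ι} {x : (KM M ι).Ob S} (hs : Giv s x) (hx : C S x) {n : ℕ} {c : ℝ} {l : Lab S}
    (hl : l.IsMaxf (scn s (R n) c)) (r : ℝ) :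
    Tendsto (fun k => Pool.Agent.Helper31.EC.h ((l k).p.map (pcr s.Q r k)) (l k).v /
      (S.F k).n) UF (𝓝 (h.H n (Sum.inr none) (r, 0) c)) :=
  h.ent hs hx hl (Sum.inr none) (r, 0) (pql_pt hs r)

/-- `h(some coordinates to the level r | kappa)` -/
theorem sub_cell {s : MSys S M E ι} {x : (KM M ι).Ob S} (hs : Giv s x) (hx : C S x) {n : ℕ} {c : ℝ} {l : Lab S}
    (hl : l.IsMaxf (scn s (R n) c)) (J : Set (Fin M)) (r : ℝ) :
    Tendsto (fun k => Pool.Agent.Helper31.EC.h ((l k).p.map (fc (Setoid.ker fun ω (j : {j // j ∈ J}) =>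
      s.Q.cellv r k ω j.1))) (l k).v / (S.F k).n) UF (𝓝 (h.H n (Sum.inl J) (r, 0) c)) :=
  h.ent hs hx hl (Sum.inl J) (r, 0) (A := fun k => fc (Setoid.ker fun ω (j : {j // j ∈ J}) =>
      s.Q.cellv r k ω j.1)) (pqs_pt hs (fun j => j ∈ J) r)

/-- entropies without labels -/
theorem ent0 {x : (KM M ι).Ob S} (hx : C S x) (X : XI M) (p : ℝ × ℝ) :
    Tendsto (hxs ((ptx M E ι X p).pt x)) UF (𝓝 (h.b X p)) := by
  rw [← h.pb S x hx X p]
  exact hxs_tendsto (ptx M E ι X p) (h.le S x hx)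

/-- the entropy of the point over `kappa_c` -/
theorem HQ {s : MSys S M E ι} {x : (KM M ι).Ob S} (hs : Giv s x) (hx : C S x) {n : ℕ} (hn : R n = 1) (c : ℝ) :
    Pool.Agent.Helper36.AM.HQ s c = h.H n (Sum.inr none) (1, 0) c := by
  rw [HQ_hv hs c]
  have e1 : iv (pql M E ι 1) (c0 (KM M ι)) x = h.b (Sum.inr none) (1, 0) := h.pb S x hx (Sum.inr none) (1, 0)
  have e2 : iv (pql M E ι 1) (cdm M ι (R n) c) x = h.a n (Sum.inr none) (1, 0) c :=
    h.pa S x hx n (Sum.inr none) (1, 0) c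
  rw [hn] at e2
  unfold hv Rbc.H
  rw [e1, e2]

/-- the volume -/
theorem vol [Finite ι] {s : MSys S M E ι} {x : (KM M ι).Ob S} (hs : Giv s x) (hx : C S x) {n : ℕ} (hn : R n = 1)
    (D : ℕ) (c : ℝ) : s.vol D c = h.v D n c := by
  rw [vol_vlm hs D c, ← h.pv S x hx D n c, hn]

theorem volO [Finite ι] {s : MSys S M E ι} {x : (KM M ι).Ob S} (hs : Giv s x) (hx : C S x) {n : ℕ} (hn : R n = 1)
    (c : ℝ) : Pool.Agent.Helper36.AM.volO s c = ⨅ D : ℕ, h.v D n c := by
  unfold Pool.Agent.Helper36.AM.volO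
  exact congrArg iInf (funext fun D => h.vol hs hx hn D c)

end Rbc

/-! ### `kappa` of slow diagonals -/

/-- THE DIAGONAL OF MAXIMAL LABELS IS MAXIMAL in a class with constant informations -/
theorem kap_dg {C : (KM M ι).Pd} {R : ℕ → ℝ} (h : Rbc C E R) (hC : DiagCl C) {S : ℕ → Sp}
    {x : ∀ j, (KM M ι).Ob (S j)} (hx : ∀ j, C (S j) (x j)) {s : ∀ j, MSys (S j) M E ι} (hs : ∀ j, Giv (s j) (x j))
    (n : ℕ) (c : ℝ) {l : ∀ j, Lab (S j)} (hl : ∀ j, (l j).IsMaxf (scn (s j) (R n) c)) :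
    ∃ Q : ℕ → ℕ → ℕ → Prop, (∀ i j, ∀ᶠ k in UF, Q i j k) ∧ ∀ (J : ℕ → ℕ) (hJ : Slo S Q J)
      (t : MSys (dsp S J hJ.lim) M E ι), Giv t ((KM M ι).dgo S x J hJ.lim) →
        (dlab l J hJ.lim).IsMaxf (scn t (R n) c) := by
  obtain ⟨Q1, hQ1, h1⟩ := hC S x hx
  -- conditions: leaks of the used conditions and the information
  refine ⟨fun i j k => Q1 i j k ∧ ((∀ a : Option ι, Encodable.encode a ≤ i → (l j k).leak ((cdm M ι (R n) c).cf (x j) a k)
      / ((S j).F k).n ≤ 1 / ((j : ℝ) + 1)) ∧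
      |(l j k).info / ((S j).F k).n - h.a n (Sum.inr none) (R n, 0) c| ≤ 1 / ((j : ℝ) + 1)), fun i j => ?_, ?_⟩
  · have hp : (0 : ℝ) < 1 / ((j : ℝ) + 1) := by positivity
    have hd : (l j).DMf ((cdm M ι (R n) c).cf (x j)) := (cdm_DMf (hs j) (R n) c (l j)).mpr (hl j).1
    have h2 : {a : Option ι | Encodable.encode a ≤ i}.Finite :=
      ((Set.finite_Iic i).preimage (Encodable.encode_injective.injOn)).subset fun a ha => ha
    have h3 := (Filter.eventually_all_finite h2).mpr fun a (_ : a ∈ {a : Option ι | Encodable.encode a ≤ i}) =>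
      (show Tendsto _ _ _ from hd a).eventually (gt_mem_nhds hp)
    have h4 : Tendsto (fun k => (l j k).info / ((S j).F k).n) UF (𝓝 (h.a n (Sum.inr none) (R n, 0) c)) := by
      have h5 := ul_tendsto ((hl j).1.ub (i := none) (pcr_Bd (s j).Q (R n)))
      have h6 : (l j).info = h.a n (Sum.inr none) (R n, 0) c := h.info (hs j) (hx j) (hl j)
      rw [← h6]
      exact h5
    filter_upwards [hQ1 i j, h3, Metric.tendsto_nhds.mp h4 _ hp] with k a b d
    refine ⟨a, fun q hq => (b q hq).le, ?_⟩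
    rw [← Real.dist_eq]
    exact d.le
  · intro J hJ t ht
    have hmem := h1 J hJ.left
    have hinv := inv_tendsto hJ.tend
    -- no leaks
    have hd : (dlab l J hJ.lim).DMf ((cdm M ι (R n) c).cf ((KM M ι).dgo S x J hJ.lim)) := by
      intro a
      refine tendsto_of_tendsto_of_tendsto_of_le_of_le' tendsto_const_nhds hinv
        (Eventually.of_forall fun k => div_nonneg (FLab.leak_nonneg _ _) ((dsp S J hJ.lim).F k).pos.le) ?_
      filter_upwards [hJ.right.slow (Encodable.encode a)] with k hk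
      exact hk.1 a le_rfl
    have hd' := (cdm_DMf ht (R n) c (dlab l J hJ.lim)).mp hd
    refine ⟨hd', fun l' hl' => ?_⟩
    -- the information
    have h5 : Tendsto (fun k => (dlab l J hJ.lim k).info / ((dsp S J hJ.lim).F k).n) UF
        (𝓝 (h.a n (Sum.inr none) (R n, 0) c)) := by
      rw [Metric.tendsto_nhds]
      intro e he
      filter_upwards [hJ.right.slow 0, hinv.eventually (gt_mem_nhds he)] with k hk hk'
      rw [Real.dist_eq]
      exact hk.2.trans_lt hk'
    have h6 : (dlab l J hJ.lim).info = h.a n (Sum.inr none) (R n, 0) c := ul_eq h5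
    rw [h6]
    obtain ⟨m, hm⟩ := Lab.exists_maxf (scn t (R n) c) (i₀ := none) (pcr_Bd t.Q (R n))
    exact (hm.2 l' hl').trans (h.info ht hmem hm).le

end

end Pool.Agent.Helper52.GF
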