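import Pool.Agent.Helper52.GF.Kp
import Pool.Agent.Helper52.GF.Rob

/-! OBJECTS WITH ATTACHED PARTITIONS. Images of classes under morphisms of kinds are classes; functionals of objects
with attached data, which do not depend on the choice of the data, are functionals of the objects. -/

set_option autoImplicit false

namespace Pool.Agent.Helper52.GF

open Finset Filter Topology Matrix Pool.Agent.Helper69.RK Pool.Agent.Helper31.EC Pool.Agent.Helper31.EC.Sp
open Pool.Agent.Helper40.EL Pool.Agent.Helper89.LX Pool.Agent.Helper59.EV Pool.Agent.Helper49.MD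
open Pool.Agent.Helper95.LF (PdM)

noncomputable section

variable {K K' : FK}

/-! ### images of classes -/

/-- THE IMAGE OF A CLASS -/
def Km.img (m : Km K K') (C : K.Pd) : K'.Pd := fun S x => ∃ x' : K.Ob S, C S x' ∧ ∀ᶠ k in UF, m.o x' k = x k

namespace Km

variable (m : Km K K') {C : K.Pd}

theorem img_mk {S : Sp} {x : K.Ob S} (hx : C S x) : m.img C S (m.o x) := ⟨x, hx, Eventually.of_forall fun _ => rfl⟩

theorem img_mono {C' : K.Pd} (h : ∀ S x, C S x → C' S x) {S : Sp} {x : K'.Ob S} (hx : m.img C S x) : m.img C' S x := by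
  obtain ⟨x', h1, h2⟩ := hx
  exact ⟨x', h _ _ h1, h2⟩

theorem img_sub {B' : K'.Pd} (hB : Inv B') (h : ∀ S x, C S x → B' S (m.o x)) {S : Sp} {x : K'.Ob S}
    (hx : m.img C S x) : B' S x := by
  obtain ⟨x', h1, h2⟩ := hx
  exact hB S _ _ h2 (h S x' h1)

theorem img_to {D : ℕ → K.Pd} {D' : K.Pd} (h : DiagTo D D') : DiagTo (fun j => m.img (D j)) (m.img D') := by
  intro S x hx
  choose x' h1 h2 using hx
  obtain ⟨E, hE, h3⟩ := h S x' h1
  refine ⟨fun i j k => E i j k ∧ m.o (x' j) k = x j k, fun i j => (hE i j).and (h2 j), fun J hJ => ?_⟩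
  refine ⟨K.dgo S x' J hJ.lim, h3 J hJ.left, ?_⟩
  filter_upwards [hJ.right.slow 0] with k hk
  exact hk

theorem img_dg (h : DiagCl C) : DiagCl (m.img C) := m.img_to h

theorem img_im (h : ImCl C) : ImCl (m.img C) := by
  rintro S x ⟨x', h1, h2⟩ T p E hE
  refine ⟨K.imo x' p E, h S x' h1 T p E hE, ?_⟩
  rw [m.o_imo]
  filter_upwards [h2] with k hk
  show K'.im (p.fp k) (E k) (m.o x' k) = K'.im (p.fp k) (E k) (x k)
  rw [hk]

theorem img_inv : Pool.Agent.Helper49.MD.Inv (m.img C) := by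
  rintro S x y e ⟨x', h1, h2⟩
  refine ⟨x', h1, ?_⟩
  filter_upwards [e, h2] with k a b
  rw [← a, b]

/-- THE IMAGE OF A CLASS IS A CLASS -/
theorem img_cls (h : Cls C) : Cls (m.img C) where
  dg := m.img_dg h.dg
  im := m.img_im h.im
  ev := m.img_inv
  ne := by
    obtain ⟨S, x, hx⟩ := h.ne
    exact ⟨S, m.o x, m.img_mk hx⟩

end Km

/-! ### functionals which do not depend on the choice of the data -/

section desc

variable (m : Km K K') {C : K.Pd} (Φ : Fnl C)

/-- the functional does not depend on the choice -/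
def Idp (m : Km K K') {C : K.Pd} (Φ : Fnl C) : Prop :=
  ∀ (S : Sp) (x y : K.Ob S), C S x → C S y → (∀ᶠ k in UF, m.o x k = m.o y k) → Φ.f S x = Φ.f S y

open Classical in
/-- the value at an object of the image -/
def dfv {S : Sp} (x : K'.Ob S) : ℝ := if h : m.img C S x then Φ.f S h.choose else 0

variable {m Φ}

theorem dfv_eq (hu : Idp m Φ) {S : Sp} {x : K'.Ob S} {x' : K.Ob S} (h1 : C S x')
    (h2 : ∀ᶠ k in UF, m.o x' k = x k) : dfv m Φ x = Φ.f S x' := by
  have h : m.img C S x := ⟨x', h1, h2⟩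
  unfold dfv
  rw [dif_pos h]
  refine hu S _ _ h.choose_spec.1 h1 ?_
  filter_upwards [h.choose_spec.2, h2] with k a b
  rw [a, b]

/-- THE FUNCTIONAL OF THE IMAGE -/
def dfF (hu : Idp m Φ) (hd : DiagCl C) (hi : ImCl C) : Fnl (m.img C) where
  f := fun _ x => dfv m Φ x
  M := Φ.M
  nn := by
    rintro S x ⟨x', h1, h2⟩
    rw [dfv_eq hu h1 h2]
    exact Φ.nn S x' h1
  le := by
    rintro S x ⟨x', h1, h2⟩
    rw [dfv_eq hu h1 h2]
    exact Φ.le S x' h1
  ev := by
    rintro S x y ⟨x', h1, h2⟩ e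
    rw [dfv_eq hu h1 h2]
    refine dfv_eq hu h1 ?_
    filter_upwards [e, h2] with k a b
    rw [b, a]
  usc := by
    intro S x hx
    choose x' h1 h2 using hx
    obtain ⟨E, hE, h3⟩ := hd S x' h1
    obtain ⟨E', hE', h4⟩ := Φ.usc S x' h1
    refine ⟨fun i j k => E i j k ∧ E' i j k ∧ m.o (x' j) k = x j k, fun i j => (hE i j).and ((hE' i j).and (h2 j)),
      fun J hJ => ?_⟩
    have h5 : dfv m Φ (K'.dgo S x J hJ.lim) = Φ.f _ (K.dgo S x' J hJ.lim) := by
      refine dfv_eq hu (h3 J hJ.left) ?_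
      filter_upwards [hJ.right.right.slow 0] with k hk
      exact hk
    show ul (fun k => dfv m Φ (x (J k))) ≤ dfv m Φ (K'.dgo S x J hJ.lim)
    rw [h5]
    refine le_trans (le_of_eq ?_) (h4 J hJ.right.left)
    exact congrArg _ (funext fun k => dfv_eq hu (h1 (J k)) (h2 (J k)))
  spl := by
    rintro S x ⟨x', h1, h2⟩ T p E hE hE'
    have e1 : dfv m Φ (K'.imo x p E) = Φ.f _ (K.imo x' p E) := by
      refine dfv_eq hu (hi S x' h1 T p E hE) ?_
      rw [m.o_imo]
      filter_upwards [h2] with k hk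
      show K'.im (p.fp k) (E k) (m.o x' k) = K'.im (p.fp k) (E k) (x k)
      rw [hk]
    have e2 : dfv m Φ (K'.imo x p fun k ω => ¬ E k ω) = Φ.f _ (K.imo x' p fun k ω => ¬ E k ω) := by
      refine dfv_eq hu (hi S x' h1 T p _ hE') ?_
      rw [m.o_imo]
      filter_upwards [h2] with k hk
      show K'.im (p.fp k) (fun ω => ¬ E k ω) (m.o x' k) = K'.im (p.fp k) (fun ω => ¬ E k ω) (x k)
      rw [hk]
    rw [dfv_eq hu h1 h2, e1, e2]
    exact Φ.spl S x' h1 T p E hE hE'
  typ := by
    rintro S x ⟨x', h1, h2⟩ T p E ht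
    have h0 : 0 < ul (T.pr E) := by
      have e1 : ul (T.pr E) = 1 := ul_eq ((Typ_iff E).mp ht)
      rw [e1]
      exact one_pos
    have e1 : dfv m Φ (K'.imo x p E) = Φ.f _ (K.imo x' p E) := by
      refine dfv_eq hu (hi S x' h1 T p E h0) ?_
      rw [m.o_imo]
      filter_upwards [h2] with k hk
      show K'.im (p.fp k) (E k) (m.o x' k) = K'.im (p.fp k) (E k) (x k)
      rw [hk]
    rw [dfv_eq hu h1 h2, e1]
    exact Φ.typ S x' h1 T p E ht

end desc

/-! ### attached partitions -/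

variable {σ : Type}

/-- THE KIND of objects with attached partitions -/
def KX (K : FK) (σ : Type) : FK where
  X := fun F => K.X F × (σ → Setoid F.Ω)
  im := fun p E x => (K.im p E x.1, x.2)

/-- forget the partitions -/
def kxo (K : FK) (σ : Type) : Km (KX K σ) K where
  f := fun _ x => Prod.fst x
  im := fun _ _ _ _ _ => rfl

/-- the attached partitions -/
def kxp (K : FK) {σ : Type} (j : σ) : Pu (KX K σ) where
  X := fun F (x : K.X F × (σ → Setoid F.Ω)) => x.2 j
  im := fun _ _ _ _ _ => rfl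

/-- the object with attached partitions -/
def obX {S : Sp} (x : K.Ob S) (X : σ → ∀ k, Setoid (S.F k).Ω) : (KX K σ).Ob S := fun k =>
  ((x k, fun j => X j k) : K.X (S.F k) × (σ → Setoid (S.F k).Ω))

/-- the partitions of an object -/
@[instance_reducible] def obY {S : Sp} (x : (KX K σ).Ob S) (j : σ) : ∀ k, Setoid (S.F k).Ω := fun k =>
  (x k : K.X (S.F k) × (σ → Setoid (S.F k).Ω)).2 j

theorem kxo_obX {S : Sp} (x : K.Ob S) (X : σ → ∀ k, Setoid (S.F k).Ω) : (kxo K σ).o (obX x X) = x := rfl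

theorem kxp_obX {S : Sp} (x : K.Ob S) (X : σ → ∀ k, Setoid (S.F k).Ω) (j : σ) :
    (kxp K j).pt (obX x X) = fun k => fc (X j k) := rfl

theorem kxp_pt {S : Sp} (x : (KX K σ).Ob S) (j : σ) : (kxp K j).pt x = fun k => fc (obY x j k) := rfl

/-- a relation between objects and partitions, as a class -/
def relX (G : ∀ S : Sp, K.Ob S → (σ → ∀ k, Setoid (S.F k).Ω) → Prop) : (KX K σ).Pd := fun S x =>
  G S ((kxo K σ).o x) (obY x)

theorem relX_obX {G : ∀ S : Sp, K.Ob S → (σ → ∀ k, Setoid (S.F k).Ω) → Prop} {S : Sp} {x : K.Ob S}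
    {X : σ → ∀ k, Setoid (S.F k).Ω} : relX G S (obX x X) ↔ G S x X := Iff.rfl

/-- the attached partitions have at most `2 ^ (c n)` cells in every base cell -/
def bdX (K : FK) (σ : Type) (c : ℝ) : (KX K σ).Pd := fun S x => ∀ j : σ, ∀ᶠ k in UF, ∀ ω, (S.F k).μ ω ≠ 0 →
  (nv (S.F k) (obY x j k) ω : ℝ) ≤ 2 ^ (c * (S.F k).n)

/-- attached partitions with a bound -/
def kxt (K : FK) {σ : Type} (c : ℝ) (h0 : 0 ≤ c) (j : σ) : Pt (KX K σ) (bdX K σ c) where
  X := fun F (x : K.X F × (σ → Setoid F.Ω)) => x.2 j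
  im := fun _ _ _ _ _ => rfl
  C := c
  C0 := h0
  vb := fun _ _ hx => hx j

/-! ### the same information up to `o(n)` -/

/-- the same information up to `o(n)` -/
def Eqn {S : Sp} (x y : Part S) : Prop := Nul S (fun k => h (x k) (y k)) ∧ Nul S (fun k => h (y k) (x k))

theorem Eqn.symm {S : Sp} {x y : Part S} (h : Eqn x y) : Eqn y x := ⟨h.2, h.1⟩

theorem Eqn.refl {S : Sp} (x : Part S) : Eqn x x := by
  have h1 : Nul S (fun k => h (x k) (x k)) := by
    have e : (fun k => h (x k) (x k)) = fun _ => 0 := by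
      funext k
      exact Pool.Agent.Helper31.EC.h_self _
    rw [e]
    exact Nul_zero S
  exact ⟨h1, h1⟩

theorem Nul.h_tri {S : Sp} {x y z : Part S} (h1 : Nul S (fun k => h (x k) (y k)))
    (h2 : Nul S (fun k => h (y k) (z k))) : Nul S (fun k => h (x k) (z k)) := by
  refine (h1.add h2).of_le (Eventually.of_forall fun k => h_nonneg _ _) (Eventually.of_forall fun k => ?_)
  exact Pool.Agent.Helper31.EC.h_triangle' _ _ _

theorem Eqn.trans {S : Sp} {x y z : Part S} (h : Eqn x y) (h' : Eqn y z) : Eqn x z :=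
  ⟨Nul.h_tri h.1 h'.1, Nul.h_tri h'.2 h.2⟩

/-- partitions which are equal almost surely -/
theorem Eqn.of_ev {S : Sp} {x y : Part S} (e : ∀ᶠ k in UF, x k = y k) : Eqn x y := by
  have h1 : Nul S (fun k => h (x k) (y k)) := by
    refine tendsto_const_nhds.congr' ?_
    filter_upwards [e] with k hk
    show 0 = h (x k) (y k) / _
    rw [hk, Pool.Agent.Helper31.EC.h_self, zero_div]
  have h2 : Nul S (fun k => h (y k) (x k)) := by
    refine tendsto_const_nhds.congr' ?_
    filter_upwards [e] with k hk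
    show 0 = h (y k) (x k) / _
    rw [hk, Pool.Agent.Helper31.EC.h_self, zero_div]
  exact ⟨h1, h2⟩

theorem Eqn.h_null {S : Sp} {x x' w w' : Part S} (hx : Eqn x x') (hw : Eqn w w') :
    Tendsto (fun k => h (x k) (w k) / (S.F k).n - h (x' k) (w' k) / (S.F k).n) UF (𝓝 0) := by
  have t : Tendsto (fun k => (h (x k) (x' k) + h (x' k) (x k) + (h (w k) (w' k) + h (w' k) (w k))) / (S.F k).n) UF
      (𝓝 0) := (hx.1.add hx.2).add (hw.1.add hw.2)
  refine squeeze_zero_norm' ?_ t
  filter_upwards with k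
  have hn := (S.F k).pos
  have a1 := Pool.Agent.Helper31.EC.h_triangle' (x k) (x' k) (w k)
  have a2 := Pool.Agent.Helper31.EC.h_triangle' (x' k) (w' k) (w k)
  have b1 := Pool.Agent.Helper31.EC.h_triangle' (x' k) (x k) (w' k)
  have b2 := Pool.Agent.Helper31.EC.h_triangle' (x k) (w k) (w' k)
  have c1 := h_nonneg (x k) (x' k)
  have c2 := h_nonneg (x' k) (x k)
  have c3 := h_nonneg (w k) (w' k)
  have c4 := h_nonneg (w' k) (w k)
  rw [Real.norm_eq_abs, ← sub_div, abs_div, abs_of_pos hn]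
  refine div_le_div_of_nonneg_right ?_ hn.le
  rw [abs_le]
  constructor <;> linarith

/-- entropies of partitions with the same information -/
theorem Eqn.ul_h {S : Sp} {x x' w w' : Part S} (hx : Eqn x x') (hw : Eqn w w')
    (hU : Pool.Agent.Helper31.EC.UB (fun k => h (x' k) (w' k) / (S.F k).n)) :
    ul (fun k => h (x k) (w k) / (S.F k).n) = ul (fun k => h (x' k) (w' k) / (S.F k).n) := by
  have t := (hx.h_null hw).add (ul_tendsto hU)
  rw [zero_add] at t
  exact ul_eq (t.congr fun k => by ring)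

end

end Pool.Agent.Helper52.GF
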