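import Pool.Agent.Helper52.GF.Mxb
import Pool.Agent.Helper52.GF.Att
import Pool.Agent.Helper18.PRM.Crd

/-! THE PREFIX VOLUMES OF `Helper29.MX` (`volP`, coordinates `scrd` of helper18) ARE CONSTANTS OF ROBUST CLASSES. -/

set_option autoImplicit false

namespace Pool.Agent.Helper52.GF

open Finset Filter Topology Matrix Pool.Agent.Helper69.RK Pool.Agent.Helper31.EC Pool.Agent.Helper31.EC.Sp
open Pool.Agent.Helper40.EL Pool.Agent.Helper89.LX Pool.Agent.Helper59.EV Pool.Agent.Helper49.MD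
open Pool.Agent.Helper84.MT Pool.Agent.Helper3.LF Pool.Agent.Helper36.AM
open Pool.Agent.Helper29
open Pool.Agent.Helper18.PRM (vcrd scrd)
open Pool.Agent.Helper87.NSL (cndR)

noncomputable section

variable {S T : Sp} {M N : ℕ} {E : ℕ → ℕ} {ι : Type}

/-- the object of the coordinates `σ` is an object of `scrd σ s` -/
theorem giv_scrd {s : MSys S M E ι} {x : (KM M ι).Ob S} (h : Giv s x) (σ : Fin N → Fin M) :
    Giv (scrd σ s) ((cooM ι σ).o x) := by
  constructor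
  · filter_upwards [h.1] with k hk
    show (fun ω j => s.Q.v k ω (σ j)) =
      fun ω j => MvPolynomial.eval ((x k : FMs (S.F k).Ω M ι).Q ω) (MvPolynomial.X (σ j))
    funext ω j
    rw [MvPolynomial.eval_X, hk]
  · intro i
    filter_upwards [h.2 i] with k hk
    show (⟨(lob (s.lf i) k).e, (lob (s.lf i) k).La, (lob (s.lf i) k).Y, fun ω y j =>
      (lob (s.lf i) k).F ω y (σ j), fun ω D => (lob (s.lf i) k).al ω D⟩ : FLf (S.F k).Ω N) =
      ⟨((x k : FMs (S.F k).Ω M ι).lf i).e, ((x k : FMs (S.F k).Ω M ι).lf i).La,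
        ((x k : FMs (S.F k).Ω M ι).lf i).Y, fun ω y j =>
      MvPolynomial.eval (((x k : FMs (S.F k).Ω M ι).lf i).F ω y) (MvPolynomial.X (σ j)), fun ω D =>
        ((x k : FMs (S.F k).Ω M ι).lf i).al ω (1 * D)⟩
    rw [hk]
    simp only [MvPolynomial.eval_X, one_mul]

theorem cndR_scrd (σ : Fin N → Fin M) (s : MSys S M E ι) (R : MX.Rsl S) (c : ℝ) :
    cndR (scrd σ s) R c = cndR s R c := by
  funext i
  rcases i with _ | i <;> rfl

/-- the prefix volumes are the volumes of the systems of the coordinates -/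
theorem volP_eq [Finite ι] (s : MSys S M E ι) (R : MX.Rsl S) (c : ℝ) {j : ℕ} (hj : j ≤ M) :
    MX.volP s R c hj = MX.volKO (scrd (Fin.castLE hj) s) R c := by
  rw [MX.volKO_eq, cndR_scrd]
  rfl

variable {K : FK} {m : Km K (KM M ι)} [Encodable ι]

section
variable {V W : ℕ → Pu K} {C : KD M} {B : K.Pd} {x : K.Ob S} {s : MSys S M E ι} {n : ℕ} {R : MX.Rsl S}

/-- THE VOLUMES IN THE COORDINATES `σ` -/
theorem mx_volK_crd [Finite ι] (h : RbJ E m V W B C) (hx : B S x) (hs : Giv s (m.o x))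
    (hR : ∀ᶠ k in UF, (V n).pt x k = fc (R k)) (hW : ∀ᶠ k in UF, (W n).pt x k = fc (R k)) (σ : Fin N → Fin M) (D : ℕ)
    (c : ℝ) : MX.volK (scrd σ s) R D c = C.v ⟨N, σ⟩ D n c := by
  have h1 : MX.volK (scrd σ s) R D c = kvm E ((cooM ι σ).cm m) D (V n) (W n) c x :=
    mx_volK_kvm (m := (cooM ι σ).cm m) (giv_scrd hs σ) hR hW D c
  rw [h1]
  exact (h S x hx ⟨N, σ⟩ D n c).1

theorem mx_volKO_crd [Finite ι] (h : RbJ E m V W B C) (hx : B S x) (hs : Giv s (m.o x))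
    (hR : ∀ᶠ k in UF, (V n).pt x k = fc (R k)) (hW : ∀ᶠ k in UF, (W n).pt x k = fc (R k)) (σ : Fin N → Fin M)
    (c : ℝ) : MX.volKO (scrd σ s) R c = ⨅ D : ℕ, C.v ⟨N, σ⟩ D n c := by
  unfold MX.volKO
  exact congrArg _ (funext fun D => mx_volK_crd h hx hs hR hW σ D c)

/-- THE PREFIX VOLUMES -/
theorem mx_volP [Finite ι] (h : RbJ E m V W B C) (hx : B S x) (hs : Giv s (m.o x))
    (hR : ∀ᶠ k in UF, (V n).pt x k = fc (R k)) (hW : ∀ᶠ k in UF, (W n).pt x k = fc (R k)) {j : ℕ} (hj : j ≤ M)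
    (c : ℝ) : MX.volP s R c hj = ⨅ D : ℕ, C.v ⟨j, Fin.castLE hj⟩ D n c := by
  rw [volP_eq]
  exact mx_volKO_crd h hx hs hR hW (Fin.castLE hj) c

end

/-! ### the finest resolution -/

/-- THE FINEST PARTITION: type-labels -/
def Pu.bo (K : FK) : Pu K where
  X := fun _ _ => ⊥
  im := fun _ _ _ _ _ => rfl

theorem bo_pt {x : K.Ob S} : ∀ᶠ k in UF, (Pu.bo K).pt x k = fc (MX.rbot S k) := Eventually.of_forall fun _ => rfl

end

end Pool.Agent.Helper52.GF
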