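import Pool.Agent.Helper52.GF.Cmp

/-! FUNCTIONALS of objects of a kind: direct values (functions of the finite data which are additive over events up to
O(1) bits), they are continuous along slow diagonals; entropies and informations of partitions attached to the data. -/

set_option autoImplicit false

namespace Pool.Agent.Helper52.GF

open Finset Filter Topology Matrix Pool.Agent.Helper69.RK Pool.Agent.Helper31.EC Pool.Agent.Helper31.EC.Sp
open Pool.Agent.Helper40.EL Pool.Agent.Helper89.LX Pool.Agent.Helper59.EV Pool.Agent.Helper49.MD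
open Pool.Agent.Helper52.KP (glue)
open Pool.Agent.Helper95.LF (PdM)

noncomputable section

variable {K : FK} {B : K.Pd}

/-! ### splitting of entropies over events of extensions -/

section
variable {F T : FSp} (p : FPj T F) (E : T.Ω → Prop)

theorem h_im_split (x y : FL F) :
    T.pb E * h (FSp.imap p E x) (FSp.imap p E y) +
      (1 - T.pb E) * h (FSp.imap p (fun ω => ¬ E ω) x) (FSp.imap p (fun ω => ¬ E ω) y) ≤ h x y ∧
    h x y ≤ T.pb E * h (FSp.imap p E x) (FSp.imap p E y) +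
      (1 - T.pb E) * h (FSp.imap p (fun ω => ¬ E ω) x) (FSp.imap p (fun ω => ¬ E ω) y) + 1 := by
  have h1 := T.h_rsplit E (p.map x) (p.map y)
  rw [p.h_map, ← FSp.imp_imap, ← FSp.imp_imap, ← FSp.imp_imap, ← FSp.imp_imap, FPj.h_map, FPj.h_map] at h1
  exact h1

theorem I_im_split (x y z : FL F) :
    T.pb E * I (FSp.imap p E x) (FSp.imap p E y) (FSp.imap p E z) + (1 - T.pb E) *
      I (FSp.imap p (fun ω => ¬ E ω) x) (FSp.imap p (fun ω => ¬ E ω) y) (FSp.imap p (fun ω => ¬ E ω) z) ≤ I x y z + 1 ∧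
    I x y z ≤ T.pb E * I (FSp.imap p E x) (FSp.imap p E y) (FSp.imap p E z) + (1 - T.pb E) *
      I (FSp.imap p (fun ω => ¬ E ω) x) (FSp.imap p (fun ω => ¬ E ω) y) (FSp.imap p (fun ω => ¬ E ω) z) + 1 := by
  have h1 := T.I_rsplit E (p.map x) (p.map y) (p.map z)
  rw [p.I_map, ← FSp.imp_imap, ← FSp.imp_imap, ← FSp.imp_imap, ← FSp.imp_imap, ← FSp.imp_imap, ← FSp.imp_imap,
    FPj.I_map, FPj.I_map] at h1
  exact h1

end

/-! ### direct values -/

/-- DIRECT VALUES -/
structure Dv (K : FK) (B : K.Pd) where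
  v : ∀ F : FSp, K.X F → ℝ
  M : ℝ
  M0 : 0 ≤ M
  e : ℝ
  e0 : 0 ≤ e
  nn : ∀ (F : FSp) (x : K.X F), 0 ≤ v F x
  le : ∀ (S : Sp) (x : K.Ob S), B S x → ∀ᶠ k in UF, v (S.F k) (x k) ≤ M ∧
    ∀ (T : FSp) (p : FPj T (S.F k)) (E : T.Ω → Prop), v (FSp.im p E) (K.im p E (x k)) ≤ M
  glu : ∀ (F T : FSp) (p : FPj T F) (E : T.Ω → Prop) (x : K.X F), T.pb E * v (FSp.im p E) (K.im p E x) +
      (1 - T.pb E) * v (FSp.im p fun ω => ¬ E ω) (K.im p (fun ω => ¬ E ω) x) ≤ v F x + e / F.n
  spl : ∀ (F T : FSp) (p : FPj T F) (E : T.Ω → Prop) (x : K.X F),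
    v F x ≤ T.pb E * v (FSp.im p E) (K.im p E x) +
      (1 - T.pb E) * v (FSp.im p fun ω => ¬ E ω) (K.im p (fun ω => ¬ E ω) x) + e / F.n

/-- direct values, as values of labels -/
def Dv.vk (V : Dv K B) : Vk K B (Fin 0) (G0 K B).C where
  v := fun F x _ => V.v F x
  M := V.M
  M0 := V.M0
  e := V.e
  e0 := V.e0
  nn := fun F x _ _ => V.nn F x
  le := fun S x hx => (V.le S x hx).mono fun _ hk => ⟨fun _ => hk.1, fun T p E _ => hk.2 T p E⟩
  glu := fun F T p E x _ _ => V.glu F T p E x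
  spl := fun F T p E _ x _ => V.spl F T p E x

/-- the direct value of an object -/
def Dv.f (V : Dv K B) {S : Sp} (x : K.Ob S) : ℝ := ul (fun k => V.v (S.F k) (x k))

theorem Dv.bd (V : Dv K B) {S : Sp} {x : K.Ob S} (hx : B S x) :
    ∀ᶠ k in UF, 0 ≤ V.v (S.F k) (x k) ∧ V.v (S.F k) (x k) ≤ V.M :=
  (V.le S x hx).mono fun _ hk => ⟨V.nn _ _, hk.1⟩

theorem Dv.UB (V : Dv K B) {S : Sp} {x : K.Ob S} (hx : B S x) :
    Pool.Agent.Helper31.EC.UB (fun k => V.v (S.F k) (x k)) :=
  UB_of_nonneg_le ((V.bd hx).mono fun _ h => h.1) ((V.bd hx).mono fun _ h => h.2)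

theorem Dv.tendsto (V : Dv K B) {S : Sp} {x : K.Ob S} (hx : B S x) :
    Tendsto (fun k => V.v (S.F k) (x k)) UF (𝓝 (V.f x)) := ul_tendsto (V.UB hx)

theorem Dv.gvf_eq (V : Dv K B) {S : Sp} {x : K.Ob S} (hx : B S x) : gvf (G0 K B) V.vk (c0 K) x = V.f x := by
  obtain ⟨y, _, e⟩ := gvf_attained (V := V.vk) (G0 K B) (c0 K) hx
  exact e.symm

/-- THE FUNCTIONAL -/
def dvF (hB : ImCl B) (V : Dv K B) : Fnl B where
  f := fun _ x => V.f x
  M := V.M
  nn := fun S x hx => by rw [← V.gvf_eq hx]; exact gvf_nonneg _ _ hx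
  le := fun S x hx => by rw [← V.gvf_eq hx]; exact gvf_le _ _ hx
  ev := fun S x y _ e => ul_congr (e.mono fun k hk => by rw [hk])
  usc := by
    intro S x hx
    refine ⟨fun i j k => valE (fun F y => V.v F y) S x j k, fun i j => valE_ev _ S x j (V.UB (hx j)), fun J hd => ?_⟩
    have h1 := val_tendsto (g := fun F y => V.v F y) hd.tend (hd.slow 0)
    have ub : Pool.Agent.Helper31.EC.UB (fun k => V.f (x (J k))) :=
      UB_of_nonneg_le (Eventually.of_forall fun k => by rw [← V.gvf_eq (hx _)]; exact gvf_nonneg _ _ (hx _))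
        (Eventually.of_forall fun k => by rw [← V.gvf_eq (hx _)]; exact gvf_le _ _ (hx _))
    have h2 := h1.add (ul_tendsto ub)
    rw [zero_add] at h2
    refine le_of_eq ?_
    symm
    refine ul_eq (h2.congr fun k => ?_)
    show V.v ((S (J k)).F k) (x (J k) k) - V.f (x (J k)) + V.f (x (J k)) = _
    rw [sub_add_cancel]
    rfl
  spl := fun S x hx T p E hE hE' => by
    have h1 := hB S x hx T p E hE
    have h2 := hB S x hx T p _ hE'
    rw [← V.gvf_eq hx, ← V.gvf_eq h1, ← V.gvf_eq h2]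
    exact (gvF (G0 K B) V.vk (c0 K) hB).spl S x hx T p E hE hE'
  typ := fun S x hx T p E ht => by
    have h0 : 0 < ul (T.pr E) := by
      have e1 : ul (T.pr E) = 1 := ul_eq ((Typ_iff E).mp ht)
      rw [e1]; exact one_pos
    have h1 := hB S x hx T p E h0
    rw [← V.gvf_eq hx, ← V.gvf_eq h1]
    exact (gvF (G0 K B) V.vk (c0 K) hB).typ S x hx T p E ht

/-- DIRECT VALUES ARE CONTINUOUS along slow diagonals -/
theorem Dv.cont (V : Dv K B) (S : ℕ → Sp) (x : ∀ j, K.Ob (S j)) (hx : ∀ j, B (S j) (x j)) :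
    ∃ R : ℕ → ℕ → ℕ → Prop, (∀ i j, ∀ᶠ k in UF, R i j k) ∧ ∀ (J : ℕ → ℕ) (h : Slo S R J),
      V.f (K.dgo S x J h.lim) = ul (fun k => V.f (x (J k))) := by
  refine ⟨fun i j k => valE (fun F y => V.v F y) S x j k, fun i j => valE_ev _ S x j (V.UB (hx j)), fun J hd => ?_⟩
  have h1 := val_tendsto (g := fun F y => V.v F y) hd.tend (hd.slow 0)
  have ub : Pool.Agent.Helper31.EC.UB (fun k => V.f (x (J k))) :=
    UB_of_nonneg_le (Eventually.of_forall fun k => by rw [← V.gvf_eq (hx _)]; exact gvf_nonneg _ _ (hx _))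
      (Eventually.of_forall fun k => by rw [← V.gvf_eq (hx _)]; exact gvf_le _ _ (hx _))
  have h2 := h1.add (ul_tendsto ub)
  rw [zero_add] at h2
  refine ul_eq (h2.congr fun k => ?_)
  show V.v ((S (J k)).F k) (x (J k) k) - V.f (x (J k)) + V.f (x (J k)) = _
  rw [sub_add_cancel]
  rfl

/-! ### partitions without bound -/

/-- PARTITIONS attached to the finite data -/
structure Pu (K : FK) where
  X : ∀ F : FSp, K.X F → Setoid F.Ω
  im : ∀ (F T : FSp) (p : FPj T F) (E : T.Ω → Prop) (x : K.X F), X (FSp.im p E) (K.im p E x) = X F x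

def Pu.pt (X : Pu K) {S : Sp} (x : K.Ob S) : Part S := fun k => fc (X.X (S.F k) (x k))

theorem Pu.fc_im (X : Pu K) {F T : FSp} (p : FPj T F) (E : T.Ω → Prop) (x : K.X F) :
    fc (X.X (FSp.im p E) (K.im p E x)) = FSp.imap p E (fc (X.X F x)) := by
  rw [X.im F T p E x]
  rfl

/-- forget the bound -/
def Pt.pu (X : Pt K B) : Pu K := ⟨X.X, X.im⟩

theorem Pt.pu_pt (X : Pt K B) {S : Sp} (x : K.Ob S) : X.pu.pt x = X.pt x := rfl

/-- common refinement -/
def Pu.inf (X Y : Pu K) : Pu K where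
  X := fun F x => X.X F x ⊓ Y.X F x
  im := fun F T p E x => by
    rw [X.im, Y.im]
    rfl

/-- common refinement -/
def Pt.inf (X Y : Pt K B) : Pt K B where
  X := fun F x => X.X F x ⊓ Y.X F x
  im := fun F T p E x => by
    rw [X.im, Y.im]
    rfl
  C := X.C + Y.C
  C0 := add_nonneg X.C0 Y.C0
  vb := by
    intro S x hx
    filter_upwards [X.vb S x hx, Y.vb S x hx] with k h1 h2 ω hω
    have h3 : (nv (S.F k) (X.X (S.F k) (x k) ⊓ Y.X (S.F k) (x k)) ω : ℝ) ≤
        nv (S.F k) (X.X (S.F k) (x k)) ω * nv (S.F k) (Y.X (S.F k) (x k)) ω := by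
      exact_mod_cast nv_inf (S.F k) (X.X (S.F k) (x k)) (Y.X (S.F k) (x k)) ω
    refine h3.trans ?_
    rw [add_mul, Real.rpow_add (by norm_num)]
    exact mul_le_mul (h1 ω hω) (h2 ω hω) (Nat.cast_nonneg _) (by positivity)

/-- conditions from partitions -/
def Pu.cd {κ : Type} (X : κ → Pu K) : Cd K κ where
  c := fun F x i => fc ((X i).X F x)
  im := fun _ _ p E x i => (X i).fc_im p E x

/-- the trivial partition -/
def Pt.top (K : FK) (B : K.Pd) : Pt K B where
  X := fun _ _ => ⊤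
  im := fun _ _ _ _ _ => rfl
  C := 0
  C0 := le_rfl
  vb := by
    intro S x _
    refine Eventually.of_forall fun k ω hω => ?_
    rw [zero_mul, Real.rpow_zero]
    have h1 : nv (S.F k) ⊤ ω ≤ nvf (S.F k).μ (fun _ => ()) (Quotient.mk (S.F k).Z) ω :=
      nvf_mono _ _ _ _ _ (fun _ _ _ _ _ _ _ => Quotient.sound trivial)
    have h2 := h1.trans (nvf_subsing _ _ _ _)
    exact_mod_cast h2

/-! ### entropies and informations as direct values -/

/-- the entropy of a bounded partition given any partition -/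
def hwv (X : Pt K B) (W : Pu K) : Dv K B where
  v := fun F x => h (fc (X.X F x)) (fc (W.X F x)) / F.n
  M := X.C
  M0 := X.C0
  e := 1
  e0 := zero_le_one
  nn := fun F x => div_nonneg (h_nonneg _ _) F.pos.le
  le := by
    intro S x hx
    filter_upwards [X.vb S x hx] with k hk
    constructor
    · rw [div_le_iff₀ (S.F k).pos]
      exact (h_le_H _ _).trans (H_le_nv hk)
    · intro T p E
      show h (fc (X.X (FSp.im p E) (K.im p E (x k)))) (fc (W.X (FSp.im p E) (K.im p E (x k)))) / (S.F k).n ≤ X.C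
      have e1 : fc (X.X (FSp.im p E) (K.im p E (x k))) = FSp.imap p E (fc (X.X (S.F k) (x k))) :=
        X.fc_im p E (x k)
      rw [div_le_iff₀ (S.F k).pos, e1]
      exact (h_le_H _ _).trans (H_im_le_nv p E hk)
  glu := by
    intro F T p E x
    have hn := F.pos
    have hn1 : (FSp.im p E).n = F.n := rfl
    have hn2 : (FSp.im p fun ω => ¬ E ω).n = F.n := rfl
    have h1 := (h_im_split p E (fc (X.X F x)) (fc (W.X F x))).1
    rw [X.fc_im p E x, X.fc_im p (fun ω => ¬ E ω) x, W.fc_im p E x, W.fc_im p (fun ω => ¬ E ω) x, hn1, hn2,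
      ← mul_div_assoc, ← mul_div_assoc, ← add_div, ← add_div]
    exact div_le_div_of_nonneg_right (by linarith) hn.le
  spl := by
    intro F T p E x
    have hn := F.pos
    have hn1 : (FSp.im p E).n = F.n := rfl
    have hn2 : (FSp.im p fun ω => ¬ E ω).n = F.n := rfl
    have h1 := (h_im_split p E (fc (X.X F x)) (fc (W.X F x))).2
    rw [X.fc_im p E x, X.fc_im p (fun ω => ¬ E ω) x, W.fc_im p E x, W.fc_im p (fun ω => ¬ E ω) x, hn1, hn2,
      ← mul_div_assoc, ← mul_div_assoc, ← add_div, ← add_div]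
    exact div_le_div_of_nonneg_right h1 hn.le

/-- the information of a bounded partition and any partition, given any partition -/
def Iwv (X : Pt K B) (Y W : Pu K) : Dv K B where
  v := fun F x => I (fc (X.X F x)) (fc (Y.X F x)) (fc (W.X F x)) / F.n
  M := X.C
  M0 := X.C0
  e := 1
  e0 := zero_le_one
  nn := fun F x => div_nonneg (I_nonneg _ _ _) F.pos.le
  le := by
    intro S x hx
    have key : ∀ {L : Type} [PM L] (a b c : L), I a b c ≤ H a := by
      intro L _ a b c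
      rw [I_eq]
      have h1 := h_nonneg a (b ⊔ c)
      have h2 := h_le_H a c
      linarith
    filter_upwards [X.vb S x hx] with k hk
    constructor
    · rw [div_le_iff₀ (S.F k).pos]
      exact (key _ _ _).trans (H_le_nv hk)
    · intro T p E
      show I (fc (X.X (FSp.im p E) (K.im p E (x k)))) (fc (Y.X (FSp.im p E) (K.im p E (x k))))
        (fc (W.X (FSp.im p E) (K.im p E (x k)))) / (S.F k).n ≤ X.C
      have e1 : fc (X.X (FSp.im p E) (K.im p E (x k))) = FSp.imap p E (fc (X.X (S.F k) (x k))) :=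
        X.fc_im p E (x k)
      rw [div_le_iff₀ (S.F k).pos, e1]
      exact (key _ _ _).trans (H_im_le_nv p E hk)
  glu := by
    intro F T p E x
    have hn := F.pos
    have hn1 : (FSp.im p E).n = F.n := rfl
    have hn2 : (FSp.im p fun ω => ¬ E ω).n = F.n := rfl
    have h1 := (I_im_split p E (fc (X.X F x)) (fc (Y.X F x)) (fc (W.X F x))).1
    rw [X.fc_im p E x, X.fc_im p (fun ω => ¬ E ω) x, W.fc_im p E x, W.fc_im p (fun ω => ¬ E ω) x, Y.fc_im p E x,
      Y.fc_im p (fun ω => ¬ E ω) x, hn1, hn2, ← mul_div_assoc, ← mul_div_assoc, ← add_div, ← add_div]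
    exact div_le_div_of_nonneg_right h1 hn.le
  spl := by
    intro F T p E x
    have hn := F.pos
    have hn1 : (FSp.im p E).n = F.n := rfl
    have hn2 : (FSp.im p fun ω => ¬ E ω).n = F.n := rfl
    have h1 := (I_im_split p E (fc (X.X F x)) (fc (Y.X F x)) (fc (W.X F x))).2
    rw [X.fc_im p E x, X.fc_im p (fun ω => ¬ E ω) x, W.fc_im p E x, W.fc_im p (fun ω => ¬ E ω) x, Y.fc_im p E x,
      Y.fc_im p (fun ω => ¬ E ω) x, hn1, hn2, ← mul_div_assoc, ← mul_div_assoc, ← add_div, ← add_div]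
    exact div_le_div_of_nonneg_right h1 hn.le

theorem hwv_tendsto (X : Pt K B) (W : Pu K) {S : Sp} {x : K.Ob S} (hx : B S x) :
    Tendsto (fun k => h (X.pt x k) (W.pt x k) / (S.F k).n) UF (𝓝 ((hwv X W).f x)) := (hwv X W).tendsto hx

theorem Iwv_tendsto (X : Pt K B) (Y W : Pu K) {S : Sp} {x : K.Ob S} (hx : B S x) :
    Tendsto (fun k => I (X.pt x k) (Y.pt x k) (W.pt x k) / (S.F k).n) UF (𝓝 ((Iwv X Y W).f x)) :=
  (Iwv X Y W).tendsto hx

end

end Pool.Agent.Helper52.GF
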