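import Pool.Agent.Helper44.GF.Defs

/-!
# MP_d210aa_gt: the test forms
-/

set_option autoImplicit false

open Finset MeasureTheory Filter Topology
open scoped ENNReal ContDiff Matrix

namespace Pool.Agent.Helper44.GF

theorem tform_cramer {k : ℕ} (M : Matrix (Fin k) (Fin k) ℝ) (d : Fin k → ℝ) (a : Fin k) :
    (M.updateCol a (M *ᵥ d)).det = M.det * d a := by
  rw [← Matrix.cramer_apply, Matrix.cramer_eq_adjugate_mulVec, Matrix.mulVec_mulVec,
    Matrix.adjugate_mul, Matrix.smul_mulVec, Matrix.one_mulVec]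
  rfl

/-- the constant form -/
noncomputable def tform_lam {m n : ℕ} (g : Fin m → Fin n) : (Fin n → ℝ) [⋀^Fin m]→L[ℝ] ℝ :=
  { toContinuousMultilinearMap :=
      ⟨((Matrix.detRowAlternating (n := Fin m) (R := ℝ)).compLinearMap
          (LinearMap.funLeft ℝ ℝ g)).toMultilinearMap, by
        have h : Continuous fun v : Fin m → Fin n → ℝ =>
            (Matrix.of fun (k b : Fin m) => v k (g b)).det := by
          refine Continuous.matrix_det ?_
          refine continuous_matrix fun i j => ?_
          exact (continuous_apply (g j)).comp (continuous_apply i)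
        exact h⟩
    map_eq_zero_of_eq' := ((Matrix.detRowAlternating (n := Fin m) (R := ℝ)).compLinearMap
          (LinearMap.funLeft ℝ ℝ g)).map_eq_zero_of_eq' }

theorem tform_lam_apply {m n : ℕ} (g : Fin m → Fin n) (v : Fin m → Fin n → ℝ) :
    tform_lam g v = (Matrix.of fun (k b : Fin m) => v k (g b)).det := rfl

theorem tform_sum {k : ℕ} (D : (Fin k → ℝ) →L[ℝ] ℝ) (y : Fin k → ℝ) :
    D y = ∑ c, y c * D (Pi.single c 1) := by
  conv_lhs => rw [← Finset.univ_sum_single y]
  rw [map_sum]
  refine Finset.sum_congr rfl fun c _ => ?_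
  have : (Pi.single c (y c) : Fin k → ℝ) = y c • Pi.single c (1 : ℝ) := by
    rw [← Pi.single_smul]
    simp
  rw [this, map_smul, smul_eq_mul]

theorem st_TFORM : ST_TFORM := by
  intro m n f h hh a
  let L : (Fin n → ℝ) →L[ℝ] (Fin (m + 1) → ℝ) :=
    ContinuousLinearMap.pi fun b => ContinuousLinearMap.proj (f b)
  have hL : ∀ x : Fin n → ℝ, L x = fun b => x (f b) := fun x => rfl
  have hsm : ContDiff ℝ ∞ (fun x : Fin n → ℝ => (-1 : ℝ) ^ (a : ℕ) * h (fun b => x (f b))) := by
    refine contDiff_const.mul ?_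
    exact hh.comp L.contDiff
  refine ⟨fun x => ((-1 : ℝ) ^ (a : ℕ) * h (fun b => x (f b))) • tform_lam (f ∘ a.succAbove), ?_, ?_⟩
  · exact hsm.smul contDiff_const
  · intro x v
    have hd : Differentiable ℝ (fun x : Fin n → ℝ => (-1 : ℝ) ^ (a : ℕ) * h (fun b => x (f b))) :=
      hsm.differentiable (by simp)
    have hdh : Differentiable ℝ h := hh.differentiable (by simp)
    have hfd := (hd.differentiableAt (x := x)).hasFDerivAt.smul_const
      (tform_lam (f ∘ a.succAbove))
    rw [extDeriv, ContinuousAlternatingMap.alternatizeUncurryFin_apply]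
    rw [hfd.fderiv]
    set D := fderiv ℝ h (fun b => x (f b)) with hD
    have h1 : ∀ y : Fin n → ℝ,
        fderiv ℝ (fun x : Fin n → ℝ => (-1 : ℝ) ^ (a : ℕ) * h (fun b => x (f b))) x y =
          (-1 : ℝ) ^ (a : ℕ) * D (fun b => y (f b)) := by
      intro y
      have e1 : HasFDerivAt (fun x : Fin n → ℝ => h (fun b => x (f b))) (D.comp L) x :=
        (hdh.differentiableAt.hasFDerivAt).comp x L.hasFDerivAt
      have e2 := (e1.const_mul ((-1 : ℝ) ^ (a : ℕ))).fderiv
      rw [e2]
      rfl
    let M : Matrix (Fin (m + 1)) (Fin (m + 1)) ℝ := Matrix.of fun i b => v i (f b)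
    have h2 := tform_cramer M (fun c => D (Pi.single c 1)) a
    have h3 : (Matrix.of fun (b k : Fin (m + 1)) => v k (f b)) = Mᵀ := rfl
    rw [h3, Matrix.det_transpose, mul_comm, ← h2]
    rw [Matrix.det_succ_column _ a]
    refine Finset.sum_congr rfl fun i _ => ?_
    rw [ContinuousLinearMap.smulRight_apply, ContinuousAlternatingMap.smul_apply, h1,
      tform_lam_apply]
    have h4 : (M.updateCol a (M *ᵥ fun c => D (Pi.single c 1))) i a = D (fun b => v i (f b)) := by
      rw [Matrix.updateCol_self, tform_sum D]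
      rfl
    have h5 : (M.updateCol a (M *ᵥ fun c => D (Pi.single c 1))).submatrix i.succAbove a.succAbove =
        Matrix.of fun (k b : Fin m) => i.removeNth v k ((f ∘ a.succAbove) b) := by
      ext k b
      rw [Matrix.submatrix_apply, Matrix.updateCol_ne (Fin.succAbove_ne a b)]
      rfl
    rw [h4, h5]
    rw [pow_add]
    simp only [smul_eq_mul, zsmul_eq_mul]
    push_cast
    ring

end Pool.Agent.Helper44.GF
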