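import Pool.Agent.Helper52.GF.Kp

/-! K-LABELS OF SYSTEMS OF LEAVES (kinds which carry a system of leaves and partitions): informations about partitions
and volumes of the hulls; the labels have no leak at all at an attached partition `W` and small leaks at the windows. -/

set_option autoImplicit false

namespace Pool.Agent.Helper52.GF

open Finset Filter Topology Matrix Pool.Agent.Helper69.RK Pool.Agent.Helper31.EC Pool.Agent.Helper31.EC.Sp
open Pool.Agent.Helper40.EL Pool.Agent.Helper89.LX Pool.Agent.Helper59.EV Pool.Agent.Helper49.MD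
open Pool.Agent.Helper84.MT Pool.Agent.Helper3.LF
open Pool.Agent.Helper95.LF (PdM)
open Pool.Agent.Helper14.MC (vx)

noncomputable section

variable {S : Sp} {M : ℕ} {E : ℕ → ℕ} {ι : Type}

/-! ### systems -/

/-- the CONDITIONS `the partition B, the windows c` of a system -/
def scw (s : MSys S M E ι) (B : Part S) (c : ℝ) : Option ι → Part S
  | none => B
  | some i => (s.lf i).win c

theorem scw_scn (s : MSys S M E ι) (r c : ℝ) : scw s (pcr s.Q r) c = scn s r c :=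
  funext fun i => by cases i <;> rfl

theorem scw_cnd (s : MSys S M E ι) (c : ℝ) : scw s (pcd s.Q) c = s.cnd c :=
  funext fun i => by cases i <;> rfl

/-- K-LABELS: no leak at all at `B`, small leaks at `A` and at the windows `c` -/
def KLb (s : MSys S M E ι) (A B : Part S) (c : ℝ) (l : Lab S) : Prop := l.DMf (scw s A c) ∧ (LC.kz B).ev l

theorem KLb.mono {s : MSys S M E ι} {A B : Part S} {c c' : ℝ} (hc : c ≤ c') {l : Lab S} (h : KLb s A B c l) :
    KLb s A B c' l := by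
  refine ⟨h.1.mono fun i => ⟨i, ?_⟩, h.2⟩
  rcases i with _ | i
  · exact PLe.refl _
  · exact (s.lf i).win_mono hc

/-- `A = B`: only the windows have to be checked -/
theorem KLb_iff {s : MSys S M E ι} {B : Part S} {c : ℝ} {l : Lab S} :
    KLb s B B c l ↔ (∀ i, Nul S fun k => (l k).leak ((s.lf i).win c k)) ∧ (LC.kz B).ev l := by
  constructor
  · intro h
    exact ⟨fun i => h.1 (some i), h.2⟩
  · intro h
    refine ⟨fun i => ?_, h.2⟩
    rcases i with _ | i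
    · exact LC.kz_nul h.2
    · exact h.1 i

/-! ### objects of a kind with a system of leaves -/

variable {K : FK} (m : Km K (KM M ι))

/-- the conditions `the partition V, the windows c` attached to the finite data -/
def cdw (V : Pu K) (c : ℝ) : Cd K (Option ι) where
  c := fun F x i => match i with
    | none => fc (V.X F x)
    | some i => FLf.win F ((m.f F x : FMs F.Ω M ι).lf i) c
  im := fun F T p E x i => by
    rcases i with _ | i
    · exact V.fc_im p E x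
    · show FLf.win (FSp.im p E) ((m.f (FSp.im p E) (K.im p E x) : FMs F.Ω M ι).lf i) c = _
      rw [m.im]
      rfl

theorem giv_cdw {s : MSys S M E ι} {x : K.Ob S} (h : Giv s (m.o x)) {V : Pu K} {A : Part S}
    (hA : ∀ᶠ k in UF, V.pt x k = A k) (c : ℝ) (i : Option ι) : ∀ᶠ k in UF, (cdw m V c).cf x i k = scw s A c i k := by
  cases i with
  | none => exact hA
  | some i =>
    filter_upwards [h.2 i] with k hk
    show FLf.win (S.F k) ((m.f (S.F k) (x k) : FMs (S.F k).Ω M ι).lf i) c = _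
    have e : ((m.f (S.F k) (x k) : FMs (S.F k).Ω M ι).lf i) = lob (s.lf i) k := hk.symm
    rw [e]
    rfl

theorem cdw_KLb {s : MSys S M E ι} {x : K.Ob S} (h : Giv s (m.o x)) {V W : Pu K} {A B : Part S}
    (hA : ∀ᶠ k in UF, V.pt x k = A k) (hB : ∀ᶠ k in UF, W.pt x k = B k) (c : ℝ) (l : Lab S) :
    (l.DMf ((cdw m V c).cf x) ∧ ((kzq W).lc x).ev l) ↔ KLb s A B c l :=
  and_congr (DMf_congr (giv_cdw m h hA c) l) (kz_congr hB l)

theorem cdw_maxK {s : MSys S M E ι} {x : K.Ob S} (h : Giv s (m.o x)) {V W : Pu K} {A B : Part S}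
    (hA : ∀ᶠ k in UF, V.pt x k = A k) (hB : ∀ᶠ k in UF, W.pt x k = B k) (c : ℝ) (l : Lab S) :
    l.IsMaxK ((kzq W).lc x) ((cdw m V c).cf x) ↔ l.IsMaxK (LC.kz B) (scw s A c) := by
  constructor
  · rintro ⟨h1, h2, h3⟩
    obtain ⟨a, b⟩ := (cdw_KLb m h hA hB c l).mp ⟨h1, h2⟩
    refine ⟨a, b, fun l' hl' hC => ?_⟩
    obtain ⟨a', b'⟩ := (cdw_KLb m h hA hB c l').mpr ⟨hl', hC⟩
    exact h3 l' a' b'
  · rintro ⟨h1, h2, h3⟩
    obtain ⟨a, b⟩ := (cdw_KLb m h hA hB c l).mpr ⟨h1, h2⟩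
    refine ⟨a, b, fun l' hl' hC => ?_⟩
    obtain ⟨a', b'⟩ := (cdw_KLb m h hA hB c l').mp ⟨hl', hC⟩
    exact h3 l' a' b'

variable (E) in
/-- the objects which carry a system of leaves -/
def isK [Encodable ι] : K.Pd := m.pb (isMc M E ι)

theorem isK_imCl [Encodable ι] : ImCl (isK E m) := m.pb_im isMc_imCl

variable [Encodable ι]

/-! ### informations -/

/-- THE INFORMATION OF THE K-LABELS about a partition -/
def kvi {B : K.Pd} (X : Pt K B) (V W : Pu K) (c : ℝ) {S : Sp} (x : K.Ob S) : ℝ := kiv X (cdw m V c) (kzq W) x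

theorem kvi_le {B : K.Pd} (X : Pt K B) {s : MSys S M E ι} {x : K.Ob S} (hx : B S x) (h : Giv s (m.o x)) {V W : Pu K}
    {A A' : Part S} (hA : ∀ᶠ k in UF, V.pt x k = A k) (hA' : ∀ᶠ k in UF, W.pt x k = A' k) {c : ℝ}
    {l : Lab S} (hl : KLb s A A' c l) :
    ul (vxs l (X.pt x)) ≤ kvi m X V W c x :=
  vxs_le_kiv X _ _ hx ((cdw_KLb m h hA hA' c l).mpr hl).1 ((cdw_KLb m h hA hA' c l).mpr hl).2

theorem kvi_attained {B : K.Pd} (X : Pt K B) {s : MSys S M E ι} {x : K.Ob S} (hx : B S x) (h : Giv s (m.o x))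
    {V W : Pu K} {A A' : Part S} (hA : ∀ᶠ k in UF, V.pt x k = A k) (hA' : ∀ᶠ k in UF, W.pt x k = A' k) (c : ℝ) :
    ∃ l : Lab S, KLb s A A' c l ∧ ul (vxs l (X.pt x)) = kvi m X V W c x := by
  obtain ⟨l, h1, h2, h3⟩ := kiv_attained X (cdw m V c) (kzq W) hx
  exact ⟨l, (cdw_KLb m h hA hA' c l).mp ⟨h1, h2⟩, h3⟩

/-- THE INFORMATION OF A MAXIMAL K-LABEL about a partition -/
theorem kvi_max {B : K.Pd} (X : Pt K B) {s : MSys S M E ι} {x : K.Ob S} (hx : B S x) (h : Giv s (m.o x)) {V W : Pu K}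
    {A A' : Part S} (hA : ∀ᶠ k in UF, V.pt x k = A k) (hA' : ∀ᶠ k in UF, W.pt x k = A' k) {c : ℝ}
    {i : Option ι} (hb : (scw s A c i).Bd) {l : Lab S}
    (hl : l.IsMaxK (LC.kz A') (scw s A c)) : Tendsto (vxs l (X.pt x)) UF (𝓝 (kvi m X V W c x)) :=
  vxs_kiv X (cdw m V c) (kzq W) hx (i := i)
    (Bd_congr (by filter_upwards [giv_cdw m h hA c i] with k hk using hk.symm) hb) ((cdw_maxK m h hA hA' c l).mpr hl)

/-- THE ENTROPY OF A PARTITION OVER THE MAXIMAL K-LABEL -/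
def kvh {B : K.Pd} (X : Pt K B) (V W : Pu K) (c : ℝ) {S : Sp} (x : K.Ob S) : ℝ := khv X (cdw m V c) (kzq W) x

theorem kvh_max {B : K.Pd} (X : Pt K B) {s : MSys S M E ι} {x : K.Ob S} (hx : B S x) (h : Giv s (m.o x)) {V W : Pu K}
    {A A' : Part S} (hA : ∀ᶠ k in UF, V.pt x k = A k) (hA' : ∀ᶠ k in UF, W.pt x k = A' k) {c : ℝ}
    {i : Option ι} (hb : (scw s A c i).Bd) {l : Lab S}
    (hl : l.IsMaxK (LC.kz A') (scw s A c)) {Y : Part S} (hY : ∀ᶠ k in UF, X.pt x k = Y k) :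
    Tendsto (fun k => Pool.Agent.Helper31.EC.h ((l k).p.map (Y k)) (l k).v / (S.F k).n) UF
      (𝓝 (kvh m X V W c x)) := by
  refine (khv_tendsto X (cdw m V c) (kzq W) hx (i := i)
    (Bd_congr (by filter_upwards [giv_cdw m h hA c i] with k hk using hk.symm) hb)
    ((cdw_maxK m h hA hA' c l).mpr hl)).congr' ?_
  filter_upwards [hY] with k hk
  rw [hk]

theorem kvh_le {B : K.Pd} (X : Pt K B) {s : MSys S M E ι} {x : K.Ob S} (hx : B S x) (h : Giv s (m.o x)) {V W : Pu K}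
    {A A' : Part S} (hA : ∀ᶠ k in UF, V.pt x k = A k) (hA' : ∀ᶠ k in UF, W.pt x k = A' k) {c : ℝ}
    {l : Lab S} (hl : KLb s A A' c l) {Y : Part S}
    (hY : ∀ᶠ k in UF, X.pt x k = Y k) :
    kvh m X V W c x ≤ ul (fun k => Pool.Agent.Helper31.EC.h ((l k).p.map (Y k)) (l k).v / (S.F k).n) := by
  refine (khv_le_of X (cdw m V c) (kzq W) hx ((cdw_KLb m h hA hA' c l).mpr hl).1 ((cdw_KLb m h hA hA' c l).mpr hl).2).trans
    (le_of_eq (ul_congr ?_))
  filter_upwards [hY] with k hk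
  rw [hk]

/-- monotone in the window -/
theorem kvi_mono {B : K.Pd} (X : Pt K B) {x : K.Ob S} (hx : B S x) (h : isK E m S x) (V W : Pu K) {c c' : ℝ}
    (hc : c ≤ c') : kvi m X V W c x ≤ kvi m X V W c' x := by
  obtain ⟨s, hs⟩ := h
  refine kiv_mono hx fun l h1 h2 => ?_
  have hV : ∀ᶠ k in UF, V.pt x k = V.pt x k := Eventually.of_forall fun _ => rfl
  have hW : ∀ᶠ k in UF, W.pt x k = W.pt x k := Eventually.of_forall fun _ => rfl
  exact (cdw_KLb m hs hV hW c' l).mpr (((cdw_KLb m hs hV hW c l).mp ⟨h1, h2⟩).mono hc)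

/-- THE FUNCTIONAL -/
def kviF {B : K.Pd} (hB : ImCl B) (X : Pt K B) (V W : Pu K) (c : ℝ) : Fnl B := kivF hB X (cdw m V c) (kzq W)

/-! ### volumes -/

section
variable (E) (D : ℕ)

/-- the gauge of forms of degree `D` at the point -/
def kgk : Gk K (isK E m) (Mon M D) := (gkq M E ι D).cm m fun _ _ h => h

/-- the exponent of the determinant -/
def kfv : Fv K (isK E m) (Mon M D) (kgk E m D).C := (fvq M E ι D).cm m fun _ _ h => h

/-- THE LARGEST EXPONENT of the K-labels -/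
def kxm (V W : Pu K) (c : ℝ) {S : Sp} (x : K.Ob S) : ℝ :=
  kvf (kgk E m D) (kfv E m D).vk (cdw m V c) (kzq W).rq x

/-- THE VOLUME of the hull of the K-labels -/
def kvm (V W : Pu K) (c : ℝ) {S : Sp} (x : K.Ob S) : ℝ := M - kxm E m D V W c x

/-- THE FUNCTIONAL -/
def kxmF (V W : Pu K) (c : ℝ) : Fnl (isK E m) :=
  kvF (kgk E m D) (kfv E m D).vk (cdw m V c) (kzq W).rq (isK_imCl m)

end

variable {D : ℕ}

/-- forms of K-labels -/
def KFm (s : MSys S M E ι) (A B : Part S) (c : ℝ) (y : ∀ k, FD (S.F k) (Mon M D)) : Prop :=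
  KLb s A B c (fun k => (y k).l) ∧ (gaq s.Q D).Fm y

theorem kadm_giv {s : MSys S M E ι} {x : K.Ob S} (h : Giv s (m.o x)) (hx : isK E m S x) {V W : Pu K}
    {A A' : Part S} (hA : ∀ᶠ k in UF, V.pt x k = A k) (hA' : ∀ᶠ k in UF, W.pt x k = A' k) (c : ℝ)
    (y : ∀ k, FD (S.F k) (Mon M D)) : (kgk E m D).AdcP (cdw m V c) (kzq W).rq hx y ↔ KFm s A A' c y := by
  have h1 : (kgk E m D).Adc (cdw m V c) hx y ↔ Lab.DMf (fun k => (y k).l) ((cdw m V c).cf x) ∧ (gaq s.Q D).Fm y :=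
    and_congr Iff.rfl (fm_giv h hx y)
  have h2 := cdw_KLb m h hA hA' c (fun k => (y k).l)
  constructor
  · rintro ⟨a, b⟩
    have a' := h1.mp a
    exact ⟨h2.mp ⟨a'.1, b⟩, a'.2⟩
  · rintro ⟨a, b⟩
    have a' := h2.mpr a
    exact ⟨h1.mpr ⟨a'.1, b⟩, a'.2⟩

theorem kevv_giv {s : MSys S M E ι} {x : K.Ob S} (h : Giv s (m.o x)) {y : ∀ k, FD (S.F k) (Mon M D)}
    (hy : ∀ᶠ k in UF, Cpf (gkq M E ι D).C (y k)) : ul (evv (kfv E m D).vk x y) = ul (vx s.Q y) :=
  evv_fvq h hy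

/-- the volume is the least volume of the forms of K-labels -/
theorem kvm_le_vol {s : MSys S M E ι} {x : K.Ob S} (h : Giv s (m.o x)) {V W : Pu K} {A A' : Part S}
    (hA : ∀ᶠ k in UF, V.pt x k = A k) (hA' : ∀ᶠ k in UF, W.pt x k = A' k) {c : ℝ}
    {y : ∀ k, FD (S.F k) (Mon M D)} (hy : KFm s A A' c y) :
    kvm E m D V W c x ≤ vol s.Q D y := by
  have hx : isK E m S x := ⟨s, h⟩
  have h1 := (kadm_giv m h hx hA hA' c y).mpr hy
  have h2 := ev_le_kvf (V := (kfv E m D).vk) (kgk E m D) (cdw m V c) (kzq W).rq hx h1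
  rw [kevv_giv m h (Adc_cpf (kgk E m D) (cdw m V c) hx h1.1)] at h2
  rw [Pool.Agent.Helper14.MC.vol_eq]
  unfold kvm kxm
  linarith

theorem kvm_attained {s : MSys S M E ι} {x : K.Ob S} (h : Giv s (m.o x)) (D : ℕ) {V W : Pu K} {A A' : Part S}
    (hA : ∀ᶠ k in UF, V.pt x k = A k) (hA' : ∀ᶠ k in UF, W.pt x k = A' k) (c : ℝ) :
    ∃ y : ∀ k, FD (S.F k) (Mon M D), KFm s A A' c y ∧ vol s.Q D y = kvm E m D V W c x := by
  have hx : isK E m S x := ⟨s, h⟩
  obtain ⟨y, hy, e⟩ := kvf_attained (V := (kfv E m D).vk) (kgk E m D) (cdw m V c) (kzq W).rq hx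
  refine ⟨y, (kadm_giv m h hx hA hA' c y).mp hy, ?_⟩
  rw [kevv_giv m h (Adc_cpf (kgk E m D) (cdw m V c) hx hy.1)] at e
  rw [Pool.Agent.Helper14.MC.vol_eq, e]
  rfl

theorem kvm_le_M (D : ℕ) (V W : Pu K) (c : ℝ) {x : K.Ob S} (hx : isK E m S x) : kvm E m D V W c x ≤ M := by
  have h1 := kvf_nonneg (V := (kfv E m D).vk) (kgk E m D) (cdw m V c) (kzq W).rq hx
  unfold kvm kxm
  linarith

/-- THE VOLUME OF AN OPTIMAL K-FORM, finitely many types -/
theorem kvm_opt [Finite ι] {s : MSys S M E ι} {x : K.Ob S} (h : Giv s (m.o x)) {V W : Pu K} {A A' : Part S}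
    (hA : ∀ᶠ k in UF, V.pt x k = A k) (hA' : ∀ᶠ k in UF, W.pt x k = A' k) {c : ℝ} {z : ∀ k, FD (S.F k) (Mon M D)}
    (hz : (gaq s.Q D).OptfK (LC.kz A') (scw s A c) z) : vol s.Q D z = kvm E m D V W c x := by
  have conv : ∀ y : ∀ k, FD (S.F k) (Mon M D), (gaq s.Q D).AdfK (LC.kz A') (scw s A c) y ↔ KFm s A A' c y := by
    intro y
    constructor
    · rintro ⟨a, b⟩
      exact ⟨⟨(Gau.Adf_iff.mp a).1, b⟩, (Gau.Adf_iff.mp a).2⟩
    · rintro ⟨⟨a, b⟩, d⟩
      exact ⟨Gau.Adf_iff.mpr ⟨a, d⟩, b⟩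
  apply le_antisymm
  · obtain ⟨y, hy, e⟩ := kvm_attained m h D hA hA' c
    rw [← e]
    exact vol_dom_le (Gau.Adf_iff.mp hz.1.1).2 hy.2 fun e he => Gau.OptfK.dom (gaq s.Q D) hz ((conv y).mpr hy) e he
  · exact kvm_le_vol m h hA hA' ((conv z).mp hz.1)

/-- monotone in the window -/
theorem kxm_mono (D : ℕ) (V W : Pu K) {c c' : ℝ} (hc : c ≤ c') {x : K.Ob S} (hx : isK E m S x) :
    kxm E m D V W c x ≤ kxm E m D V W c' x := by
  obtain ⟨s, h⟩ := hx
  have hA : ∀ᶠ k in UF, V.pt x k = V.pt x k := Eventually.of_forall fun _ => rfl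
  have hA' : ∀ᶠ k in UF, W.pt x k = W.pt x k := Eventually.of_forall fun _ => rfl
  obtain ⟨y, hy, e⟩ := kvm_attained m h D hA hA' c
  have h1 := kvm_le_vol m h hA hA' (show KFm s (V.pt x) (W.pt x) c' y from ⟨hy.1.mono hc, hy.2⟩)
  rw [e] at h1
  unfold kvm at h1
  linarith

end

end Pool.Agent.Helper52.GF
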