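import Pool.Agent.Helper52.GF.Inst
import Pool.Agent.Helper81.MT.Bas

/-! FUNCTIONALS of objects of a kind: comparison of values; values without conditions (entropies); entropies of
partitions over maximal labels; the functionals. -/

set_option autoImplicit false

namespace Pool.Agent.Helper52.GF

open Finset Filter Topology Matrix Pool.Agent.Helper69.RK Pool.Agent.Helper31.EC Pool.Agent.Helper31.EC.Sp
open Pool.Agent.Helper40.EL Pool.Agent.Helper89.LX Pool.Agent.Helper59.EV Pool.Agent.Helper49.MD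
open Pool.Agent.Helper52.KP (glue)
open Pool.Agent.Helper95.LF (PdM)

noncomputable section

variable {K K' : FK} {B : K.Pd} {B' : K'.Pd}

/-! ### comparison -/

/-- COMPARISON OF VALUES: every admissible sequence of the first object gives one of the second with a larger value -/
theorem gvf_le_of {ι ι' κ κ' : Type} [Fintype ι] [DecidableEq ι] [Fintype ι'] [DecidableEq ι'] [Encodable κ]
    [Encodable κ'] {G : Gk K B ι} {V : Vk K B ι G.C} {A : Cd K κ} {G' : Gk K' B' ι'} {V' : Vk K' B' ι' G'.C}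
    {A' : Cd K' κ'} {S S' : Sp} {x : K.Ob S} {x' : K'.Ob S'} (hx : B S x) (hx' : B' S' x')
    (h : ∀ y, G.Adc A hx y → ∃ y', G'.Adc A' hx' y' ∧ ul (evv V x y) ≤ ul (evv V' x' y')) :
    gvf G V A x ≤ gvf G' V' A' x' := by
  obtain ⟨y, hy, e⟩ := gvf_attained (V := V) G A hx
  obtain ⟨y', hy', e'⟩ := h y hy
  rw [← e]
  exact e'.trans (ev_le_gvf G' A' hx' hy')

section
variable {κ κ' : Type} [Encodable κ] [Encodable κ']

/-- comparison of informations -/
theorem iv_le_of {X : Pt K B} {A : Cd K κ} {X' : Pt K' B'} {A' : Cd K' κ'} {S S' : Sp} {x : K.Ob S} {x' : K'.Ob S'}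
    (hx : B S x) (hx' : B' S' x') (h : ∀ l : Lab S, l.DMf (A.cf x) → ∃ l' : Lab S', l'.DMf (A'.cf x') ∧
      ul (vxs l (X.pt x)) ≤ ul (vxs l' (X'.pt x'))) : iv X A x ≤ iv X' A' x' := by
  obtain ⟨l, hl, e⟩ := iv_attained X A hx
  obtain ⟨l', hl', e'⟩ := h l hl
  rw [← e]
  exact e'.trans (vxs_le_iv X' A' hx' hl')

/-- informations about equal partitions are equal -/
theorem vxs_congr {S : Sp} (l : Lab S) {X X' : Part S} (e : ∀ᶠ k in UF, X k = X' k) :
    ul (vxs l X) = ul (vxs l X') := ul_congr (e.mono fun k hk => by unfold vxs; rw [hk])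

/-- the informations depend only on the labels and on the partition -/
theorem iv_congr {X : Pt K B} {A : Cd K κ} {X' : Pt K' B'} {A' : Cd K' κ'} {S : Sp} {x : K.Ob S} {x' : K'.Ob S}
    (hx : B S x) (hx' : B' S x') (h : ∀ l : Lab S, l.DMf (A.cf x) ↔ l.DMf (A'.cf x'))
    (e : ∀ᶠ k in UF, X.pt x k = X'.pt x' k) : iv X A x = iv X' A' x' :=
  le_antisymm (iv_le_of hx hx' fun l hl => ⟨l, (h l).mp hl, (vxs_congr l e).le⟩)
    (iv_le_of hx' hx fun l hl => ⟨l, (h l).mpr hl, (vxs_congr l e).ge⟩)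

/-- the information is monotone in the conditions -/
theorem iv_mono {X : Pt K B} {A : Cd K κ} {A' : Cd K κ'} {S : Sp} {x : K.Ob S} (hx : B S x)
    (h : ∀ l : Lab S, l.DMf (A.cf x) → l.DMf (A'.cf x)) : iv X A x ≤ iv X A' x :=
  iv_le_of hx hx fun l hl => ⟨l, h l hl, le_rfl⟩

/-- informations about two partitions -/
theorem vX_le_h {F : FSp} (l : FLab F) (x y : FL F) : vX l x ≤ vX l y + h x y := by
  have h1 := h_eq_vX l x
  have h2 := h_eq_vX l y
  have h3 := h_triangle' (l.p.map y) (l.p.map x) l.v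
  rw [l.p.h_map] at h3
  have h4 : H x + h y x = H y + h x y := by
    have a := H_chain x y
    rw [sup_comm, H_chain] at a
    exact a.symm
  linarith

/-- LIPSCHITZ in the partition -/
theorem iv_le_add {X X' : Pt K B} {A : Cd K κ} {S : Sp} {x : K.Ob S} (hx : B S x) {e : ℝ}
    (h : ∀ η : ℝ, 0 < η → ∀ᶠ k in UF, Pool.Agent.Helper31.EC.h (X.pt x k) (X'.pt x k) ≤ (e + η) * (S.F k).n) :
    iv X A x ≤ iv X' A x + e := by
  obtain ⟨l, hl, e1⟩ := iv_attained X A hx
  rw [← e1]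
  refine le_of_forall_pos_le_add fun η hη => ?_
  have h2 : ul (vxs l (X.pt x)) ≤ ul (vxs l (X'.pt x)) + (e + η) := by
    refine le_of_tendsto_of_tendsto (ul_tendsto (vxs_UB X hx l))
      ((ul_tendsto (vxs_UB X' hx l)).add_const (e + η)) ?_
    filter_upwards [h η hη] with k hk
    have hn := (S.F k).pos
    unfold vxs
    rw [div_le_iff₀ hn, add_mul, div_mul_cancel₀ _ hn.ne']
    exact (vX_le_h _ _ _).trans (add_le_add le_rfl hk)
  have h3 := vxs_le_iv X' A hx hl
  linarith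

/-- monotone in the partition, in rates -/
theorem iv_mono_pt {X X' : Pt K B} {A : Cd K κ} {S : Sp} {x : K.Ob S} (hx : B S x)
    (h : PLe (X.pt x) (X'.pt x)) : iv X A x ≤ iv X' A x := by
  have h1 : iv X A x ≤ iv X' A x + 0 := iv_le_add hx fun η hη => by
    have h2 : Tendsto (fun k => Pool.Agent.Helper31.EC.h (X.pt x k) (X'.pt x k) / (S.F k).n) UF (𝓝 0) := h
    filter_upwards [h2.eventually (gt_mem_nhds hη)] with k hk
    rw [zero_add]
    rw [div_lt_iff₀ (S.F k).pos] at hk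
    exact hk.le
  rwa [add_zero] at h1

end

/-! ### no conditions: entropies -/

/-- no conditions -/
def c0 (K : FK) : Cd K (Fin 0) := ⟨fun _ _ i => i.elim0, fun _ _ _ _ _ i => i.elim0⟩

/-- the entropy of a partition, in rates -/
def hxs {S : Sp} (X : Part S) (k : ℕ) : ℝ := H (X k) / (S.F k).n

theorem hxs_bd (X : Pt K B) {S : Sp} {x : K.Ob S} (hx : B S x) :
    ∀ᶠ k in UF, 0 ≤ hxs (X.pt x) k ∧ hxs (X.pt x) k ≤ X.C := by
  filter_upwards [X.vb S x hx] with k hk
  refine ⟨div_nonneg (H_nonneg _) (S.F k).pos.le, ?_⟩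
  unfold hxs
  rw [div_le_iff₀ (S.F k).pos]
  exact H_le_nv hk

theorem hxs_UB (X : Pt K B) {S : Sp} {x : K.Ob S} (hx : B S x) : UB (hxs (X.pt x)) :=
  UB_of_nonneg_le ((hxs_bd X hx).mono fun _ h => h.1) ((hxs_bd X hx).mono fun _ h => h.2)

/-- a partition as a label: it knows itself -/
theorem vX_ofZ {S : Sp} (Z : ∀ k, Setoid (S.F k).Ω) (k : ℕ) : vX (Lab.ofZ Z k) (fc (Z k)) = H (fc (Z k)) := by
  have key : ∀ {L : Type} [PM L] (a : L), I a a ⊥ = H a := by
    intro L _ a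
    rw [I_eq, sup_bot_eq, h_self, sub_zero, h_bot]
  have h1 : vX (Lab.ofZ Z k) (fc (Z k)) =
      I ((FLab.triv (S.F k)).p.map (fc (Z k))) ((FLab.triv (S.F k)).p.map (fc (Z k))) ⊥ := rfl
  rw [h1, key, FPj.H_map]

/-- WITHOUT CONDITIONS the information is the entropy -/
theorem iv_c0 (X : Pt K B) {S : Sp} {x : K.Ob S} (hx : B S x) : iv X (c0 K) x = ul (hxs (X.pt x)) := by
  apply le_antisymm
  · obtain ⟨l, _, e⟩ := iv_attained X (c0 K) hx
    rw [← e]
    exact ul_mono (vxs_UB X hx l) (hxs_UB X hx) (Eventually.of_forall fun k =>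
      div_le_div_of_nonneg_right (vX_le_H _ _) (S.F k).pos.le)
  · have h1 := vxs_le_iv X (c0 K) hx (l := Lab.ofZ fun k => X.X (S.F k) (x k)) (fun i => i.elim0)
    refine le_trans (le_of_eq (ul_congr (Eventually.of_forall fun k => ?_))) h1
    unfold hxs vxs
    exact congrArg (fun z => z / (S.F k).n) (vX_ofZ (fun k => X.X (S.F k) (x k)) k).symm

theorem hxs_tendsto (X : Pt K B) {S : Sp} {x : K.Ob S} (hx : B S x) :
    Tendsto (hxs (X.pt x)) UF (𝓝 (iv X (c0 K) x)) := by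
  rw [iv_c0 X hx]
  exact ul_tendsto (hxs_UB X hx)

section
variable {κ : Type} [Encodable κ]

/-- THE ENTROPY OF A PARTITION OVER THE MAXIMAL LABELS -/
def hv (X : Pt K B) (A : Cd K κ) {S : Sp} (x : K.Ob S) : ℝ := iv X (c0 K) x - iv X A x

theorem hv_nonneg (X : Pt K B) (A : Cd K κ) {S : Sp} {x : K.Ob S} (hx : B S x) : 0 ≤ hv X A x :=
  sub_nonneg.mpr (iv_mono hx fun _ _ i => i.elim0)

theorem hv_le (X : Pt K B) (A : Cd K κ) {S : Sp} {x : K.Ob S} (hx : B S x) : hv X A x ≤ X.C := by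
  have h1 : iv X (c0 K) x ≤ X.C := gvf_le (V := X.vk (G0 K B).C) (G0 K B) (c0 K) hx
  have h2 : 0 ≤ iv X A x := gvf_nonneg (V := X.vk (G0 K B).C) (G0 K B) A hx
  unfold hv
  linarith

/-- the entropy over a maximal label -/
theorem hv_tendsto (X : Pt K B) (A : Cd K κ) {S : Sp} {x : K.Ob S} (hx : B S x) {i : κ} (hA : (A.cf x i).Bd)
    {l : Lab S} (hl : l.IsMaxf (A.cf x)) :
    Tendsto (fun k => h ((l k).p.map (X.pt x k)) (l k).v / (S.F k).n) UF (𝓝 (hv X A x)) := by
  refine ((hxs_tendsto X hx).sub (vxs_eq X A hx hA hl)).congr fun k => ?_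
  unfold hxs vxs
  rw [h_eq_vX, sub_div]

/-- every label without leak leaves at least this entropy -/
theorem hv_le_of (X : Pt K B) (A : Cd K κ) {S : Sp} {x : K.Ob S} (hx : B S x) {l : Lab S} (hl : l.DMf (A.cf x)) :
    hv X A x ≤ ul (fun k => h ((l k).p.map (X.pt x k)) (l k).v / (S.F k).n) := by
  have h1 := vxs_le_iv X A hx hl
  have h2 := (hxs_tendsto X hx).sub (ul_tendsto (vxs_UB X hx l))
  have h3 : ul (fun k => h ((l k).p.map (X.pt x k)) (l k).v / (S.F k).n) = iv X (c0 K) x - ul (vxs l (X.pt x)) := by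
    refine ul_eq (h2.congr fun k => ?_)
    unfold hxs vxs
    rw [h_eq_vX, sub_div]
  rw [h3]
  unfold hv
  linarith

/-- THE FUNCTIONAL of the informations -/
def ivF (hB : ImCl B) (X : Pt K B) (A : Cd K κ) : Fnl B := gvF (G0 K B) (X.vk (G0 K B).C) A hB

theorem ivF_f (hB : ImCl B) (X : Pt K B) (A : Cd K κ) (S : Sp) (x : K.Ob S) : (ivF hB X A).f S x = iv X A x := rfl

end

end

end Pool.Agent.Helper52.GF
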