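import Pool.Agent.Helper52.GF.Kf
import Pool.Agent.Helper49.MD.Dl

/-! DIAGONALS OF ADMISSIBLE SEQUENCES are admissible, their values are the limits; so the diagonals of maximisers are
maximisers in classes with a constant value. -/

set_option autoImplicit false

namespace Pool.Agent.Helper52.GF

open Finset Filter Topology Matrix Pool.Agent.Helper69.RK Pool.Agent.Helper31.EC Pool.Agent.Helper31.EC.Sp
open Pool.Agent.Helper40.EL Pool.Agent.Helper89.LX Pool.Agent.Helper59.EV Pool.Agent.Helper49.MD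
open Pool.Agent.Helper95.LF (PdM)

noncomputable section

variable {K : FK} {B : K.Pd} {ι κ : Type} [Fintype ι] [DecidableEq ι] [Encodable κ]

variable (G : Gk K B ι) (A : Cd K κ) (P : Rq K ι)

/-- admissible sequences are eventually admissible up to `η` -/
theorem Adk_ev {S : Sp} {x : K.Ob S} (hx : B S x) {y : ∀ k, FD (S.F k) ι} (hy : G.Adc A hx y) {η : ℝ} (hη : 0 < η) :
    ∀ᶠ k in UF, G.Adk A x η k (y k) := by
  have h1 : ∀ᶠ k in UF, ∀ i, Used η i → (y k).l.leak (A.c (S.F k) (x k) i) ≤ η * (S.F k).n := by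
    refine ev_used hη fun i => ?_
    have h2 : Tendsto (fun k => (y k).l.leak (A.c (S.F k) (x k) i) / (S.F k).n) UF (𝓝 0) := hy.1 i
    filter_upwards [h2.eventually (gt_mem_nhds hη)] with k hk
    rw [div_lt_iff₀ (S.F k).pos] at hk
    exact hk.le
  filter_upwards [h1, Adc_cpf G A hx hy, hy.2 η hη] with k a b c
  exact ⟨a, b, c.2.1, c.2.2⟩

/-- the diagonal of labels with forms -/
def dgf {S : ℕ → Sp} (y : ∀ j k, FD ((S j).F k) ι) (J : ℕ → ℕ) (h : Tendsto (fun k => ((S (J k)).F k).n) UF atTop) :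
    ∀ k, FD ((dsp S J h).F k) ι := fun k => y (J k) k

/-- THE DIAGONAL OF ADMISSIBLE SEQUENCES -/
theorem dg_adm {C : K.Pd} (hC : DiagCl C) (hCB : ∀ S x, C S x → B S x) {S : ℕ → Sp} {x : ∀ j, K.Ob (S j)}
    (hx : ∀ j, C (S j) (x j)) {y : ∀ j k, FD ((S j).F k) ι} (hy : ∀ j, G.AdcP A P (hCB _ _ (hx j)) (y j)) :
    ∃ Q : ℕ → ℕ → ℕ → Prop, (∀ i j, ∀ᶠ k in UF, Q i j k) ∧ ∀ (J : ℕ → ℕ) (hJ : Slo S Q J),
      ∃ h : C _ (K.dgo S x J hJ.lim), G.AdcP A P (hCB _ _ h) (dgf y J hJ.lim) := by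
  obtain ⟨Q1, hQ1, h1⟩ := hC S x hx
  refine ⟨fun i j k => Q1 i j k ∧ (G.Adk A (x j) (1 / ((j : ℝ) + 1)) k (y j k) ∧ P.P ((S j).F k) (x j k) (y j k)),
    fun i j => (hQ1 i j).and ((Adk_ev G A (hCB _ _ (hx j)) (hy j).1 (by positivity)).and (hy j).2), fun J hJ => ?_⟩
  refine ⟨h1 J hJ.left, Adc_of G A _ (inv_tendsto hJ.tend) ?_, ?_⟩
  · filter_upwards [hJ.right.slow 0] with k hk
    exact hk.1
  · filter_upwards [hJ.right.slow 0] with k hk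
    exact hk.2

variable {G}

omit [Encodable κ] in
/-- VALUES OF THE DIAGONAL -/
theorem dg_val (V : Vk K B ι G.C) {S : ℕ → Sp} {x : ∀ j, K.Ob (S j)}
    (hx : ∀ j, B (S j) (x j)) {y : ∀ j k, FD ((S j).F k) ι} (hy : ∀ j, G.Adc A (hx j) (y j)) {v : ℕ → ℝ}
    (hv : ∀ j, ul (evv V (x j) (y j)) = v j) {v0 : ℝ} (hlim : Tendsto v atTop (𝓝 v0)) :
    ∃ Q : ℕ → ℕ → ℕ → Prop, (∀ i j, ∀ᶠ k in UF, Q i j k) ∧ ∀ (J : ℕ → ℕ) (hJ : Slo S Q J),
      Tendsto (evv V (K.dgo S x J hJ.lim) (dgf y J hJ.lim)) UF (𝓝 v0) := by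
  refine ⟨fun _ j k => |evv V (x j) (y j) k - v j| ≤ 1 / ((j : ℝ) + 1), fun _ j => ?_, fun J hJ => ?_⟩
  · have t := ul_tendsto (ev_UB (V := V) G A (hx j) (hy j))
    rw [hv j] at t
    filter_upwards [Metric.tendsto_nhds.mp t _ (by positivity : (0 : ℝ) < 1 / ((j : ℝ) + 1))] with k hk
    rw [← Real.dist_eq]
    exact hk.le
  · have t1 : Tendsto (fun k => v (J k)) UF (𝓝 v0) := hlim.comp hJ.tend
    have t2 := inv_tendsto hJ.tend
    have t3 : Tendsto (fun k => evv V (K.dgo S x J hJ.lim) (dgf y J hJ.lim) k - v (J k)) UF (𝓝 0) := by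
      refine squeeze_zero_norm' ?_ t2
      filter_upwards [hJ.slow 0] with k hk
      rw [Real.norm_eq_abs]
      exact hk
    have t4 := t3.add t1
    rw [zero_add] at t4
    refine t4.congr fun k => ?_
    rw [sub_add_cancel]

/-- DIAGONALS OF MAXIMISERS -/
theorem dg_max {C : K.Pd} (hC : DiagCl C) (hCB : ∀ S x, C S x → B S x) (V : Vk K B ι G.C) {v : ℝ}
    {S : ℕ → Sp} {x : ∀ j, K.Ob (S j)}
    (hx : ∀ j, C (S j) (x j)) {y : ∀ j k, FD ((S j).F k) ι} (hy : ∀ j, G.AdcP A P (hCB _ _ (hx j)) (y j))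
    (hv : ∀ j, ul (evv V (x j) (y j)) = v) :
    ∃ Q : ℕ → ℕ → ℕ → Prop, (∀ i j, ∀ᶠ k in UF, Q i j k) ∧ ∀ (J : ℕ → ℕ) (hJ : Slo S Q J),
      (∃ h : C _ (K.dgo S x J hJ.lim), G.AdcP A P (hCB _ _ h) (dgf y J hJ.lim)) ∧
        ul (evv V (K.dgo S x J hJ.lim) (dgf y J hJ.lim)) = v := by
  obtain ⟨Q1, hQ1, h1⟩ := dg_adm G A P hC hCB hx hy
  obtain ⟨Q2, hQ2, h2⟩ := dg_val A V (fun j => hCB _ _ (hx j))
    (fun j => (hy j).1) hv tendsto_const_nhds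
  exact ⟨fun i j k => Q1 i j k ∧ Q2 i j k, fun i j => (hQ1 i j).and (hQ2 i j), fun J hJ =>
    ⟨h1 J hJ.left, ul_eq (h2 J hJ.right)⟩⟩

end

end Pool.Agent.Helper52.GF
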