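import Pool.Agent.Helper52.GF.Pen

/-! FUNCTIONALS of objects of a kind: the limits of the penalised values; the supremum of the values over the admissible
sequences of labels with forms is attained, exactly additive over events, usc along diagonals. -/

set_option autoImplicit false

namespace Pool.Agent.Helper52.GF

open Finset Filter Topology Matrix Pool.Agent.Helper69.RK Pool.Agent.Helper31.EC Pool.Agent.Helper31.EC.Sp
open Pool.Agent.Helper40.EL Pool.Agent.Helper89.LX Pool.Agent.Helper59.EV Pool.Agent.Helper49.MD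
open Pool.Agent.Helper52.KP (glue)
open Pool.Agent.Helper95.LF (PdM)

noncomputable section

variable {K : FK} {B : K.Pd} {ι κ : Type} [Fintype ι] [DecidableEq ι] [Encodable κ]
variable (G : Gk K B ι) (V : Vk K B ι G.C) (A : Cd K κ)

/-- the limit of the penalised values -/
def gvl (η : ℝ) {S : Sp} (x : K.Ob S) : ℝ := ul (fun k => gvo G V A η (S.F k) (x k))

/-- the values of a sequence of labels with forms -/
def evv {C : ℝ} (V : Vk K B ι C) {S : Sp} (x : K.Ob S) (y : ∀ k, FD (S.F k) ι) (k : ℕ) : ℝ := V.v (S.F k) (x k) (y k)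

theorem inv_pos_j (j : ℕ) : (0 : ℝ) < 1 / ((j : ℝ) + 1) := by positivity

theorem exists_index {η : ℝ} (h0 : 0 < η) : ∃ j : ℕ, (1 : ℝ) / ((j : ℝ) + 1) ≤ η := by
  obtain ⟨j, hj⟩ := exists_nat_one_div_lt h0
  exact ⟨j, hj.le⟩

section
variable {S : Sp} {x : K.Ob S}

/-- the bounds of the values hold eventually -/
def Ebd {C : ℝ} (V : Vk K B ι C) {S : Sp} (x : K.Ob S) : Prop := ∀ᶠ k in UF, ∀ y : FD (S.F k) ι, V.v (S.F k) (x k) y ≤ V.M

omit [Encodable κ] in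
theorem ebd (hx : B S x) : Ebd V x := (V.le S x hx).mono fun _ h => h.1

omit [Encodable κ] in
theorem ebd_im (hx : B S x) {T : Sp} (p : Pj T S) (E : ∀ k, (T.F k).Ω → Prop) : Ebd V (K.imo x p E) :=
  (V.le S x hx).mono fun k h => h.2 (T.F k) (p.fp k) (E k)

variable {V}

theorem gvo_UB {η : ℝ} (h0 : 0 < η) (hb : Ebd V x) : UB (fun k => gvo G V A η (S.F k) (x k)) :=
  ⟨2 / η + V.M, hb.mono fun k hk => by
    have h1 := gvo_ge G A h0 hk
    have h2 := gvo_le G A h0 hk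
    have h3 := V.M0
    have h4 : 0 < 2 / η := by positivity
    rw [abs_le]
    constructor <;> linarith⟩

theorem gvl_le {η : ℝ} (h0 : 0 < η) (hb : Ebd V x) : gvl G V A η x ≤ V.M :=
  ul_le_const (gvo_UB G A h0 hb) (hb.mono fun _ hk => gvo_le G A h0 hk)

theorem gvl_mono {η η' : ℝ} (h0 : 0 < η) (h : η ≤ η') (hb : Ebd V x) : gvl G V A η x ≤ gvl G V A η' x :=
  ul_mono (gvo_UB G A h0 hb) (gvo_UB G A (h0.trans_le h) hb) (hb.mono fun _ hk => gvo_mono G A h0 h hk)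

/-- THE ADMISSIBLE SEQUENCES of labels with forms (any family of conditions) -/
def Gk.Adc {κ : Type} (G : Gk K B ι) (A : Cd K κ) {S : Sp} {x : K.Ob S} (hx : B S x) (y : ∀ k, FD (S.F k) ι) : Prop :=
  Lab.DMf (fun k => (y k).l) (A.cf x) ∧ (G.gau hx).Fm y

theorem Gk.Adc_iff {κ : Type} [Finite κ] (G : Gk K B ι) (A : Cd K κ) (hx : B S x) {y : ∀ k, FD (S.F k) ι} :
    G.Adc A hx y ↔ (G.gau hx).Adf (A.cf x) y := Gau.Adf_iff.symm

/-- admissible up to `η` -/
def Gk.Adk (G : Gk K B ι) (A : Cd K κ) {S : Sp} (x : K.Ob S) (η : ℝ) (k : ℕ) (w : FD (S.F k) ι) : Prop :=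
  (∀ i, Used η i → w.l.leak (A.c (S.F k) (x k) i) ≤ η * (S.F k).n) ∧ Cpf G.C w ∧
    w.l.T.pb (fun ω => ¬ G.φ (S.F k) (x k) (w.l.p.π ω) (w.g ω) ≤ 2 ^ (η * (S.F k).n)) ≤ η ∧
    w.l.T.pb (fun ω => ¬ G.φ (S.F k) (x k) (w.l.p.π ω) (w.g' ω) ≤ 2 ^ (η * (S.F k).n)) ≤ η

/-- admissible sequences from sequences which are admissible up to `d k → 0` -/
theorem Adc_of (hx : B S x) {y : ∀ k, FD (S.F k) ι} {d : ℕ → ℝ} (hd : Tendsto d UF (𝓝 0))
    (h : ∀ᶠ k in UF, G.Adk A x (d k) k (y k)) : G.Adc A hx y := by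
  constructor
  · intro i
    refine tendsto_of_tendsto_of_tendsto_of_le_of_le' tendsto_const_nhds hd
      (Eventually.of_forall fun k => div_nonneg (FLab.leak_nonneg _ _) (S.F k).pos.le) ?_
    filter_upwards [h, used_ev hd i] with k hk hu
    rw [div_le_iff₀ (S.F k).pos]
    exact hk.1 i hu
  · intro η hη
    filter_upwards [h, hd.eventually (gt_mem_nhds hη)] with k hk hu
    have key : ∀ g : (y k).l.T.Ω → Matrix ι ι ℝ,
        (y k).l.T.pb (fun ω => ¬ G.φ (S.F k) (x k) ((y k).l.p.π ω) (g ω) ≤ 2 ^ (d k * (S.F k).n)) ≤ d k →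
        (y k).l.T.pb (fun ω => ¬ (G.gau hx).φ k ((y k).l.p.π ω) (g ω) ≤ 2 ^ (η * (S.F k).n)) ≤ η := by
      intro g hg
      refine le_trans ?_ (hg.trans hu.le)
      apply FSp.pb_mono
      intro ω _ h3 h4
      apply h3
      refine h4.trans (Real.rpow_le_rpow_of_exponent_le (by norm_num) ?_)
      exact mul_le_mul_of_nonneg_right hu.le (S.F k).pos.le
    exact ⟨fun ω hω => hk.2.1 ω hω, key _ hk.2.2.1, key _ hk.2.2.2⟩

omit [Encodable κ] in
theorem Adc_cpf (hx : B S x) {y : ∀ k, FD (S.F k) ι} (hy : G.Adc A hx y) : ∀ᶠ k in UF, Cpf G.C (y k) := by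
  filter_upwards [hy.2 1 one_pos] with k hk
  exact fun ω hω => hk.1 ω hω

omit [Encodable κ] in
theorem ev_bounds (hx : B S x) {y : ∀ k, FD (S.F k) ι} (hy : G.Adc A hx y) :
    ∀ᶠ k in UF, 0 ≤ evv V x y k ∧ evv V x y k ≤ V.M := by
  filter_upwards [ebd G V hx, Adc_cpf G A hx hy] with k h1 h2
  exact ⟨V.nn _ _ _ h2, h1 _⟩

omit [Encodable κ] in
theorem ev_UB (hx : B S x) {y : ∀ k, FD (S.F k) ι} (hy : G.Adc A hx y) : UB (evv V x y) :=
  UB_of_nonneg_le ((ev_bounds G A hx hy).mono fun _ h => h.1) ((ev_bounds G A hx hy).mono fun _ h => h.2)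

theorem fval2_bk (η : ℝ) (F : FSp) (x : K.X F) (y : FD F ι) : fval2 (bk G η F x) y =
    y.l.T.pb (fun ω => ¬ G.φ F x (y.l.p.π ω) (y.g ω) ≤ 2 ^ (η * F.n)) +
    y.l.T.pb (fun ω => ¬ G.φ F x (y.l.p.π ω) (y.g' ω) ≤ 2 ^ (η * F.n)) := by
  rw [pb_fval (F := F) (fun ω X => ¬ G.φ F x ω X ≤ 2 ^ (η * F.n)) y,
    pb_fval' (F := F) (fun ω X => ¬ G.φ F x ω X ≤ 2 ^ (η * F.n)) y]
  unfold fval2 fval bk
  rw [← Finset.sum_add_distrib]
  exact Finset.sum_congr rfl fun ω _ => mul_add _ _ _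

omit [Encodable κ] in
/-- the bad events of admissible sequences -/
theorem bad_tendsto {η : ℝ} (h0 : 0 < η) (hx : B S x) {y : ∀ k, FD (S.F k) ι}
    (hy : G.Adc A hx y) : Tendsto (fun k => fval2 (bk G η (S.F k) (x k)) (y k)) UF (𝓝 0) := by
  have key : ∀ g : ∀ k, (y k).l.T.Ω → Matrix ι ι ℝ,
      (∀ e : ℝ, 0 < e → ∀ᶠ k in UF, (y k).l.T.pb (fun ω => ¬ G.φ (S.F k) (x k) ((y k).l.p.π ω) (g k ω) ≤
        2 ^ (e * (S.F k).n)) ≤ e) →
      Tendsto (fun k => (y k).l.T.pb (fun ω => ¬ G.φ (S.F k) (x k) ((y k).l.p.π ω) (g k ω) ≤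
        2 ^ (η * (S.F k).n))) UF (𝓝 0) := by
    intro g hg
    rw [Metric.tendsto_nhds]
    intro e he
    filter_upwards [hg (min η (e / 2)) (lt_min h0 (half_pos he))] with k hk
    rw [Real.dist_eq, sub_zero, abs_of_nonneg ((y k).l.T.pb_nonneg _)]
    have h2 : (y k).l.T.pb (fun ω => ¬ G.φ (S.F k) (x k) ((y k).l.p.π ω) (g k ω) ≤ 2 ^ (η * (S.F k).n)) ≤
        (y k).l.T.pb (fun ω => ¬ G.φ (S.F k) (x k) ((y k).l.p.π ω) (g k ω) ≤ 2 ^ (min η (e / 2) * (S.F k).n)) := by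
      apply FSp.pb_mono
      intro ω _ h3 h4
      apply h3
      refine h4.trans (Real.rpow_le_rpow_of_exponent_le (by norm_num) ?_)
      exact mul_le_mul_of_nonneg_right (min_le_left _ _) (S.F k).pos.le
    have h5 := min_le_right η (e / 2)
    linarith
  have t1 := key (fun k => (y k).g) fun e he => (hy.2 e he).mono fun k hk => hk.2.1
  have t2 := key (fun k => (y k).g') fun e he => (hy.2 e he).mono fun k hk => hk.2.2
  have t3 := t1.add t2
  rw [add_zero] at t3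
  exact t3.congr fun k => (fval2_bk G η (S.F k) (x k) (y k)).symm

theorem lks_tendsto (η : ℝ) (hx : B S x) {y : ∀ k, FD (S.F k) ι} (hy : G.Adc A hx y) :
    Tendsto (fun k => lks η (A.c (S.F k) (x k)) (y k).l / (S.F k).n) UF (𝓝 0) := by
  have h2 : Tendsto (fun k => ∑ n ∈ Finset.range (nus η), dlk (A.c (S.F k) (x k)) (y k).l n / (S.F k).n) UF
      (𝓝 (∑ _n ∈ Finset.range (nus η), 0)) := by
    refine tendsto_finsetSum _ fun n _ => ?_
    unfold dlk
    cases (Encodable.decode n : Option κ) with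
    | none =>
      have e : (fun k => (0 : ℝ) / (S.F k).n) = fun _ => 0 := funext fun k => zero_div _
      exact e ▸ tendsto_const_nhds
    | some i => exact hy.1 i
  rw [Finset.sum_const_zero] at h2
  refine h2.congr fun k => ?_
  unfold lks
  rw [Finset.sum_div]

/-- values of admissible sequences -/
theorem ev_le_gvl {η : ℝ} (h0 : 0 < η) (hx : B S x) {y : ∀ k, FD (S.F k) ι} (hy : G.Adc A hx y) :
    ul (evv V x y) ≤ gvl G V A η x := by
  have t1 := bad_tendsto G A h0 hx hy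
  have t2 := lks_tendsto G A η hx hy
  have t3 := ul_tendsto (ev_UB (V := V) G A hx hy)
  have t4 := (t3.sub (t1.div_const η)).sub (t2.div_const η)
  rw [zero_div, sub_zero, sub_zero] at t4
  refine le_of_tendsto_of_tendsto t4 (ul_tendsto (gvo_UB G A h0 (ebd G V hx))) ?_
  filter_upwards [ebd G V hx, Adc_cpf G A hx hy] with k h1 h2
  refine le_trans (le_of_eq ?_) (gvv_le_gvo G A h0 h1 (y := y k) h2)
  unfold gvv evv
  rw [div_right_comm (lks η (A.c (S.F k) (x k)) (y k).l)]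

theorem gvl_nonneg {η : ℝ} (h0 : 0 < η) (hx : B S x) : 0 ≤ gvl G V A η x := by
  have hA : G.Adc A hx (fun k => trivFD (S.F k)) :=
    ⟨Lab.DMf_triv _, Gau.Adf.fm ((G.gau hx).triv_Adf (κ := Fin 0) (fun i => i.elim0))⟩
  exact (const_le_ul (ev_UB (V := V) G A hx hA) ((ev_bounds G A hx hA).mono fun _ h => h.1)).trans
    (ev_le_gvl G A h0 hx hA)

/-- labels with forms of large penalised value are admissible -/
theorem adm_of_gvv {η η' v : ℝ} (h0 : 0 < η) (hη : η * (V.M + 1) ≤ η') (hη' : η ≤ η')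
    (hv : -1 ≤ v) {k : ℕ} (hb : Vbd G V (S.F k) (x k)) {w : FD (S.F k) ι} (hcap : Cpf G.C w)
    (h1 : v ≤ gvv G V A η (S.F k) (x k) w) :
    G.Adk A x η' k w ∧ v ≤ V.v (S.F k) (x k) w := by
  have hn := (S.F k).pos
  have hw := hb w
  unfold gvv at h1
  have hbd := fval2_bk G η (S.F k) (x k) w
  have kb : ∀ g : w.l.T.Ω → Matrix ι ι ℝ,
      w.l.T.pb (fun ω => ¬ G.φ (S.F k) (x k) (w.l.p.π ω) (g ω) ≤ 2 ^ (η' * (S.F k).n)) ≤
      w.l.T.pb (fun ω => ¬ G.φ (S.F k) (x k) (w.l.p.π ω) (g ω) ≤ 2 ^ (η * (S.F k).n)) := by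
    intro g
    apply FSp.pb_mono
    intro ω _ h4 h5
    apply h4
    refine h5.trans (Real.rpow_le_rpow_of_exponent_le (by norm_num) ?_)
    exact mul_le_mul_of_nonneg_right hη' hn.le
  have kb1 := kb w.g
  have kb2 := kb w.g'
  have hb10 : 0 ≤ w.l.T.pb (fun ω => ¬ G.φ (S.F k) (x k) (w.l.p.π ω) (w.g ω) ≤ 2 ^ (η * (S.F k).n)) :=
    w.l.T.pb_nonneg _
  have hb20 : 0 ≤ w.l.T.pb (fun ω => ¬ G.φ (S.F k) (x k) (w.l.p.π ω) (w.g' ω) ≤ 2 ^ (η * (S.F k).n)) :=
    w.l.T.pb_nonneg _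
  rw [hbd] at h1
  generalize w.l.T.pb (fun ω => ¬ G.φ (S.F k) (x k) (w.l.p.π ω) (w.g ω) ≤ 2 ^ (η * (S.F k).n)) = b1
    at h1 kb1 hb10
  generalize w.l.T.pb (fun ω => ¬ G.φ (S.F k) (x k) (w.l.p.π ω) (w.g' ω) ≤ 2 ^ (η * (S.F k).n)) = b2
    at h1 kb2 hb20
  have hl := lks_nonneg η (A.c (S.F k) (x k)) w.l
  have hl0 : 0 ≤ lks η (A.c (S.F k) (x k)) w.l / η / (S.F k).n := by positivity
  have hb0 : 0 ≤ (b1 + b2) / η := by positivity
  have k1 : (b1 + b2) / η ≤ V.M + 1 := by linarith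
  have k2 : lks η (A.c (S.F k) (x k)) w.l / η / (S.F k).n ≤ V.M + 1 := by linarith
  rw [div_le_iff₀ h0] at k1
  rw [div_div, div_le_iff₀ (by positivity)] at k2
  have k4 : (V.M + 1) * (η * (S.F k).n) ≤ η' * (S.F k).n := by
    have := mul_le_mul_of_nonneg_right hη hn.le
    linarith
  refine ⟨⟨fun i hi => ?_, hcap, by linarith, by linarith⟩, by linarith⟩
  have h5 := leak_le_lks h0 (A.c (S.F k) (x k)) w.l (hi.mono hη')
  exact (h5.trans k2).trans k4

variable (V)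

/-- THE VALUE -/
def gvf {S : Sp} (x : K.Ob S) : ℝ := ⨅ j : ℕ, gvl G V A (1 / ((j : ℝ) + 1)) x

variable {V}

theorem gvf_bdd (hx : B S x) : BddBelow (Set.range fun j : ℕ => gvl G V A (1 / ((j : ℝ) + 1)) x) :=
  ⟨0, by rintro r ⟨j, rfl⟩; exact gvl_nonneg G A (inv_pos_j j) hx⟩

theorem gvf_nonneg (hx : B S x) : 0 ≤ gvf G V A x := le_ciInf fun j => gvl_nonneg G A (inv_pos_j j) hx

theorem gvf_le_gvl {η : ℝ} (h0 : 0 < η) (hx : B S x) : gvf G V A x ≤ gvl G V A η x := by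
  obtain ⟨j, hj⟩ := exists_index h0
  exact (ciInf_le (gvf_bdd G A hx) j).trans (gvl_mono G A (inv_pos_j j) hj (ebd G V hx))

theorem gvf_le (hx : B S x) : gvf G V A x ≤ V.M :=
  (gvf_le_gvl G A one_pos hx).trans (gvl_le G A one_pos (ebd G V hx))

theorem gvf_tendsto (hx : B S x) : Tendsto (fun j : ℕ => gvl G V A (1 / ((j : ℝ) + 1)) x) atTop (𝓝 (gvf G V A x)) := by
  apply tendsto_atTop_ciInf _ (gvf_bdd G A hx)
  intro i j hij
  apply gvl_mono G A (inv_pos_j j) _ (ebd G V hx)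
  apply one_div_le_one_div_of_le (by positivity)
  have : (i : ℝ) ≤ j := by exact_mod_cast hij
  linarith

/-- VALUES OF ADMISSIBLE SEQUENCES -/
theorem ev_le_gvf (hx : B S x) {y : ∀ k, FD (S.F k) ι} (hy : G.Adc A hx y) :
    ul (evv V x y) ≤ gvf G V A x := le_ciInf fun j => ev_le_gvl G A (inv_pos_j j) hx hy

/-- THE VALUE IS ATTAINED -/
theorem gvf_attained (hx : B S x) : ∃ y : ∀ k, FD (S.F k) ι, G.Adc A hx y ∧
    ul (evv V x y) = gvf G V A x := by
  set η : ℕ → ℝ := fun j => 1 / (((j : ℝ) + 1) * (V.M + 1)) with hηd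
  have hM := V.M0
  have hη0 : ∀ j, 0 < η j := fun j => by rw [hηd]; positivity
  have hηM : ∀ j, η j * (V.M + 1) ≤ 1 / ((j : ℝ) + 1) := fun j => by
    rw [hηd]
    have h1 : (1 : ℝ) / (((j : ℝ) + 1) * (V.M + 1)) * (V.M + 1) = 1 / ((j : ℝ) + 1) := by
      field_simp
    rw [h1]
  have hηl : ∀ j, η j ≤ 1 / ((j : ℝ) + 1) := fun j => by
    rw [hηd]
    apply one_div_le_one_div_of_le (by positivity)
    have : (0 : ℝ) ≤ j := Nat.cast_nonneg j
    nlinarith
  have hf := gvf_nonneg (V := V) G A hx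
  have h1 : ∀ j : ℕ, ∃ y : ∀ k, FD (S.F k) ι, ∀ᶠ k in UF, Cpf G.C (y k) ∧
      gvf G V A x - 1 / ((j : ℝ) + 1) ≤ gvv G V A (η j) (S.F k) (x k) (y k) := by
    intro j
    have hpj := inv_pos_j j
    have h2 := eventually_gt_of_lt_ul (c := gvf G V A x - 1 / ((j : ℝ) + 1))
      (gvo_UB G A (hη0 j) (ebd G V hx)) (lt_of_lt_of_le (by linarith) (gvf_le_gvl G A (hη0 j) hx))
    classical
    refine ⟨fun k => if hk : ∃ y : FD (S.F k) ι, Cpf G.C y ∧
      gvf G V A x - 1 / ((j : ℝ) + 1) ≤ gvv G V A (η j) (S.F k) (x k) y then hk.choose else trivFD (S.F k), ?_⟩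
    filter_upwards [h2] with k hk
    obtain ⟨r, ⟨y, hy, rfl⟩, hr⟩ := exists_lt_of_lt_csSup (gvs_ne _ _ _ _ _ _) hk
    have hk' : ∃ y : FD (S.F k) ι, Cpf G.C y ∧
      gvf G V A x - 1 / ((j : ℝ) + 1) ≤ gvv G V A (η j) (S.F k) (x k) y := ⟨y, hy, hr.le⟩
    rw [dif_pos hk']
    exact hk'.choose_spec
  choose y hy using h1
  obtain ⟨z, J, hJ, _, hz0⟩ := dia' (X := fun k => FD (S.F k) ι) y
    (fun j k w => G.Adk A x (1 / ((j : ℝ) + 1)) k w ∧ gvf G V A x - 1 / ((j : ℝ) + 1) ≤ V.v (S.F k) (x k) w) (by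
      intro j
      have h2 : (1 : ℝ) / ((j : ℝ) + 1) ≤ 1 := by
        rw [div_le_one (by positivity)]
        have : (0 : ℝ) ≤ j := Nat.cast_nonneg j
        linarith
      filter_upwards [hy j, ebd G V hx] with k hk hb
      exact adm_of_gvv G A (hη0 j) (hηM j) (hηl j) (by linarith) hb hk.1 hk.2)
  have hz := hz0.mono fun k hk => hk.2
  have hzA : G.Adc A hx z := Adc_of G A hx (inv_tendsto hJ) (hz0.mono fun k hk => hk.1)
  refine ⟨z, hzA, le_antisymm (ev_le_gvf G A hx hzA) ?_⟩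
  have t0 : Tendsto (fun k => gvf G V A x - 1 / ((J k : ℝ) + 1)) UF (𝓝 (gvf G V A x)) := by
    have := ((tendsto_one_div_add_atTop_nhds_zero_nat (𝕜 := ℝ)).comp hJ).const_sub (gvf G V A x)
    rwa [sub_zero] at this
  exact le_of_tendsto_of_tendsto t0 (ul_tendsto (ev_UB (V := V) G A hx hzA)) hz

end

/-! ### events -/

section
variable {S : Sp} {x : K.Ob S} {T : Sp} (p : Pj T S) (E : ∀ k, (T.F k).Ω → Prop) (hB : ImCl B)

variable {V}
include hB

/-- superadditivity over events -/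
theorem gvf_glue (hx : B S x) (hE : 0 < ul (T.pr E)) (hE' : 0 < ul (T.pr fun k ω => ¬ E k ω)) :
    ul (T.pr E) * gvf G V A (K.imo x p E) + (1 - ul (T.pr E)) * gvf G V A (K.imo x p fun k ω => ¬ E k ω) ≤
      gvf G V A x := by
  have hP0 : 0 ≤ ul (T.pr E) := hE.le
  have hP1 : 0 ≤ 1 - ul (T.pr E) := by
    have : ul (T.pr E) ≤ 1 := ul_pr_le_one E
    linarith
  have hx1 := hB S x hx T p E hE
  have hx2 := hB S x hx T p _ hE'
  refine le_ciInf fun j => ?_
  have hj := inv_pos_j j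
  have h1 := mul_le_mul_of_nonneg_left (gvf_le_gvl (V := V) G A hj hx1) hP0
  have h2 := mul_le_mul_of_nonneg_left (gvf_le_gvl (V := V) G A hj hx2) hP1
  refine (add_le_add h1 h2).trans ?_
  have t1 := ((ul_tendsto (Sp.UB_pr E)).mul (ul_tendsto (gvo_UB G A hj (ebd G V hx1)))).add
    (((ul_tendsto (Sp.UB_pr E)).const_sub 1).mul (ul_tendsto (gvo_UB G A hj (ebd G V hx2))))
  have t2 := (ul_tendsto (gvo_UB G A hj (ebd G V hx))).add
    (S.div_n_tendsto (V.e + nus (1 / ((j : ℝ) + 1)) / (1 / ((j : ℝ) + 1))))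
  rw [add_zero] at t2
  refine le_of_tendsto_of_tendsto t1 t2 ?_
  filter_upwards [ebd G V hx] with k hk
  exact gvo_glue G A hj (p.fp k) (E k) hk

/-- subadditivity over events -/
theorem gvf_split (hx : B S x) (hE : 0 < ul (T.pr E)) (hE' : 0 < ul (T.pr fun k ω => ¬ E k ω)) :
    gvf G V A x ≤ ul (T.pr E) * gvf G V A (K.imo x p E) +
      (1 - ul (T.pr E)) * gvf G V A (K.imo x p fun k ω => ¬ E k ω) := by
  have hx1 := hB S x hx T p E hE
  have hx2 := hB S x hx T p _ hE'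
  have t := ((gvf_tendsto (V := V) G A hx1).const_mul (ul (T.pr E))).add
    ((gvf_tendsto (V := V) G A hx2).const_mul (1 - ul (T.pr E)))
  refine ge_of_tendsto' t fun j => ?_
  have hj : (0 : ℝ) < 1 / ((j : ℝ) + 1) / 2 := by positivity
  have e2 : 2 * ((1 : ℝ) / ((j : ℝ) + 1) / 2) = 1 / ((j : ℝ) + 1) := by ring
  refine (gvf_le_gvl G A hj hx).trans ?_
  have hq0 := inv_pos_j j
  have t1 := (((ul_tendsto (Sp.UB_pr E)).mul (ul_tendsto (gvo_UB G A hq0 (ebd G V hx1)))).add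
    (((ul_tendsto (Sp.UB_pr E)).const_sub 1).mul (ul_tendsto (gvo_UB G A hq0 (ebd G V hx2))))).add
    (S.div_n_tendsto (V.e + nus (1 / ((j : ℝ) + 1) / 2) / (1 / ((j : ℝ) + 1) / 2)))
  rw [add_zero] at t1
  refine le_of_tendsto_of_tendsto (ul_tendsto (gvo_UB G A hj (ebd G V hx))) t1 ?_
  filter_upwards [V.le S x hx] with k hk
  have h1 := gvo_split G A (V := V) hj (p.fp k) (p.hn k) (E k) (x := x k) (Bdv.r G V hk (p.fp k) (E k))
    (Bdv.r G V hk (p.fp k) fun ω => ¬ E k ω)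
  rw [e2] at h1
  exact h1

/-- ADDITIVITY OVER EVENTS -/
theorem gvf_add (hx : B S x) (hE : 0 < ul (T.pr E)) (hE' : 0 < ul (T.pr fun k ω => ¬ E k ω)) :
    gvf G V A x = ul (T.pr E) * gvf G V A (K.imo x p E) +
      (1 - ul (T.pr E)) * gvf G V A (K.imo x p fun k ω => ¬ E k ω) :=
  le_antisymm (gvf_split G A p E hB hx hE hE') (gvf_glue G A p E hB hx hE hE')

/-- typical events -/
theorem gvf_typ (hx : B S x) (ht : Typ E) : gvf G V A (K.imo x p E) = gvf G V A x := by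
  have hE := Sp.ul_pr_typ_pos E ht
  have hx1 := hB S x hx T p E hE
  have tp := (Typ_iff E).mp ht
  apply le_antisymm
  · refine le_ciInf fun j => ?_
    have hj := inv_pos_j j
    refine (gvf_le_gvl G A hj hx1).trans ?_
    have t1 := (tp.mul (ul_tendsto (gvo_UB G A hj (ebd G V hx1)))).add
      ((tp.const_sub 1).mul_const (-(2 / (1 / ((j : ℝ) + 1)))))
    have t2 := (ul_tendsto (gvo_UB G A hj (ebd G V hx))).add
      (S.div_n_tendsto (V.e + nus (1 / ((j : ℝ) + 1)) / (1 / ((j : ℝ) + 1))))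
    rw [sub_self, zero_mul, one_mul, add_zero] at t1
    rw [add_zero] at t2
    refine le_of_tendsto_of_tendsto t1 t2 ?_
    filter_upwards [V.le S x hx] with k hk
    have h1 := gvo_glue G A (V := V) hj (p.fp k) (E k) (x := x k) (Bdv.l G V hk)
    have h2 := gvo_ge G A (V := V) hj (Bdv.r G V hk (p.fp k) fun ω => ¬ E k ω)
    have h3 := mul_le_mul_of_nonneg_left h2 (sub_nonneg.mpr ((T.F k).pb_le_one (E k)))
    exact (add_le_add (le_refl _) h3).trans h1
  · refine ge_of_tendsto' (gvf_tendsto (V := V) G A hx1) fun j => ?_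
    have hj : (0 : ℝ) < 1 / ((j : ℝ) + 1) / 2 := by positivity
    have e2 : 2 * ((1 : ℝ) / ((j : ℝ) + 1) / 2) = 1 / ((j : ℝ) + 1) := by ring
    refine (gvf_le_gvl G A hj hx).trans ?_
    have hq0 := inv_pos_j j
    have t1 := ((tp.mul (ul_tendsto (gvo_UB G A hq0 (ebd G V hx1)))).add ((tp.const_sub 1).mul_const V.M)).add
      (S.div_n_tendsto (V.e + nus (1 / ((j : ℝ) + 1) / 2) / (1 / ((j : ℝ) + 1) / 2)))
    rw [add_zero, sub_self, zero_mul, add_zero, one_mul] at t1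
    refine le_of_tendsto_of_tendsto (ul_tendsto (gvo_UB G A hj (ebd G V hx))) t1 ?_
    filter_upwards [V.le S x hx] with k hk
    have h1 := gvo_split G A (V := V) hj (p.fp k) (p.hn k) (E k) (x := x k) (Bdv.r G V hk (p.fp k) (E k))
      (Bdv.r G V hk (p.fp k) fun ω => ¬ E k ω)
    rw [e2] at h1
    refine h1.trans ?_
    have h2 : (1 - (T.F k).pb (E k)) * gvo G V A (1 / ((j : ℝ) + 1)) (FSp.im (p.fp k) fun ω => ¬ E k ω)
        (K.im (p.fp k) (fun ω => ¬ E k ω) (x k)) ≤ (1 - (T.F k).pb (E k)) * V.M :=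
      mul_le_mul_of_nonneg_left (gvo_le G A hq0 (Bdv.r G V hk (p.fp k) fun ω => ¬ E k ω))
        (sub_nonneg.mpr ((T.F k).pb_le_one _))
    exact add_le_add (add_le_add (le_refl _) h2) (le_refl _)

end

/-! ### the functional -/

theorem gvl_congr (η : ℝ) {S : Sp} {x y : K.Ob S} (e : ∀ᶠ k in UF, x k = y k) : gvl G V A η y = gvl G V A η x := by
  apply ul_congr
  filter_upwards [e] with k hk
  rw [hk]

theorem gvf_congr {S : Sp} {x y : K.Ob S} (e : ∀ᶠ k in UF, x k = y k) : gvf G V A y = gvf G V A x := by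
  unfold gvf
  exact congrArg iInf (funext fun j => gvl_congr G V A _ e)

/-- USC ALONG DIAGONALS -/
theorem gvf_usc : DiagUsc B (fun _ x => gvf G V A x) := by
  intro S x hx
  refine ⟨fun i j k => valE (fun F y => gvo G V A (1 / ((i : ℝ) + 1)) F y) S x j k,
    fun i j => valE_ev _ S x j (gvo_UB G A (inv_pos_j i) (ebd G V (hx j))), fun J hd => ?_⟩
  refine le_ciInf fun q => ?_
  have h1 := val_tendsto (g := fun F y => gvo G V A (1 / ((q : ℝ) + 1)) F y) hd.tend (hd.slow q)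
  have ub : UB (fun k => gvl G V A (1 / ((q : ℝ) + 1)) (x (J k))) :=
    UB_of_nonneg_le (Eventually.of_forall fun k => gvl_nonneg G A (inv_pos_j q) (hx _))
      (Eventually.of_forall fun k => gvl_le G A (inv_pos_j q) (ebd G V (hx _)))
  have h2 := h1.add (ul_tendsto ub)
  rw [zero_add] at h2
  have h3 : gvl G V A (1 / ((q : ℝ) + 1)) (K.dgo S x J hd.lim) =
      ul (fun k => gvl G V A (1 / ((q : ℝ) + 1)) (x (J k))) := by
    apply ul_eq
    refine h2.congr fun k => ?_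
    show gvo G V A (1 / ((q : ℝ) + 1)) ((S (J k)).F k) (x (J k) k) -
      gvl G V A (1 / ((q : ℝ) + 1)) (x (J k)) + gvl G V A (1 / ((q : ℝ) + 1)) (x (J k)) = _
    rw [sub_add_cancel]
    rfl
  rw [h3]
  exact ul_mono (UB_of_nonneg_le (Eventually.of_forall fun k => gvf_nonneg G A (hx _))
    (Eventually.of_forall fun k => gvf_le G A (hx _))) ub
    (Eventually.of_forall fun k => gvf_le_gvl G A (inv_pos_j q) (hx _))

/-- THE FUNCTIONAL -/
def gvF (hB : ImCl B) : Fnl B where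
  f := fun _ x => gvf G V A x
  M := V.M
  nn := fun _ _ hx => gvf_nonneg G A hx
  le := fun _ _ hx => gvf_le G A hx
  ev := fun _ _ _ _ e => gvf_congr G V A e
  usc := gvf_usc G V A
  spl := fun _ _ hx _ p E hE hE' => gvf_split G A p E hB hx hE hE'
  typ := fun _ _ hx _ p E ht => (gvf_typ G A p E hB hx ht).ge

end

end Pool.Agent.Helper52.GF
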