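import Pool.Agent.Helper52.GF.Fn
import Pool.Agent.Helper84.MT.Fun

/-! FUNCTIONALS of objects of a kind, instances: partitions attached to the finite data (their entropies, their
informations about the maximal labels), values of forms. -/

set_option autoImplicit false

namespace Pool.Agent.Helper52.GF

open Finset Filter Topology Matrix Pool.Agent.Helper69.RK Pool.Agent.Helper31.EC Pool.Agent.Helper31.EC.Sp
open Pool.Agent.Helper40.EL Pool.Agent.Helper89.LX Pool.Agent.Helper59.EV Pool.Agent.Helper49.MD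
open Pool.Agent.Helper52.KP (glue)
open Pool.Agent.Helper95.LF (PdM)

noncomputable section

variable {K : FK} {B : K.Pd}

/-! ### partitions -/

/-- PARTITIONS attached to the finite data, with at most `2 ^ (C n)` cells in every base cell -/
structure Pt (K : FK) (B : K.Pd) where
  X : ∀ F : FSp, K.X F → Setoid F.Ω
  im : ∀ (F T : FSp) (p : FPj T F) (E : T.Ω → Prop) (x : K.X F), X (FSp.im p E) (K.im p E x) = X F x
  C : ℝ
  C0 : 0 ≤ C
  vb : ∀ (S : Sp) (x : K.Ob S), B S x → ∀ᶠ k in UF, ∀ ω, (S.F k).μ ω ≠ 0 →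
    (nv (S.F k) (X (S.F k) (x k)) ω : ℝ) ≤ 2 ^ (C * (S.F k).n)

def Pt.mono {B' : K.Pd} (X : Pt K B) (h : ∀ S x, B' S x → B S x) : Pt K B' where
  X := X.X
  im := X.im
  C := X.C
  C0 := X.C0
  vb := fun S x hx => X.vb S x (h S x hx)

/-- the partition of an object -/
def Pt.pt (X : Pt K B) {S : Sp} (x : K.Ob S) : Part S := fun k => fc (X.X (S.F k) (x k))

/-- the entropy is at most the logarithm of the number of cells -/
theorem H_le_nv {F : FSp} {X : Setoid F.Ω} {C : ℝ} (h : ∀ ω, F.μ ω ≠ 0 → (nv F X ω : ℝ) ≤ 2 ^ (C * F.n)) :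
    H (fc X) ≤ C * F.n := by
  rw [H_fc]
  have h0 : F.e X F.Z = CH F.μ (Quotient.mk X) (Quotient.mk F.Z) := by
    apply F.e_congr
    · intro ω ω' _ _
      exact (Quotient.eq (r := X)).symm
    · intro ω ω' _ _
      constructor
      · intro h
        exact Quotient.sound h
      · intro h
        exact Quotient.exact h
  rw [h0]
  have h1 := Pool.Agent.Helper69.RK.st_E3.1 F.Ω _ _ F.μ (Quotient.mk X) (Quotient.mk F.Z)
    (fun _ => 2 ^ (C * F.n)) F.nn (fun ω hω => h ω hω)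
  have h3 : ∑ ω, F.μ ω * Real.logb 2 (2 ^ (C * F.n)) = C * F.n := by
    rw [← Finset.sum_mul, Real.logb_rpow (by norm_num) (by norm_num)]
    have : ∑ ω, F.μ ω = 1 := F.ms
    rw [this, one_mul]
  rw [h3] at h1
  exact h1

theorem nv_im_le {F T : FSp} (p : FPj T F) (E : T.Ω → Prop) (X : Setoid F.Ω) (ω : F.Ω) :
    nv (FSp.im p E) X ω ≤ nv F X ω :=
  nvf_le_of_supp (FSp.im p E).μ F.μ (Quotient.mk X) (Quotient.mk F.Z) ω (fun ω' h => FSp.im_supp p E ω' h)

theorem H_im_le_nv {F T : FSp} (p : FPj T F) (E : T.Ω → Prop) {X : Setoid F.Ω} {C : ℝ}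
    (h : ∀ ω, F.μ ω ≠ 0 → (nv F X ω : ℝ) ≤ 2 ^ (C * F.n)) : H (FSp.imap p E (fc X)) ≤ C * F.n := by
  have h1 : ∀ ω, (FSp.im p E).μ ω ≠ 0 → (nv (FSp.im p E) X ω : ℝ) ≤ 2 ^ (C * (FSp.im p E).n) := by
    intro ω hω
    have h2 := h ω (FSp.im_supp p E ω hω)
    have h3 : (nv (FSp.im p E) X ω : ℝ) ≤ nv F X ω := by exact_mod_cast nv_im_le p E X ω
    exact h3.trans h2
  exact H_le_nv (F := FSp.im p E) h1

theorem Pt.fc_im (X : Pt K B) {F T : FSp} (p : FPj T F) (E : T.Ω → Prop) (x : K.X F) :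
    fc (X.X (FSp.im p E) (K.im p E x)) = FSp.imap p E (fc (X.X F x)) := by
  rw [X.im F T p E x]
  rfl

/-- conditions from partitions -/
def Pt.cd {κ : Type} (X : κ → Pt K B) : Cd K κ where
  c := fun F x i => fc ((X i).X F x)
  im := fun _ _ p E x i => (X i).fc_im p E x

section
variable {ι : Type} [Fintype ι] [DecidableEq ι]

/-- the information about a partition, as a value of labels -/
def Pt.vk (X : Pt K B) (C : ℝ) : Vk K B ι C where
  v := fun F x y => vX y.l (fc (X.X F x)) / F.n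
  M := X.C
  M0 := X.C0
  e := 2
  e0 := by norm_num
  nn := fun F x y _ => div_nonneg (vX_nonneg _ _) F.pos.le
  le := by
    intro S x hx
    filter_upwards [X.vb S x hx] with k hk
    constructor
    · intro y
      rw [div_le_iff₀ (S.F k).pos]
      exact (vX_le_H _ _).trans (H_le_nv hk)
    · intro T p E y
      show vX y.l (fc (X.X (FSp.im p E) (K.im p E (x k)))) / (S.F k).n ≤ X.C
      have e1 : fc (X.X (FSp.im p E) (K.im p E (x k))) = FSp.imap p E (fc (X.X (S.F k) (x k))) :=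
        X.fc_im p E (x k)
      rw [div_le_iff₀ (S.F k).pos, e1]
      exact (vX_le_H _ _).trans (H_im_le_nv p E hk)
  glu := by
    intro F T p E x y1 y2
    have hn := F.pos
    have hn1 : (FSp.im p E).n = F.n := rfl
    have hn2 : (FSp.im p fun ω => ¬ E ω).n = F.n := rfl
    have h1 := (abs_le.mp (vX_glue p E y1.l y2.l (fc (X.X F x)))).1
    rw [X.fc_im p E x, X.fc_im p (fun ω => ¬ E ω) x, hn1, hn2, gluFD_l, ← mul_div_assoc, ← mul_div_assoc,
      ← add_div, ← add_div]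
    exact div_le_div_of_nonneg_right (by linarith) hn.le
  spl := by
    intro F T p E hnn x y
    have hn := F.pos
    have hn1 : (FSp.im p E).n = F.n := rfl
    have hn2 : (FSp.im p fun ω => ¬ E ω).n = F.n := rfl
    have h1 := vX_im_split p E hnn y.l (fc (X.X F x))
    rw [X.fc_im p E x, X.fc_im p (fun ω => ¬ E ω) x, hn1, hn2, ← mul_div_assoc, ← mul_div_assoc,
      ← add_div, ← add_div]
    exact div_le_div_of_nonneg_right (h1.trans (add_le_add (le_refl _) (by norm_num))) hn.le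

/-! ### values of forms -/

/-- VALUES OF FORMS attached to the finite data -/
structure Fv (K : FK) (B : K.Pd) (ι : Type) [Fintype ι] [DecidableEq ι] (C : ℝ) where
  v : ∀ F : FSp, K.X F → F.Ω → Matrix ι ι ℝ → ℝ
  im : ∀ (F T : FSp) (p : FPj T F) (E : T.Ω → Prop) (x : K.X F) (ω : F.Ω) (A : Matrix ι ι ℝ),
    v (FSp.im p E) (K.im p E x) ω A = v F x ω A
  M : ℝ
  M0 : 0 ≤ M
  nn : ∀ (F : FSp) (x : K.X F) (ω : F.Ω) (A : Matrix ι ι ℝ), Cpd (cpn C F) A → 0 ≤ v F x ω A
  le : ∀ (S : Sp) (x : K.Ob S), B S x → ∀ᶠ k in UF, ∀ ω, (S.F k).μ ω ≠ 0 → ∀ A, Cpd (cpn C (S.F k)) A →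
    v (S.F k) (x k) ω A ≤ M

variable {C : ℝ}

/-- the truncated value -/
def Fv.tv (V : Fv K B ι C) (F : FSp) (x : K.X F) (ω : F.Ω) (A : Matrix ι ι ℝ) : ℝ := min (V.v F x ω A) V.M

theorem Fv.tv_im (V : Fv K B ι C) {F T : FSp} (p : FPj T F) (E : T.Ω → Prop) (x : K.X F) :
    V.tv (FSp.im p E) (K.im p E x) = V.tv F x := by
  funext ω A
  unfold Fv.tv
  rw [V.im F T p E x ω A]

/-- the expectation of the first form, as a value of labels with forms -/
def Fv.vk (V : Fv K B ι C) : Vk K B ι C where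
  v := fun F x y => fval (V.tv F x) y
  M := V.M
  M0 := V.M0
  e := 0
  e0 := le_rfl
  nn := by
    intro F x y hy
    refine Finset.sum_nonneg fun ω _ => ?_
    by_cases h0 : y.l.T.μ ω = 0
    · rw [h0, zero_mul]
    · exact mul_nonneg (y.l.T.nn ω) (le_min (V.nn F x _ _ (hy ω h0).1) V.M0)
  le := fun S x _ => Eventually.of_forall fun k =>
    ⟨fun y => sum_mul_le (F := y.l.T) _ _ fun ω _ => min_le_right _ _,
      fun T p E y => sum_mul_le (F := y.l.T) _ _ fun ω _ => min_le_right _ _⟩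
  glu := by
    intro F T p E x y1 y2
    rw [V.tv_im, V.tv_im, zero_div, add_zero, fval_glu (p := p) (E := E) (V.tv F x) y1 y2]
  spl := by
    intro F T p E hn x y
    rw [V.tv_im, V.tv_im, zero_div, add_zero]
    exact (fval_im (p := p) (E := E) hn (V.tv F x) y).le

/-- the value of an admissible sequence is the limit of the expectations -/
theorem Fv.evv_eq (V : Fv K B ι C) {S : Sp} {x : K.Ob S} (hx : B S x) {y : ∀ k, FD (S.F k) ι}
    (hy : ∀ᶠ k in UF, Cpf C (y k)) : ul (evv V.vk x y) = ul (fun k => fval (V.v (S.F k) (x k)) (y k)) := by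
  apply ul_congr
  filter_upwards [V.le S x hx, hy] with k h1 h2
  unfold evv Fv.vk fval
  refine Finset.sum_congr rfl fun ω _ => ?_
  by_cases h0 : (y k).l.T.μ ω = 0
  · rw [h0, zero_mul, zero_mul]
  · congr 1
    exact min_eq_left (h1 _ ((y k).l.p.supp ω h0) _ (h2 ω h0).1)

end

/-! ### labels without forms -/

/-- the gauge without forms -/
def G0 (K : FK) (B : K.Pd) : Gk K B (Fin 0) where
  φ := fun _ _ _ _ => 0
  im := fun _ _ _ _ _ _ _ => rfl
  add := fun _ _ _ _ _ => (add_zero 0).symm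
  nn := fun _ _ _ _ _ => le_rfl
  C := 0
  C0 := le_rfl
  cap := fun S x _ => Eventually.of_forall fun k ω _ A _ y => by
    unfold qf dotProduct
    simp
  one := fun S x _ => ⟨fun _ => 0, S.Sub_const le_rfl, Eventually.of_forall fun _ _ _ => le_rfl⟩

/-- a label, as a label with forms -/
def lfd {F : FSp} (l : FLab F) : FD F (Fin 0) where
  l := l
  g := fun _ => 1
  g' := fun _ => 1
  meas := fun _ _ _ _ _ _ => ⟨rfl, rfl⟩

variable {κ : Type} [Encodable κ]

omit [Encodable κ] in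
theorem G0_Adc (A : Cd K κ) {S : Sp} {x : K.Ob S} (hx : B S x) {y : ∀ k, FD (S.F k) (Fin 0)} :
    (G0 K B).Adc A hx y ↔ Lab.DMf (fun k => (y k).l) (A.cf x) := by
  refine ⟨fun h => h.1, fun h => ⟨h, fun η hη => Eventually.of_forall fun k => ?_⟩⟩
  have hc : ∀ X : Matrix (Fin 0) (Fin 0) ℝ, Cpd (((G0 K B).gau hx).cp k) X := by
    intro X
    have e : X = 1 := by
      ext i
      exact i.elim0
    rw [e]
    exact Cpd_one (Gau.one_le_cp _ k)
  have h0 : ∀ g : (y k).l.T.Ω → Matrix (Fin 0) (Fin 0) ℝ, (y k).l.T.pb (fun ω =>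
      ¬ ((G0 K B).gau hx).φ k ((y k).l.p.π ω) (g ω) ≤ 2 ^ (η * (S.F k).n)) ≤ η := by
    intro g
    have h2 : (y k).l.T.pb (fun ω => ¬ ((G0 K B).gau hx).φ k ((y k).l.p.π ω) (g ω) ≤ 2 ^ (η * (S.F k).n)) ≤
        (y k).l.T.pb (fun _ => False) := by
      apply FSp.pb_mono
      intro ω _ h4
      apply h4
      have h5 : (0 : ℝ) ≤ 2 ^ (η * (S.F k).n) := by positivity
      exact h5
    have h3 : (y k).l.T.pb (fun _ => False) = 0 := by
      unfold FSp.pb mass
      apply Finset.sum_eq_zero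
      intro ω _
      exact res_neg _ _ _ not_false
    linarith
  exact ⟨fun ω _ => ⟨hc _, hc _⟩, h0 _, h0 _⟩

/-- THE VALUE OF A PARTITION: the supremum of the informations of the labels about the partition -/
def iv (X : Pt K B) (A : Cd K κ) {S : Sp} (x : K.Ob S) : ℝ := gvf (G0 K B) (X.vk (G0 K B).C) A x

/-- informations of a label about a partition, in rates -/
def vxs {S : Sp} (l : Lab S) (X : Part S) (k : ℕ) : ℝ := vX (l k) (X k) / (S.F k).n

theorem vxs_le_iv (X : Pt K B) (A : Cd K κ) {S : Sp} {x : K.Ob S} (hx : B S x) {l : Lab S} (hl : l.DMf (A.cf x)) :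
    ul (vxs l (X.pt x)) ≤ iv X A x :=
  ev_le_gvf (V := X.vk (G0 K B).C) (G0 K B) A hx (y := fun k => lfd (l k)) ((G0_Adc A hx).mpr hl)

theorem iv_attained (X : Pt K B) (A : Cd K κ) {S : Sp} {x : K.Ob S} (hx : B S x) :
    ∃ l : Lab S, l.DMf (A.cf x) ∧ ul (vxs l (X.pt x)) = iv X A x := by
  obtain ⟨y, hy, h1⟩ := gvf_attained (V := X.vk (G0 K B).C) (G0 K B) A hx
  exact ⟨fun k => (y k).l, (G0_Adc A hx).mp hy, h1⟩

theorem vxs_bd (X : Pt K B) {S : Sp} {x : K.Ob S} (hx : B S x) (l : Lab S) :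
    ∀ᶠ k in UF, 0 ≤ vxs l (X.pt x) k ∧ vxs l (X.pt x) k ≤ X.C := by
  filter_upwards [X.vb S x hx] with k hk
  refine ⟨div_nonneg (vX_nonneg _ _) (S.F k).pos.le, ?_⟩
  unfold vxs
  rw [div_le_iff₀ (S.F k).pos]
  exact (vX_le_H _ _).trans (H_le_nv hk)

theorem vxs_UB (X : Pt K B) {S : Sp} {x : K.Ob S} (hx : B S x) (l : Lab S) : UB (vxs l (X.pt x)) :=
  UB_of_nonneg_le ((vxs_bd X hx l).mono fun _ h => h.1) ((vxs_bd X hx l).mono fun _ h => h.2)

/-- two labels -/
theorem vX_le_add {F : FSp} (l l' : FLab F) (x : FL F) :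
    vX l' x ≤ vX l x + I ((l.am l').p2.map l'.v) ((l.am l').p1.map l.p.top) ((l.am l').p1.map l.v) := by
  have h1 := (l.am l').p2.I_map l'.v (l'.p.map x) ⊥
  rw [(l.am l').p2.map_bot, ← FLab.am_map] at h1
  have h2 := (l.am l').p1.I_map l.v (l.p.map x) ⊥
  rw [(l.am l').p1.map_bot] at h2
  unfold vX
  rw [← h1, ← h2]
  have h3 : I ((l.am l').p2.map l'.v) ((l.am l').p1.map (l.p.map x)) ⊥ ≤
      I ((l.am l').p1.map l.v ⊔ (l.am l').p2.map l'.v) ((l.am l').p1.map (l.p.map x)) ⊥ :=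
    I_mono_left (le_sup_right.trans le_sup_left)
  rw [I_chain, sup_bot_eq] at h3
  have h4 : I ((l.am l').p2.map l'.v) ((l.am l').p1.map (l.p.map x)) ((l.am l').p1.map l.v) ≤
      I ((l.am l').p2.map l'.v) ((l.am l').p1.map l.p.top) ((l.am l').p1.map l.v) :=
    I_mono_right (((l.am l').p1.map_mono (l.p.map_le_top x)).trans le_sup_left)
  linarith

omit [Encodable κ] in
/-- a maximal label carries all informations of all labels -/
theorem vxs_max (X : Pt K B) {S : Sp} {x : K.Ob S} (hx : B S x) {A : κ → Part S} {i : κ} (hA : (A i).Bd)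
    {l l' : Lab S} (hl : l.IsMaxf A) (hl' : l'.DMf A) : ul (vxs l' (X.pt x)) ≤ ul (vxs l (X.pt x)) := by
  have h1 := hl.univ hl' hA
  have t := (ul_tendsto (vxs_UB X hx l)).add (show Tendsto _ _ _ from h1)
  rw [add_zero] at t
  refine le_of_tendsto_of_tendsto (ul_tendsto (vxs_UB X hx l')) t (Eventually.of_forall fun k => ?_)
  show vX (l' k) (X.pt x k) / (S.F k).n ≤ vX (l k) (X.pt x k) / (S.F k).n + _ / (S.F k).n
  rw [← add_div]
  exact div_le_div_of_nonneg_right (vX_le_add (l k) (l' k) (X.pt x k)) (S.F k).pos.le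

/-- THE INFORMATION OF A MAXIMAL LABEL ABOUT A PARTITION -/
theorem vxs_eq (X : Pt K B) (A : Cd K κ) {S : Sp} {x : K.Ob S} (hx : B S x) {i : κ} (hA : (A.cf x i).Bd)
    {l : Lab S} (hl : l.IsMaxf (A.cf x)) : Tendsto (vxs l (X.pt x)) UF (𝓝 (iv X A x)) := by
  have h1 : ul (vxs l (X.pt x)) = iv X A x := by
    apply le_antisymm (vxs_le_iv X A hx hl.1)
    obtain ⟨l', hl', h2⟩ := iv_attained X A hx
    rw [← h2]
    exact vxs_max X hx hA hl hl'
  rw [← h1]
  exact ul_tendsto (vxs_UB X hx l)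

/-- the information of a maximal label is its information about a condition -/
theorem info_eq_iv (X : Pt K B) (A : Cd K κ) {S : Sp} {x : K.Ob S} (hx : B S x) {i : κ}
    (hi : A.cf x i = X.pt x) {l : Lab S} (hl : l.IsMaxf (A.cf x)) : l.info = iv X A x := by
  have hb : (A.cf x i).Bd := by
    rw [hi]
    refine ⟨X.C, ?_⟩
    filter_upwards [X.vb S x hx] with k hk
    rw [abs_of_nonneg (div_nonneg (H_nonneg _) (S.F k).pos.le), div_le_iff₀ (S.F k).pos]
    exact H_le_nv hk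
  have h1 := vxs_eq X A hx hb hl
  have h2 : Tendsto (fun k => (l k).leak (A.cf x i k) / (S.F k).n) UF (𝓝 0) := hl.1 i
  have h3 := h1.add h2
  rw [add_zero] at h3
  refine ul_eq (h3.congr fun k => ?_)
  unfold vxs
  rw [hi, vX_eq, ← add_div, sub_add_cancel]

end

end Pool.Agent.Helper52.GF
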