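import Pool.Agent.Helper52.GF.Tt

/-! FUNCTIONALS over RESTRICTED families of labels with forms (a restriction which passes to events of extensions, as
`no leak at all at the present point`): bounded, subadditive over events, usc along slow diagonals, attained. -/

set_option autoImplicit false

namespace Pool.Agent.Helper52.GF

open Finset Filter Topology Matrix Pool.Agent.Helper69.RK Pool.Agent.Helper31.EC Pool.Agent.Helper31.EC.Sp
open Pool.Agent.Helper40.EL Pool.Agent.Helper89.LX Pool.Agent.Helper59.EV Pool.Agent.Helper49.MD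
open Pool.Agent.Helper52.KP (glue)
open Pool.Agent.Helper95.LF (PdM)

noncomputable section

/-- RESTRICTIONS on labels with forms, which pass to events of extensions -/
structure Rq (K : FK) (ι : Type) [Fintype ι] [DecidableEq ι] where
  P : ∀ F : FSp, K.X F → FD F ι → Prop
  triv : ∀ (F : FSp) (x : K.X F), P F x (trivFD F)
  im : ∀ (F T : FSp) (p : FPj T F) (E : T.Ω → Prop) (hn : T.n = F.n) (x : K.X F) (y : FD F ι), P F x y →
    P (FSp.im p E) (K.im p E x) (imFD p E hn y)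

variable {K : FK} {B : K.Pd} {ι κ : Type} [Fintype ι] [DecidableEq ι] [Encodable κ]

section
variable (G : Gk K B ι) (V : Vk K B ι G.C) (A : Cd K κ) (P : Rq K ι)

/-- the values of the restricted labels with forms -/
def kvs (η : ℝ) (F : FSp) (x : K.X F) : Set ℝ := {r | ∃ y : FD F ι, (Cpf G.C y ∧ P.P F x y) ∧ r = gvv G V A η F x y}

/-- the penalised value -/
def kvo (η : ℝ) (F : FSp) (x : K.X F) : ℝ := sSup (kvs G V A P η F x)

theorem kvs_ne (η : ℝ) (F : FSp) (x : K.X F) : (kvs G V A P η F x).Nonempty :=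
  ⟨_, trivFD F, ⟨triv_Cpf G F, P.triv F x⟩, rfl⟩

variable {V}

theorem kvs_bdd {η : ℝ} (h0 : 0 < η) {F : FSp} {x : K.X F} (hb : Vbd G V F x) : BddAbove (kvs G V A P η F x) := by
  refine ⟨V.M, ?_⟩
  rintro r ⟨y, _, rfl⟩
  exact (gvv_le_v G V A h0 F x y).trans (hb y)

theorem kvo_le {η : ℝ} (h0 : 0 < η) {F : FSp} {x : K.X F} (hb : Vbd G V F x) : kvo G V A P η F x ≤ V.M := by
  apply csSup_le (kvs_ne G V A P η F x)
  rintro r ⟨y, _, rfl⟩
  exact (gvv_le_v G V A h0 F x y).trans (hb y)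

theorem kvv_le_kvo {η : ℝ} (h0 : 0 < η) {F : FSp} {x : K.X F} (hb : Vbd G V F x) {y : FD F ι} (hy : Cpf G.C y)
    (hP : P.P F x y) : gvv G V A η F x y ≤ kvo G V A P η F x := le_csSup (kvs_bdd G A P h0 hb) ⟨y, ⟨hy, hP⟩, rfl⟩

theorem kvo_ge {η : ℝ} (h0 : 0 < η) {F : FSp} {x : K.X F} (hb : Vbd G V F x) : -(2 / η) ≤ kvo G V A P η F x := by
  refine le_trans ?_ (kvv_le_kvo G A P h0 hb (triv_Cpf G F) (P.triv F x))
  have h1 : fval2 (bk G η F x) (trivFD F) / η ≤ 2 / η := div_le_div_of_nonneg_right (fval2_bk_le G η F x _) h0.le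
  have h2 : lks η (A.c F x) (trivFD (ι := ι) F).l = 0 := Finset.sum_eq_zero fun n _ => by
    unfold dlk
    cases (Encodable.decode n : Option κ) with
    | none => rfl
    | some i => exact FLab.triv_leak _
  have h3 := V.nn F x (trivFD F) (triv_Cpf G F)
  unfold gvv
  rw [h2, zero_div, zero_div]
  linarith

theorem kvo_mono {η η' : ℝ} (h0 : 0 < η) (h : η ≤ η') {F : FSp} {x : K.X F} (hb : Vbd G V F x) :
    kvo G V A P η F x ≤ kvo G V A P η' F x := by
  apply csSup_le (kvs_ne G V A P η F x)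
  rintro r ⟨y, hy, rfl⟩
  exact (gvv_mono G A h0 h F x y).trans (kvv_le_kvo G A P (h0.trans_le h) hb hy.1 hy.2)

theorem kvo_split {η : ℝ} (h0 : 0 < η) {F T : FSp} (p : FPj T F) (hn : T.n = F.n) (E : T.Ω → Prop) {x : K.X F}
    (hb1 : Vbd G V (FSp.im p E) (K.im p E x)) (hb2 : Vbd G V (FSp.im p fun ω => ¬ E ω) (K.im p (fun ω => ¬ E ω) x)) :
    kvo G V A P η F x ≤ T.pb E * kvo G V A P (2 * η) (FSp.im p E) (K.im p E x) +
      (1 - T.pb E) * kvo G V A P (2 * η) (FSp.im p fun ω => ¬ E ω) (K.im p (fun ω => ¬ E ω) x) +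
      (V.e + nus η / η) / F.n := by
  apply csSup_le (kvs_ne G V A P η F x)
  rintro r ⟨y, hy, rfl⟩
  have h2 : 0 < 2 * η := by linarith
  have h1 := gvv_split G A (V := V) h0 p hn E x y
  have e1 := kvv_le_kvo G A P h2 hb1 (y := imFD p E hn y)
    (fun w hw => im_all (p := p) (E := E) hn (Cpd (cpn G.C F)) y hy.1 w hw) (P.im F T p E hn x y hy.2)
  have e2 := kvv_le_kvo G A P h2 hb2 (y := imFD p (fun ω => ¬ E ω) hn y)
    (fun w hw => im_all (p := p) (E := fun ω => ¬ E ω) hn (Cpd (cpn G.C F)) y hy.1 w hw)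
    (P.im F T p (fun ω => ¬ E ω) hn x y hy.2)
  have k1 := mul_le_mul_of_nonneg_left e1 (T.pb_nonneg E)
  have k2 := mul_le_mul_of_nonneg_left e2 (sub_nonneg.mpr (T.pb_le_one E))
  linarith

end

variable (G : Gk K B ι) (V : Vk K B ι G.C) (A : Cd K κ) (P : Rq K ι)

/-- the limit of the penalised values -/
def kvl (η : ℝ) {S : Sp} (x : K.Ob S) : ℝ := ul (fun k => kvo G V A P η (S.F k) (x k))

section
variable {S : Sp} {x : K.Ob S}

variable {V}

theorem kvo_UB {η : ℝ} (h0 : 0 < η) (hb : Ebd V x) : UB (fun k => kvo G V A P η (S.F k) (x k)) :=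
  ⟨2 / η + V.M, hb.mono fun k hk => by
    have h1 := kvo_ge G A P h0 hk
    have h2 := kvo_le G A P h0 hk
    have h3 := V.M0
    have h4 : 0 < 2 / η := by positivity
    rw [abs_le]
    constructor <;> linarith⟩

theorem kvl_le {η : ℝ} (h0 : 0 < η) (hb : Ebd V x) : kvl G V A P η x ≤ V.M :=
  ul_le_const (kvo_UB G A P h0 hb) (hb.mono fun _ hk => kvo_le G A P h0 hk)

theorem kvl_mono {η η' : ℝ} (h0 : 0 < η) (h : η ≤ η') (hb : Ebd V x) : kvl G V A P η x ≤ kvl G V A P η' x :=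
  ul_mono (kvo_UB G A P h0 hb) (kvo_UB G A P (h0.trans_le h) hb) (hb.mono fun _ hk => kvo_mono G A P h0 h hk)

/-- THE ADMISSIBLE SEQUENCES which satisfy the restriction -/
def Gk.AdcP {κ : Type} (G : Gk K B ι) (A : Cd K κ) (P : Rq K ι) {S : Sp} {x : K.Ob S} (hx : B S x)
    (y : ∀ k, FD (S.F k) ι) : Prop := G.Adc A hx y ∧ ∀ᶠ k in UF, P.P (S.F k) (x k) (y k)

/-- values of admissible sequences -/
theorem ev_le_kvl {η : ℝ} (h0 : 0 < η) (hx : B S x) {y : ∀ k, FD (S.F k) ι} (hy : G.AdcP A P hx y) :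
    ul (evv V x y) ≤ kvl G V A P η x := by
  have t1 := bad_tendsto G A h0 hx hy.1
  have t2 := lks_tendsto G A η hx hy.1
  have t3 := ul_tendsto (ev_UB (V := V) G A hx hy.1)
  have t4 := (t3.sub (t1.div_const η)).sub (t2.div_const η)
  rw [zero_div, sub_zero, sub_zero] at t4
  refine le_of_tendsto_of_tendsto t4 (ul_tendsto (kvo_UB G A P h0 (ebd G V hx))) ?_
  filter_upwards [ebd G V hx, Adc_cpf G A hx hy.1, hy.2] with k h1 h2 h3
  refine le_trans (le_of_eq ?_) (kvv_le_kvo G A P h0 h1 (y := y k) h2 h3)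
  unfold gvv evv
  rw [div_right_comm (lks η (A.c (S.F k) (x k)) (y k).l)]

omit [Encodable κ] in
theorem triv_AdcP (hx : B S x) : G.AdcP A P hx (fun k => trivFD (S.F k)) :=
  ⟨⟨Lab.DMf_triv _, Gau.Adf.fm ((G.gau hx).triv_Adf (κ := Fin 0) (fun i => i.elim0))⟩,
    Eventually.of_forall fun k => P.triv (S.F k) (x k)⟩

theorem kvl_nonneg {η : ℝ} (h0 : 0 < η) (hx : B S x) : 0 ≤ kvl G V A P η x := by
  have hA := triv_AdcP G A P hx
  exact (const_le_ul (ev_UB (V := V) G A hx hA.1) ((ev_bounds G A hx hA.1).mono fun _ h => h.1)).trans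
    (ev_le_kvl G A P h0 hx hA)

variable (V)

/-- THE VALUE -/
def kvf {S : Sp} (x : K.Ob S) : ℝ := ⨅ j : ℕ, kvl G V A P (1 / ((j : ℝ) + 1)) x

variable {V}

theorem kvf_bdd (hx : B S x) : BddBelow (Set.range fun j : ℕ => kvl G V A P (1 / ((j : ℝ) + 1)) x) :=
  ⟨0, by rintro r ⟨j, rfl⟩; exact kvl_nonneg G A P (inv_pos_j j) hx⟩

theorem kvf_nonneg (hx : B S x) : 0 ≤ kvf G V A P x := le_ciInf fun j => kvl_nonneg G A P (inv_pos_j j) hx

theorem kvf_le_gvl {η : ℝ} (h0 : 0 < η) (hx : B S x) : kvf G V A P x ≤ kvl G V A P η x := by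
  obtain ⟨j, hj⟩ := exists_index h0
  exact (ciInf_le (kvf_bdd G A P hx) j).trans (kvl_mono G A P (inv_pos_j j) hj (ebd G V hx))

theorem kvf_le (hx : B S x) : kvf G V A P x ≤ V.M :=
  (kvf_le_gvl G A P one_pos hx).trans (kvl_le G A P one_pos (ebd G V hx))

theorem kvf_tendsto (hx : B S x) : Tendsto (fun j : ℕ => kvl G V A P (1 / ((j : ℝ) + 1)) x) atTop (𝓝 (kvf G V A P x)) := by
  apply tendsto_atTop_ciInf _ (kvf_bdd G A P hx)
  intro i j hij
  apply kvl_mono G A P (inv_pos_j j) _ (ebd G V hx)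
  apply one_div_le_one_div_of_le (by positivity)
  have : (i : ℝ) ≤ j := by exact_mod_cast hij
  linarith

/-- VALUES OF ADMISSIBLE SEQUENCES -/
theorem ev_le_kvf (hx : B S x) {y : ∀ k, FD (S.F k) ι} (hy : G.AdcP A P hx y) :
    ul (evv V x y) ≤ kvf G V A P x := le_ciInf fun j => ev_le_kvl G A P (inv_pos_j j) hx hy

/-- THE VALUE IS ATTAINED -/
theorem kvf_attained (hx : B S x) : ∃ y : ∀ k, FD (S.F k) ι, G.AdcP A P hx y ∧
    ul (evv V x y) = kvf G V A P x := by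
  set η : ℕ → ℝ := fun j => 1 / (((j : ℝ) + 1) * (V.M + 1)) with hηd
  have hM := V.M0
  have hη0 : ∀ j, 0 < η j := fun j => by rw [hηd]; positivity
  have hηM : ∀ j, η j * (V.M + 1) ≤ 1 / ((j : ℝ) + 1) := fun j => by
    rw [hηd]
    have h1 : (1 : ℝ) / (((j : ℝ) + 1) * (V.M + 1)) * (V.M + 1) = 1 / ((j : ℝ) + 1) := by
      field_simp
    rw [h1]
  have hηl : ∀ j, η j ≤ 1 / ((j : ℝ) + 1) := fun j => by
    rw [hηd]
    apply one_div_le_one_div_of_le (by positivity)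
    have : (0 : ℝ) ≤ j := Nat.cast_nonneg j
    nlinarith
  have hf := kvf_nonneg (V := V) G A P hx
  have h1 : ∀ j : ℕ, ∃ y : ∀ k, FD (S.F k) ι, ∀ᶠ k in UF, (Cpf G.C (y k) ∧ P.P (S.F k) (x k) (y k)) ∧
      kvf G V A P x - 1 / ((j : ℝ) + 1) ≤ gvv G V A (η j) (S.F k) (x k) (y k) := by
    intro j
    have hpj := inv_pos_j j
    have h2 := eventually_gt_of_lt_ul (c := kvf G V A P x - 1 / ((j : ℝ) + 1))
      (kvo_UB G A P (hη0 j) (ebd G V hx)) (lt_of_lt_of_le (by linarith) (kvf_le_gvl G A P (hη0 j) hx))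
    classical
    refine ⟨fun k => if hk : ∃ y : FD (S.F k) ι, (Cpf G.C y ∧ P.P (S.F k) (x k) y) ∧
      kvf G V A P x - 1 / ((j : ℝ) + 1) ≤ gvv G V A (η j) (S.F k) (x k) y then hk.choose else trivFD (S.F k), ?_⟩
    filter_upwards [h2] with k hk
    obtain ⟨r, ⟨y, hy, rfl⟩, hr⟩ := exists_lt_of_lt_csSup (kvs_ne _ _ _ _ _ _ _) hk
    have hk' : ∃ y : FD (S.F k) ι, (Cpf G.C y ∧ P.P (S.F k) (x k) y) ∧
      kvf G V A P x - 1 / ((j : ℝ) + 1) ≤ gvv G V A (η j) (S.F k) (x k) y := ⟨y, hy, hr.le⟩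
    rw [dif_pos hk']
    exact hk'.choose_spec
  choose y hy using h1
  obtain ⟨z, J, hJ, _, hz0⟩ := dia' (X := fun k => FD (S.F k) ι) y
    (fun j k w => P.P (S.F k) (x k) w ∧ G.Adk A x (1 / ((j : ℝ) + 1)) k w ∧
      kvf G V A P x - 1 / ((j : ℝ) + 1) ≤ V.v (S.F k) (x k) w) (by
      intro j
      have h2 : (1 : ℝ) / ((j : ℝ) + 1) ≤ 1 := by
        rw [div_le_one (by positivity)]
        have : (0 : ℝ) ≤ j := Nat.cast_nonneg j
        linarith
      filter_upwards [hy j, ebd G V hx] with k hk hb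
      exact ⟨hk.1.2, adm_of_gvv G A (hη0 j) (hηM j) (hηl j) (by linarith) hb hk.1.1 hk.2⟩)
  have hz := hz0.mono fun k hk => hk.2.2
  have hzA : G.AdcP A P hx z := ⟨Adc_of G A hx (inv_tendsto hJ) (hz0.mono fun k hk => hk.2.1),
    hz0.mono fun k hk => hk.1⟩
  refine ⟨z, hzA, le_antisymm (ev_le_kvf G A P hx hzA) ?_⟩
  have t0 : Tendsto (fun k => kvf G V A P x - 1 / ((J k : ℝ) + 1)) UF (𝓝 (kvf G V A P x)) := by
    have := ((tendsto_one_div_add_atTop_nhds_zero_nat (𝕜 := ℝ)).comp hJ).const_sub (kvf G V A P x)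
    rwa [sub_zero] at this
  exact le_of_tendsto_of_tendsto t0 (ul_tendsto (ev_UB (V := V) G A hx hzA.1)) hz

end

/-! ### events -/

section
variable {S : Sp} {x : K.Ob S} {T : Sp} (p : Pj T S) (E : ∀ k, (T.F k).Ω → Prop) (hB : ImCl B)

variable {V}
include hB

/-- subadditivity over events -/
theorem kvf_split (hx : B S x) (hE : 0 < ul (T.pr E)) (hE' : 0 < ul (T.pr fun k ω => ¬ E k ω)) :
    kvf G V A P x ≤ ul (T.pr E) * kvf G V A P (K.imo x p E) +
      (1 - ul (T.pr E)) * kvf G V A P (K.imo x p fun k ω => ¬ E k ω) := by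
  have hx1 := hB S x hx T p E hE
  have hx2 := hB S x hx T p _ hE'
  have t := ((kvf_tendsto (V := V) G A P hx1).const_mul (ul (T.pr E))).add
    ((kvf_tendsto (V := V) G A P hx2).const_mul (1 - ul (T.pr E)))
  refine ge_of_tendsto' t fun j => ?_
  have hj : (0 : ℝ) < 1 / ((j : ℝ) + 1) / 2 := by positivity
  have e2 : 2 * ((1 : ℝ) / ((j : ℝ) + 1) / 2) = 1 / ((j : ℝ) + 1) := by ring
  refine (kvf_le_gvl G A P hj hx).trans ?_
  have hq0 := inv_pos_j j
  have t1 := (((ul_tendsto (Sp.UB_pr E)).mul (ul_tendsto (kvo_UB G A P hq0 (ebd G V hx1)))).add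
    (((ul_tendsto (Sp.UB_pr E)).const_sub 1).mul (ul_tendsto (kvo_UB G A P hq0 (ebd G V hx2))))).add
    (S.div_n_tendsto (V.e + nus (1 / ((j : ℝ) + 1) / 2) / (1 / ((j : ℝ) + 1) / 2)))
  rw [add_zero] at t1
  refine le_of_tendsto_of_tendsto (ul_tendsto (kvo_UB G A P hj (ebd G V hx))) t1 ?_
  filter_upwards [V.le S x hx] with k hk
  have h1 := kvo_split G A P (V := V) hj (p.fp k) (p.hn k) (E k) (x := x k) (Bdv.r G V hk (p.fp k) (E k))
    (Bdv.r G V hk (p.fp k) fun ω => ¬ E k ω)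
  rw [e2] at h1
  exact h1

/-- typical events -/
theorem kvf_typ (hx : B S x) (ht : Typ E) : kvf G V A P x ≤ kvf G V A P (K.imo x p E) := by
  have hE := Sp.ul_pr_typ_pos E ht
  have hx1 := hB S x hx T p E hE
  have tp := (Typ_iff E).mp ht
  refine ge_of_tendsto' (kvf_tendsto (V := V) G A P hx1) fun j => ?_
  have hj : (0 : ℝ) < 1 / ((j : ℝ) + 1) / 2 := by positivity
  have e2 : 2 * ((1 : ℝ) / ((j : ℝ) + 1) / 2) = 1 / ((j : ℝ) + 1) := by ring
  refine (kvf_le_gvl G A P hj hx).trans ?_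
  have hq0 := inv_pos_j j
  have t1 := ((tp.mul (ul_tendsto (kvo_UB G A P hq0 (ebd G V hx1)))).add ((tp.const_sub 1).mul_const V.M)).add
    (S.div_n_tendsto (V.e + nus (1 / ((j : ℝ) + 1) / 2) / (1 / ((j : ℝ) + 1) / 2)))
  rw [add_zero, sub_self, zero_mul, add_zero, one_mul] at t1
  refine le_of_tendsto_of_tendsto (ul_tendsto (kvo_UB G A P hj (ebd G V hx))) t1 ?_
  filter_upwards [V.le S x hx] with k hk
  have h1 := kvo_split G A P (V := V) hj (p.fp k) (p.hn k) (E k) (x := x k) (Bdv.r G V hk (p.fp k) (E k))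
    (Bdv.r G V hk (p.fp k) fun ω => ¬ E k ω)
  rw [e2] at h1
  refine h1.trans ?_
  have h2 : (1 - (T.F k).pb (E k)) * kvo G V A P (1 / ((j : ℝ) + 1)) (FSp.im (p.fp k) fun ω => ¬ E k ω)
      (K.im (p.fp k) (fun ω => ¬ E k ω) (x k)) ≤ (1 - (T.F k).pb (E k)) * V.M :=
    mul_le_mul_of_nonneg_left (kvo_le G A P hq0 (Bdv.r G V hk (p.fp k) fun ω => ¬ E k ω))
      (sub_nonneg.mpr ((T.F k).pb_le_one _))
  exact add_le_add (add_le_add (le_refl _) h2) (le_refl _)

end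

/-! ### the functional -/

theorem kvl_congr (η : ℝ) {S : Sp} {x y : K.Ob S} (e : ∀ᶠ k in UF, x k = y k) : kvl G V A P η y = kvl G V A P η x := by
  apply ul_congr
  filter_upwards [e] with k hk
  rw [hk]

theorem kvf_congr {S : Sp} {x y : K.Ob S} (e : ∀ᶠ k in UF, x k = y k) : kvf G V A P y = kvf G V A P x := by
  unfold kvf
  exact congrArg iInf (funext fun j => kvl_congr G V A P _ e)

/-- USC ALONG DIAGONALS -/
theorem kvf_usc : DiagUsc B (fun _ x => kvf G V A P x) := by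
  intro S x hx
  refine ⟨fun i j k => valE (fun F y => kvo G V A P (1 / ((i : ℝ) + 1)) F y) S x j k,
    fun i j => valE_ev _ S x j (kvo_UB G A P (inv_pos_j i) (ebd G V (hx j))), fun J hd => ?_⟩
  refine le_ciInf fun q => ?_
  have h1 := val_tendsto (g := fun F y => kvo G V A P (1 / ((q : ℝ) + 1)) F y) hd.tend (hd.slow q)
  have ub : UB (fun k => kvl G V A P (1 / ((q : ℝ) + 1)) (x (J k))) :=
    UB_of_nonneg_le (Eventually.of_forall fun k => kvl_nonneg G A P (inv_pos_j q) (hx _))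
      (Eventually.of_forall fun k => kvl_le G A P (inv_pos_j q) (ebd G V (hx _)))
  have h2 := h1.add (ul_tendsto ub)
  rw [zero_add] at h2
  have h3 : kvl G V A P (1 / ((q : ℝ) + 1)) (K.dgo S x J hd.lim) =
      ul (fun k => kvl G V A P (1 / ((q : ℝ) + 1)) (x (J k))) := by
    apply ul_eq
    refine h2.congr fun k => ?_
    show kvo G V A P (1 / ((q : ℝ) + 1)) ((S (J k)).F k) (x (J k) k) -
      kvl G V A P (1 / ((q : ℝ) + 1)) (x (J k)) + kvl G V A P (1 / ((q : ℝ) + 1)) (x (J k)) = _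
    rw [sub_add_cancel]
    rfl
  rw [h3]
  exact ul_mono (UB_of_nonneg_le (Eventually.of_forall fun k => kvf_nonneg G A P (hx _))
    (Eventually.of_forall fun k => kvf_le G A P (hx _))) ub
    (Eventually.of_forall fun k => kvf_le_gvl G A P (inv_pos_j q) (hx _))

/-- THE FUNCTIONAL -/
def kvF (hB : ImCl B) : Fnl B where
  f := fun _ x => kvf G V A P x
  M := V.M
  nn := fun _ _ hx => kvf_nonneg G A P hx
  le := fun _ _ hx => kvf_le G A P hx
  ev := fun _ _ _ _ e => kvf_congr G V A P e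
  usc := kvf_usc G V A P
  spl := fun _ _ hx _ p E hE hE' => kvf_split G A P p E hB hx hE hE'
  typ := fun _ _ hx _ p E ht => kvf_typ G A P p E hB hx ht

end

end Pool.Agent.Helper52.GF
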