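import Pool.Agent.Helper52.GF.Un
import Pool.Agent.Helper17.KL.Can

/-! FUNCTIONALS of objects of a kind: labels of a class (`K-labels`: the leak at a partition is exactly 0), their
informations about partitions attached to the finite data, entropies over the maximal K-labels. -/

set_option autoImplicit false

namespace Pool.Agent.Helper52.GF

open Finset Filter Topology Matrix Pool.Agent.Helper69.RK Pool.Agent.Helper31.EC Pool.Agent.Helper31.EC.Sp
open Pool.Agent.Helper40.EL Pool.Agent.Helper89.LX Pool.Agent.Helper59.EV Pool.Agent.Helper49.MD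
open Pool.Agent.Helper52.KP (glue)
open Pool.Agent.Helper95.LF (PdM)

noncomputable section

/-- CLASSES OF LABELS attached to the finite data: the trivial label, joins, events of extensions -/
structure Lq (K : FK) where
  P : ∀ F : FSp, K.X F → FLab F → Prop
  triv : ∀ (F : FSp) (x : K.X F), P F x (FLab.triv F)
  join : ∀ (F : FSp) (x : K.X F) (l l' : FLab F), P F x l → P F x l' → P F x (l.join l')
  im : ∀ (F T : FSp) (p : FPj T F) (E : T.Ω → Prop) (hn : T.n = F.n) (x : K.X F) (l : FLab F), P F x l →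
    P (FSp.im p E) (K.im p E x) (FLab.down (FSp.imp p E) hn ((l.up' p hn).rst E))

variable {K : FK} {B : K.Pd}

/-- the class of labels at an object -/
def Lq.lc (L : Lq K) {S : Sp} (x : K.Ob S) : LC S where
  P := fun k l => L.P (S.F k) (x k) l
  triv := fun k => L.triv (S.F k) (x k)
  join := fun k l l' h h' => L.join (S.F k) (x k) l l' h h'

/-- the restriction of labels with forms -/
def Lq.rq (L : Lq K) {ι : Type} [Fintype ι] [DecidableEq ι] : Rq K ι where
  P := fun F x y => L.P F x y.l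
  triv := fun F x => L.triv F x
  im := fun F T p E hn x y h => L.im F T p E hn x y.l h

/-- all labels -/
def Lq.all (K : FK) : Lq K :=
  ⟨fun _ _ _ => True, fun _ _ => trivial, fun _ _ _ _ _ _ => trivial, fun _ _ _ _ _ _ _ _ => trivial⟩

/-- THE K-LABELS: the leak at the attached partition is exactly zero -/
def kzq (W : Pu K) : Lq K where
  P := fun F x l => l.leak (fc (W.X F x)) = 0
  triv := fun F x => FLab.triv_leak _
  join := fun F x l l' h h' => by
    have h1 := l.join_leak l' (fc (W.X F x))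
    rw [h, h', add_zero] at h1
    exact le_antisymm h1 (FLab.leak_nonneg _ _)
  im := by
    intro F T p E hn x l h
    have e1 : (fc (W.X (FSp.im p E) (K.im p E x)) : FL (FSp.im p E)) = FSp.imap p E (fc (W.X F x)) := W.fc_im p E x
    exact (congrArg (fun z => (FLab.down (FSp.imp p E) hn ((l.up' p hn).rst E)).leak z) e1).trans
      (imFD_leak_zero p E hn (lfd l) (fc (W.X F x)) h)

theorem kzq_ev (W : Pu K) {S : Sp} (x : K.Ob S) (l : Lab S) : ((kzq W).lc x).ev l ↔ (LC.kz (W.pt x)).ev l := Iff.rfl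

theorem kzq_lc (W : Pu K) {S : Sp} (x : K.Ob S) : (kzq W).lc x = LC.kz (W.pt x) := rfl

/-- exact conditions depend only on the partition up to null sets -/
theorem kz_congr {S : Sp} {A A' : Part S} (e : ∀ᶠ k in UF, A k = A' k) (l : Lab S) :
    (LC.kz A).ev l ↔ (LC.kz A').ev l := by
  constructor
  · intro h
    filter_upwards [h, e] with k a b
    have a' : (l k).leak (A k) = 0 := a
    show (l k).leak (A' k) = 0
    rw [← b]
    exact a'
  · intro h
    filter_upwards [h, e] with k a b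
    have a' : (l k).leak (A' k) = 0 := a
    show (l k).leak (A k) = 0
    rw [b]
    exact a'

section
variable {κ κ' : Type} [Encodable κ] [Encodable κ']

/-- THE VALUE OF A PARTITION, K-labels: the supremum of the informations of the K-labels about the partition -/
def kiv (X : Pt K B) (A : Cd K κ) (L : Lq K) {S : Sp} (x : K.Ob S) : ℝ :=
  kvf (G0 K B) (X.vk (G0 K B).C) A L.rq x

theorem vxs_le_kiv (X : Pt K B) (A : Cd K κ) (L : Lq K) {S : Sp} {x : K.Ob S} (hx : B S x) {l : Lab S}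
    (hl : l.DMf (A.cf x)) (hz : (L.lc x).ev l) : ul (vxs l (X.pt x)) ≤ kiv X A L x :=
  ev_le_kvf (V := X.vk (G0 K B).C) (G0 K B) A L.rq hx (y := fun k => lfd (l k)) ⟨(G0_Adc A hx).mpr hl, hz⟩

theorem kiv_attained (X : Pt K B) (A : Cd K κ) (L : Lq K) {S : Sp} {x : K.Ob S} (hx : B S x) :
    ∃ l : Lab S, l.DMf (A.cf x) ∧ (L.lc x).ev l ∧ ul (vxs l (X.pt x)) = kiv X A L x := by
  obtain ⟨y, hy, h1⟩ := kvf_attained (V := X.vk (G0 K B).C) (G0 K B) A L.rq hx
  exact ⟨fun k => (y k).l, (G0_Adc A hx).mp hy.1, hy.2, h1⟩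

omit [Encodable κ] in
/-- a maximal label of a class carries all informations of all labels of the class -/
theorem vxs_maxK (X : Pt K B) {S : Sp} {x : K.Ob S} (hx : B S x) {C : LC S} {A : κ → Part S} {i : κ} (hA : (A i).Bd)
    {l l' : Lab S} (hl : l.IsMaxK C A) (hl' : l'.DMf A) (hC : C.ev l') :
    ul (vxs l' (X.pt x)) ≤ ul (vxs l (X.pt x)) := by
  have h1 := Lab.IsMaxK.univ hl hl' hC hA
  have t := (ul_tendsto (vxs_UB X hx l)).add (show Tendsto _ _ _ from h1)
  rw [add_zero] at t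
  refine le_of_tendsto_of_tendsto (ul_tendsto (vxs_UB X hx l')) t (Eventually.of_forall fun k => ?_)
  show vX (l' k) (X.pt x k) / (S.F k).n ≤ vX (l k) (X.pt x k) / (S.F k).n + _ / (S.F k).n
  rw [← add_div]
  exact div_le_div_of_nonneg_right (vX_le_add (l k) (l' k) (X.pt x k)) (S.F k).pos.le

/-- THE INFORMATION OF A MAXIMAL K-LABEL ABOUT A PARTITION -/
theorem vxs_kiv (X : Pt K B) (A : Cd K κ) (L : Lq K) {S : Sp} {x : K.Ob S} (hx : B S x) {i : κ}
    (hA : (A.cf x i).Bd) {l : Lab S} (hl : l.IsMaxK (L.lc x) (A.cf x)) :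
    Tendsto (vxs l (X.pt x)) UF (𝓝 (kiv X A L x)) := by
  have h1 : ul (vxs l (X.pt x)) = kiv X A L x := by
    apply le_antisymm (vxs_le_kiv X A L hx hl.1 hl.2.1)
    obtain ⟨l', hl', hz, h2⟩ := kiv_attained X A L hx
    rw [← h2]
    exact vxs_maxK X hx hA hl hl' hz
  rw [← h1]
  exact ul_tendsto (vxs_UB X hx l)

theorem Pt.Bd (X : Pt K B) {S : Sp} {x : K.Ob S} (hx : B S x) : (X.pt x).Bd := by
  refine ⟨X.C, ?_⟩
  filter_upwards [X.vb S x hx] with k hk
  rw [abs_of_nonneg (div_nonneg (H_nonneg _) (S.F k).pos.le), div_le_iff₀ (S.F k).pos]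
  exact H_le_nv hk

/-- the information of a maximal K-label is its information about a condition -/
theorem kinfo_eq (X : Pt K B) (A : Cd K κ) (L : Lq K) {S : Sp} {x : K.Ob S} (hx : B S x) {i : κ}
    (hi : A.cf x i = X.pt x) {l : Lab S} (hl : l.IsMaxK (L.lc x) (A.cf x)) : l.info = kiv X A L x := by
  have hb : (A.cf x i).Bd := by
    rw [hi]
    exact X.Bd hx
  have h1 := vxs_kiv X A L hx hb hl
  have h2 : Tendsto (fun k => (l k).leak (A.cf x i k) / (S.F k).n) UF (𝓝 0) := hl.1 i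
  have h3 := h1.add h2
  rw [add_zero] at h3
  refine ul_eq (h3.congr fun k => ?_)
  unfold vxs
  rw [hi, vX_eq, ← add_div, sub_add_cancel]

/-! ### comparison -/

variable {K' : FK} {B' : K'.Pd}

/-- comparison of informations -/
theorem kiv_le_of {X : Pt K B} {A : Cd K κ} {L : Lq K} {X' : Pt K' B'} {A' : Cd K' κ'} {L' : Lq K'} {S S' : Sp}
    {x : K.Ob S} {x' : K'.Ob S'} (hx : B S x) (hx' : B' S' x')
    (h : ∀ l : Lab S, l.DMf (A.cf x) → (L.lc x).ev l → ∃ l' : Lab S', l'.DMf (A'.cf x') ∧ (L'.lc x').ev l' ∧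
      ul (vxs l (X.pt x)) ≤ ul (vxs l' (X'.pt x'))) : kiv X A L x ≤ kiv X' A' L' x' := by
  obtain ⟨l, hl, hz, e⟩ := kiv_attained X A L hx
  obtain ⟨l', hl', hz', e'⟩ := h l hl hz
  rw [← e]
  exact e'.trans (vxs_le_kiv X' A' L' hx' hl' hz')

theorem kiv_congr {X : Pt K B} {A : Cd K κ} {L : Lq K} {X' : Pt K' B'} {A' : Cd K' κ'} {L' : Lq K'} {S : Sp}
    {x : K.Ob S} {x' : K'.Ob S} (hx : B S x) (hx' : B' S x')
    (h : ∀ l : Lab S, (l.DMf (A.cf x) ∧ (L.lc x).ev l) ↔ (l.DMf (A'.cf x') ∧ (L'.lc x').ev l))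
    (e : ∀ᶠ k in UF, X.pt x k = X'.pt x' k) : kiv X A L x = kiv X' A' L' x' :=
  le_antisymm (kiv_le_of hx hx' fun l hl hz => ⟨l, ((h l).mp ⟨hl, hz⟩).1, ((h l).mp ⟨hl, hz⟩).2, (vxs_congr l e).le⟩)
    (kiv_le_of hx' hx fun l hl hz => ⟨l, ((h l).mpr ⟨hl, hz⟩).1, ((h l).mpr ⟨hl, hz⟩).2, (vxs_congr l e).ge⟩)

/-- the information is monotone in the conditions and in the class -/
theorem kiv_mono {X : Pt K B} {A : Cd K κ} {A' : Cd K κ'} {L L' : Lq K} {S : Sp} {x : K.Ob S} (hx : B S x)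
    (h : ∀ l : Lab S, l.DMf (A.cf x) → (L.lc x).ev l → l.DMf (A'.cf x) ∧ (L'.lc x).ev l) :
    kiv X A L x ≤ kiv X A' L' x :=
  kiv_le_of hx hx fun l hl hz => ⟨l, (h l hl hz).1, (h l hl hz).2, le_rfl⟩

/-- K-labels are labels -/
theorem kiv_le_iv (X : Pt K B) (A : Cd K κ) (L : Lq K) {S : Sp} {x : K.Ob S} (hx : B S x) :
    kiv X A L x ≤ iv X A x := by
  obtain ⟨l, hl, _, e⟩ := kiv_attained X A L hx
  rw [← e]
  exact vxs_le_iv X A hx hl

theorem kiv_all (X : Pt K B) (A : Cd K κ) {S : Sp} {x : K.Ob S} (hx : B S x) :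
    kiv X A (Lq.all K) x = iv X A x := by
  refine le_antisymm (kiv_le_iv X A _ hx) ?_
  obtain ⟨l, hl, e⟩ := iv_attained X A hx
  rw [← e]
  exact vxs_le_kiv X A _ hx hl (Eventually.of_forall fun _ => trivial)

theorem kiv_le_add {X X' : Pt K B} {A : Cd K κ} {L : Lq K} {S : Sp} {x : K.Ob S} (hx : B S x) {e : ℝ}
    (h : ∀ η : ℝ, 0 < η → ∀ᶠ k in UF, Pool.Agent.Helper31.EC.h (X.pt x k) (X'.pt x k) ≤ (e + η) * (S.F k).n) :
    kiv X A L x ≤ kiv X' A L x + e := by
  obtain ⟨l, hl, hz, h1⟩ := kiv_attained X A L hx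
  rw [← h1]
  refine le_of_forall_pos_le_add fun η hη => ?_
  have t := ((ul_tendsto (vxs_UB X' hx l)).add_const (e + η))
  have h2 : ul (vxs l (X.pt x)) ≤ ul (vxs l (X'.pt x)) + (e + η) := by
    refine le_of_tendsto_of_tendsto (ul_tendsto (vxs_UB X hx l)) t ?_
    filter_upwards [h η hη] with k hk
    have hn := (S.F k).pos
    unfold vxs
    have h3 := vX_le_h (l k) (X.pt x k) (X'.pt x k)
    rw [div_add' _ _ _ hn.ne']
    apply div_le_div_of_nonneg_right _ hn.le
    linarith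
  have h3 := vxs_le_kiv X' A L hx hl hz
  linarith

/-- monotone in the partition, in rates -/
theorem kiv_mono_pt {X X' : Pt K B} {A : Cd K κ} {L : Lq K} {S : Sp} {x : K.Ob S} (hx : B S x)
    (h : PLe (X.pt x) (X'.pt x)) : kiv X A L x ≤ kiv X' A L x := by
  have h1 : kiv X A L x ≤ kiv X' A L x + 0 := kiv_le_add hx fun η hη => by
    have h2 : Tendsto (fun k => Pool.Agent.Helper31.EC.h (X.pt x k) (X'.pt x k) / (S.F k).n) UF (𝓝 0) := h
    filter_upwards [h2.eventually (gt_mem_nhds hη)] with k hk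
    rw [zero_add]
    rw [div_lt_iff₀ (S.F k).pos] at hk
    exact hk.le
  rwa [add_zero] at h1

theorem kiv_nonneg (X : Pt K B) (A : Cd K κ) (L : Lq K) {S : Sp} {x : K.Ob S} (hx : B S x) : 0 ≤ kiv X A L x :=
  kvf_nonneg (V := X.vk (G0 K B).C) (G0 K B) A L.rq hx

/-! ### entropies over the maximal K-label -/

/-- THE ENTROPY OF A PARTITION OVER THE MAXIMAL K-LABEL -/
def khv (X : Pt K B) (A : Cd K κ) (L : Lq K) {S : Sp} (x : K.Ob S) : ℝ := iv X (c0 K) x - kiv X A L x

theorem khv_nonneg (X : Pt K B) (A : Cd K κ) (L : Lq K) {S : Sp} {x : K.Ob S} (hx : B S x) : 0 ≤ khv X A L x :=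
  sub_nonneg.mpr ((kiv_le_iv X A L hx).trans (iv_mono hx fun _ _ i => i.elim0))

theorem khv_le (X : Pt K B) (A : Cd K κ) (L : Lq K) {S : Sp} {x : K.Ob S} (hx : B S x) : khv X A L x ≤ X.C := by
  have h1 : iv X (c0 K) x ≤ X.C := gvf_le (V := X.vk (G0 K B).C) (G0 K B) (c0 K) hx
  have h2 := kiv_nonneg X A L hx
  unfold khv
  linarith

/-- every K-label leaves at least this entropy -/
theorem khv_le_of (X : Pt K B) (A : Cd K κ) (L : Lq K) {S : Sp} {x : K.Ob S} (hx : B S x) {l : Lab S}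
    (hl : l.DMf (A.cf x)) (hz : (L.lc x).ev l) :
    khv X A L x ≤ ul (fun k => Pool.Agent.Helper31.EC.h ((l k).p.map (X.pt x k)) (l k).v / (S.F k).n) := by
  have h1 := vxs_le_kiv X A L hx hl hz
  have h2 := (hxs_tendsto X hx).sub (ul_tendsto (vxs_UB X hx l))
  have h3 : ul (fun k => Pool.Agent.Helper31.EC.h ((l k).p.map (X.pt x k)) (l k).v / (S.F k).n) =
      iv X (c0 K) x - ul (vxs l (X.pt x)) := by
    refine ul_eq (h2.congr fun k => ?_)
    unfold hxs vxs
    rw [h_eq_vX, sub_div]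
  rw [h3]
  unfold khv
  linarith

/-- the entropy of a partition given the label -/
theorem khv_tendsto (X : Pt K B) (A : Cd K κ) (L : Lq K) {S : Sp} {x : K.Ob S} (hx : B S x) {i : κ}
    (hA : (A.cf x i).Bd) {l : Lab S} (hl : l.IsMaxK (L.lc x) (A.cf x)) :
    Tendsto (fun k => Pool.Agent.Helper31.EC.h ((l k).p.map (X.pt x k)) (l k).v / (S.F k).n) UF
      (𝓝 (khv X A L x)) := by
  refine ((hxs_tendsto X hx).sub (vxs_kiv X A L hx hA hl)).congr fun k => ?_
  unfold hxs vxs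
  rw [h_eq_vX, sub_div]

/-! ### the functional -/

/-- THE FUNCTIONAL `information of the K-labels about X` -/
def kivF (hB : ImCl B) (X : Pt K B) (A : Cd K κ) (L : Lq K) : Fnl B :=
  kvF (G0 K B) (X.vk (G0 K B).C) A L.rq hB

theorem kivF_f (hB : ImCl B) (X : Pt K B) (A : Cd K κ) (L : Lq K) (S : Sp) (x : K.Ob S) :
    (kivF hB X A L).f S x = kiv X A L x := rfl

end

end

end Pool.Agent.Helper52.GF
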