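import Pool.Agent.Helper49.MD.Kd

/-! STAGES with a real parameter: in a class closed under diagonals and restrictions there is a subclass on which all the
functionals of a family which is monotone in a real parameter and continuous in the other parameters are constant, for ALL
values of the parameters. -/

set_option autoImplicit false

namespace Pool.Agent.Helper52.GF

open Finset Filter Topology Pool.Agent.Helper69.RK Pool.Agent.Helper31.EC Pool.Agent.Helper31.EC.Sp
open Pool.Agent.Helper40.EL Pool.Agent.Helper49.MD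

noncomputable section

variable {K : FK} {C B : K.Pd}

/-- STAGE, a family which is monotone in a real parameter -/
theorem stage_mono (hC : Cls C) (hB : ∀ S x, C S x → B S x) {ι : Type} [Countable ι] [Nonempty ι]
    (Φ : ι → ℝ → Fnl B) (hm : ∀ i S x, B S x → Monotone fun c => (Φ i c).f S x) :
    ∃ v : ι → ℝ → ℝ, Cls (fun S x => C S x ∧ ∀ i c, (Φ i c).f S x = v i c) := by
  classical
  obtain ⟨v1, hC1⟩ := stage' hC hB (fun p : ι × ℚ => Φ p.1 p.2)
  obtain ⟨S0, x0, h0, hv0⟩ := hC1.ne
  set g : ι → ℝ → ℝ := fun i c => (Φ i c).f S0 x0 with hg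
  have hgm : ∀ i, Monotone (g i) := fun i => hm i S0 x0 (hB _ _ h0)
  set J : Set ℝ := (⋃ i, {c | ¬ ContinuousAt (g i) c}) ∪ {0} with hJ
  have hJc : J.Countable := (Set.countable_iUnion fun i => (hgm i).countable_not_continuousAt).union
    (Set.countable_singleton 0)
  have : Countable J := hJc.to_subtype
  have : Nonempty J := ⟨⟨0, Or.inr rfl⟩⟩
  obtain ⟨v2, hC2⟩ := stage' hC1 (fun S x hx => hB S x hx.1) (fun p : ι × J => Φ p.1 p.2)
  refine ⟨fun i c => if h : c ∈ J then v2 (i, ⟨c, h⟩) else g i c, ?_⟩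
  have heq : (fun (S : Sp) (x : K.Ob S) => C S x ∧ ∀ i c, (Φ i c).f S x =
      if h : c ∈ J then v2 (i, ⟨c, h⟩) else g i c) = fun (S : Sp) (x : K.Ob S) =>
        (C S x ∧ ∀ p : ι × ℚ, (Φ p.1 p.2).f S x = v1 p) ∧ ∀ p : ι × J, (Φ p.1 p.2).f S x = v2 p := by
    obtain ⟨S2, x2, ⟨h2a, h2b⟩, h2c⟩ := hC2.ne
    funext S x
    apply propext
    constructor
    · rintro ⟨hx, h1⟩
      refine ⟨⟨hx, ?_⟩, ?_⟩
      · rintro ⟨i, q⟩
        show (Φ i q).f S x = v1 (i, q)
        rw [h1 i q]
        by_cases h : (q : ℝ) ∈ J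
        · rw [dif_pos h]
          have a1 := h2c (i, ⟨q, h⟩)
          have a2 := h2b (i, q)
          exact a1.symm.trans a2
        · rw [dif_neg h]
          exact hv0 (i, q)
      · rintro ⟨i, c, h⟩
        show (Φ i c).f S x = _
        rw [h1 i c, dif_pos h]
    · rintro ⟨⟨hx, h1⟩, h2⟩
      refine ⟨hx, fun i c => ?_⟩
      by_cases h : c ∈ J
      · rw [dif_pos h]
        exact h2 (i, ⟨c, h⟩)
      · rw [dif_neg h]
        have hcont : ContinuousAt (g i) c := by
          by_contra hn
          exact h (Or.inl (Set.mem_iUnion.mpr ⟨i, hn⟩))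
        have hq : ∀ q : ℚ, (Φ i q).f S x = g i q := fun q => (h1 (i, q)).trans (hv0 (i, q)).symm
        have hmx := hm i S x (hB S x hx)
        apply le_antisymm
        · -- upper bound
          refine le_of_forall_pos_le_add fun e he => ?_
          have h3 : ∀ᶠ t in 𝓝 c, g i t < g i c + e := hcont.eventually (gt_mem_nhds (by linarith))
          obtain ⟨δ, hδ, h4⟩ := Metric.eventually_nhds_iff.mp h3
          obtain ⟨q, hq1, hq2⟩ := exists_rat_btwn (show c < c + δ by linarith)
          have h5 : g i q < g i c + e := h4 (by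
            rw [Real.dist_eq, abs_of_pos (by linarith)]
            linarith)
          have h6 : (Φ i c).f S x ≤ (Φ i q).f S x := hmx hq1.le
          rw [hq q] at h6
          linarith
        · refine le_of_forall_pos_le_add fun e he => ?_
          have h3 : ∀ᶠ t in 𝓝 c, g i c - e < g i t := hcont.eventually (lt_mem_nhds (by linarith))
          obtain ⟨δ, hδ, h4⟩ := Metric.eventually_nhds_iff.mp h3
          obtain ⟨q, hq1, hq2⟩ := exists_rat_btwn (show c - δ < c by linarith)
          have h5 : g i c - e < g i q := h4 (by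
            rw [Real.dist_eq, abs_of_neg (by linarith)]
            linarith)
          have h6 : (Φ i q).f S x ≤ (Φ i c).f S x := hmx hq2.le
          rw [hq q] at h6
          linarith
  rw [heq]
  exact hC2

/-- constants extend to all values of the parameters by continuity -/
theorem const_ext {P : Type*} [TopologicalSpace P] {D : Set P} (hD : Dense D) {f : P → ∀ S : Sp, K.Ob S → ℝ}
    (hf : ∀ S x, C S x → Continuous fun t => f t S x) (hne : ∃ (S : Sp) (x : K.Ob S), C S x)
    (hv : ∃ v : P → ℝ, ∀ S x, C S x → ∀ t ∈ D, f t S x = v t) : ∃ v : P → ℝ, ∀ S x, C S x → ∀ t, f t S x = v t := by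
  obtain ⟨S0, x0, h0⟩ := hne
  obtain ⟨v, hv⟩ := hv
  refine ⟨fun t => f t S0 x0, fun S x hx t => ?_⟩
  have h1 : (fun t => f t S x) = fun t => f t S0 x0 :=
    Continuous.ext_on hD (hf S x hx) (hf S0 x0 h0) fun t ht => (hv S x hx t ht).trans (hv S0 x0 h0 t ht).symm
  exact congrFun h1 t

/-- STAGE, a family which is monotone in a real parameter and continuous in a second parameter -/
theorem stage_mono_cont (hC : Cls C) (hB : ∀ S x, C S x → B S x) {ι : Type} [Countable ι] [Nonempty ι]
    {P : Type} [TopologicalSpace P] [TopologicalSpace.SeparableSpace P] [Nonempty P]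
    (Φ : ι → P → ℝ → Fnl B) (hm : ∀ i p S x, B S x → Monotone fun c => (Φ i p c).f S x)
    (hc : ∀ i c S x, B S x → Continuous fun p => (Φ i p c).f S x) :
    ∃ v : ι → P → ℝ → ℝ, Cls (fun S x => C S x ∧ ∀ i p c, (Φ i p c).f S x = v i p c) := by
  classical
  obtain ⟨D, hDc, hD⟩ := TopologicalSpace.exists_countable_dense P
  have : Countable D := hDc.to_subtype
  have : Nonempty D := hD.nonempty.to_subtype
  obtain ⟨v1, hC1⟩ := stage_mono hC hB (ι := ι × D) (fun q => Φ q.1 q.2) (fun q => hm q.1 q.2)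
  obtain ⟨S0, x0, h0, hv0⟩ := hC1.ne
  refine ⟨fun i p c => (Φ i p c).f S0 x0, ?_⟩
  have heq : (fun (S : Sp) (x : K.Ob S) => C S x ∧ ∀ i p c, (Φ i p c).f S x = (Φ i p c).f S0 x0) =
      fun (S : Sp) (x : K.Ob S) => C S x ∧ ∀ (q : ι × D) c, (Φ q.1 q.2 c).f S x = v1 q c := by
    funext S x
    apply propext
    constructor
    · rintro ⟨hx, h1⟩
      exact ⟨hx, fun q c => (h1 q.1 q.2 c).trans (hv0 q c)⟩
    · rintro ⟨hx, h1⟩
      refine ⟨hx, fun i p c => ?_⟩
      have h2 : (fun p => (Φ i p c).f S x) = fun p => (Φ i p c).f S0 x0 :=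
        Continuous.ext_on hD (hc i c S x (hB S x hx)) (hc i c S0 x0 (hB _ _ h0)) fun p hp =>
          (h1 (i, ⟨p, hp⟩) c).trans (hv0 (i, ⟨p, hp⟩) c).symm
      exact congrFun h2 p
  rw [heq]
  exact hC1

end

end Pool.Agent.Helper52.GF
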