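import Pool.Agent.Helper52.GF.Vl
import Pool.Agent.Helper52.GF.Stg

/-! FUNCTIONALS OF SYSTEMS OF LEAVES: monotone in the window, Lipschitz in the levels of the cells of the point. -/

set_option autoImplicit false

namespace Pool.Agent.Helper52.GF

open Finset Filter Topology Matrix Pool.Agent.Helper69.RK Pool.Agent.Helper31.EC Pool.Agent.Helper31.EC.Sp
open Pool.Agent.Helper40.EL Pool.Agent.Helper89.LX Pool.Agent.Helper59.EV Pool.Agent.Helper49.MD
open Pool.Agent.Helper84.MT Pool.Agent.Helper36.AM Pool.Agent.Helper3.LF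

noncomputable section

variable {S T : Sp} {M : ℕ} {E : ℕ → ℕ} {ι : Type}

/-! ### monotonicity -/

theorem scn_mono (s : MSys S M E ι) {r r' c c' : ℝ} (hr : r ≤ r') (hc : c ≤ c') (i : Option ι) :
    PLe (scn s r c i) (scn s r' c' i) := by
  rcases i with _ | i
  · exact pcr_mono s.Q hr
  · exact (s.lf i).win_mono hc

theorem scn_DMf (s : MSys S M E ι) {r r' c c' : ℝ} (hr : r ≤ r') (hc : c ≤ c') {l : Lab S}
    (h : l.DMf (scn s r c)) : l.DMf (scn s r' c') := h.mono fun i => ⟨i, scn_mono s hr hc i⟩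

section
variable [Encodable ι]

/-- the information is monotone in the window and in the level of the point -/
theorem ivm_mono (X : Pt (KM M ι) (isMc M E ι)) {r r' c c' : ℝ} (hr : r ≤ r') (hc : c ≤ c') {x : (KM M ι).Ob S}
    (hx : isMc M E ι S x) : (ivm X r c).f S x ≤ (ivm X r' c').f S x := by
  obtain ⟨s, h⟩ := hx
  exact iv_mono ⟨s, h⟩ fun l hl => (cdm_DMf h r' c' l).mpr (scn_DMf s hr hc ((cdm_DMf h r c l).mp hl))

/-- the exponent is monotone in the window and in the level of the point -/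
theorem gvM_mono (D : ℕ) {r r' c c' : ℝ} (hr : r ≤ r') (hc : c ≤ c') {x : (KM M ι).Ob S}
    (hx : isMc M E ι S x) : (gvM M E ι D r c).f S x ≤ (gvM M E ι D r' c').f S x := by
  obtain ⟨s, h⟩ := hx
  refine gvf_le_of (V := (fvq M E ι D).vk) (V' := (fvq M E ι D).vk) ⟨s, h⟩ ⟨s, h⟩ fun y hy => ⟨y, ?_, le_rfl⟩
  have h1 := (adc_giv h ⟨s, h⟩ r c y).mp hy
  exact (adc_giv h ⟨s, h⟩ r' c' y).mpr (Gau.Adc.sub (gaq s.Q D) h1 fun h2 => scn_DMf s hr hc h2)

/-- the volume decreases -/
theorem vlm_anti (D : ℕ) {r r' c c' : ℝ} (hr : r ≤ r') (hc : c ≤ c') {x : (KM M ι).Ob S} (hx : isMc M E ι S x) :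
    vlm M E ι D r' c' x ≤ vlm M E ι D r c x := by
  have h1 := gvM_mono D hr hc hx
  rw [vlm_eq, vlm_eq]
  linarith

end

/-! ### entropies of vectors of cells -/

/-- the entropy of a vector is at most the sum of the entropies of the coordinates -/
theorem h_pi_le {F : FSp} {α : Type} [Fintype α] (f : F.Ω → α → ℤ) (Y : FL F) :
    h (fc (Setoid.ker f)) Y ≤ ∑ j, h (fc (Setoid.ker fun ω => f ω j)) Y := by
  classical
  have key : ∀ J : Finset α, h (fc (Setoid.ker fun ω (j : α) => if j ∈ J then f ω j else 0)) Y ≤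
      ∑ j ∈ J, h (fc (Setoid.ker fun ω => f ω j)) Y := by
    intro J
    induction J using Finset.induction_on with
    | empty =>
      have e : (Setoid.ker fun (ω : F.Ω) (j : α) => if j ∈ (∅ : Finset α) then f ω j else 0) = ⊤ := by
        ext a b
        simp [Setoid.ker_def]
      rw [e, Finset.sum_empty]
      exact (h_zero (show (⊥ : FL F) ≤ Y from bot_le)).le
    | insert i J hi ih =>
      have e : (Setoid.ker fun (ω : F.Ω) (j : α) => if j ∈ insert i J then f ω j else 0) =
          (Setoid.ker fun ω => f ω i) ⊓ Setoid.ker fun ω (j : α) => if j ∈ J then f ω j else 0 := by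
        ext a b
        rw [Setoid.inf_def]
        constructor
        · intro h
          have h' : (fun j : α => if j ∈ insert i J then f a j else 0) =
            fun j : α => if j ∈ insert i J then f b j else 0 := h
          refine ⟨?_, ?_⟩
          · have := congrFun h' i
            simpa using this
          · show (fun j : α => if j ∈ J then f a j else 0) = fun j : α => if j ∈ J then f b j else 0
            funext j
            have h2 := congrFun h' j
            by_cases hj : j ∈ J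
            · rw [if_pos hj, if_pos hj]
              rw [if_pos (Finset.mem_insert_of_mem hj), if_pos (Finset.mem_insert_of_mem hj)] at h2
              exact h2
            · rw [if_neg hj, if_neg hj]
        · rintro ⟨h1, h2⟩
          have h1' : f a i = f b i := h1
          have h2' : (fun j : α => if j ∈ J then f a j else 0) = fun j : α => if j ∈ J then f b j else 0 := h2
          show (fun j : α => if j ∈ insert i J then f a j else 0) = fun j : α => if j ∈ insert i J then f b j else 0
          funext j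
          have h3 := congrFun h2' j
          by_cases hj : j ∈ J
          · rw [if_pos (Finset.mem_insert_of_mem hj), if_pos (Finset.mem_insert_of_mem hj)]
            rw [if_pos hj, if_pos hj] at h3
            exact h3
          · by_cases hji : j = i
            · subst hji
              rw [if_pos (Finset.mem_insert_self _ _), if_pos (Finset.mem_insert_self _ _)]
              exact h1'
            · have : j ∉ insert i J := by
                rw [Finset.mem_insert]
                tauto
              rw [if_neg this, if_neg this]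
      rw [e, fc_inf, Finset.sum_insert hi]
      exact (h_sup_le _ _ _).trans (add_le_add le_rfl ih)
  have h1 := key Finset.univ
  have e : (fun (ω : F.Ω) (j : α) => if j ∈ (Finset.univ : Finset α) then f ω j else 0) = f := by
    funext ω j
    rw [if_pos (Finset.mem_univ _)]
  rw [e] at h1
  exact h1

/-- two vectors -/
theorem h_pi_pi_le {F : FSp} {α : Type} [Fintype α] (f g : F.Ω → α → ℤ) :
    h (fc (Setoid.ker f)) (fc (Setoid.ker g)) ≤
      ∑ j, h (fc (Setoid.ker fun ω => f ω j)) (fc (Setoid.ker fun ω => g ω j)) := by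
  refine (h_pi_le f _).trans (Finset.sum_le_sum fun j _ => ?_)
  apply h_anti
  apply fc_le
  intro a b _ _ _ e
  have e' : g a = g b := e
  exact congrFun e' j

/-- a coordinate -/
def co (Q : S.VV M) (j : Fin M) : S.VV 1 where
  v := fun k ω _ => Q.v k ω j
  bd := by
    obtain ⟨C, hC, h⟩ := Q.bd
    exact ⟨C, hC, h.mono fun k hk ω hω _ => hk ω hω j⟩

theorem co_ker (Q : S.VV M) (j : Fin M) (a : ℝ) (k : ℕ) :
    Setoid.ker ((co Q j).cellv a k) = Setoid.ker fun ω => Q.cellv a k ω j := by
  ext u v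
  constructor
  · intro h
    have h' : (co Q j).cellv a k u = (co Q j).cellv a k v := h
    exact congrFun h' 0
  · intro h
    show (co Q j).cellv a k u = (co Q j).cellv a k v
    funext i
    exact h

/-- a coordinate at the level `a`, given its cell of level `a'` -/
theorem co_rate (Q : S.VV M) (j : Fin M) (a a' : ℝ) {η : ℝ} (hη : 0 < η) :
    ∀ᶠ k in UF, h (fc (Setoid.ker fun ω => Q.cellv a k ω j)) (fc (Setoid.ker fun ω => Q.cellv a' k ω j)) ≤
      (|a - a'| + η) * (S.F k).n := by
  obtain ⟨f, hf, h1⟩ := ul_rt_cell_le (co Q j) a |a - a'| (abs_nonneg _)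
    (fun k => Setoid.ker fun ω => Q.cellv a' k ω j) (fun _ _ => True) Typ_true (fun _ => 1) (S.Sub_const zero_le_one)
    (Eventually.of_forall fun k ω ω' _ _ _ _ e i => by
      have e1 : Q.cellv a' k ω j = Q.cellv a' k ω' j := e.1
      have hd := S.dl_pos a' k
      have h2 : |Q.v k ω j - Q.v k ω' j| ≤ S.dl a' k := by
        have e2 : ⌊Q.v k ω j / S.dl a' k⌋ = ⌊Q.v k ω' j / S.dl a' k⌋ := e1
        have h3 := Int.abs_sub_lt_one_of_floor_eq_floor e2
        rw [← sub_div, abs_div, abs_of_pos hd, div_lt_one hd] at h3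
        exact h3.le
      have h3 : S.dl a' k ≤ S.dl (a - |a - a'|) k := S.dl_anti (by
        have := le_abs_self (a - a')
        linarith) k
      show |Q.v k ω j - Q.v k ω' j| ≤ 1 * S.dl (a - |a - a'|) k
      linarith)
  have h2 : ((1 : ℕ) : ℝ) * |a - a'| < |a - a'| + η := by
    rw [Nat.cast_one, one_mul]
    linarith
  filter_upwards [h1, hf.eventually (gt_mem_nhds h2)] with k a1 a2
  have hn := (S.F k).pos
  have h3 := a1.trans a2.le
  unfold Sp.rt at h3
  rw [div_le_iff₀ hn] at h3
  rw [h_fc, ← co_ker]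
  exact h3

/-- cells of level `a` of some coordinates given the cells of level `a'` -/
theorem sub_rate (Q : S.VV M) {α : Type} [Fintype α] (φ : α → Fin M) (a a' : ℝ) {η : ℝ} (hη : 0 < η) :
    ∀ᶠ k in UF, h (fc (Setoid.ker fun ω (j : α) => Q.cellv a k ω (φ j)))
      (fc (Setoid.ker fun ω (j : α) => Q.cellv a' k ω (φ j))) ≤ (Fintype.card α * |a - a'| + η) * (S.F k).n := by
  have hη' : 0 < η / (Fintype.card α + 1) := by positivity
  filter_upwards [eventually_all.mpr fun j : α => co_rate Q (φ j) a a' hη'] with k hk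
  refine (h_pi_pi_le _ _).trans ((Finset.sum_le_sum fun j _ => hk j).trans ?_)
  rw [Finset.sum_const, Finset.card_univ, nsmul_eq_mul, ← mul_assoc]
  apply mul_le_mul_of_nonneg_right _ (S.F k).pos.le
  rw [mul_add]
  apply add_le_add le_rfl
  rw [mul_div_assoc', div_le_iff₀ (by positivity)]
  nlinarith

/-! ### Lipschitz -/

section
variable [Encodable ι] {κ : Type} [Encodable κ]

theorem pql_rate {x : (KM M ι).Ob S} (hx : isMc M E ι S x) (b b' : ℝ) {η : ℝ} (hη : 0 < η) :
    ∀ᶠ k in UF, h ((pql M E ι b).pt x k) ((pql M E ι b').pt x k) ≤ (M * |b - b'| + η) * (S.F k).n := by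
  obtain ⟨s, hs⟩ := hx
  filter_upwards [sub_rate s.Q (id : Fin M → Fin M) b b' hη, pql_pt hs b, pql_pt hs b'] with k h1 h2 h3
  rw [h2, h3]
  rw [Fintype.card_fin] at h1
  exact h1

theorem pqs_rate {x : (KM M ι).Ob S} (hx : isMc M E ι S x) (J : Fin M → Prop) (a a' : ℝ) {η : ℝ} (hη : 0 < η) :
    ∀ᶠ k in UF, h ((pqs M E ι J a).pt x k) ((pqs M E ι J a').pt x k) ≤ (M * |a - a'| + η) * (S.F k).n := by
  classical
  obtain ⟨s, hs⟩ := hx
  filter_upwards [sub_rate s.Q (fun j : {j // J j} => j.1) a a' hη, pqs_pt hs J a, pqs_pt hs J a'] with k h1 h2 h3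
  rw [h2, h3]
  refine h1.trans (mul_le_mul_of_nonneg_right (add_le_add ?_ le_rfl) (S.F k).pos.le)
  apply mul_le_mul_of_nonneg_right _ (abs_nonneg _)
  have h4 : Fintype.card {j // J j} ≤ M := by
    have := Fintype.card_subtype_le J
    rwa [Fintype.card_fin] at this
  exact_mod_cast h4

theorem pq2_rate {x : (KM M ι).Ob S} (hx : isMc M E ι S x) (z : Fin M) (a b a' b' : ℝ) {η : ℝ} (hη : 0 < η) :
    ∀ᶠ k in UF, h ((pq2 M E ι z a b).pt x k) ((pq2 M E ι z a' b').pt x k) ≤
      (M * (|b - b'| + |a - a'|) + η) * (S.F k).n := by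
  have hη' : 0 < η / 2 := by linarith
  filter_upwards [pql_rate hx b b' hη', pqs_rate hx (fun j => j ≠ z) a a' hη'] with k h1 h2
  have e : ∀ c d : ℝ, (pq2 M E ι z c d).pt x k = (pql M E ι d).pt x k ⊔ (pqs M E ι (fun j => j ≠ z) c).pt x k :=
    fun c d => rfl
  rw [e, e]
  have h3 := h_sup_le ((pql M E ι b).pt x k) ((pqs M E ι (fun j => j ≠ z) a).pt x k)
    ((pql M E ι b').pt x k ⊔ (pqs M E ι (fun j => j ≠ z) a').pt x k)
  have h4 : h ((pql M E ι b).pt x k) ((pql M E ι b').pt x k ⊔ (pqs M E ι (fun j => j ≠ z) a').pt x k) ≤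
    h ((pql M E ι b).pt x k) ((pql M E ι b').pt x k) := h_anti le_sup_left
  have h5 : h ((pqs M E ι (fun j => j ≠ z) a).pt x k)
      ((pql M E ι b').pt x k ⊔ (pqs M E ι (fun j => j ≠ z) a').pt x k) ≤
    h ((pqs M E ι (fun j => j ≠ z) a).pt x k) ((pqs M E ι (fun j => j ≠ z) a').pt x k) := h_anti le_sup_right
  have h6 : (M * (|b - b'| + |a - a'|) + η) * (S.F k).n = (M * |b - b'| + η / 2) * (S.F k).n +
      (M * |a - a'| + η / 2) * (S.F k).n := by ring
  rw [h6]
  linarith

theorem pql_lip {A : Cd (KM M ι) κ} {x : (KM M ι).Ob S} (hx : isMc M E ι S x) (b b' : ℝ) :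
    iv (pql M E ι b) A x ≤ iv (pql M E ι b') A x + M * |b - b'| := iv_le_add hx fun _ hη => pql_rate hx b b' hη

theorem pqs_lip {A : Cd (KM M ι) κ} {x : (KM M ι).Ob S} (hx : isMc M E ι S x) (J : Fin M → Prop) (b b' : ℝ) :
    iv (pqs M E ι J b) A x ≤ iv (pqs M E ι J b') A x + M * |b - b'| :=
  iv_le_add hx fun _ hη => pqs_rate hx J b b' hη

theorem pq2_lip {A : Cd (KM M ι) κ} {x : (KM M ι).Ob S} (hx : isMc M E ι S x) (z : Fin M) (a b a' b' : ℝ) :
    iv (pq2 M E ι z a b) A x ≤ iv (pq2 M E ι z a' b') A x + M * (|b - b'| + |a - a'|) :=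
  iv_le_add hx fun _ hη => pq2_rate hx z a b a' b' hη

theorem cont_of_le {P : Type*} [PseudoMetricSpace P] {f : P → ℝ} {L : ℝ} (hL : 0 ≤ L)
    (h : ∀ p q, f p ≤ f q + L * dist p q) : Continuous f :=
  (LipschitzWith.of_le_add_mul ⟨L, hL⟩ h).continuous

theorem pql_cont {A : Cd (KM M ι) κ} {x : (KM M ι).Ob S} (hx : isMc M E ι S x) :
    Continuous fun b => iv (pql M E ι b) A x :=
  cont_of_le (L := M) (Nat.cast_nonneg _) fun b b' => by
    rw [Real.dist_eq]
    exact pql_lip hx b b'

theorem pqs_cont {A : Cd (KM M ι) κ} {x : (KM M ι).Ob S} (hx : isMc M E ι S x) (J : Fin M → Prop) :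
    Continuous fun b => iv (pqs M E ι J b) A x :=
  cont_of_le (L := M) (Nat.cast_nonneg _) fun b b' => by
    rw [Real.dist_eq]
    exact pqs_lip hx J b b'

theorem pq2_cont {A : Cd (KM M ι) κ} {x : (KM M ι).Ob S} (hx : isMc M E ι S x) (z : Fin M) :
    Continuous fun p : ℝ × ℝ => iv (pq2 M E ι z p.1 p.2) A x :=
  cont_of_le (L := M * 2) (by positivity) fun p q => by
    refine (pq2_lip hx z p.1 p.2 q.1 q.2).trans (add_le_add le_rfl ?_)
    rw [mul_assoc]
    apply mul_le_mul_of_nonneg_left _ (Nat.cast_nonneg _)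
    have h1 : |p.1 - q.1| ≤ dist p q := by
      rw [← Real.dist_eq]
      exact (le_max_left _ _)
    have h2 : |p.2 - q.2| ≤ dist p q := by
      rw [← Real.dist_eq]
      exact (le_max_right _ _)
    linarith

end

end

end Pool.Agent.Helper52.GF
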