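import Pool.Agent.Helper52.GF.Ki
import Pool.Agent.Helper52.GF.Mon

/-! MAPS OF KINDS: conditions, partitions, gauges, values and functionals are pulled back; kinds which carry a system of
leaves. -/

set_option autoImplicit false

namespace Pool.Agent.Helper52.GF

open Finset Filter Topology Matrix Pool.Agent.Helper69.RK Pool.Agent.Helper31.EC Pool.Agent.Helper31.EC.Sp
open Pool.Agent.Helper40.EL Pool.Agent.Helper89.LX Pool.Agent.Helper59.EV Pool.Agent.Helper49.MD
open Pool.Agent.Helper84.MT Pool.Agent.Helper3.LF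
open Pool.Agent.Helper95.LF (PdM)

noncomputable section

/-- MAPS OF KINDS -/
structure Km (K K' : FK) where
  f : ∀ F : FSp, K.X F → K'.X F
  im : ∀ (F T : FSp) (p : FPj T F) (E : T.Ω → Prop) (x : K.X F), f (FSp.im p E) (K.im p E x) = K'.im p E (f F x)

variable {K K' : FK}

namespace Km

variable (m : Km K K')

/-- the image of an object -/
def o {S : Sp} (x : K.Ob S) : K'.Ob S := fun k => m.f (S.F k) (x k)

theorem o_imo {S T : Sp} (x : K.Ob S) (p : Pj T S) (E : ∀ k, (T.F k).Ω → Prop) :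
    m.o (K.imo x p E) = K'.imo (m.o x) p E := funext fun k => m.im (S.F k) (T.F k) (p.fp k) (E k) (x k)

theorem o_dgo (S : ℕ → Sp) (x : ∀ j, K.Ob (S j)) (J : ℕ → ℕ) (h : Tendsto (fun k => ((S (J k)).F k).n) UF atTop) :
    m.o (K.dgo S x J h) = K'.dgo S (fun j => m.o (x j)) J h := rfl

/-- the inverse image of a class -/
def pb (B' : K'.Pd) : K.Pd := fun _ x => B' _ (m.o x)

variable {B' : K'.Pd}

theorem pb_im (h : ImCl B') : ImCl (m.pb B') := by
  intro S x hx T p E hE
  show B' _ (m.o (K.imo x p E))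
  rw [m.o_imo]
  exact h S (m.o x) hx T p E hE

theorem pb_dg (h : DiagCl B') : DiagCl (m.pb B') := by
  intro S x hx
  obtain ⟨E, hE, h1⟩ := h S (fun j => m.o (x j)) hx
  exact ⟨E, hE, fun J hJ => h1 J hJ⟩

theorem pb_ev (h : Inv B') : Inv (m.pb B') := by
  intro S x y e hx
  refine h S (m.o x) (m.o y) ?_ hx
  filter_upwards [e] with k hk
  show m.f (S.F k) (x k) = m.f (S.F k) (y k)
  rw [hk]

end Km

/-- conditions -/
def Cd.cm {κ : Type} (A : Cd K' κ) (m : Km K K') : Cd K κ where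
  c := fun F x i => A.c F (m.f F x) i
  im := fun F T p E x i => by rw [m.im, A.im]

theorem Cd.cm_cf {κ : Type} (A : Cd K' κ) (m : Km K K') {S : Sp} (x : K.Ob S) : (A.cm m).cf x = A.cf (m.o x) := rfl

/-- partitions without bounds -/
def Pu.cm (X : Pu K') (m : Km K K') : Pu K where
  X := fun F x => X.X F (m.f F x)
  im := fun F T p E x => by rw [m.im, X.im]

theorem Pu.cm_pt (X : Pu K') (m : Km K K') {S : Sp} (x : K.Ob S) : (X.cm m).pt x = X.pt (m.o x) := rfl

section
variable {B : K.Pd} {B' : K'.Pd} (m : Km K K') (hB : ∀ S x, B S x → B' S (m.o x))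

/-- partitions -/
def Pt.cm (X : Pt K' B') (m : Km K K') (hB : ∀ S x, B S x → B' S (m.o x)) : Pt K B where
  X := fun F x => X.X F (m.f F x)
  im := fun F T p E x => by rw [m.im, X.im]
  C := X.C
  C0 := X.C0
  vb := fun S x hx => X.vb S (m.o x) (hB S x hx)

theorem Pt.cm_pt (X : Pt K' B') {S : Sp} (x : K.Ob S) : (X.cm m hB).pt x = X.pt (m.o x) := rfl

variable {ι : Type} [Fintype ι] [DecidableEq ι]

/-- gauges -/
def Gk.cm (G : Gk K' B' ι) (m : Km K K') (hB : ∀ S x, B S x → B' S (m.o x)) : Gk K B ι where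
  φ := fun F x => G.φ F (m.f F x)
  im := fun F T p E x ω A => by rw [m.im, G.im]
  add := fun F x => G.add F (m.f F x)
  nn := fun F x => G.nn F (m.f F x)
  C := G.C
  C0 := G.C0
  cap := fun S x hx => G.cap S (m.o x) (hB S x hx)
  one := fun S x hx => G.one S (m.o x) (hB S x hx)

theorem Gk.cm_gau (G : Gk K' B' ι) {S : Sp} {x : K.Ob S} (hx : B S x) :
    (G.cm m hB).gau hx = G.gau (hB S x hx) := rfl

/-- values of forms -/
def Fv.cm {C : ℝ} (V : Fv K' B' ι C) (m : Km K K') (hB : ∀ S x, B S x → B' S (m.o x)) : Fv K B ι C where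
  v := fun F x => V.v F (m.f F x)
  im := fun F T p E x ω A => by rw [m.im, V.im]
  M := V.M
  M0 := V.M0
  nn := fun F x => V.nn F (m.f F x)
  le := fun S x hx => V.le S (m.o x) (hB S x hx)

end

/-- FUNCTIONALS -/
def fnlM {B' : K'.Pd} (m : Km K K') (Φ : Fnl B') : Fnl (m.pb B') where
  f := fun S x => Φ.f S (m.o x)
  M := Φ.M
  nn := fun S x hx => Φ.nn S (m.o x) hx
  le := fun S x hx => Φ.le S (m.o x) hx
  ev := fun S x y hx e => Φ.ev S (m.o x) (m.o y) hx (by
    filter_upwards [e] with k hk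
    show m.f (S.F k) (x k) = m.f (S.F k) (y k)
    rw [hk])
  usc := by
    intro S x hx
    obtain ⟨E, hE, h1⟩ := Φ.usc S (fun j => m.o (x j)) hx
    exact ⟨E, hE, fun J hJ => h1 J hJ⟩
  spl := by
    intro S x hx T p E hE hE'
    have h1 := Φ.spl S (m.o x) hx T p E hE hE'
    rw [← m.o_imo, ← m.o_imo] at h1
    exact h1
  typ := by
    intro S x hx T p E ht
    have h1 := Φ.typ S (m.o x) hx T p E ht
    rw [← m.o_imo] at h1
    exact h1

end

end Pool.Agent.Helper52.GF
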