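import Pool.Agent.Helper52.GF.Ks
import Pool.Agent.Helper52.GF.Rob

/-! ROBUST CLASSES IN THE K-LANGUAGE. In every class of objects with systems of leaves which is closed under slow diagonals
and restrictions there is a subclass on which the informations of the K-labels about all cells of the point (and about
countably many attached partitions), the entropies, the volumes and the scores of the K-forms are constant, for all
windows, and for countably many truncations. -/

set_option autoImplicit false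

namespace Pool.Agent.Helper52.GF

open Finset Filter Topology Matrix Pool.Agent.Helper69.RK Pool.Agent.Helper31.EC Pool.Agent.Helper31.EC.Sp
open Pool.Agent.Helper40.EL Pool.Agent.Helper89.LX Pool.Agent.Helper59.EV Pool.Agent.Helper49.MD
open Pool.Agent.Helper84.MT Pool.Agent.Helper3.LF Pool.Agent.Helper36.AM
open Pool.Agent.Helper95.LF (PdM)

noncomputable section

variable {S : Sp} {M : ℕ} {E : ℕ → ℕ} {ι : Type}

/-! ### the family of partitions -/

variable {K : FK} (m : Km K (KM M ι)) [Encodable ι]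

variable (E) in
/-- the partitions of the point -/
def ptk (X : XI M) (p : ℝ × ℝ) : Pt K (isK E m) := (ptx M E ι X p).cm m fun _ _ h => h

variable (E) in
/-- the partitions of the point, joined with one of the given partitions -/
def pty (Y : ℕ → Pt K (isK E m)) (X : XI M) (o : Option ℕ) (p : ℝ × ℝ) : Pt K (isK E m) :=
  match o with
  | none => ptk E m X p
  | some n => (ptk E m X p).inf (Y n)

theorem ptk_pt (X : XI M) (p : ℝ × ℝ) {S : Sp} (x : K.Ob S) : (ptk E m X p).pt x = (ptx M E ι X p).pt (m.o x) := rfl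

theorem ptx_rate {x : (KM M ι).Ob S} (hx : isMc M E ι S x) (X : XI M) (p q : ℝ × ℝ) {η : ℝ} (hη : 0 < η) :
    ∀ᶠ k in UF, h ((ptx M E ι X p).pt x k) ((ptx M E ι X q).pt x k) ≤ (M * 2 * dist p q + η) * (S.F k).n := by
  have h1 : |p.1 - q.1| ≤ dist p q := by
    rw [← Real.dist_eq]
    exact (le_max_left _ _)
  have h2 : |p.2 - q.2| ≤ dist p q := by
    rw [← Real.dist_eq]
    exact (le_max_right _ _)
  have hM : (0 : ℝ) ≤ M := Nat.cast_nonneg _
  have h3 : (M : ℝ) * |p.1 - q.1| ≤ M * 2 * dist p q := by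
    have := mul_le_mul_of_nonneg_left h1 hM
    have := mul_nonneg hM (dist_nonneg (x := p) (y := q))
    linarith
  rcases X with J | X
  · filter_upwards [pqs_rate hx (fun j => j ∈ J) p.1 q.1 hη] with k hk
    exact hk.trans (mul_le_mul_of_nonneg_right (add_le_add h3 le_rfl) (S.F k).pos.le)
  · rcases X with _ | z
    · filter_upwards [pql_rate hx p.1 q.1 hη] with k hk
      exact hk.trans (mul_le_mul_of_nonneg_right (add_le_add h3 le_rfl) (S.F k).pos.le)
    · filter_upwards [pq2_rate hx z p.1 p.2 q.1 q.2 hη] with k hk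
      refine hk.trans (mul_le_mul_of_nonneg_right (add_le_add ?_ le_rfl) (S.F k).pos.le)
      rw [mul_assoc]
      apply mul_le_mul_of_nonneg_left _ hM
      linarith

theorem pty_rate (Y : ℕ → Pt K (isK E m)) (X : XI M) (o : Option ℕ) (p q : ℝ × ℝ) {x : K.Ob S} (hx : isK E m S x)
    {η : ℝ} (hη : 0 < η) :
    ∀ᶠ k in UF, h ((pty E m Y X o p).pt x k) ((pty E m Y X o q).pt x k) ≤ (M * 2 * dist p q + η) * (S.F k).n := by
  have h0 := ptx_rate (E := E) hx X p q hη
  cases o with
  | none => exact h0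
  | some n =>
    filter_upwards [h0] with k hk
    refine le_trans ?_ hk
    have e : ∀ r : ℝ × ℝ, (pty E m Y X (some n) r).pt x k = (ptx M E ι X r).pt (m.o x) k ⊔ (Y n).pt x k :=
      fun r => rfl
    rw [e, e]
    have h1 := h_sup_le ((ptx M E ι X p).pt (m.o x) k) ((Y n).pt x k)
      ((ptx M E ι X q).pt (m.o x) k ⊔ (Y n).pt x k)
    have h2 : h ((Y n).pt x k) ((ptx M E ι X q).pt (m.o x) k ⊔ (Y n).pt x k) = 0 := h_zero le_sup_right
    have h3 : h ((ptx M E ι X p).pt (m.o x) k) ((ptx M E ι X q).pt (m.o x) k ⊔ (Y n).pt x k) ≤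
      h ((ptx M E ι X p).pt (m.o x) k) ((ptx M E ι X q).pt (m.o x) k) := h_anti le_sup_left
    linarith

theorem kiv_cont {κ : Type} [Encodable κ] (Y : ℕ → Pt K (isK E m)) (X : XI M) (o : Option ℕ) (A : Cd K κ) (L : Lq K)
    {x : K.Ob S} (hx : isK E m S x) : Continuous fun p : ℝ × ℝ => kiv (pty E m Y X o p) A L x :=
  cont_of_le (L := M * 2) (by positivity) fun p q => kiv_le_add hx fun _ hη => pty_rate m Y X o p q hx hη

theorem iv_cont {κ : Type} [Encodable κ] (Y : ℕ → Pt K (isK E m)) (X : XI M) (o : Option ℕ) (A : Cd K κ)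
    {x : K.Ob S} (hx : isK E m S x) : Continuous fun p : ℝ × ℝ => iv (pty E m Y X o p) A x :=
  cont_of_le (L := M * 2) (by positivity) fun p q => iv_le_add hx fun _ hη => pty_rate m Y X o p q hx hη

/-! ### the values of an object -/

/-- CONSTANTS: `a n X o p c` informations, `b X o p` entropies, `v D n c` volumes, `s D n c` scores -/
structure KC (M : ℕ) where
  a : ℕ → XI M → Option ℕ → ℝ × ℝ → ℝ → ℝ
  b : XI M → Option ℕ → ℝ × ℝ → ℝ
  v : ℕ → ℕ → ℝ → ℝ
  s : ℕ → ℕ → ℝ → ℝ

/-- THE VALUES OF AN OBJECT -/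
structure KV (m : Km K (KM M ι)) (Y : ℕ → Pt K (isK E m)) (V W : ℕ → Pu K) (C : KC M) {S : Sp} (x : K.Ob S) :
    Prop where
  mem : isK E m S x
  pa : ∀ n X o p c, kvi m (pty E m Y X o p) (V n) (W n) c x = C.a n X o p c
  pb : ∀ X o p, iv (pty E m Y X o p) (c0 K) x = C.b X o p
  pv : ∀ D n c, kvm E m D (V n) (W n) c x = C.v D n c
  ps : ∀ D n c, kxs E m D (V n) (W n) c x = C.s D n c

/-- ROBUST CLASSES -/
def RbK (m : Km K (KM M ι)) (Y : ℕ → Pt K (isK E m)) (V W : ℕ → Pu K) (B : K.Pd) (C : KC M) : Prop :=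
  ∀ S x, B S x → KV m Y V W C (S := S) x

/-- robust truncations -/
def RbU (m : Km K (KM M ι)) (Y : ℕ → Pt K (isK E m)) (V W : ℕ → Pu K) (U : Ku K) (e : ℝ) (he : 0 < e) (B : K.Pd)
    (C : KC M) : Prop := ∀ S x, B S x → KV m Y V W C (U.o e he (S := S) x)

theorem RbK.sub {Y : ℕ → Pt K (isK E m)} {V W : ℕ → Pu K} {B B' : K.Pd} {C : KC M} (h : RbK m Y V W B C)
    (hB : ∀ S x, B' S x → B S x) : RbK m Y V W B' C := fun S x hx => h S x (hB S x hx)

theorem RbU.sub {Y : ℕ → Pt K (isK E m)} {V W : ℕ → Pu K} {U : Ku K} {e : ℝ} {he : 0 < e} {B B' : K.Pd} {C : KC M}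
    (h : RbU m Y V W U e he B C) (hB : ∀ S x, B' S x → B S x) : RbU m Y V W U e he B' C := fun S x hx => h S x (hB S x hx)

/-! ### existence -/

/-- one robust stage: a family of functors `g` (identity, truncations) -/
theorem stage_k {C : K.Pd} (hC : Cls C) (hM : ∀ S x, C S x → isK E m S x) (Y : ℕ → Pt K (isK E m))
    (V W : ℕ → Pu K) (U : Ku K) (u : ℕ → ℝ) (hu : ∀ j, 0 < u j) (hU : ∀ j, UnCl U (u j) (hu j) (isK E m)) :
    ∃ C' : K.Pd, Cls C' ∧ (∀ S x, C' S x → C S x) ∧ (∃ c : KC M, RbK m Y V W C' c) ∧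
      ∀ j, ∃ c : KC M, RbU m Y V W U (u j) (hu j) C' c := by
  classical
  -- the functional with or without change of the unit
  let tr : Option ℕ → Fnl (isK E m) → Fnl (isK E m) := fun j Φ => match j with
    | none => Φ
    | some j => fnlU U (u j) (hu j) (hU j) Φ
  -- informations and entropies
  obtain ⟨w, h1⟩ := stage_mono_cont hC hM (ι := Option ℕ × Option ℕ × XI M × Option ℕ) (P := ℝ × ℝ)
    (fun i p c => tr i.1 (match i.2.1 with
      | none => ivF (isK_imCl m) (pty E m Y i.2.2.1 i.2.2.2 p) (c0 K)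
      | some n => kviF m (isK_imCl m) (pty E m Y i.2.2.1 i.2.2.2 p) (V n) (W n) c))
    (by
      rintro ⟨j, n, X, o⟩ p S x hx c c' hc
      rcases n with _ | n
      · exact le_rfl
      · rcases j with _ | j
        · exact kvi_mono m _ hx hx (V n) (W n) hc
        · exact kvi_mono m _ (hU j S x hx) (hU j S x hx) (V n) (W n) hc)
    (by
      rintro ⟨j, n, X, o⟩ c S x hx
      rcases n with _ | n
      · rcases j with _ | j
        · exact iv_cont m Y X o (c0 K) hx
        · exact iv_cont m Y X o (c0 K) (hU j S x hx)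
      · rcases j with _ | j
        · exact kiv_cont m Y X o (cdw m (V n) c) (kzq (W n)) hx
        · exact kiv_cont m Y X o (cdw m (V n) c) (kzq (W n)) (hU j S x hx))
  -- volumes and scores
  obtain ⟨v, h2⟩ := stage_mono h1 (fun S x hx => hM S x hx.1) (ι := Option ℕ × Bool × ℕ × ℕ)
    (fun i c => tr i.1 (match i.2.1 with
      | true => kxmF E m i.2.2.1 (V i.2.2.2) (W i.2.2.2) c
      | false => kxsF E m i.2.2.1 (V i.2.2.2) (W i.2.2.2) c))
    (by
      rintro ⟨j, b, D, n⟩ S x hx c c' hc
      rcases j with _ | j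
      · cases b
        · exact kxs_mono m D (V n) (W n) hc hx
        · exact kxm_mono m D (V n) (W n) hc hx
      · cases b
        · exact kxs_mono m D (V n) (W n) hc (hU j S x hx)
        · exact kxm_mono m D (V n) (W n) hc (hU j S x hx))
  refine ⟨_, h2, fun S x hx => hx.1.1, ⟨⟨fun n X o p c => w (none, some n, X, o) p c, fun X o p => w (none, none, X, o) p 0,
    fun D n c => M - v (none, true, D, n) c, fun D n c => v (none, false, D, n) c⟩, fun S x hx => ?_⟩, fun j =>
    ⟨⟨fun n X o p c => w (some j, some n, X, o) p c, fun X o p => w (some j, none, X, o) p 0,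
    fun D n c => M - v (some j, true, D, n) c, fun D n c => v (some j, false, D, n) c⟩, fun S x hx => ?_⟩⟩
  · refine ⟨hM S x hx.1.1, fun n X o p c => hx.1.2 (none, some n, X, o) p c, fun X o p => hx.1.2 (none, none, X, o) p 0,
      fun D n c => ?_, fun D n c => hx.2 (none, false, D, n) c⟩
    have h3 := hx.2 (none, true, D, n) c
    show (M : ℝ) - kxm E m D (V n) (W n) c x = M - v (none, true, D, n) c
    rw [← h3]
    rfl
  · refine ⟨hU j S x (hM S x hx.1.1), fun n X o p c => hx.1.2 (some j, some n, X, o) p c,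
      fun X o p => hx.1.2 (some j, none, X, o) p 0, fun D n c => ?_, fun D n c => hx.2 (some j, false, D, n) c⟩
    have h3 := hx.2 (some j, true, D, n) c
    show (M : ℝ) - kxm E m D (V n) (W n) c (U.o (u j) (hu j) x) = M - v (some j, true, D, n) c
    rw [← h3]
    rfl

end

end Pool.Agent.Helper52.GF
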