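import Pool.Agent.Helper52.GF.Kr

/-! OPTIMAL K-FORMS OF SYSTEMS OF LEAVES (any number of types): the largest score of the forms of the K-labels as a
functional; the optimal forms are the forms of K-labels with this score; they dominate all forms of K-labels and have the
least volume. -/

set_option autoImplicit false

namespace Pool.Agent.Helper52.GF

open Finset Filter Topology Matrix Pool.Agent.Helper69.RK Pool.Agent.Helper31.EC Pool.Agent.Helper31.EC.Sp
open Pool.Agent.Helper40.EL Pool.Agent.Helper89.LX Pool.Agent.Helper59.EV Pool.Agent.Helper49.MD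
open Pool.Agent.Helper84.MT Pool.Agent.Helper3.LF Pool.Agent.Helper36.AM
open Pool.Agent.Helper95.LF (PdM)
open Pool.Agent.Helper14.MC (vx)

noncomputable section

variable {S : Sp} {M : ℕ} {E : ℕ → ℕ} {ι : Type}

/-! ### scores of forms -/

/-- the score of a form, as a value -/
def scv (K : FK) (B : K.Pd) (ι : Type) [Fintype ι] [DecidableEq ι] (C : ℝ) (hC : 0 ≤ C) : Fv K B ι C where
  v := fun F _ _ A => Real.logb 2 A.det / F.n
  im := fun _ _ _ _ _ _ _ => rfl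
  M := Fintype.card ι * (C + 1)
  M0 := by positivity
  nn := fun F _ _ A hA => div_nonneg (Real.logb_nonneg (by norm_num) hA.one_le) F.pos.le
  le := fun S _ _ => Eventually.of_forall fun k ω _ A hA => by
    have hn := (S.F k).pos
    rw [div_le_iff₀ hn]
    refine (logdet_le (one_le_cpn hC (S.F k)) hA).trans (le_of_eq ?_)
    unfold cpn
    rw [Real.logb_rpow (by norm_num) (by norm_num)]
    ring

/-- OPTIMAL K-FORMS: largest score among the forms of the K-labels -/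
def KOpt {D : ℕ} (s : MSys S M E ι) (A B : Part S) (c : ℝ) (z : ∀ k, FD (S.F k) (Mon M D)) : Prop :=
  KFm s A B c z ∧ ∀ y : ∀ k, FD (S.F k) (Mon M D), KFm s A B c y →
    ul (fun k => (y k).sc / (S.F k).n) ≤ ul (fun k => (z k).sc / (S.F k).n)

theorem KFm_iff [Finite ι] {D : ℕ} {s : MSys S M E ι} {A B : Part S} {c : ℝ}
    {y : ∀ k, FD (S.F k) (Mon M D)} : KFm s A B c y ↔ (gaq s.Q D).AdfK (LC.kz B) (scw s A c) y := by
  constructor
  · rintro ⟨⟨a, b⟩, d⟩
    exact ⟨Gau.Adf_iff.mpr ⟨a, d⟩, b⟩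
  · rintro ⟨a, b⟩
    exact ⟨⟨(Gau.Adf_iff.mp a).1, b⟩, (Gau.Adf_iff.mp a).2⟩

theorem KOpt_iff [Finite ι] {D : ℕ} {s : MSys S M E ι} {A B : Part S} {c : ℝ}
    {z : ∀ k, FD (S.F k) (Mon M D)} : KOpt s A B c z ↔ (gaq s.Q D).OptfK (LC.kz B) (scw s A c) z := by
  unfold KOpt Gau.OptfK
  simp only [KFm_iff]

section
variable {D : ℕ} {s : MSys S M E ι} {A B : Part S} {c : ℝ}

theorem KFm.adf {y : ∀ k, FD (S.F k) (Mon M D)} (h : KFm s A B c y) :
    (gaq s.Q D).Adf (fun i : Fin 0 => i.elim0) y := Gau.Adf_iff.mpr ⟨fun i => i.elim0, h.2⟩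

theorem KLb.join {l l' : Lab S} (h : KLb s A B c l) (h' : KLb s A B c l') : KLb s A B c (l.join l') :=
  ⟨h.1.join h'.1, LC.ev.join h.2 h'.2⟩

theorem KFm.jj {y z : ∀ k, FD (S.F k) (Mon M D)} (h : KFm s A B c y) (h' : KFm s A B c z) :
    KFm s A B c (fun k => (y k).jj (z k)) :=
  ⟨KLb.join h.1 h'.1, (Gau.Adf_iff.mp (Gau.Adf.jj (gaq s.Q D) h.adf h'.adf)).2⟩

/-- an optimal K-form dominates the forms of all K-labels, in the join -/
theorem KOpt.dom {x y : ∀ k, FD (S.F k) (Mon M D)} (hx : KOpt s A B c x) (hy : KFm s A B c y) (e : ℝ) (he : 0 < e) :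
    Tendsto (fun k => ((x k).jj (y k)).l.T.pb (fun w =>
      ¬ ∀ v, qf (((x k).jj (y k)).g' w) v ≤ 2 ^ (e * (S.F k).n) * qf (((x k).jj (y k)).g w) v)) UF (𝓝 0) := by
  have hj := KFm.jj hx.1 hy
  refine (gaq s.Q D).near_sum hj.adf ?_ e he
  have h0 : (fun k => ((x k).jj (y k)).sc / (S.F k).n) = fun k => (x k).sc / (S.F k).n := by
    funext k
    rw [(x k).jj_sc (y k)]
  rw [h0]
  exact hx.2 _ ⟨hj.1, (Gau.Adf_iff.mp ((gaq s.Q D).sum_Adf hj.adf)).2⟩

theorem KFm.sc_bounds {y : ∀ k, FD (S.F k) (Mon M D)} (h : KFm s A B c y) :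
    UB (fun k => (y k).sc / (S.F k).n) := (gaq s.Q D).sc_UBf h.adf

end

variable {K : FK} (m : Km K (KM M ι)) [Encodable ι]

section
variable (E) (D : ℕ)

/-- the largest score of the forms of the K-labels -/
def kxs (V W : Pu K) (c : ℝ) {S : Sp} (x : K.Ob S) : ℝ :=
  kvf (kgk E m D) (scv K (isK E m) (Mon M D) (kgk E m D).C (kgk E m D).C0).vk (cdw m V c) (kzq W).rq x

/-- the functional -/
def kxsF (V W : Pu K) (c : ℝ) : Fnl (isK E m) :=
  kvF (kgk E m D) (scv K (isK E m) (Mon M D) (kgk E m D).C (kgk E m D).C0).vk (cdw m V c) (kzq W).rq (isK_imCl m)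

end

variable {D : ℕ}

theorem ksc_evv {s : MSys S M E ι} {x : K.Ob S} (h : Giv s (m.o x)) {y : ∀ k, FD (S.F k) (Mon M D)}
    (hy : ∀ᶠ k in UF, Cpf (kgk E m D).C (y k)) :
    ul (evv (scv K (isK E m) (Mon M D) (kgk E m D).C (kgk E m D).C0).vk x y) =
      ul (fun k => (y k).sc / (S.F k).n) := by
  rw [(scv K (isK E m) (Mon M D) (kgk E m D).C (kgk E m D).C0).evv_eq (show isK E m S x from ⟨s, h⟩) hy]
  refine ul_congr (Eventually.of_forall fun k => ?_)
  unfold fval FD.sc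
  rw [Finset.sum_div]
  exact Finset.sum_congr rfl fun ω _ => mul_div_assoc' _ _ _

/-- scores of the forms of K-labels -/
theorem sc_le_kxs {s : MSys S M E ι} {x : K.Ob S} (h : Giv s (m.o x)) {V W : Pu K} {A A' : Part S}
    (hA : ∀ᶠ k in UF, V.pt x k = A k) (hA' : ∀ᶠ k in UF, W.pt x k = A' k) {c : ℝ} {y : ∀ k, FD (S.F k) (Mon M D)} (hy : KFm s A A' c y) :
    ul (fun k => (y k).sc / (S.F k).n) ≤ kxs E m D V W c x := by
  have hx : isK E m S x := ⟨s, h⟩
  have h1 := (kadm_giv m h hx hA hA' c y).mpr hy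
  rw [← ksc_evv m h (Adc_cpf (kgk E m D) (cdw m V c) hx h1.1)]
  exact ev_le_kvf (kgk E m D) (cdw m V c) (kzq W).rq hx h1

/-- THE LARGEST SCORE IS ATTAINED; the forms which attain it are the optimal ones -/
theorem kxs_attained {s : MSys S M E ι} {x : K.Ob S} (h : Giv s (m.o x)) (D : ℕ) {V W : Pu K} {A A' : Part S}
    (hA : ∀ᶠ k in UF, V.pt x k = A k) (hA' : ∀ᶠ k in UF, W.pt x k = A' k) (c : ℝ) :
    ∃ z : ∀ k, FD (S.F k) (Mon M D), KOpt s A A' c z ∧ ul (fun k => (z k).sc / (S.F k).n) = kxs E m D V W c x := by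
  have hx : isK E m S x := ⟨s, h⟩
  obtain ⟨y, hy, e⟩ := kvf_attained (V := (scv K (isK E m) (Mon M D) (kgk E m D).C (kgk E m D).C0).vk)
    (kgk E m D) (cdw m V c) (kzq W).rq hx
  rw [ksc_evv m h (Adc_cpf (kgk E m D) (cdw m V c) hx hy.1)] at e
  refine ⟨y, ⟨(kadm_giv m h hx hA hA' c y).mp hy, fun z hz => ?_⟩, e⟩
  rw [e]
  exact sc_le_kxs m h hA hA' hz

theorem kxs_opt {s : MSys S M E ι} {x : K.Ob S} (h : Giv s (m.o x)) {V W : Pu K} {A A' : Part S}
    (hA : ∀ᶠ k in UF, V.pt x k = A k) (hA' : ∀ᶠ k in UF, W.pt x k = A' k) {c : ℝ} {z : ∀ k, FD (S.F k) (Mon M D)} :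
    KOpt s A A' c z ↔ KFm s A A' c z ∧ ul (fun k => (z k).sc / (S.F k).n) = kxs E m D V W c x := by
  constructor
  · intro hz
    obtain ⟨y, hy, e⟩ := kxs_attained m h D hA hA' c
    refine ⟨hz.1, le_antisymm (sc_le_kxs m h hA hA' hz.1) ?_⟩
    rw [← e]
    exact hz.2 y hy.1
  · rintro ⟨hz, e⟩
    refine ⟨hz, fun y hy => ?_⟩
    rw [e]
    exact sc_le_kxs m h hA hA' hy

/-- the volume of an optimal K-form -/
theorem kvm_kopt {s : MSys S M E ι} {x : K.Ob S} (h : Giv s (m.o x)) {V W : Pu K} {A A' : Part S}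
    (hA : ∀ᶠ k in UF, V.pt x k = A k) (hA' : ∀ᶠ k in UF, W.pt x k = A' k) {c : ℝ} {z : ∀ k, FD (S.F k) (Mon M D)} (hz : KOpt s A A' c z) :
    vol s.Q D z = kvm E m D V W c x := by
  apply le_antisymm
  · obtain ⟨y, hy, e⟩ := kvm_attained m h D hA hA' c
    rw [← e]
    exact vol_dom_le hz.1.2 hy.2 fun e he => hz.dom hy e he
  · exact kvm_le_vol m h hA hA' hz.1

/-- monotone in the window -/
theorem kxs_mono (D : ℕ) (V W : Pu K) {c c' : ℝ} (hc : c ≤ c') {x : K.Ob S} (hx : isK E m S x) :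
    kxs E m D V W c x ≤ kxs E m D V W c' x := by
  obtain ⟨s, h⟩ := hx
  have hA : ∀ᶠ k in UF, V.pt x k = V.pt x k := Eventually.of_forall fun _ => rfl
  have hA' : ∀ᶠ k in UF, W.pt x k = W.pt x k := Eventually.of_forall fun _ => rfl
  obtain ⟨y, hy, e⟩ := kxs_attained m h D hA hA' c
  rw [← e]
  exact sc_le_kxs m h hA hA' (show KFm s (V.pt x) (W.pt x) c' y from ⟨hy.1.1.mono hc, hy.1.2⟩)

end

end Pool.Agent.Helper52.GF
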