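import Pool.Agent.Helper52.GF.Krb
import Pool.Agent.Helper52.GF.Dga
import Pool.Agent.Helper47.FN.Hull

/-! CONSEQUENCES OF THE CONSTANTS IN THE K-LANGUAGE: informations and entropies over maximal K-labels, volumes and scores
of optimal K-forms; diagonals of optimal K-forms and of maximal K-labels. Pairs `(system, partition)`. -/

set_option autoImplicit false

namespace Pool.Agent.Helper52.GF

open Finset Filter Topology Matrix Pool.Agent.Helper69.RK Pool.Agent.Helper31.EC Pool.Agent.Helper31.EC.Sp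
open Pool.Agent.Helper40.EL Pool.Agent.Helper89.LX Pool.Agent.Helper59.EV Pool.Agent.Helper49.MD
open Pool.Agent.Helper84.MT Pool.Agent.Helper3.LF Pool.Agent.Helper36.AM
open Pool.Agent.Helper95.LF (PdM)
open Pool.Agent.Helper47.FN (KR lftR obR)

noncomputable section

variable {S : Sp} {M : ℕ} {E : ℕ → ℕ} {ι : Type}

/-- the constants of the entropies over the K-labels -/
def KC.H (C : KC M) (n : ℕ) (X : XI M) (o : Option ℕ) (p : ℝ × ℝ) (c : ℝ) : ℝ := C.b X o p - C.a n X o p c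

variable {K : FK} {m : Km K (KM M ι)} [Encodable ι]

namespace KV

variable {Y : ℕ → Pt K (isK E m)} {V W : ℕ → Pu K} {C : KC M} {x : K.Ob S} (hx : KV m Y V W C x)
  {s : MSys S M E ι} (hs : Giv s (m.o x)) {n : ℕ} {A A' : Part S} (hA : ∀ᶠ k in UF, (V n).pt x k = A k)
  (hA' : ∀ᶠ k in UF, (W n).pt x k = A' k)

include hx hs hA hA'

/-- the information of every K-label about a partition is at most the constant -/
theorem info_le {c : ℝ} {l : Lab S} (hl : KLb s A A' c l) (X : XI M) (o : Option ℕ) (p : ℝ × ℝ) :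
    ul (vxs l ((pty E m Y X o p).pt x)) ≤ C.a n X o p c := by
  rw [← hx.pa n X o p c]
  exact kvi_le m _ hx.mem hs hA hA' hl

/-- THE INFORMATION OF A MAXIMAL K-LABEL about a partition -/
theorem info {c : ℝ} {i : Option ι} (hb : (scw s A c i).Bd) {l : Lab S} (hl : l.IsMaxK (LC.kz A') (scw s A c))
    (X : XI M) (o : Option ℕ) (p : ℝ × ℝ) :
    Tendsto (vxs l ((pty E m Y X o p).pt x)) UF (𝓝 (C.a n X o p c)) := by
  rw [← hx.pa n X o p c]
  exact kvi_max m _ hx.mem hs hA hA' hb hl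

/-- THE ENTROPY OF A PARTITION OVER A MAXIMAL K-LABEL -/
theorem ent {c : ℝ} {i : Option ι} (hb : (scw s A c i).Bd) {l : Lab S} (hl : l.IsMaxK (LC.kz A') (scw s A c))
    (X : XI M) (o : Option ℕ) (p : ℝ × ℝ) {P : Part S} (hP : ∀ᶠ k in UF, (pty E m Y X o p).pt x k = P k) :
    Tendsto (fun k => h ((l k).p.map (P k)) (l k).v / (S.F k).n) UF (𝓝 (C.H n X o p c)) := by
  have h1 := kvh_max m (pty E m Y X o p) hx.mem hs hA hA' hb hl hP
  have e : kvh m (pty E m Y X o p) (V n) (W n) c x = C.H n X o p c := by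
    show iv (pty E m Y X o p) (c0 K) x - kvi m (pty E m Y X o p) (V n) (W n) c x = _
    rw [hx.pb X o p, hx.pa n X o p c]
    rfl
  rw [e] at h1
  exact h1

/-- every K-label leaves at least this entropy -/
theorem ent_le {c : ℝ} {l : Lab S} (hl : KLb s A A' c l) (X : XI M) (o : Option ℕ) (p : ℝ × ℝ) {P : Part S}
    (hP : ∀ᶠ k in UF, (pty E m Y X o p).pt x k = P k) :
    C.H n X o p c ≤ ul (fun k => h ((l k).p.map (P k)) (l k).v / (S.F k).n) := by
  have h1 := kvh_le m (pty E m Y X o p) hx.mem hs hA hA' hl hP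
  have e : kvh m (pty E m Y X o p) (V n) (W n) c x = C.H n X o p c := by
    show iv (pty E m Y X o p) (c0 K) x - kvi m (pty E m Y X o p) (V n) (W n) c x = _
    rw [hx.pb X o p, hx.pa n X o p c]
    rfl
  rw [e] at h1
  exact h1

/-- volumes of K-forms -/
theorem vol_ge {D : ℕ} {c : ℝ} {y : ∀ k, FD (S.F k) (Mon M D)} (hy : KFm s A A' c y) : C.v D n c ≤ vol s.Q D y := by
  rw [← hx.pv D n c]
  exact kvm_le_vol m hs hA hA' hy

/-- THE VOLUME OF AN OPTIMAL K-FORM -/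
theorem vol_opt {D : ℕ} {c : ℝ} {z : ∀ k, FD (S.F k) (Mon M D)} (hz : KOpt s A A' c z) : vol s.Q D z = C.v D n c := by
  rw [← hx.pv D n c]
  exact kvm_kopt m hs hA hA' hz

/-- OPTIMAL = the score is the constant -/
theorem opt_iff {D : ℕ} {c : ℝ} {z : ∀ k, FD (S.F k) (Mon M D)} :
    KOpt s A A' c z ↔ KFm s A A' c z ∧ ul (fun k => (z k).sc / (S.F k).n) = C.s D n c := by
  rw [← hx.ps D n c]
  exact kxs_opt m hs hA hA'

omit hx in
theorem exists_opt (D : ℕ) (c : ℝ) : ∃ z : ∀ k, FD (S.F k) (Mon M D), KOpt s A A' c z := by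
  obtain ⟨z, hz, _⟩ := kxs_attained m hs D hA hA' c
  exact ⟨z, hz⟩

/-- the least volume is attained -/
theorem exists_vol (D : ℕ) (c : ℝ) :
    ∃ z : ∀ k, FD (S.F k) (Mon M D), KFm s A A' c z ∧ vol s.Q D z = C.v D n c := by
  obtain ⟨z, hz, e⟩ := kvm_attained m hs D hA hA' c
  exact ⟨z, hz, e.trans (hx.pv D n c)⟩

end KV

/-- entropies without labels -/
theorem KV.ent0 {Y : ℕ → Pt K (isK E m)} {V W : ℕ → Pu K} {C : KC M} {x : K.Ob S} (hx : KV m Y V W C x) (X : XI M)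
    (o : Option ℕ) (p : ℝ × ℝ) : Tendsto (hxs ((pty E m Y X o p).pt x)) UF (𝓝 (C.b X o p)) := by
  rw [← hx.pb X o p]
  exact hxs_tendsto (pty E m Y X o p) hx.mem

/-! ### diagonals -/

section
variable {Y : ℕ → Pt K (isK E m)} {V W : ℕ → Pu K} {C : KC M} {B : K.Pd}

theorem giv_kadc {s : MSys S M E ι} {x : K.Ob S} (h : Giv s (m.o x)) (hx : isK E m S x) (V W : Pu K)
    (c : ℝ) {D : ℕ} (y : ∀ k, FD (S.F k) (Mon M D)) :
    (kgk E m D).AdcP (cdw m V c) (kzq W).rq hx y ↔ KFm s (V.pt x) (W.pt x) c y :=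
  kadm_giv m h hx (Eventually.of_forall fun _ => rfl) (Eventually.of_forall fun _ => rfl) c y

/-- THE DIAGONAL OF OPTIMAL K-FORMS IS OPTIMAL in a robust class -/
theorem kopt_dg (h : RbK m Y V W B C) (hB : DiagCl B) {S : ℕ → Sp} {x : ∀ j, K.Ob (S j)} (hx : ∀ j, B (S j) (x j))
    {s : ∀ j, MSys (S j) M E ι} (hs : ∀ j, Giv (s j) (m.o (x j))) (n D : ℕ) (c : ℝ)
    {z : ∀ j k, FD ((S j).F k) (Mon M D)} (hz : ∀ j, KOpt (s j) ((V n).pt (x j)) ((W n).pt (x j)) c (z j)) :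
    ∃ Q : ℕ → ℕ → ℕ → Prop, (∀ i j, ∀ᶠ k in UF, Q i j k) ∧ ∀ (J : ℕ → ℕ) (hJ : Slo S Q J)
      (t : MSys (dsp S J hJ.lim) M E ι), Giv t (m.o (K.dgo S x J hJ.lim)) →
        KOpt t ((V n).pt (K.dgo S x J hJ.lim)) ((W n).pt (K.dgo S x J hJ.lim)) c (dgf z J hJ.lim) := by
  have hCB : ∀ S x, B S x → isK E m S x := fun S x hx => (h S x hx).mem
  have hrf : ∀ (U : Pu K) (S : Sp) (x : K.Ob S), ∀ᶠ k in UF, U.pt x k = U.pt x k := fun U S x =>
    Eventually.of_forall fun _ => rfl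
  have hy : ∀ j, (kgk E m D).AdcP (cdw m (V n) c) (kzq (W n)).rq (hCB _ _ (hx j)) (z j) := fun j =>
    (giv_kadc (hs j) (hCB _ _ (hx j)) (V n) (W n) c (z j)).mpr (hz j).1
  obtain ⟨Q, hQ, h1⟩ := dg_max (G := kgk E m D) (cdw m (V n) c) (kzq (W n)).rq hB hCB
    (scv K (isK E m) (Mon M D) (kgk E m D).C (kgk E m D).C0).vk (v := C.s D n c) hx hy (fun j => by
      rw [ksc_evv m (hs j) (Adc_cpf (kgk E m D) (cdw m (V n) c) (hCB _ _ (hx j)) (hy j).1)]
      exact (((h _ _ (hx j)).opt_iff (hs j) (hrf (V n) _ (x j)) (hrf (W n) _ (x j))).mp (hz j)).2)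
  refine ⟨Q, hQ, fun J hJ t ht => ?_⟩
  obtain ⟨⟨hm, ha⟩, hv⟩ := h1 J hJ
  refine ((h _ _ hm).opt_iff ht (hrf (V n) _ _) (hrf (W n) _ _)).mpr
    ⟨(giv_kadc ht (hCB _ _ hm) (V n) (W n) c _).mp ha, ?_⟩
  rw [← hv]
  exact (ksc_evv m ht (Adc_cpf (kgk E m D) (cdw m (V n) c) (hCB _ _ hm) ha.1)).symm

end

end

end Pool.Agent.Helper52.GF
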