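import Pool.Agent.Helper52.GF.Kf

/-! Labels whose leak at a partition is EXACTLY zero: the property passes to events of extensions, the corresponding
restriction `kzr`. -/

set_option autoImplicit false

namespace Pool.Agent.Helper52.GF

open Finset Filter Topology Matrix Pool.Agent.Helper69.RK Pool.Agent.Helper31.EC Pool.Agent.Helper31.EC.Sp
open Pool.Agent.Helper40.EL Pool.Agent.Helper89.LX Pool.Agent.Helper59.EV Pool.Agent.Helper49.MD
open Pool.Agent.Helper52.KP (glue)
open Pool.Agent.Helper95.LF (PdM)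

noncomputable section

/-- exact splitting of entropies over an event which is known to the condition -/
theorem e_rsplit_of (F : FSp) (E : F.Ω → Prop) (A B : Setoid F.Ω)
    (hB : ∀ ω ω', F.μ ω ≠ 0 → F.μ ω' ≠ 0 → B ω ω' → (E ω ↔ E ω')) :
    F.e A B = F.pb E * (F.rest E).e A B + (1 - F.pb E) * (F.rest fun ω => ¬ E ω).e A B := by
  have h1 := (st_E4 st_E1 st_E3).1 F.Ω _ _ F.μ (Quotient.mk A) (Quotient.mk B) E F.nn (by
    intro ω ω' h h' e
    exact propext (hB ω ω' h h' (Quotient.exact e)))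
  rw [F.CH_res, F.CH_res] at h1
  have h2 : F.pb (fun ω => ¬ E ω) = 1 - F.pb E := by
    have := F.pb_add_compl E
    linarith
  rw [h2] at h1
  exact h1

/-- the same in the lattice of informations -/
theorem h_rsplit_of (F : FSp) (E : F.Ω → Prop) (x : FL F) (B : Setoid F.Ω)
    (hB : ∀ ω ω', F.μ ω ≠ 0 → F.μ ω' ≠ 0 → F.Z ω ω' → B ω ω' → (E ω ↔ E ω')) :
    h x (fc B) = F.pb E * h (F.rmap E x) (F.rmap E (fc B)) +
      (1 - F.pb E) * h (F.rmap (fun ω => ¬ E ω) x) (F.rmap (fun ω => ¬ E ω) (fc B)) := by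
  induction x using fc_ind with | _ A
  have e1 : h (F.rmap E (fc A)) (F.rmap E (fc B)) = (F.rest E).e A (B ⊓ F.Z) := h_fc (F := F.rest E) A B
  have e2 : h (F.rmap (fun ω => ¬ E ω) (fc A)) (F.rmap (fun ω => ¬ E ω) (fc B)) =
      (F.rest (fun ω => ¬ E ω)).e A (B ⊓ F.Z) := h_fc (F := F.rest (fun ω => ¬ E ω)) A B
  rw [e1, e2, h_fc]
  exact e_rsplit_of F E A (B ⊓ F.Z) fun ω ω' h h' hb => hB ω ω' h h' hb.2 hb.1

/-- the null event changes nothing -/
theorem I_rmap_null (F : FSp) (E : F.Ω → Prop) (h0 : F.pb E = 0) (x y z : FL F) :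
    I (F.rmap E x) (F.rmap E y) (F.rmap E z) = I x y z := by
  have hh : ∀ a b : FL F, h (F.rmap E a) (F.rmap E b) = h a b := by
    intro a b
    induction a using fc_ind with | _ A
    induction b using fc_ind with | _ B
    have e1 : h (F.rmap E (fc A)) (F.rmap E (fc B)) = (F.rest E).e A (B ⊓ F.Z) := h_fc (F := F.rest E) A B
    rw [e1, h_fc]
    show CH (F.restμ E) _ _ = _
    rw [F.restμ_eq' E h0]
    rfl
  rw [I_eq, I_eq, ← F.rmap_sup, hh, hh]

/-- informations about something which knows the event do not increase on the event -/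
theorem I_rmap_le (F : FSp) (E : F.Ω → Prop) (x z : FL F) (B : Setoid F.Ω)
    (hB : ∀ ω ω', F.μ ω ≠ 0 → F.μ ω' ≠ 0 → F.Z ω ω' → B ω ω' → (E ω ↔ E ω')) :
    F.pb E * I (F.rmap E x) (F.rmap E (fc B)) (F.rmap E z) + (1 - F.pb E) *
      I (F.rmap (fun ω => ¬ E ω) x) (F.rmap (fun ω => ¬ E ω) (fc B)) (F.rmap (fun ω => ¬ E ω) z) ≤ I x (fc B) z := by
  induction z using fc_ind with | _ C
  have h1 := (F.h_rsplit E x (fc C)).1
  have h2 := h_rsplit_of F E x (B ⊓ C) fun ω ω' h h' hz hb => hB ω ω' h h' hz hb.1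
  have e0 : (fc (B ⊓ C) : FL F) = fc B ⊔ fc C := rfl
  rw [e0, F.rmap_sup, F.rmap_sup] at h2
  rw [I_eq, I_eq, I_eq, h2]
  have e : F.pb E * (h (F.rmap E x) (F.rmap E (fc C)) - h (F.rmap E x) (F.rmap E (fc B) ⊔ F.rmap E (fc C))) +
        (1 - F.pb E) * (h (F.rmap (fun ω => ¬ E ω) x) (F.rmap (fun ω => ¬ E ω) (fc C)) -
          h (F.rmap (fun ω => ¬ E ω) x) (F.rmap (fun ω => ¬ E ω) (fc B) ⊔ F.rmap (fun ω => ¬ E ω) (fc C))) =
        (F.pb E * h (F.rmap E x) (F.rmap E (fc C)) +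
          (1 - F.pb E) * h (F.rmap (fun ω => ¬ E ω) x) (F.rmap (fun ω => ¬ E ω) (fc C))) -
        (F.pb E * h (F.rmap E x) (F.rmap E (fc B) ⊔ F.rmap E (fc C)) +
          (1 - F.pb E) * h (F.rmap (fun ω => ¬ E ω) x) (F.rmap (fun ω => ¬ E ω) (fc B) ⊔
            F.rmap (fun ω => ¬ E ω) (fc C))) := by
    ring
  rw [e]
  linarith

/-- EXACT: leaks on events of the space -/
theorem rst_leak_le_exact {F : FSp} (l : FLab F) (E : F.Ω → Prop) (x : FL F) :
    F.pb E * (l.rst E).leak (F.rmap E x) ≤ l.leak x := by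
  rw [FLab.rst_leak, ← (push_restμ l.p E).2]
  have h1 := I_rmap_le l.T (fun ω => E (l.p.π ω)) l.v (l.p.map x) (Setoid.comap l.p.π (Setoid.ker fun ω => ω))
    fun ω ω' _ _ _ hb => by
      have hb' : l.p.π ω = l.p.π ω' := hb
      show E (l.p.π ω) ↔ E (l.p.π ω')
      rw [hb']
  have h2 : 0 ≤ (1 - l.T.pb fun ω => E (l.p.π ω)) * I (l.T.rmap (fun ω => ¬ E (l.p.π ω)) l.v)
      (l.T.rmap (fun ω => ¬ E (l.p.π ω)) (fc (Setoid.comap l.p.π (Setoid.ker fun ω => ω))))
      (l.T.rmap (fun ω => ¬ E (l.p.π ω)) (l.p.map x)) :=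
    mul_nonneg (sub_nonneg.mpr (l.T.pb_le_one _)) (I_nonneg _ _ _)
  have e0 : l.p.top = fc (Setoid.comap l.p.π (Setoid.ker fun ω => ω)) := rfl
  rw [e0]
  unfold FLab.leak
  rw [e0]
  linarith

theorem rst_leak_null {F : FSp} (l : FLab F) (E : F.Ω → Prop) (h0 : F.pb E = 0) (x : FL F) :
    (l.rst E).leak (F.rmap E x) = l.leak x := by
  rw [FLab.rst_leak]
  exact I_rmap_null l.T (fun ω => E (l.p.π ω)) ((push_restμ l.p E).2.trans h0) _ _ _

/-- EXACT: a label without leak has no leak on events of the space -/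
theorem rst_leak_zero {F : FSp} (l : FLab F) (E : F.Ω → Prop) (x : FL F) (h : l.leak x = 0) :
    (l.rst E).leak (F.rmap E x) = 0 := by
  by_cases h0 : F.pb E = 0
  · rw [rst_leak_null l E h0, h]
  · have h1 := rst_leak_le_exact l E x
    rw [h] at h1
    have h2 : 0 < F.pb E := lt_of_le_of_ne (F.pb_nonneg E) (Ne.symm h0)
    have h3 := (l.rst E).leak_nonneg (F.rmap E x)
    by_contra hc
    have := mul_pos h2 (lt_of_le_of_ne h3 (Ne.symm hc))
    linarith

section
variable {T F : FSp} (p : FPj T F) (E : T.Ω → Prop) {ι : Type}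

/-- EXACT: leaks of the restriction to an event of an extension -/
theorem imFD_leak_le (hn : T.n = F.n) (y : FD F ι) (x : FL F) :
    T.pb E * (imFD p E hn y).l.leak (FSp.imap p E x) ≤ y.l.leak x := by
  have h1 : (imFD p E hn y).l.leak (FSp.imap p E x) ≤
      ((y.l.up' p hn).rst E).leak ((FSp.imp p E).map (FSp.imap p E x)) :=
    FLab.down_leak (FSp.imp p E) hn ((y.l.up' p hn).rst E) (FSp.imap p E x)
  rw [FSp.imp_imap] at h1
  have h2 := rst_leak_le_exact (y.l.up' p hn) E (p.map x)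
  have h3 := FLab.up'_leak y.l p hn x
  have h4 := mul_le_mul_of_nonneg_left h1 (T.pb_nonneg E)
  linarith

/-- EXACT: a label without leak has no leak on events of extensions -/
theorem imFD_leak_zero (hn : T.n = F.n) (y : FD F ι) (x : FL F) (h : y.l.leak x = 0) :
    (imFD p E hn y).l.leak (FSp.imap p E x) = 0 := by
  have h1 : (imFD p E hn y).l.leak (FSp.imap p E x) ≤
      ((y.l.up' p hn).rst E).leak ((FSp.imp p E).map (FSp.imap p E x)) :=
    FLab.down_leak (FSp.imp p E) hn ((y.l.up' p hn).rst E) (FSp.imap p E x)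
  rw [FSp.imp_imap] at h1
  have h3 : (y.l.up' p hn).leak (p.map x) = 0 :=
    le_antisymm ((FLab.up'_leak y.l p hn x).trans_eq h) (FLab.leak_nonneg _ _)
  rw [rst_leak_zero (y.l.up' p hn) E (p.map x) h3] at h1
  exact le_antisymm h1 (FLab.leak_nonneg _ _)

end

variable {K : FK} {ι κ : Type} [Fintype ι] [DecidableEq ι]

/-- THE RESTRICTION `the leak at every member of a family of attached partitions is exactly 0` -/
def kzr (A : Cd K κ) : Rq K ι where
  P := fun F x y => ∀ i, y.l.leak (A.c F x i) = 0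
  triv := fun _ _ _ => FLab.triv_leak _
  im := by
    intro F T p E hn x y h i
    have e1 : A.c (FSp.im p E) (K.im p E x) i = FSp.imap p E (A.c F x i) := A.im F T p E x i
    exact (congrArg (fun z => (imFD p E hn y).l.leak z) e1).trans (imFD_leak_zero p E hn y (A.c F x i) (h i))

end

end Pool.Agent.Helper52.GF
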