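import Pool.Agent.Helper52.GF.Dir
import Pool.Agent.Helper36.AM.Top


/-! FUNCTIONALS OF SYSTEMS OF LEAVES (countably many types): informations and entropies over `kappa_c`. -/

set_option autoImplicit false

namespace Pool.Agent.Helper52.GF

open Finset Filter Topology Matrix Pool.Agent.Helper69.RK Pool.Agent.Helper31.EC Pool.Agent.Helper31.EC.Sp
open Pool.Agent.Helper40.EL Pool.Agent.Helper89.LX Pool.Agent.Helper59.EV Pool.Agent.Helper49.MD
open Pool.Agent.Helper84.MT Pool.Agent.Helper36.AM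
open Pool.Agent.Helper52.KP (glue)
open Pool.Agent.Helper95.LF (PdM)

noncomputable section

variable {S T : Sp} {M : ℕ} {E : ℕ → ℕ} {ι : Type}

/-! ### conditions -/

/-- the point to the level `r` and the windows `c` -/
def cnr (F : FSp) (x : FMs F.Ω M ι) (r c : ℝ) : Option ι → FL F
  | none => fc (Setoid.ker fun ω => cell (dlF F r) (x.Q ω))
  | some i => (x.lf i).win F c

theorem cnr_one (F : FSp) (x : FMs F.Ω M ι) (c : ℝ) (i : Option ι) : FMs.cnd F x c i = cnr F x 1 c i := by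
  cases i <;> rfl

/-- the CONDITIONS `the point to the level r, the windows c`, attached to the finite data -/
def cdm (M : ℕ) (ι : Type) (r c : ℝ) : Cd (KM M ι) (Option ι) where
  c := fun F x i => cnr F x r c i
  im := fun F T p E x i => by cases i <;> rfl

/-- the same conditions of a system -/
def scn (s : MSys S M E ι) (r c : ℝ) : Option ι → Part S
  | none => pcr s.Q r
  | some i => (s.lf i).win c

theorem scn_one (s : MSys S M E ι) (c : ℝ) (i : Option ι) : scn s 1 c i = s.cnd c i := by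
  cases i <;> rfl

theorem scn_cndt (s : MSys S M E ι) (r c : ℝ) (i : Option ι) : scn s r (r * c) i = s.cndt r c i := by
  cases i <;> rfl

/-- the conditions of an object given by a system -/
theorem giv_cnr {s : MSys S M E ι} {x : (KM M ι).Ob S} (h : Giv s x) (r c : ℝ) (i : Option ι) :
    ∀ᶠ k in UF, (cdm M ι r c).cf x i k = scn s r c i k := by
  cases i with
  | none =>
    filter_upwards [h.1] with k hk
    show fc (Setoid.ker fun ω => cell (dlF (S.F k) r) ((x k : FMs (S.F k).Ω M ι).Q ω)) = _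
    rw [← hk]
    rfl
  | some i =>
    filter_upwards [h.2 i] with k hk
    show FLf.win (S.F k) ((x k : FMs (S.F k).Ω M ι).lf i) c = _
    rw [← hk]
    rfl

theorem cdm_DMf {s : MSys S M E ι} {x : (KM M ι).Ob S} (h : Giv s x) (r c : ℝ) (l : Lab S) :
    l.DMf ((cdm M ι r c).cf x) ↔ l.DMf (scn s r c) := DMf_congr (giv_cnr h r c) l

theorem maxf_congr {κ κ' : Type} {A : κ → Part S} {A' : κ' → Part S} (h : ∀ l : Lab S, l.DMf A ↔ l.DMf A')
    (l : Lab S) : l.IsMaxf A ↔ l.IsMaxf A' :=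
  ⟨fun h1 => ⟨(h l).mp h1.1, fun l' hl' => h1.2 l' ((h l').mpr hl')⟩,
    fun h1 => ⟨(h l).mpr h1.1, fun l' hl' => h1.2 l' ((h l').mp hl')⟩⟩

theorem cdm_maxf {s : MSys S M E ι} {x : (KM M ι).Ob S} (h : Giv s x) (r c : ℝ) (l : Lab S) :
    l.IsMaxf ((cdm M ι r c).cf x) ↔ l.IsMaxf (scn s r c) := maxf_congr (cdm_DMf h r c) l

theorem cdm_kap {s : MSys S M E ι} {x : (KM M ι).Ob S} (h : Giv s x) (c : ℝ) (l : Lab S) :
    l.IsMaxf ((cdm M ι 1 c).cf x) ↔ s.IsKap c l := cdm_maxf h 1 c l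

theorem Bd_congr {A A' : Part S} (e : ∀ᶠ k in UF, A k = A' k) (h : A.Bd) : A'.Bd := by
  obtain ⟨C, hC⟩ := h
  refine ⟨C, ?_⟩
  filter_upwards [hC, e] with k a b
  rw [← b]
  exact a

theorem cdm_Bd {s : MSys S M E ι} {x : (KM M ι).Ob S} (h : Giv s x) (r c : ℝ) :
    ((cdm M ι r c).cf x none).Bd :=
  Bd_congr (by filter_upwards [giv_cnr h r c none] with k hk using hk.symm) (pcr_Bd s.Q r)

/-! ### partitions of the point -/

/-- number of cells of a tame vector variable -/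
theorem nv_cell_le {m : ℕ} (y : S.VV m) (r : ℝ) : ∀ᶠ k in UF, ∀ ω, (S.F k).μ ω ≠ 0 →
    (nv (S.F k) (Setoid.ker (y.cellv r k)) ω : ℝ) ≤ 2 ^ ((m * (max r 0 + 1)) * (S.F k).n) := by
  obtain ⟨C, hCs, hC⟩ := y.bd
  have hs : S.Sub (fun k => 2 * C k + 3) :=
    ((S.Sub_const (show (0 : ℝ) ≤ 2 by norm_num)).mul hCs).add (S.Sub_const (show (0 : ℝ) ≤ 3 by norm_num))
  filter_upwards [hC, hCs.1, hs.eventually_le one_pos] with k hk hC0 hk2 ω hω
  have e0 : (1 : ℝ) ≤ 2 ^ (max r 0 * (S.F k).n) := by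
    apply Real.one_le_rpow (by norm_num)
    have := (S.F k).pos
    positivity
  have hX : ∀ ω, (S.F k).μ ω ≠ 0 → ∀ i, |(y.cellv r k ω i : ℝ)| ≤ C k * 2 ^ (max r 0 * (S.F k).n) + 1 := by
    intro ω hω i
    have h1 := hk ω hω i
    have hd := S.dl_pos r k
    have h2 : |y.v k ω i / S.dl r k| ≤ C k * 2 ^ (max r 0 * (S.F k).n) := by
      rw [abs_div, abs_of_pos hd, div_eq_mul_one_div]
      exact mul_le_mul h1 (S.one_div_dl_le r k) (by positivity) hC0
    have h3 := Int.floor_le (y.v k ω i / S.dl r k)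
    have h4 := Int.lt_floor_add_one (y.v k ω i / S.dl r k)
    show |(⌊y.v k ω i / S.dl r k⌋ : ℝ)| ≤ _
    rw [abs_le] at h2 ⊢
    constructor <;> linarith [h2.1, h2.2]
  rw [nv_ker]
  have hK : 0 ≤ 2 * (C k * 2 ^ (max r 0 * (S.F k).n) + 1) := by positivity
  have h3 : (nvf (S.F k).μ (y.cellv r k) (Quotient.mk (S.F k).Z) ω : ℝ) ≤
      (2 * (C k * 2 ^ (max r 0 * (S.F k).n) + 1) + 1) ^ m := by
    apply nvf_box _ _ _ _ _ hK
    intro ω₁ ω₂ h₁ h₂ i
    have e1 := abs_le.mp (hX ω₁ h₁ i)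
    have e2 := abs_le.mp (hX ω₂ h₂ i)
    rw [abs_le]
    constructor <;> linarith [e1.1, e1.2, e2.1, e2.2]
  refine h3.trans ?_
  have h4 : (2 : ℝ) ^ (m * (max r 0 + 1) * (S.F k).n) = (2 ^ ((max r 0 + 1) * (S.F k).n)) ^ m := by
    rw [← Real.rpow_natCast, ← Real.rpow_mul (by norm_num)]
    congr 1; ring
  rw [h4]
  refine pow_le_pow_left₀ (by positivity) ?_ m
  have e1 : (2 : ℝ) ^ ((max r 0 + 1) * (S.F k).n) = 2 ^ (max r 0 * (S.F k).n) * 2 ^ (1 * (S.F k).n) := by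
    rw [← Real.rpow_add (by norm_num : (0 : ℝ) < 2)]
    congr 1; ring
  rw [e1]
  have e2 : (2 : ℝ) ^ (max r 0 * (S.F k).n) * (2 * C k + 3 + 2) ≤ 2 ^ (max r 0 * (S.F k).n) * 2 ^ (1 * (S.F k).n) :=
    mul_le_mul_of_nonneg_left hk2 (by positivity)
  nlinarith

/-- the cells of level `r` of the point, seen through a function of the cell -/
def pqf (M : ℕ) (E : ℕ → ℕ) (ι : Type) [Encodable ι] (r : ℝ) {β : Type} (f : (Fin M → ℤ) → β) :
    Pt (KM M ι) (isMc M E ι) where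
  X := fun F x => Setoid.ker fun ω => f (cell (dlF F r) ((x : FMs F.Ω M ι).Q ω))
  im := fun _ _ _ _ _ => rfl
  C := M * (max r 0 + 1)
  C0 := by positivity
  vb := by
    rintro S x ⟨s, hs, _⟩
    filter_upwards [nv_cell_le s.Q r, hs] with k hk e ω hω
    refine le_trans ?_ (hk ω hω)
    have h1 : nv (S.F k) (Setoid.ker fun ω => f (cell (dlF (S.F k) r) ((x k : FMs (S.F k).Ω M ι).Q ω))) ω ≤
        nv (S.F k) (Setoid.ker (s.Q.cellv r k)) ω := by
      rw [nv_ker, nv_ker]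
      refine nvf_mono _ _ _ _ _ (fun ω₁ ω₂ _ _ _ _ h => ?_)
      have h2 : cell (dlF (S.F k) r) (s.Q.v k ω₁) = cell (dlF (S.F k) r) (s.Q.v k ω₂) := h
      rw [← e, h2]
    exact_mod_cast h1

/-- the cells of level `r` of the point -/
def pql (M : ℕ) (E : ℕ → ℕ) (ι : Type) [Encodable ι] (r : ℝ) : Pt (KM M ι) (isMc M E ι) := pqf M E ι r id

/-- the cells of level `a` of the coordinates in `J` -/
def pqs (M : ℕ) (E : ℕ → ℕ) (ι : Type) [Encodable ι] (J : Fin M → Prop) (a : ℝ) : Pt (KM M ι) (isMc M E ι) :=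
  pqf M E ι a fun u (j : {j // J j}) => u j.1

/-- the cells of level `b`, and of level `a` of the coordinates other than `z` -/
def pq2 (M : ℕ) (E : ℕ → ℕ) (ι : Type) [Encodable ι] (z : Fin M) (a b : ℝ) : Pt (KM M ι) (isMc M E ι) :=
  (pql M E ι b).inf (pqs M E ι (fun j => j ≠ z) a)

variable [Encodable ι]

theorem pql_pt {s : MSys S M E ι} {x : (KM M ι).Ob S} (h : Giv s x) (r : ℝ) :
    ∀ᶠ k in UF, (pql M E ι r).pt x k = pcr s.Q r k := by
  filter_upwards [h.1] with k hk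
  show fc (Setoid.ker fun ω => id (cell (dlF (S.F k) r) ((x k : FMs (S.F k).Ω M ι).Q ω))) = _
  rw [← hk]
  rfl

theorem pqs_pt {s : MSys S M E ι} {x : (KM M ι).Ob S} (h : Giv s x) (J : Fin M → Prop) (a : ℝ) :
    ∀ᶠ k in UF, (pqs M E ι J a).pt x k = fc (Setoid.ker fun ω (j : {j // J j}) => s.Q.cellv a k ω j.1) := by
  filter_upwards [h.1] with k hk
  show fc (Setoid.ker fun ω (j : {j // J j}) => cell (dlF (S.F k) a) ((x k : FMs (S.F k).Ω M ι).Q ω) j.1) = _
  rw [← hk]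
  rfl

theorem pq2_pt {s : MSys S M E ι} {x : (KM M ι).Ob S} (h : Giv s x) (z : Fin M) (a b : ℝ) :
    ∀ᶠ k in UF, (pq2 M E ι z a b).pt x k = cel2 s.Q z a b k := by
  filter_upwards [h.1] with k hk
  show fc (Setoid.ker (fun ω => id (cell (dlF (S.F k) b) ((x k : FMs (S.F k).Ω M ι).Q ω))) ⊓
    Setoid.ker fun ω (j : {j // j ≠ z}) => cell (dlF (S.F k) a) ((x k : FMs (S.F k).Ω M ι).Q ω) j.1) = _
  rw [← hk]
  rfl

/-! ### entropies over `kappa_c` -/

/-- a partition attached to the data, of a system -/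
def spt (X : Pt (KM M ι) (isMc M E ι)) (s : MSys S M E ι) : Part S := X.pt (ob s)

/-- the information of `kappa_c` about a partition -/
def siv (X : Pt (KM M ι) (isMc M E ι)) (s : MSys S M E ι) (r c : ℝ) : ℝ := iv X (cdm M ι r c) (ob s)

/-- the entropy of a partition over `kappa_c` -/
def shv (X : Pt (KM M ι) (isMc M E ι)) (s : MSys S M E ι) (r c : ℝ) : ℝ := hv X (cdm M ι r c) (ob s)

/-- THE INFORMATION OF `kappa_c`, countably many types -/
theorem kap_info {s : MSys S M E ι} {x : (KM M ι).Ob S} (h : Giv s x) {c : ℝ} {l : Lab S} (hl : s.IsKap c l) :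
    l.info = iv (pql M E ι 1) (cdm M ι 1 c) x := by
  refine info_eq_iv (pql M E ι 1) (cdm M ι 1 c) ⟨s, h⟩ (i := none) ?_ ((cdm_kap h c l).mpr hl)
  rfl

/-- the information of the maximal label of the conditions `(r, c)` -/
theorem scn_info {s : MSys S M E ι} {x : (KM M ι).Ob S} (h : Giv s x) {r c : ℝ} {l : Lab S}
    (hl : l.IsMaxf (scn s r c)) : l.info = iv (pql M E ι r) (cdm M ι r c) x := by
  refine info_eq_iv (pql M E ι r) (cdm M ι r c) ⟨s, h⟩ (i := none) ?_ ((cdm_maxf h r c l).mpr hl)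
  rfl

/-- ENTROPY OF A PARTITION OVER `kappa_c` -/
theorem kap_h (X : Pt (KM M ι) (isMc M E ι)) {s : MSys S M E ι} {x : (KM M ι).Ob S} (h : Giv s x) {c : ℝ} {l : Lab S}
    (hl : s.IsKap c l) {A : Part S} (hA : ∀ᶠ k in UF, X.pt x k = A k) :
    Tendsto (fun k => Pool.Agent.Helper31.EC.h ((l k).p.map (A k)) (l k).v / (S.F k).n) UF
      (𝓝 (hv X (cdm M ι 1 c) x)) := by
  refine (hv_tendsto X (cdm M ι 1 c) ⟨s, h⟩ (cdm_Bd h 1 c) ((cdm_kap h c l).mpr hl)).congr' ?_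
  filter_upwards [hA] with k hk
  rw [hk]

theorem scn_h (X : Pt (KM M ι) (isMc M E ι)) {s : MSys S M E ι} {x : (KM M ι).Ob S} (h : Giv s x) {r c : ℝ} {l : Lab S}
    (hl : l.IsMaxf (scn s r c)) {A : Part S} (hA : ∀ᶠ k in UF, X.pt x k = A k) :
    Tendsto (fun k => Pool.Agent.Helper31.EC.h ((l k).p.map (A k)) (l k).v / (S.F k).n) UF
      (𝓝 (hv X (cdm M ι r c) x)) := by
  refine (hv_tendsto X (cdm M ι r c) ⟨s, h⟩ (cdm_Bd h r c) ((cdm_maxf h r c l).mpr hl)).congr' ?_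
  filter_upwards [hA] with k hk
  rw [hk]

/-- THE ENTROPY OF THE POINT OVER `kappa_c` -/
theorem HQ_hv {s : MSys S M E ι} {x : (KM M ι).Ob S} (h : Giv s x) (c : ℝ) :
    HQ s c = hv (pql M E ι 1) (cdm M ι 1 c) x := by
  obtain ⟨l, hl⟩ := s.exists_kap c
  rw [← HQ_eq s hl, H_over s.Q l (hl.1 none), kap_info h hl]
  unfold hv
  congr 1
  rw [iv_c0 (pql M E ι 1) ⟨s, h⟩]
  refine ul_congr ?_
  filter_upwards [pql_pt h 1] with k hk
  unfold hxs
  rw [hk]
  rfl

/-- the functional `information of kappa_c about X` -/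
def ivm (X : Pt (KM M ι) (isMc M E ι)) (r c : ℝ) : Fnl (isMc M E ι) := ivF isMc_imCl X (cdm M ι r c)

/-- the functional `entropy of X` -/
def hxm (X : Pt (KM M ι) (isMc M E ι)) : Fnl (isMc M E ι) := ivF isMc_imCl X (c0 (KM M ι))

theorem hv_eq_sub (X : Pt (KM M ι) (isMc M E ι)) (r c : ℝ) (S : Sp) (x : (KM M ι).Ob S) :
    hv X (cdm M ι r c) x = (hxm X).f S x - (ivm X r c).f S x := rfl

end

end Pool.Agent.Helper52.GF
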