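import Pool.Agent.Helper52.GF.Vx
import Pool.Agent.Helper49.MD.Cnt
import Pool.Agent.Helper84.MT.Fun

/-! FUNCTIONALS of objects of a kind: conditions, gauges and values which are attached to the finite data; penalised
values of finite labels with forms; glueing and splitting. -/

set_option autoImplicit false

namespace Pool.Agent.Helper52.GF

open Finset Filter Topology Matrix Pool.Agent.Helper69.RK Pool.Agent.Helper31.EC Pool.Agent.Helper31.EC.Sp
open Pool.Agent.Helper40.EL Pool.Agent.Helper89.LX Pool.Agent.Helper59.EV Pool.Agent.Helper49.MD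
open Pool.Agent.Helper52.KP (glue)
open Pool.Agent.Helper95.LF (PdM)

noncomputable section

/-- a supremum of averages -/
theorem sup_avg {A B : Set ℝ} (hA : A.Nonempty) (hB : B.Nonempty) {P z : ℝ} (h0 : 0 ≤ P) (h1 : P ≤ 1)
    (h : ∀ a ∈ A, ∀ b ∈ B, P * a + (1 - P) * b ≤ z) : P * sSup A + (1 - P) * sSup B ≤ z := by
  have h1' : 0 ≤ 1 - P := sub_nonneg.mpr h1
  have step : ∀ b ∈ B, P * sSup A + (1 - P) * b ≤ z := by
    intro b hb
    rcases eq_or_lt_of_le h0 with h2 | h2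
    · obtain ⟨a, ha⟩ := hA
      have := h a ha b hb
      rw [← h2] at this ⊢
      linarith
    · have h3 : sSup A ≤ (z - (1 - P) * b) / P := csSup_le hA fun a ha => by
        rw [le_div_iff₀ h2]
        have := h a ha b hb
        linarith
      rw [le_div_iff₀ h2] at h3
      linarith
  rcases eq_or_lt_of_le h1' with h2 | h2
  · obtain ⟨b, hb⟩ := hB
    have := step b hb
    rw [← h2] at this ⊢
    linarith
  · have h3 : sSup B ≤ (z - P * sSup A) / (1 - P) := csSup_le hB fun b hb => by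
      rw [le_div_iff₀ h2]
      have := step b hb
      linarith
    rw [le_div_iff₀ h2] at h3
    linarith

/-! ### conditions, gauges, values -/

/-- CONDITIONS attached to the finite data -/
structure Cd (K : FK) (κ : Type) where
  c : ∀ F : FSp, K.X F → κ → FL F
  im : ∀ (F T : FSp) (p : FPj T F) (E : T.Ω → Prop) (x : K.X F) (i : κ),
    c (FSp.im p E) (K.im p E x) i = FSp.imap p E (c F x i)

/-- the conditions of an object -/
def Cd.cf {K : FK} {κ : Type} (A : Cd K κ) {S : Sp} (x : K.Ob S) : κ → Part S := fun i k => A.c (S.F k) (x k) i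

/-- GAUGES attached to the finite data, in a class -/
structure Gk (K : FK) (B : K.Pd) (ι : Type) [Fintype ι] [DecidableEq ι] where
  φ : ∀ F : FSp, K.X F → F.Ω → Matrix ι ι ℝ → ℝ
  im : ∀ (F T : FSp) (p : FPj T F) (E : T.Ω → Prop) (x : K.X F) (ω : F.Ω) (A : Matrix ι ι ℝ),
    φ (FSp.im p E) (K.im p E x) ω A = φ F x ω A
  add : ∀ (F : FSp) (x : K.X F) (ω : F.Ω) (A A' : Matrix ι ι ℝ), φ F x ω (A + A') = φ F x ω A + φ F x ω A'
  nn : ∀ (F : FSp) (x : K.X F) (ω : F.Ω) (A : Matrix ι ι ℝ), Psd A → 0 ≤ φ F x ω A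
  C : ℝ
  C0 : 0 ≤ C
  cap : ∀ (S : Sp) (x : K.Ob S), B S x → ∀ᶠ k in UF, ∀ ω, (S.F k).μ ω ≠ 0 → ∀ A, PdM A →
    ∀ y, qf A y ≤ 2 ^ (C * (S.F k).n) * φ (S.F k) (x k) ω A * (y ⬝ᵥ y)
  one : ∀ (S : Sp) (x : K.Ob S), B S x → ∃ c : ℕ → ℝ, S.Sub c ∧ ∀ᶠ k in UF, ∀ ω, (S.F k).μ ω ≠ 0 →
    φ (S.F k) (x k) ω 1 ≤ c k

/-- the gauge of an object -/
def Gk.gau {K : FK} {B : K.Pd} {ι : Type} [Fintype ι] [DecidableEq ι] (G : Gk K B ι) {S : Sp} {x : K.Ob S}
    (hx : B S x) : Gau S ι where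
  φ := fun k ω A => G.φ (S.F k) (x k) ω A
  add := fun k ω A A' => G.add (S.F k) (x k) ω A A'
  nn := fun k ω A hA => G.nn (S.F k) (x k) ω A hA
  C := G.C
  C0 := G.C0
  cap := G.cap S x hx
  one := G.one S x hx

/-- the cap of forms -/
def cpn (C : ℝ) (F : FSp) : ℝ := 2 ^ ((C + 1) * F.n)

theorem one_le_cpn {C : ℝ} (h0 : 0 ≤ C) (F : FSp) : 1 ≤ cpn C F := by
  unfold cpn
  apply Real.one_le_rpow (by norm_num)
  exact mul_nonneg (by linarith) F.pos.le

/-- labels with capped forms -/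
def Cpf {ι : Type} [Fintype ι] [DecidableEq ι] (C : ℝ) {F : FSp} (y : FD F ι) : Prop :=
  ∀ ω, y.l.T.μ ω ≠ 0 → Cpd (cpn C F) (y.g ω) ∧ Cpd (cpn C F) (y.g' ω)

/-- the values are at most `M` at the finite data and at all its restrictions -/
def Bdv {K : FK} {ι : Type} (v : ∀ F : FSp, K.X F → FD F ι → ℝ) (M : ℝ) (F : FSp) (x : K.X F) : Prop :=
  (∀ y : FD F ι, v F x y ≤ M) ∧ ∀ (T : FSp) (p : FPj T F) (E : T.Ω → Prop) (y : FD (FSp.im p E) ι),
    v (FSp.im p E) (K.im p E x) y ≤ M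

/-- VALUES of labels with forms: bounded, additive over events up to `e` bits -/
structure Vk (K : FK) (B : K.Pd) (ι : Type) [Fintype ι] [DecidableEq ι] (C : ℝ) where
  v : ∀ F : FSp, K.X F → FD F ι → ℝ
  M : ℝ
  M0 : 0 ≤ M
  e : ℝ
  e0 : 0 ≤ e
  nn : ∀ (F : FSp) (x : K.X F) (y : FD F ι), Cpf C y → 0 ≤ v F x y
  le : ∀ (S : Sp) (x : K.Ob S), B S x → ∀ᶠ k in UF, Bdv v M (S.F k) (x k)
  glu : ∀ (F T : FSp) (p : FPj T F) (E : T.Ω → Prop) (x : K.X F) (y1 : FD (FSp.im p E) ι)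
    (y2 : FD (FSp.im p (fun ω => ¬ E ω)) ι), T.pb E * v (FSp.im p E) (K.im p E x) y1 +
      (1 - T.pb E) * v (FSp.im p fun ω => ¬ E ω) (K.im p (fun ω => ¬ E ω) x) y2 ≤ v F x (gluFD p E y1 y2) + e / F.n
  spl : ∀ (F T : FSp) (p : FPj T F) (E : T.Ω → Prop) (hn : T.n = F.n) (x : K.X F) (y : FD F ι),
    v F x y ≤ T.pb E * v (FSp.im p E) (K.im p E x) (imFD p E hn y) +
      (1 - T.pb E) * v (FSp.im p fun ω => ¬ E ω) (K.im p (fun ω => ¬ E ω) x) (imFD p (fun ω => ¬ E ω) hn y) + e / F.n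

variable {K : FK} {B : K.Pd} {ι κ : Type} [Fintype ι] [DecidableEq ι] [Encodable κ]

section
variable (G : Gk K B ι) (V : Vk K B ι G.C) (A : Cd K κ)

/-- the two forms are bad: they are not bounded at the point -/
def bk (η : ℝ) (F : FSp) (x : K.X F) (ω : F.Ω) (X X' : Matrix ι ι ℝ) : ℝ :=
  e1_ind (¬ G.φ F x ω X ≤ 2 ^ (η * F.n)) + e1_ind (¬ G.φ F x ω X' ≤ 2 ^ (η * F.n))

/-- the number of used conditions -/
def nus (η : ℝ) : ℕ := ⌊1 / η⌋₊ + 1

/-- the leak at the condition with the number `n` -/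
def dlk {F : FSp} (c : κ → FL F) (l : FLab F) (n : ℕ) : ℝ :=
  match (Encodable.decode n : Option κ) with
  | none => 0
  | some i => l.leak (c i)

/-- the sum of the leaks at the used conditions -/
def lks (η : ℝ) {F : FSp} (c : κ → FL F) (l : FLab F) : ℝ := ∑ n ∈ Finset.range (nus η), dlk c l n

/-- the penalised value of a label with forms -/
def gvv (η : ℝ) (F : FSp) (x : K.X F) (y : FD F ι) : ℝ :=
  V.v F x y - fval2 (bk G η F x) y / η - lks η (A.c F x) y.l / η / F.n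

/-- the values of all labels with forms -/
def gvs (η : ℝ) (F : FSp) (x : K.X F) : Set ℝ := {r | ∃ y : FD F ι, Cpf G.C y ∧ r = gvv G V A η F x y}

/-- the penalised value -/
def gvo (η : ℝ) (F : FSp) (x : K.X F) : ℝ := sSup (gvs G V A η F x)

/-- the value is bounded at the finite data -/
def Vbd (F : FSp) (x : K.X F) : Prop := ∀ y : FD F ι, V.v F x y ≤ V.M

omit [Encodable κ] in
theorem Bdv.l {F : FSp} {x : K.X F} (h : Bdv V.v V.M F x) : Vbd G V F x := h.1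

omit [Encodable κ] in
theorem Bdv.r {F : FSp} {x : K.X F} (h : Bdv V.v V.M F x) {T : FSp} (p : FPj T F) (E : T.Ω → Prop) :
    Vbd G V (FSp.im p E) (K.im p E x) := h.2 T p E

theorem triv_Cpf (F : FSp) : Cpf G.C (trivFD (ι := ι) F) := fun _ _ =>
  ⟨Cpd_one (one_le_cpn G.C0 F), Cpd_one (one_le_cpn G.C0 F)⟩

theorem gvs_ne (η : ℝ) (F : FSp) (x : K.X F) : (gvs G V A η F x).Nonempty := ⟨_, trivFD F, triv_Cpf G F, rfl⟩

theorem ind_nonneg (P : Prop) : 0 ≤ e1_ind P := by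
  by_cases h : P
  · rw [e1_ind_pos h]; exact zero_le_one
  · rw [e1_ind_neg h]

theorem ind_le_one (P : Prop) : e1_ind P ≤ 1 := by
  by_cases h : P
  · rw [e1_ind_pos h]
  · rw [e1_ind_neg h]; exact zero_le_one

theorem ind_mono {P Q : Prop} (h : P → Q) : e1_ind P ≤ e1_ind Q := by
  by_cases h1 : P
  · rw [e1_ind_pos h1, e1_ind_pos (h h1)]
  · rw [e1_ind_neg h1]; exact ind_nonneg Q

theorem bk_nonneg (η : ℝ) (F : FSp) (x : K.X F) (ω : F.Ω) (X X' : Matrix ι ι ℝ) : 0 ≤ bk G η F x ω X X' :=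
  add_nonneg (ind_nonneg _) (ind_nonneg _)

theorem bk_le (η : ℝ) (F : FSp) (x : K.X F) (ω : F.Ω) (X X' : Matrix ι ι ℝ) : bk G η F x ω X X' ≤ 2 := by
  unfold bk
  have h1 := ind_le_one (¬ G.φ F x ω X ≤ 2 ^ (η * F.n))
  have h2 := ind_le_one (¬ G.φ F x ω X' ≤ 2 ^ (η * F.n))
  linarith

theorem bk_anti {η η' : ℝ} (h : η ≤ η') (F : FSp) (x : K.X F) (ω : F.Ω) (X X' : Matrix ι ι ℝ) :
    bk G η' F x ω X X' ≤ bk G η F x ω X X' := by
  have h1 : (2 : ℝ) ^ (η * F.n) ≤ 2 ^ (η' * F.n) :=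
    Real.rpow_le_rpow_of_exponent_le (by norm_num) (mul_le_mul_of_nonneg_right h F.pos.le)
  exact add_le_add (ind_mono fun h2 h3 => h2 (h3.trans h1)) (ind_mono fun h2 h3 => h2 (h3.trans h1))

omit [Fintype ι] [DecidableEq ι] in
theorem fval2_nonneg {F : FSp} {f : F.Ω → Matrix ι ι ℝ → Matrix ι ι ℝ → ℝ} (h : ∀ ω X X', 0 ≤ f ω X X')
    (y : FD F ι) : 0 ≤ fval2 f y :=
  Finset.sum_nonneg fun ω _ => mul_nonneg (y.l.T.nn ω) (h _ _ _)

omit [Fintype ι] [DecidableEq ι] in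
theorem fval2_mono {F : FSp} {f f' : F.Ω → Matrix ι ι ℝ → Matrix ι ι ℝ → ℝ} (h : ∀ ω X X', f ω X X' ≤ f' ω X X')
    (y : FD F ι) : fval2 f y ≤ fval2 f' y :=
  Finset.sum_le_sum fun ω _ => mul_le_mul_of_nonneg_left (h _ _ _) (y.l.T.nn ω)

theorem fval2_bk_le (η : ℝ) (F : FSp) (x : K.X F) (y : FD F ι) : fval2 (bk G η F x) y ≤ 2 :=
  sum_mul_le (F := y.l.T) _ _ fun _ _ => bk_le G η F x _ _ _

theorem dlk_nonneg {F : FSp} (c : κ → FL F) (l : FLab F) (n : ℕ) : 0 ≤ dlk c l n := by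
  unfold dlk
  cases (Encodable.decode n : Option κ) with
  | none => exact le_rfl
  | some i => exact l.leak_nonneg _

theorem dlk_encode {F : FSp} (c : κ → FL F) (l : FLab F) (i : κ) : dlk c l (Encodable.encode i) = l.leak (c i) := by
  unfold dlk
  rw [Encodable.encodek]

theorem lks_nonneg (η : ℝ) {F : FSp} (c : κ → FL F) (l : FLab F) : 0 ≤ lks η c l :=
  Finset.sum_nonneg fun n _ => dlk_nonneg c l n

theorem nus_anti {η η' : ℝ} (h0 : 0 < η) (h : η ≤ η') : nus η' ≤ nus η := by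
  unfold nus
  have h1 : 1 / η' ≤ 1 / η := one_div_le_one_div_of_le h0 h
  exact Nat.add_le_add_right (Nat.floor_le_floor h1) 1

theorem lks_anti {η η' : ℝ} (h0 : 0 < η) (h : η ≤ η') {F : FSp} (c : κ → FL F) (l : FLab F) : lks η' c l ≤ lks η c l :=
  Finset.sum_le_sum_of_subset_of_nonneg (Finset.range_mono (nus_anti h0 h)) fun n _ _ => dlk_nonneg c l n

/-- used conditions -/
theorem used_lt {η : ℝ} (h0 : 0 < η) {i : κ} (hi : Used η i) : Encodable.encode i < nus η := by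
  unfold nus
  rw [Nat.lt_succ_iff]
  apply Nat.le_floor
  rw [le_div_iff₀ h0]
  exact hi

theorem leak_le_lks {η : ℝ} (h0 : 0 < η) {F : FSp} (c : κ → FL F) (l : FLab F) {i : κ} (hi : Used η i) :
    l.leak (c i) ≤ lks η c l := by
  rw [← dlk_encode c l i]
  exact Finset.single_le_sum (f := fun n => dlk c l n) (fun n _ => dlk_nonneg c l n)
    (Finset.mem_range.mpr (used_lt h0 hi))

theorem gvv_le_v {η : ℝ} (h0 : 0 < η) (F : FSp) (x : K.X F) (y : FD F ι) : gvv G V A η F x y ≤ V.v F x y := by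
  unfold gvv
  have h1 : 0 ≤ fval2 (bk G η F x) y / η := div_nonneg (fval2_nonneg (bk_nonneg G η F x) y) h0.le
  have h2 : 0 ≤ lks η (A.c F x) y.l / η / F.n := div_nonneg (div_nonneg (lks_nonneg _ _ _) h0.le) F.pos.le
  linarith

variable {V}

theorem gvs_bdd {η : ℝ} (h0 : 0 < η) {F : FSp} {x : K.X F} (hb : Vbd G V F x) : BddAbove (gvs G V A η F x) := by
  refine ⟨V.M, ?_⟩
  rintro r ⟨y, _, rfl⟩
  exact (gvv_le_v G V A h0 F x y).trans (hb y)

theorem gvo_le {η : ℝ} (h0 : 0 < η) {F : FSp} {x : K.X F} (hb : Vbd G V F x) : gvo G V A η F x ≤ V.M := by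
  apply csSup_le (gvs_ne G V A η F x)
  rintro r ⟨y, _, rfl⟩
  exact (gvv_le_v G V A h0 F x y).trans (hb y)

theorem gvv_le_gvo {η : ℝ} (h0 : 0 < η) {F : FSp} {x : K.X F} (hb : Vbd G V F x) {y : FD F ι} (hy : Cpf G.C y) :
    gvv G V A η F x y ≤ gvo G V A η F x := le_csSup (gvs_bdd G A h0 hb) ⟨y, hy, rfl⟩

theorem gvo_ge {η : ℝ} (h0 : 0 < η) {F : FSp} {x : K.X F} (hb : Vbd G V F x) : -(2 / η) ≤ gvo G V A η F x := by
  refine le_trans ?_ (gvv_le_gvo G A h0 hb (triv_Cpf G F))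
  have h1 : fval2 (bk G η F x) (trivFD F) / η ≤ 2 / η := div_le_div_of_nonneg_right (fval2_bk_le G η F x _) h0.le
  have h2 : lks η (A.c F x) (trivFD (ι := ι) F).l = 0 := Finset.sum_eq_zero fun n _ => by
    unfold dlk
    cases (Encodable.decode n : Option κ) with
    | none => rfl
    | some i => exact FLab.triv_leak _
  have h3 := V.nn F x (trivFD F) (triv_Cpf G F)
  unfold gvv
  rw [h2, zero_div, zero_div]
  linarith

/-! ### monotonicity in the penalty -/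

theorem gvv_mono {η η' : ℝ} (h0 : 0 < η) (h : η ≤ η') (F : FSp) (x : K.X F) (y : FD F ι) :
    gvv G V A η F x y ≤ gvv G V A η' F x y := by
  unfold gvv
  have h1 : fval2 (bk G η' F x) y / η' ≤ fval2 (bk G η F x) y / η :=
    div_le_div₀ (fval2_nonneg (bk_nonneg G η F x) y) (fval2_mono (bk_anti G h F x) y) h0 h
  have h2 : lks η' (A.c F x) y.l / η' / F.n ≤ lks η (A.c F x) y.l / η / F.n := by
    apply div_le_div_of_nonneg_right _ F.pos.le
    exact div_le_div₀ (lks_nonneg _ _ _) (lks_anti h0 h _ _) h0 h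
  linarith

theorem gvo_mono {η η' : ℝ} (h0 : 0 < η) (h : η ≤ η') {F : FSp} {x : K.X F} (hb : Vbd G V F x) :
    gvo G V A η F x ≤ gvo G V A η' F x := by
  apply csSup_le (gvs_ne G V A η F x)
  rintro r ⟨y, hy, rfl⟩
  exact (gvv_mono G A h0 h F x y).trans (gvv_le_gvo G A (h0.trans_le h) hb hy)

/-! ### glueing and splitting -/

theorem bk_im (η : ℝ) {F T : FSp} (p : FPj T F) (E : T.Ω → Prop) (x : K.X F) :
    bk G η (FSp.im p E) (K.im p E x) = bk G η F x := by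
  funext ω X X'
  unfold bk
  rw [G.im F T p E x ω X, G.im F T p E x ω X']
  rfl

omit [DecidableEq ι] [Fintype ι] in
theorem lks_glu (η : ℝ) {F T : FSp} (c : κ → FL F) (p : FPj T F) (E : T.Ω → Prop) (y1 : FD (FSp.im p E) ι)
    (y2 : FD (FSp.im p (fun ω => ¬ E ω)) ι) : lks η c (gluFD p E y1 y2).l ≤
      T.pb E * lks η (fun i => FSp.imap p E (c i)) y1.l +
      (1 - T.pb E) * lks η (fun i => FSp.imap p (fun ω => ¬ E ω) (c i)) y2.l + nus η := by
  unfold lks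
  rw [Finset.mul_sum, Finset.mul_sum, ← Finset.sum_add_distrib]
  have h1 : ∑ _i ∈ Finset.range (nus η), (1 : ℝ) = nus η := by simp
  rw [← h1, ← Finset.sum_add_distrib]
  refine Finset.sum_le_sum fun n _ => ?_
  unfold dlk
  cases (Encodable.decode n : Option κ) with
  | none => simp
  | some i => exact glu_leak y1 y2 (c i)

omit [DecidableEq ι] [Fintype ι] in
theorem lks_im (η : ℝ) {F T : FSp} (c : κ → FL F) (p : FPj T F) (E : T.Ω → Prop) (hn : T.n = F.n) (y : FD F ι) :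
    T.pb E * lks η (fun i => FSp.imap p E (c i)) (imFD p E hn y).l ≤ lks η c y.l + nus η := by
  unfold lks
  rw [Finset.mul_sum]
  have h1 : ∑ _i ∈ Finset.range (nus η), (1 : ℝ) = nus η := by simp
  rw [← h1, ← Finset.sum_add_distrib]
  refine Finset.sum_le_sum fun n _ => ?_
  unfold dlk
  cases (Encodable.decode n : Option κ) with
  | none => simp
  | some i => exact im_leak hn y (c i)

omit [Encodable κ] in
theorem cf_im {F T : FSp} (p : FPj T F) (E : T.Ω → Prop) (x : K.X F) :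
    A.c (FSp.im p E) (K.im p E x) = fun i => FSp.imap p E (A.c F x i) := funext fun i => A.im F T p E x i

/-- superadditivity -/
theorem gvv_glue {η : ℝ} (h0 : 0 < η) {F T : FSp} (p : FPj T F) (E : T.Ω → Prop) (x : K.X F)
    (y1 : FD (FSp.im p E) ι) (y2 : FD (FSp.im p (fun ω => ¬ E ω)) ι) :
    T.pb E * gvv G V A η (FSp.im p E) (K.im p E x) y1 +
      (1 - T.pb E) * gvv G V A η (FSp.im p fun ω => ¬ E ω) (K.im p (fun ω => ¬ E ω) x) y2 ≤
      gvv G V A η F x (gluFD p E y1 y2) + (V.e + nus η / η) / F.n := by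
  have hn := F.pos
  have hN1 : (FSp.im p E).n = F.n := rfl
  have hN2 : (FSp.im p fun ω => ¬ E ω).n = F.n := rfl
  have g0 := V.glu F T p E x y1 y2
  have g1 := fval2_glu (p := p) (E := E) (bk G η F x) y1 y2
  have g2 := lks_glu η (A.c F x) p E y1 y2
  unfold gvv
  rw [bk_im, bk_im, cf_im, cf_im, g1, hN1, hN2]
  generalize T.pb E = P at g0 g1 g2 ⊢
  generalize V.v (FSp.im p E) (K.im p E x) y1 = v1 at g0 ⊢
  generalize V.v (FSp.im p fun ω => ¬ E ω) (K.im p (fun ω => ¬ E ω) x) y2 = v2 at g0 ⊢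
  generalize V.v F x (gluFD p E y1 y2) = v0 at g0 ⊢
  generalize fval2 (F := FSp.im p E) (bk G η F x) y1 = b1
  generalize fval2 (F := FSp.im p (fun ω => ¬ E ω)) (bk G η F x) y2 = b2
  generalize lks η (A.c F x) (gluFD p E y1 y2).l = a0 at g2 ⊢
  generalize lks η (fun i => FSp.imap p E (A.c F x i)) y1.l = a1 at g2 ⊢
  generalize lks η (fun i => FSp.imap p (fun ω => ¬ E ω) (A.c F x i)) y2.l = a2 at g2 ⊢
  generalize (nus η : ℝ) = c at g2 ⊢
  have e1 : a0 / η / F.n ≤ P * (a1 / η / F.n) + (1 - P) * (a2 / η / F.n) + c / η / F.n := by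
    have e2 : P * (a1 / η / F.n) + (1 - P) * (a2 / η / F.n) + c / η / F.n = (P * a1 + (1 - P) * a2 + c) / η / F.n := by
      ring
    rw [e2]
    exact div_le_div_of_nonneg_right (div_le_div_of_nonneg_right g2 h0.le) hn.le
  have e3 : (P * b1 + (1 - P) * b2) / η = P * (b1 / η) + (1 - P) * (b2 / η) := by ring
  rw [e3, add_div V.e]
  linarith

/-- subadditivity, with a smaller penalty -/
theorem gvv_split {η : ℝ} (h0 : 0 < η) {F T : FSp} (p : FPj T F) (hn : T.n = F.n) (E : T.Ω → Prop) (x : K.X F)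
    (y : FD F ι) : gvv G V A η F x y ≤
      T.pb E * gvv G V A (2 * η) (FSp.im p E) (K.im p E x) (imFD p E hn y) +
      (1 - T.pb E) * gvv G V A (2 * η) (FSp.im p fun ω => ¬ E ω) (K.im p (fun ω => ¬ E ω) x)
        (imFD p (fun ω => ¬ E ω) hn y) + (V.e + nus η / η) / F.n := by
  have hpos := F.pos
  have hN1 : (FSp.im p E).n = F.n := rfl
  have hN2 : (FSp.im p fun ω => ¬ E ω).n = F.n := rfl
  have g0 := V.spl F T p E hn x y
  have g1 := fval2_im (p := p) (E := E) hn (bk G η F x) y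
  have g2 := lks_im η (A.c F x) p E hn y
  have g2' := lks_im η (A.c F x) p (fun ω => ¬ E ω) hn y
  rw [Pool.Agent.Helper52.KP.pb_not] at g2'
  have a1m := lks_anti (η := η) (η' := 2 * η) h0 (by linarith) (fun i => FSp.imap p E (A.c F x i))
    (imFD p E hn y).l
  have a2m := lks_anti (η := η) (η' := 2 * η) h0 (by linarith) (fun i => FSp.imap p (fun ω => ¬ E ω) (A.c F x i))
    (imFD p (fun ω => ¬ E ω) hn y).l
  have hp0 := T.pb_nonneg E
  have hp1 : 0 ≤ 1 - T.pb E := sub_nonneg.mpr (T.pb_le_one E)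
  have m1 : fval2 (F := FSp.im p E) (bk G (2 * η) F x) (imFD p E hn y) ≤
      fval2 (F := FSp.im p E) (bk G η F x) (imFD p E hn y) :=
    fval2_mono (F := FSp.im p E) (bk_anti G (by linarith) F x) _
  have m2 : fval2 (F := FSp.im p (fun ω => ¬ E ω)) (bk G (2 * η) F x) (imFD p (fun ω => ¬ E ω) hn y) ≤
      fval2 (F := FSp.im p (fun ω => ¬ E ω)) (bk G η F x) (imFD p (fun ω => ¬ E ω) hn y) :=
    fval2_mono (F := FSp.im p (fun ω => ¬ E ω)) (bk_anti G (by linarith) F x) _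
  have n1 : 0 ≤ fval2 (F := FSp.im p E) (bk G (2 * η) F x) (imFD p E hn y) :=
    fval2_nonneg (F := FSp.im p E) (bk_nonneg G _ F x) _
  have n2 : 0 ≤ fval2 (F := FSp.im p (fun ω => ¬ E ω)) (bk G (2 * η) F x) (imFD p (fun ω => ¬ E ω) hn y) :=
    fval2_nonneg (F := FSp.im p (fun ω => ¬ E ω)) (bk_nonneg G _ F x) _
  unfold gvv
  rw [bk_im, bk_im, cf_im, cf_im, g1, hN1, hN2]
  generalize T.pb E = P at g0 g1 g2 g2' hp0 hp1 ⊢
  generalize V.v (FSp.im p E) (K.im p E x) (imFD p E hn y) = v1 at g0 ⊢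
  generalize V.v (FSp.im p fun ω => ¬ E ω) (K.im p (fun ω => ¬ E ω) x) (imFD p (fun ω => ¬ E ω) hn y) = v2 at g0 ⊢
  generalize V.v F x y = v0 at g0 ⊢
  generalize fval2 (F := FSp.im p E) (bk G (2 * η) F x) (imFD p E hn y) = b1 at m1 n1 ⊢
  generalize fval2 (F := FSp.im p (fun ω => ¬ E ω)) (bk G (2 * η) F x) (imFD p (fun ω => ¬ E ω) hn y) = b2 at m2 n2 ⊢
  generalize fval2 (F := FSp.im p E) (bk G η F x) (imFD p E hn y) = d1 at m1 ⊢
  generalize fval2 (F := FSp.im p (fun ω => ¬ E ω)) (bk G η F x) (imFD p (fun ω => ¬ E ω) hn y) = d2 at m2 ⊢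
  generalize lks η (A.c F x) y.l = a0 at g2 g2' ⊢
  generalize lks η (fun i => FSp.imap p E (A.c F x i)) (imFD p E hn y).l = a1 at g2 a1m ⊢
  generalize lks η (fun i => FSp.imap p (fun ω => ¬ E ω) (A.c F x i)) (imFD p (fun ω => ¬ E ω) hn y).l = a2
    at g2' a2m ⊢
  generalize lks (2 * η) (fun i => FSp.imap p E (A.c F x i)) (imFD p E hn y).l = a3 at a1m ⊢
  generalize lks (2 * η) (fun i => FSp.imap p (fun ω => ¬ E ω) (A.c F x i)) (imFD p (fun ω => ¬ E ω) hn y).l = a4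
    at a2m ⊢
  generalize (nus η : ℝ) = c at g2 g2' ⊢
  have e1 : P * (a3 / (2 * η) / F.n) + (1 - P) * (a4 / (2 * η) / F.n) ≤ a0 / η / F.n + c / η / F.n := by
    have e2 : P * (a3 / (2 * η) / F.n) + (1 - P) * (a4 / (2 * η) / F.n) = (P * a3 + (1 - P) * a4) / 2 / η / F.n := by
      ring
    rw [e2, ← add_div, ← add_div]
    apply div_le_div_of_nonneg_right _ hpos.le
    apply div_le_div_of_nonneg_right _ h0.le
    have e5 := mul_le_mul_of_nonneg_left a1m hp0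
    have e6 := mul_le_mul_of_nonneg_left a2m hp1
    linarith
  have e3 : ∀ b d : ℝ, 0 ≤ b → b ≤ d → b / (2 * η) ≤ d / η := fun b d hb hd =>
    div_le_div₀ (hb.trans hd) hd h0 (by linarith)
  have k1 := mul_le_mul_of_nonneg_left (e3 b1 d1 n1 m1) hp0
  have k2 := mul_le_mul_of_nonneg_left (e3 b2 d2 n2 m2) hp1
  have e4 : (P * d1 + (1 - P) * d2) / η = P * (d1 / η) + (1 - P) * (d2 / η) := by ring
  rw [e4, add_div V.e]
  linarith

theorem gvo_glue {η : ℝ} (h0 : 0 < η) {F T : FSp} (p : FPj T F) (E : T.Ω → Prop) {x : K.X F} (hb : Vbd G V F x) :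
    T.pb E * gvo G V A η (FSp.im p E) (K.im p E x) +
      (1 - T.pb E) * gvo G V A η (FSp.im p fun ω => ¬ E ω) (K.im p (fun ω => ¬ E ω) x) ≤
      gvo G V A η F x + (V.e + nus η / η) / F.n := by
  apply sup_avg (gvs_ne _ _ _ _ _ _) (gvs_ne _ _ _ _ _ _) (T.pb_nonneg E) (T.pb_le_one E)
  rintro a ⟨y1, k1, rfl⟩ b ⟨y2, k2, rfl⟩
  have h2 := gvv_glue G A (V := V) h0 p E x y1 y2
  have h3 := gvv_le_gvo G A h0 hb (y := gluFD p E y1 y2) (fun w hw => glu_all (Cpd (cpn G.C F)) y1 y2 k1 k2 w hw)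
  linarith

theorem gvo_split {η : ℝ} (h0 : 0 < η) {F T : FSp} (p : FPj T F) (hn : T.n = F.n) (E : T.Ω → Prop) {x : K.X F}
    (hb1 : Vbd G V (FSp.im p E) (K.im p E x)) (hb2 : Vbd G V (FSp.im p fun ω => ¬ E ω) (K.im p (fun ω => ¬ E ω) x)) :
    gvo G V A η F x ≤ T.pb E * gvo G V A (2 * η) (FSp.im p E) (K.im p E x) +
      (1 - T.pb E) * gvo G V A (2 * η) (FSp.im p fun ω => ¬ E ω) (K.im p (fun ω => ¬ E ω) x) +
      (V.e + nus η / η) / F.n := by
  apply csSup_le (gvs_ne G V A η F x)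
  rintro r ⟨y, hy, rfl⟩
  have h2 : 0 < 2 * η := by linarith
  have h1 := gvv_split G A (V := V) h0 p hn E x y
  have e1 := gvv_le_gvo G A h2 hb1 (y := imFD p E hn y)
    (fun w hw => im_all (p := p) (E := E) hn (Cpd (cpn G.C F)) y hy w hw)
  have e2 := gvv_le_gvo G A h2 hb2 (y := imFD p (fun ω => ¬ E ω) hn y)
    (fun w hw => im_all (p := p) (E := fun ω => ¬ E ω) hn (Cpd (cpn G.C F)) y hy w hw)
  have k1 := mul_le_mul_of_nonneg_left e1 (T.pb_nonneg E)
  have k2 := mul_le_mul_of_nonneg_left e2 (sub_nonneg.mpr (T.pb_le_one E))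
  linarith

end

end

end Pool.Agent.Helper52.GF
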