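import Pool.Agent.Helper52.GF.Prk
import Pool.Agent.Helper81.MT.Img

/-! COORDINATES: the K-volumes of the projected points (prefixes, subsets) over the K-labels of the full system are
constant in robust classes. -/

set_option autoImplicit false

namespace Pool.Agent.Helper52.GF

open Finset Filter Topology Matrix Pool.Agent.Helper69.RK Pool.Agent.Helper31.EC Pool.Agent.Helper31.EC.Sp
open Pool.Agent.Helper40.EL Pool.Agent.Helper89.LX Pool.Agent.Helper59.EV Pool.Agent.Helper49.MD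
open Pool.Agent.Helper84.MT Pool.Agent.Helper3.LF Pool.Agent.Helper36.AM

noncomputable section

variable {S T : Sp} {M N : ℕ} {E : ℕ → ℕ} {ι : Type} {K : FK}

/-- composition of maps of kinds -/
def Km.cm {K K' K'' : FK} (n : Km K' K'') (m : Km K K') : Km K K'' where
  f := fun F x => n.f F (m.f F x)
  im := fun F T p E x => by rw [m.im, n.im]

theorem Km.cm_o {K K' K'' : FK} (n : Km K' K'') (m : Km K K') (x : K.Ob S) : (n.cm m).o x = n.o (m.o x) := rfl

/-- the coordinates `σ` -/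
def cooM (ι : Type) (σ : Fin N → Fin M) : Km (KM M ι) (KM N ι) where
  f := fun F x => (⟨fun ω j => MvPolynomial.eval ((x : FMs F.Ω M ι).Q ω) (MvPolynomial.X (σ j)), fun i =>
    ⟨((x : FMs F.Ω M ι).lf i).e, ((x : FMs F.Ω M ι).lf i).La, ((x : FMs F.Ω M ι).lf i).Y, fun ω y j =>
      MvPolynomial.eval (((x : FMs F.Ω M ι).lf i).F ω y) (MvPolynomial.X (σ j)), fun ω D =>
        ((x : FMs F.Ω M ι).lf i).al ω (1 * D)⟩⟩ : FMs F.Ω N ι)
  im := fun _ _ _ _ _ => rfl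

theorem one_E (E : ℕ → ℕ) (D : ℕ) : E (1 * D) ≤ E D := by rw [one_mul]

/-- THE SYSTEM OF THE COORDINATES `σ` (all types are kept) -/
def cos (s : MSys S M E ι) (σ : Fin N → Fin M) : MSys S N E ι := s.img (PMap.coo S σ) le_rfl (one_E E)

theorem cos_v (s : MSys S M E ι) (σ : Fin N → Fin M) (k : ℕ) (ω : (S.F k).Ω) (a : Fin N) :
    (cos s σ).Q.v k ω a = s.Q.v k ω (σ a) := congrFun (PMap.coo_ev σ k ω (s.Q.v k ω)) a

theorem cos_im (s : MSys S M E ι) (σ : Fin N → Fin M) (p : Pj T S) (A : ∀ k, (T.F k).Ω → Prop)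
    (hA : 0 < ul (T.pr A)) : cos (s.im p A hA) σ = (cos s σ).im p A hA := rfl

theorem scw_cos (s : MSys S M E ι) (σ : Fin N → Fin M) (A : Part S) (c : ℝ) : scw (cos s σ) A c = scw s A c :=
  funext fun i => by cases i <;> rfl

/-- the K-labels are the same -/
theorem KLb_cos {s : MSys S M E ι} {σ : Fin N → Fin M} {A B : Part S} {c : ℝ} {l : Lab S} :
    KLb (cos s σ) A B c l ↔ KLb s A B c l := by
  unfold KLb
  rw [scw_cos]

theorem giv_cos {s : MSys S M E ι} {x : (KM M ι).Ob S} (h : Giv s x) (σ : Fin N → Fin M) :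
    Giv (cos s σ) ((cooM ι σ).o x) := by
  constructor
  · filter_upwards [h.1] with k hk
    show (fun ω j => MvPolynomial.eval (s.Q.v k ω) (MvPolynomial.X (σ j))) =
      fun ω j => MvPolynomial.eval ((x k : FMs (S.F k).Ω M ι).Q ω) (MvPolynomial.X (σ j))
    rw [hk]
  · intro i
    filter_upwards [h.2 i] with k hk
    show (⟨(lob (s.lf i) k).e, (lob (s.lf i) k).La, (lob (s.lf i) k).Y, fun ω y j =>
      MvPolynomial.eval ((lob (s.lf i) k).F ω y) (MvPolynomial.X (σ j)), fun ω D => (lob (s.lf i) k).al ω (1 * D)⟩ :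
        FLf (S.F k).Ω N) = ⟨((x k : FMs (S.F k).Ω M ι).lf i).e, ((x k : FMs (S.F k).Ω M ι).lf i).La,
        ((x k : FMs (S.F k).Ω M ι).lf i).Y, fun ω y j =>
      MvPolynomial.eval (((x k : FMs (S.F k).Ω M ι).lf i).F ω y) (MvPolynomial.X (σ j)), fun ω D =>
        ((x k : FMs (S.F k).Ω M ι).lf i).al ω (1 * D)⟩
    rw [hk]

variable (m : Km K (KM M ι)) [Encodable ι]

theorem isK_cos (σ : Fin N → Fin M) {x : K.Ob S} (h : isK E m S x) : isK E ((cooM ι σ).cm m) S x := by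
  obtain ⟨s, hs⟩ := h
  exact ⟨cos s σ, giv_cos hs σ⟩

/-! ### robust classes -/

/-- subsets of the coordinates, in any order -/
abbrev Sb (M : ℕ) : Type := Σ N : ℕ, Fin N → Fin M

instance Sb.ne (M : ℕ) : Nonempty (Sb M) := ⟨⟨0, fun i => i.elim0⟩⟩

/-- constants for the projections: volumes and scores -/
structure KD (M : ℕ) where
  v : Sb M → ℕ → ℕ → ℝ → ℝ
  s : Sb M → ℕ → ℕ → ℝ → ℝ

/-- ROBUST PROJECTIONS -/
def RbJ (E : ℕ → ℕ) (m : Km K (KM M ι)) (V W : ℕ → Pu K) (B : K.Pd) (C : KD M) : Prop :=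
  ∀ S x, B S x → ∀ (q : Sb M) (D n : ℕ) (c : ℝ), kvm E ((cooM ι q.2).cm m) D (V n) (W n) c (S := S) x = C.v q D n c ∧
    kxs E ((cooM ι q.2).cm m) D (V n) (W n) c x = C.s q D n c

/-- robust projections of truncations -/
def RbJU (E : ℕ → ℕ) (m : Km K (KM M ι)) (V W : ℕ → Pu K) (U : Ku K) (e : ℝ) (he : 0 < e) (B : K.Pd) (C : KD M) :
    Prop := ∀ S x, B S x → ∀ (q : Sb M) (D n : ℕ) (c : ℝ),
      kvm E ((cooM ι q.2).cm m) D (V n) (W n) c (U.o e he (S := S) x) = C.v q D n c ∧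
      kxs E ((cooM ι q.2).cm m) D (V n) (W n) c (U.o e he x) = C.s q D n c

theorem RbJ.sub {V W : ℕ → Pu K} {B B' : K.Pd} {C : KD M} (h : RbJ E m V W B C) (hB : ∀ S x, B' S x → B S x) :
    RbJ E m V W B' C := fun S x hx => h S x (hB S x hx)

theorem RbJU.sub {V W : ℕ → Pu K} {U : Ku K} {e : ℝ} {he : 0 < e} {B B' : K.Pd} {C : KD M}
    (h : RbJU E m V W U e he B C) (hB : ∀ S x, B' S x → B S x) : RbJU E m V W U e he B' C :=
  fun S x hx => h S x (hB S x hx)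

/-- EXISTENCE -/
theorem stage_j {C : K.Pd} (hC : Cls C) (hM : ∀ S x, C S x → isK E m S x) (V W : ℕ → Pu K) (U : Ku K) (u : ℕ → ℝ)
    (hu : ∀ j, 0 < u j) (hU : ∀ j, UnCl U (u j) (hu j) (isK E m)) :
    ∃ C' : K.Pd, Cls C' ∧ (∀ S x, C' S x → C S x) ∧ (∃ c : KD M, RbJ E m V W C' c) ∧
      ∀ j, ∃ c : KD M, RbJU E m V W U (u j) (hu j) C' c := by
  classical
  let tr : Option ℕ → Fnl (isK E m) → Fnl (isK E m) := fun j Φ => match j with
    | none => Φ
    | some j => fnlU U (u j) (hu j) (hU j) Φ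
  obtain ⟨v, h2⟩ := stage_mono hC hM (ι := Option ℕ × Bool × Sb M × ℕ × ℕ)
    (fun i c => tr i.1 ((match i.2.1 with
      | true => kxmF E ((cooM ι i.2.2.1.2).cm m) i.2.2.2.1 (V i.2.2.2.2) (W i.2.2.2.2) c
      | false => kxsF E ((cooM ι i.2.2.1.2).cm m) i.2.2.2.1 (V i.2.2.2.2) (W i.2.2.2.2) c).mono
        fun S x hx => isK_cos m i.2.2.1.2 hx))
    (by
      rintro ⟨j, b, q, D, n⟩ S x hx c c' hc
      rcases j with _ | j
      · cases b
        · exact kxs_mono ((cooM ι q.2).cm m) D (V n) (W n) hc (isK_cos m q.2 hx)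
        · exact kxm_mono ((cooM ι q.2).cm m) D (V n) (W n) hc (isK_cos m q.2 hx)
      · cases b
        · exact kxs_mono ((cooM ι q.2).cm m) D (V n) (W n) hc (isK_cos m q.2 (hU j S x hx))
        · exact kxm_mono ((cooM ι q.2).cm m) D (V n) (W n) hc (isK_cos m q.2 (hU j S x hx)))
  refine ⟨_, h2, fun S x hx => hx.1, ⟨⟨fun q D n c => q.1 - v (none, true, q, D, n) c,
    fun q D n c => v (none, false, q, D, n) c⟩, fun S x hx q D n c => ⟨?_, hx.2 (none, false, q, D, n) c⟩⟩, fun j =>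
    ⟨⟨fun q D n c => q.1 - v (some j, true, q, D, n) c, fun q D n c => v (some j, false, q, D, n) c⟩,
      fun S x hx q D n c => ⟨?_, hx.2 (some j, false, q, D, n) c⟩⟩⟩
  · have h3 := hx.2 (none, true, q, D, n) c
    show (q.1 : ℝ) - kxm E ((cooM ι q.2).cm m) D (V n) (W n) c x = q.1 - v (none, true, q, D, n) c
    rw [← h3]
    rfl
  · have h3 := hx.2 (some j, true, q, D, n) c
    show (q.1 : ℝ) - kxm E ((cooM ι q.2).cm m) D (V n) (W n) c (U.o (u j) (hu j) x) = q.1 - v (some j, true, q, D, n) c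
    rw [← h3]
    rfl

/-! ### the volumes of the members -/

section
variable {D : ℕ} {V W : ℕ → Pu K} {B : K.Pd} {C : KD M} (h : RbJ E m V W B C) {x : K.Ob S} (hx : B S x)
  {s : MSys S M E ι} (hs : Giv s (m.o x)) {n : ℕ} {A A' : Part S} (hA : ∀ᶠ k in UF, (V n).pt x k = A k)
  (hA' : ∀ᶠ k in UF, (W n).pt x k = A' k)

include h hx hs hA hA'

/-- volumes of the forms of K-labels in the coordinates `σ` -/
theorem RbJ.vol_ge (σ : Fin N → Fin M) {c : ℝ} {y : ∀ k, FD (S.F k) (Mon N D)} (hy : KFm (cos s σ) A A' c y) :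
    C.v ⟨N, σ⟩ D n c ≤ vol (cos s σ).Q D y := by
  rw [← (h S x hx ⟨N, σ⟩ D n c).1]
  exact kvm_le_vol ((cooM ι σ).cm m) (giv_cos hs σ) hA hA' hy

/-- THE VOLUME OF AN OPTIMAL K-FORM in the coordinates `σ` -/
theorem RbJ.vol_opt (σ : Fin N → Fin M) {c : ℝ} {z : ∀ k, FD (S.F k) (Mon N D)} (hz : KOpt (cos s σ) A A' c z) :
    vol (cos s σ).Q D z = C.v ⟨N, σ⟩ D n c := by
  rw [← (h S x hx ⟨N, σ⟩ D n c).1]
  exact kvm_kopt ((cooM ι σ).cm m) (giv_cos hs σ) hA hA' hz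

/-- optimal = the score is the constant -/
theorem RbJ.opt_iff (σ : Fin N → Fin M) {c : ℝ} {z : ∀ k, FD (S.F k) (Mon N D)} :
    KOpt (cos s σ) A A' c z ↔ KFm (cos s σ) A A' c z ∧
      ul (fun k => (z k).sc / (S.F k).n) = C.s ⟨N, σ⟩ D n c := by
  rw [← (h S x hx ⟨N, σ⟩ D n c).2]
  exact kxs_opt ((cooM ι σ).cm m) (giv_cos hs σ) hA hA'

end

end

end Pool.Agent.Helper52.GF
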