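import Pool.Agent.Helper52.GF.Rtc

/-! RIGHT CONTINUITY in the window of all values and informations of K-labels (no bound on `R`); the rates for real
windows from rational windows. -/

set_option autoImplicit false

namespace Pool.Agent.Helper52.GF

open Finset Filter Topology Matrix Pool.Agent.Helper69.RK Pool.Agent.Helper31.EC Pool.Agent.Helper31.EC.Sp
open Pool.Agent.Helper40.EL Pool.Agent.Helper89.LX Pool.Agent.Helper59.EV Pool.Agent.Helper49.MD
open Pool.Agent.Helper84.MT Pool.Agent.Helper3.LF Pool.Agent.Helper36.AM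
open Pool.Agent.Helper49.KL (LF)

noncomputable section

variable {S T : Sp} {M : ℕ} {E : ℕ → ℕ} {ι : Type} {K : FK} (m : Km K (KM M ι)) [Encodable ι]

/-- leaks at two windows -/
theorem leak_cdw {x : K.Ob S} (hx : isK E m S x) (V : Pu K) {c c' : ℝ} (hc : c ≤ c') {η : ℝ} (hη : 0 < η)
    (i : Option ι) : ∀ᶠ k in UF, ∀ l : FLab (S.F k), l.leak ((cdw m V c).cf x i k) ≤
      l.leak ((cdw m V c').cf x i k) + (E 0 * (c' - c) + η) * (S.F k).n := by
  obtain ⟨s, hs⟩ := hx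
  have hV : ∀ᶠ k in UF, V.pt x k = V.pt x k := Eventually.of_forall fun _ => rfl
  rcases i with _ | i
  · refine Eventually.of_forall fun k l => ?_
    have hn := (S.F k).pos
    have e : (cdw m V c).cf x none k = (cdw m V c').cf x none k := rfl
    rw [e]
    have h1 : 0 ≤ (E 0 * (c' - c) + η) * (S.F k).n := by
      have : (0 : ℝ) ≤ E 0 := Nat.cast_nonneg _
      have h2 : 0 ≤ (E 0 : ℝ) * (c' - c) := mul_nonneg this (by linarith)
      exact mul_nonneg (by linarith) hn.le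
    linarith
  · filter_upwards [giv_cdw m hs hV c (some i), giv_cdw m hs hV c' (some i), win_rate (s.lf i) c' c hη]
      with k a b d l
    rw [a, b]
    refine (l.leak_le_leak (scw s (V.pt x) c (some i) k) (scw s (V.pt x) c' (some i) k)).trans
      (add_le_add le_rfl (d.trans (mul_le_mul_of_nonneg_right (add_le_add ?_ le_rfl) (S.F k).pos.le)))
    rw [abs_of_nonneg (by linarith)]
    have e1 : ((s.lf i).e : ℝ) ≤ E 0 := by exact_mod_cast (s.lf i).he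
    exact mul_le_mul_of_nonneg_right e1 (by linarith)

/-- RIGHT CONTINUITY OF VALUES -/
theorem kvf_rc {J : Type} [Fintype J] [DecidableEq J] (G : Gk K (isK E m) J) (Vv : Vk K (isK E m) J G.C) (V : Pu K)
    (P : Rq K J) {x : K.Ob S} (hx : isK E m S x) (c : ℝ) {ε : ℝ} (hε : 0 < ε) :
    ∃ δ : ℝ, 0 < δ ∧ ∀ c', c ≤ c' → c' < c + δ →
      kvf G Vv (cdw m V c') P x ≤ kvf G Vv (cdw m V c) P x + ε := by
  by_contra hcon
  push Not at hcon
  have hE : (0 : ℝ) ≤ E 0 := Nat.cast_nonneg _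
  have h1 : ∀ j : ℕ, ∃ c' : ℝ, c ≤ c' ∧ c' < c + 1 / ((j : ℝ) + 1) / (2 * ((E 0 : ℝ) + 1)) ∧
      kvf G Vv (cdw m V c) P x + ε < kvf G Vv (cdw m V c') P x := by
    intro j
    obtain ⟨c', a, b, d⟩ := hcon (1 / ((j : ℝ) + 1) / (2 * ((E 0 : ℝ) + 1))) (by positivity)
    exact ⟨c', a, b, d⟩
  choose c' hc1 hc2 hlt using h1
  choose y hy hyv using fun j => kvf_attained (V := Vv) G (cdw m V (c' j)) P hx
  obtain ⟨z, I, hI, _, hz⟩ := dia' (X := fun k => FD (S.F k) J) y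
    (fun j k w => (P.P (S.F k) (x k) w ∧ G.Adk (cdw m V c) x (1 / ((j : ℝ) + 1)) k w) ∧
      kvf G Vv (cdw m V c) P x + ε ≤ Vv.v (S.F k) (x k) w) (by
      intro j
      have hj : (0 : ℝ) < 1 / ((j : ℝ) + 1) := by positivity
      have hj4 : (0 : ℝ) < 1 / ((j : ℝ) + 1) / 4 := by positivity
      have hlk := ev_used hj fun i => leak_cdw m hx V (hc1 j) hj4 i
      have hv : kvf G Vv (cdw m V c) P x + ε < ul (evv Vv x (y j)) := by
        rw [hyv j]
        exact hlt j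
      filter_upwards [Adk_ev G (cdw m V (c' j)) hx (hy j).1 hj4, hlk, (hy j).2,
        eventually_gt_of_lt_ul (ev_UB (V := Vv) G (cdw m V (c' j)) hx (hy j).1) hv] with k a b d e
      have hn := (S.F k).pos
      have h4 : (1 : ℝ) / ((j : ℝ) + 1) / 4 ≤ 1 / ((j : ℝ) + 1) := by linarith
      have h5 : 1 / ((j : ℝ) + 1) / 4 * (S.F k).n ≤ 1 / ((j : ℝ) + 1) * (S.F k).n :=
        mul_le_mul_of_nonneg_right h4 hn.le
      have h6 : (2 : ℝ) ^ (1 / ((j : ℝ) + 1) / 4 * (S.F k).n) ≤ 2 ^ (1 / ((j : ℝ) + 1) * (S.F k).n) :=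
        Real.rpow_le_rpow_of_exponent_le (by norm_num) h5
      obtain ⟨a1, a2, a3, a4⟩ := a
      refine ⟨⟨d, fun i hi => ?_, a2, ?_, ?_⟩, e.le⟩
      · refine (b i hi _).trans ?_
        have h7 := a1 i (Used.mono h4 hi)
        have h8 : (E 0 : ℝ) * (c' j - c) ≤ 1 / ((j : ℝ) + 1) / 2 := by
          have h9 : c' j - c ≤ 1 / ((j : ℝ) + 1) / (2 * ((E 0 : ℝ) + 1)) := by linarith [hc2 j]
          calc (E 0 : ℝ) * (c' j - c) ≤ ((E 0 : ℝ) + 1) * (1 / ((j : ℝ) + 1) / (2 * ((E 0 : ℝ) + 1))) := by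
                refine mul_le_mul (by linarith) h9 (by linarith [hc1 j]) (by linarith)
            _ = 1 / ((j : ℝ) + 1) / 2 := by
                field_simp
        have h9 := mul_le_mul_of_nonneg_right h8 hn.le
        have h10 : (E 0 * (c' j - c) + 1 / ((j : ℝ) + 1) / 4) * (S.F k).n =
          E 0 * (c' j - c) * (S.F k).n + 1 / ((j : ℝ) + 1) / 4 * (S.F k).n := by ring
        have h11 : 1 / ((j : ℝ) + 1) * (S.F k).n = 1 / ((j : ℝ) + 1) / 2 * (S.F k).n +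
          (1 / ((j : ℝ) + 1) / 4 * (S.F k).n + 1 / ((j : ℝ) + 1) / 4 * (S.F k).n) := by ring
        have h12 : (y j k).l.leak ((cdw m V (c' j)).c (S.F k) (x k) i) = (y j k).l.leak ((cdw m V (c' j)).cf x i k) :=
          rfl
        rw [h10, h11, ← h12]
        linarith
      · refine le_trans (FSp.pb_mono _ ?_) (a3.trans h4)
        intro ω _ h7 h8
        exact h7 (h8.trans h6)
      · refine le_trans (FSp.pb_mono _ ?_) (a4.trans h4)
        intro ω _ h7 h8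
        exact h7 (h8.trans h6))
  have hzA : G.AdcP (cdw m V c) P hx z := ⟨Adc_of G (cdw m V c) hx (inv_tendsto hI) (hz.mono fun k hk => hk.1.2),
    hz.mono fun k hk => hk.1.1⟩
  have h2 := ev_le_kvf (V := Vv) G (cdw m V c) P hx hzA
  have h3 := ul_mono (UB_const _) (ev_UB (V := Vv) G (cdw m V c) hx hzA.1) (hz.mono fun k hk => hk.2 :
    ∀ᶠ k in UF, kvf G Vv (cdw m V c) P x + ε ≤ evv Vv x z k)
  rw [ul_const] at h3
  linarith

section
variable {V W : Pu K} {x : K.Ob S} (hx : isK E m S x) (c : ℝ) {ε : ℝ} (hε : 0 < ε)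

include hx hε

/-- scores -/
theorem kxs_rc (D : ℕ) : ∃ δ : ℝ, 0 < δ ∧ ∀ c', c ≤ c' → c' < c + δ →
    kxs E m D V W c' x ≤ kxs E m D V W c x + ε :=
  kvf_rc m (kgk E m D) (scv K (isK E m) (Mon M D) (kgk E m D).C (kgk E m D).C0).vk V (kzq W).rq hx c hε

/-- exponents -/
theorem kxm_rc (D : ℕ) : ∃ δ : ℝ, 0 < δ ∧ ∀ c', c ≤ c' → c' < c + δ →
    kxm E m D V W c' x ≤ kxm E m D V W c x + ε :=
  kvf_rc m (kgk E m D) (kfv E m D).vk V (kzq W).rq hx c hε

/-- volumes -/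
theorem kvm_rc (D : ℕ) : ∃ δ : ℝ, 0 < δ ∧ ∀ c', c ≤ c' → c' < c + δ →
    kvm E m D V W c x - ε ≤ kvm E m D V W c' x := by
  obtain ⟨δ, h1, h2⟩ := kxm_rc m hx (V := V) (W := W) c hε D
  refine ⟨δ, h1, fun c' a b => ?_⟩
  have := h2 c' a b
  show (M : ℝ) - kxm E m D V W c x - ε ≤ M - kxm E m D V W c' x
  linarith

/-- informations -/
theorem kvi_rc (X : Pt K (isK E m)) : ∃ δ : ℝ, 0 < δ ∧ ∀ c', c ≤ c' → c' < c + δ →
    kvi m X V W c' x ≤ kvi m X V W c x + ε :=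
  kvf_rc m (G0 K (isK E m)) (X.vk (G0 K (isK E m)).C) V (kzq W).rq hx c hε

end

/-- limits from the right -/
theorem tendsto_of_rc {f : ℝ → ℝ} (hm : Monotone f) {c : ℝ}
    (h : ∀ ε : ℝ, 0 < ε → ∃ δ : ℝ, 0 < δ ∧ ∀ c', c ≤ c' → c' < c + δ → f c' ≤ f c + ε) {u : ℕ → ℝ}
    (hu : ∀ j, c ≤ u j) (ht : Tendsto u atTop (𝓝 c)) : Tendsto (fun j => f (u j)) atTop (𝓝 (f c)) := by
  rw [Metric.tendsto_nhds]
  intro ε hε
  obtain ⟨δ, hδ, h1⟩ := h (ε / 2) (by linarith)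
  filter_upwards [ht.eventually (gt_mem_nhds (show c < c + δ by linarith))] with j hj
  have h2 := h1 (u j) (hu j) hj
  have h3 := hm (hu j)
  rw [Real.dist_eq, abs_of_nonneg (by linarith)]
  linarith

/-! ### rates for real windows -/

/-- **THE RATES FOR ALL REAL WINDOWS follow from the rational windows**, if the bound `g` is monotone and continuous -/
theorem rate_real [Finite ι] {D : ℕ} {s : MSys S M E ι} {A : Part S} {R : ∀ k, Setoid (S.F k).Ω} {V W : Pu K}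
    {x : K.Ob S} (hs : Giv s (m.o x)) (hA : ∀ᶠ k in UF, V.pt x k = A k) (hR : ∀ᶠ k in UF, W.X (S.F k) (x k) = R k)
    {g : ℝ → ℝ} {b : ℝ} (hm : MonotoneOn g (Set.Ico 0 b)) (hg : ContinuousOn g (Set.Ico 0 b))
    (h : ∀ c c' : ℚ, (0 : ℝ) ≤ c → (c : ℝ) ≤ c' → (c' : ℝ) < b →
      Pool.Agent.Helper84.KR.Rt (gaq s.Q D) R (scw s A c) (scw s A c') (g c' - g c)) {c c' : ℝ} (h0 : 0 ≤ c)
    (h1 : c ≤ c') (h2 : c' < b) :
    Pool.Agent.Helper84.KR.Rt (gaq s.Q D) R (scw s A c) (scw s A c') (g c' - g c) := by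
  have hx : isK E m S x := ⟨s, hs⟩
  have h3 : ∀ j : ℕ, ∃ q : ℚ, (0 : ℝ) ≤ q ∧ (q : ℝ) ≤ c ∧ c - 1 / ((j : ℝ) + 1) ≤ q := by
    intro j
    have hj : (0 : ℝ) < 1 / ((j : ℝ) + 1) := by positivity
    rcases h0.eq_or_lt with e | e
    · exact ⟨0, by rw [Rat.cast_zero], by rw [Rat.cast_zero]; exact h0, by rw [Rat.cast_zero]; linarith⟩
    · obtain ⟨q, a1, a2⟩ := exists_rat_btwn (show max 0 (c - 1 / ((j : ℝ) + 1)) < c from
        max_lt e (by linarith))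
      exact ⟨q, (le_max_left _ _).trans a1.le, a2.le, (le_max_right _ _).trans a1.le⟩
  have h4 : ∀ j : ℕ, ∃ q : ℚ, c' ≤ q ∧ (q : ℝ) < b ∧ (q : ℝ) ≤ c' + 1 / ((j : ℝ) + 1) := by
    intro j
    have hj : (0 : ℝ) < 1 / ((j : ℝ) + 1) := by positivity
    obtain ⟨q, a1, a2⟩ := exists_rat_btwn (show c' < min b (c' + 1 / ((j : ℝ) + 1)) from
      lt_min h2 (by linarith))
    exact ⟨q, a1.le, a2.trans_le (min_le_left _ _), (a2.trans_le (min_le_right _ _)).le⟩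
  choose p p0 p1 p2 using h3
  choose q q0 q1 q2 using h4
  have t0 : Tendsto (fun j : ℕ => 1 / ((j : ℝ) + 1)) atTop (𝓝 0) := tendsto_one_div_add_atTop_nhds_zero_nat (𝕜 := ℝ)
  have tp : Tendsto (fun j => (p j : ℝ)) atTop (𝓝 c) := by
    have t := t0.const_sub c
    rw [sub_zero] at t
    exact tendsto_of_tendsto_of_tendsto_of_le_of_le t tendsto_const_nhds p2 p1
  have tq : Tendsto (fun j => (q j : ℝ)) atTop (𝓝 c') := by
    have t := t0.const_add c'
    rw [add_zero] at t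
    exact tendsto_of_tendsto_of_tendsto_of_le_of_le tendsto_const_nhds t q0 q2
  have hcI : c ∈ Set.Ico 0 b := ⟨h0, h1.trans_lt h2⟩
  have hcI' : c' ∈ Set.Ico 0 b := ⟨h0.trans h1, h2⟩
  have hpI : ∀ j, (p j : ℝ) ∈ Set.Ico 0 b := fun j => ⟨p0 j, ((p1 j).trans h1).trans_lt h2⟩
  have hqI : ∀ j, (q j : ℝ) ∈ Set.Ico 0 b := fun j => ⟨(h0.trans h1).trans (q0 j), q1 j⟩
  have tgp : Tendsto (fun j => g (p j)) atTop (𝓝 (g c)) :=
    (hg c hcI).tendsto.comp (tendsto_nhdsWithin_iff.mpr ⟨tp, Eventually.of_forall hpI⟩)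
  have tgq : Tendsto (fun j => g (q j)) atTop (𝓝 (g c')) :=
    (hg c' hcI').tendsto.comp (tendsto_nhdsWithin_iff.mpr ⟨tq, Eventually.of_forall hqI⟩)
  have hpq : ∀ j, (p j : ℝ) ≤ q j := fun j => ((p1 j).trans h1).trans (q0 j)
  refine (rt_giv m hs hA hR rfl (sub_nonneg.mpr (hm hcI hcI' h1))).mpr ?_
  refine rt_lim m hs (c := fun j => (p j : ℝ)) (c' := fun j => (q j : ℝ))
    (v := fun j => kxs E m D V W (q j) x) (r := fun j => g (q j) - g (p j)) p1 tq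
    (tendsto_of_rc (fun a a' haa => kxs_mono m D V W haa hx) (fun ε hε => kxs_rc m hx c' hε D) q0 tq)
    (tgq.sub tgp) fun j => ?_
  exact (rt_giv m hs hA hR rfl (sub_nonneg.mpr (hm (hpI j) (hqI j) (hpq j)))).mp (h (p j) (q j) (p0 j) (hpq j) (q1 j))

end

end Pool.Agent.Helper52.GF
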