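import Pool.Agent.Helper52.GF.Prk
import Pool.Agent.Helper52.GF.Uni
import Pool.Agent.Helper49.KL.Rig

/-! RIGIDITY IN ROBUST CLASSES: the literal canonical K-form of a member is canonical on every event of every extension;
literal universal K-labels are universal on every event. -/

set_option autoImplicit false

namespace Pool.Agent.Helper52.GF

open Finset Filter Topology Matrix Pool.Agent.Helper69.RK Pool.Agent.Helper31.EC Pool.Agent.Helper31.EC.Sp
open Pool.Agent.Helper40.EL Pool.Agent.Helper89.LX Pool.Agent.Helper59.EV Pool.Agent.Helper49.MD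
open Pool.Agent.Helper84.MT Pool.Agent.Helper3.LF Pool.Agent.Helper36.AM
open Pool.Agent.Helper49.KL (LF)

noncomputable section

variable {S T : Sp} {M : ℕ} {E : ℕ → ℕ} {ι : Type} {K : FK} {m : Km K (KM M ι)}

/-- attached partitions on events of extensions -/
theorem pu_im_pt (W : Pu K) {x : K.Ob S} (p : Pj T S) (G : ∀ k, (T.F k).Ω → Prop) {A : Part S}
    (hA : ∀ᶠ k in UF, W.pt x k = A k) : ∀ᶠ k in UF, W.pt (K.imo x p G) k = A.im p G k := by
  filter_upwards [hA] with k hk
  have h1 : W.pt (K.imo x p G) k = FSp.imap (p.fp k) (G k) (W.pt x k) := W.fc_im (p.fp k) (G k) (x k)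
  rw [h1, hk]
  rfl

/-- systems on events of extensions -/
theorem giv_imo {s : MSys S M E ι} {x : K.Ob S} (h : Giv s (m.o x)) (p : Pj T S) (G : ∀ k, (T.F k).Ω → Prop)
    (hG : 0 < ul (T.pr G)) : Giv (s.im p G hG) (m.o (K.imo x p G)) := by
  rw [m.o_imo]
  exact ⟨h.1.mono fun k hk => hk, fun i => (h.2 i).mono fun k hk => hk⟩

theorem scw_im (s : MSys S M E ι) (A : Part S) (c : ℝ) (p : Pj T S) (G : ∀ k, (T.F k).Ω → Prop)
    (hG : 0 < ul (T.pr G)) (i : Option ι) : scw (s.im p G hG) (A.im p G) c i = (scw s A c i).im p G := by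
  cases i <;> rfl

variable [Encodable ι] {Y : ℕ → Pt K (isK E m)} {V W : ℕ → Pu K} {C : KC M} {B : K.Pd} {D : ℕ}

section
variable [Finite ι] (hI : ImCl B) (h : RbK m Y V W B C) {x : K.Ob S} (hx : B S x) {s : MSys S M E ι}
  (hs : Giv s (m.o x)) {n : ℕ} {A : Part S} {R : ∀ k, Setoid (S.F k).Ω} (hA : ∀ᶠ k in UF, (V n).pt x k = A k)
  (hR : ∀ᶠ k in UF, (W n).pt x k = fc (R k)) {c : ℝ}

include hI h hx hs hA hR

/-- K-forms on events have scores at most the constant -/
theorem rb_sc_le {p : Pj T S} {G : ∀ k, (T.F k).Ω → Prop} (hG : 0 < ul (T.pr G))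
    {y : ∀ k, FD ((Sp.im p G).F k) (Mon M D)}
    (hy : ((gaq s.Q D).im p G).AdfK (LC.kz (S := Sp.im p G) fun k => fc (F := (Sp.im p G).F k) (R k))
      (fun i => (scw s A c i).im p G) y) : ul (fun k => (y k).sc / (S.F k).n) ≤ C.s D n c := by
  have hx' := hI S x hx T p G hG
  have hs' := giv_imo hs p G hG
  have hA' := pu_im_pt (V n) p G hA
  have hR' := pu_im_pt (W n) p G hR
  rw [← (h _ _ hx').ps D n c]
  refine sc_le_kxs m hs' hA' hR' ?_
  refine KFm_iff.mpr ⟨?_, hy.2⟩
  have e : scw (s.im p G hG) (A.im p G) c = fun i => (scw s A c i).im p G :=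
    funext fun i => scw_im s A c p G hG i
  rw [e]
  exact hy.1

/-- RIGIDITY, forms: the literal canonical K-form of a member of a robust class is canonical on every event of every
extension -/
theorem rb_rig {L : LF S (Mon M D)} (hL : (gaq s.Q D).OptfK (LC.kz fun k => fc (R k)) (scw s A c) L.fd)
    {p : Pj T S} {G : ∀ k, (T.F k).Ω → Prop} (hG : 0 < ul (T.pr G)) :
    ((gaq s.Q D).im p G).OptfK (LC.kz (S := Sp.im p G) fun k => fc (F := (Sp.im p G).F k) (R k))
      (fun i => (scw s A c i).im p G) (L.im p G).fd ∧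
      ul (fun k => ((L.im p G).fd k).sc / (S.F k).n) = ul (fun k => (L.fd k).sc / (S.F k).n) := by
  have e : ul (fun k => (L.fd k).sc / (S.F k).n) = C.s D n c :=
    (((h S x hx).opt_iff hs hA hR).mp (KOpt_iff.mpr hL)).2
  refine LF.im_optK hL hG (fun y hy => ?_) fun h2 y hy => ?_
  · rw [e]
    exact rb_sc_le hI h hx hs hA hR hG hy
  · rw [e]
    exact rb_sc_le hI h hx hs hA hR h2 hy

/-- the same over the restricted system -/
theorem rb_rig' {L : LF S (Mon M D)} (hL : (gaq s.Q D).OptfK (LC.kz fun k => fc (R k)) (scw s A c) L.fd)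
    {p : Pj T S} {G : ∀ k, (T.F k).Ω → Prop} (hG : 0 < ul (T.pr G)) :
    (gaq (s.im p G hG).Q D).OptfK (LC.kz (S := Sp.im p G) fun k => fc (F := (Sp.im p G).F k) (R k))
      (scw (s.im p G hG) (A.im p G) c) (L.im p G).fd := by
  have e : scw (s.im p G hG) (A.im p G) c = fun i => (scw s A c i).im p G :=
    funext fun i => scw_im s A c p G hG i
  rw [e]
  exact (rb_rig hI h hx hs hA hR hL hG).1

end

end

end Pool.Agent.Helper52.GF
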