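import Pool.Agent.Helper52.GF.Rtf
import Pool.Agent.Helper52.GF.Pfx

/-! ROBUST RATES: in a subclass of a robust class the rates of the optimal literal K-forms are constant; the literal pairs
which attain the rate keep it on every event; the rates for all real windows follow from rational windows. -/

set_option autoImplicit false

namespace Pool.Agent.Helper52.GF

open Finset Filter Topology Matrix Pool.Agent.Helper69.RK Pool.Agent.Helper31.EC Pool.Agent.Helper31.EC.Sp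
open Pool.Agent.Helper40.EL Pool.Agent.Helper89.LX Pool.Agent.Helper59.EV Pool.Agent.Helper49.MD
open Pool.Agent.Helper84.MT Pool.Agent.Helper3.LF Pool.Agent.Helper36.AM
open Pool.Agent.Helper49.KL (LF)
open Pool.Agent.Helper84.KR (FLF Litv Rt RtF rt_iff)

noncomputable section

variable {S T : Sp} {M : ℕ} {E : ℕ → ℕ} {ι : Type} {K : FK} (m : Km K (KM M ι)) [Encodable ι]

/-! ### robust rates -/

/-- ROBUST RATES at the pairs of windows `u j` -/
def RbT (E : ℕ → ℕ) (m : Km K (KM M ι)) (V W : ℕ → Pu K) (C : KC M) (u : ℕ → ℝ × ℝ) (cap : ℝ) (B : K.Pd)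
    (ρ : ℕ → ℕ → ℕ → ℝ) : Prop := ∀ S x, B S x → ∀ D n j : ℕ,
      krt E m D (V n) (W n) (u j).1 (u j).2 (C.s D n (u j).2) cap (S := S) x = ρ D n j

theorem RbT.sub {V W : ℕ → Pu K} {C : KC M} {u : ℕ → ℝ × ℝ} {cap : ℝ} {B B' : K.Pd} {ρ : ℕ → ℕ → ℕ → ℝ}
    (h : RbT E m V W C u cap B ρ) (hB : ∀ S x, B' S x → B S x) : RbT E m V W C u cap B' ρ :=
  fun S x hx => h S x (hB S x hx)

/-- EXISTENCE -/
theorem stage_t [Finite ι] {B : K.Pd} (hC : Cls B) {Y : ℕ → Pt K (isK E m)} {V W : ℕ → Pu K} {C : KC M}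
    (h : RbK m Y V W B C) (u : ℕ → ℝ × ℝ) {cap : ℝ} (h0 : 0 ≤ cap) :
    ∃ B' : K.Pd, Cls B' ∧ (∀ S x, B' S x → B S x) ∧ ∃ ρ : ℕ → ℕ → ℕ → ℝ, RbT E m V W C u cap B' ρ := by
  have hM : ∀ S x, B S x → isK E m S x := fun S x hx => (h S x hx).mem
  obtain ⟨v, hv⟩ := stage' hC (B := B) (fun _ _ hx => hx) (ι := ℕ × ℕ × ℕ) (fun q =>
    krtF m hC.im hM q.1 (V q.2.1) (W q.2.1) (u q.2.2).1 (u q.2.2).2 (C.s q.1 q.2.1 (u q.2.2).2)
      (fun S x hx => (h S x hx).ps q.1 q.2.1 (u q.2.2).2) cap h0)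
  refine ⟨_, hv, fun S x hx => hx.1, fun D n j => cap - v (D, n, j), fun S x hx D n j => ?_⟩
  have h1 : cap - krt E m D (V n) (W n) (u j).1 (u j).2 (C.s D n (u j).2) cap x = v (D, n, j) := hx.2 (D, n, j)
  linarith

/-! ### literal pairs of the members -/

section
variable [Finite ι] {B : K.Pd} {Y : ℕ → Pt K (isK E m)} {V W : ℕ → Pu K} {C : KC M} {u : ℕ → ℝ × ℝ} {cap : ℝ}
  {ρ : ℕ → ℕ → ℕ → ℝ} (hI : ImCl B) (h : RbK m Y V W B C) (ht : RbT E m V W C u cap B ρ) (h0 : 0 ≤ cap)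
  {x : K.Ob S} (hx : B S x) {s : MSys S M E ι} (hs : Giv s (m.o x)) {n : ℕ} {A : Part S}
  {R : ∀ k, Setoid (S.F k).Ω} (hA : ∀ᶠ k in UF, (V n).pt x k = A k)
  (hR : ∀ᶠ k in UF, (W n).X (S.F k) (x k) = R k) {D j : ℕ}

include h ht h0 hx hs hA hR

/-- the constant is attained -/
theorem RbT.exists_rt (hj : ρ D n j < cap) : Rt (gaq s.Q D) R (scw s A (u j).1) (scw s A (u j).2) (ρ D n j) := by
  have h1 := ht S x hx D n j
  have h2 : krt E m D (V n) (W n) (u j).1 (u j).2 (C.s D n (u j).2) cap x < cap := by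
    rw [h1]
    exact hj
  have h3 := krt_mem m h0 h2
  rw [h1] at h3
  exact (rt_giv m hs hA hR ((h S x hx).ps D n (u j).2) h3.1).mpr h3

/-- the constant is the least rate -/
theorem RbT.le_of_rt {r : ℝ} (hr : 0 ≤ r) (hr' : Rt (gaq s.Q D) R (scw s A (u j).1) (scw s A (u j).2) r) :
    ρ D n j ≤ r := by
  rw [← ht S x hx D n j]
  exact krt_le m h0 ((rt_giv m hs hA hR ((h S x hx).ps D n (u j).2) hr).mp hr')

include hI

/-- THE LITERAL PAIRS WHICH ATTAIN THE RATE attain it on every event of every extension -/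
theorem RbT.im_cd {Z : ∀ k, Setoid (S.F k).Ω} {L : LF S (Mon M D)} (h1 : Litv R Z)
    (h2 : (Lab.ofZ Z).DMf (scw s A (u j).1)) (h3 : Litv R L.Z)
    (h4 : (gaq s.Q D).OptfK (LC.kz fun k => fc (R k)) (scw s A (u j).2) L.fd)
    (h5 : Pool.Agent.Helper84.KR.Cd L.Z Z (ρ D n j)) {p : Pj T S} {G : ∀ k, (T.F k).Ω → Prop}
    (hG : 0 < ul (T.pr G)) : Pool.Agent.Helper84.KR.Cd (S := Sp.im p G) L.Z Z (ρ D n j) := by
  have key : ∀ {G : ∀ k, (T.F k).Ω → Prop}, 0 < ul (T.pr G) →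
      ρ D n j ≤ ul (fun k => him p G L.Z Z k / (S.F k).n) := by
    intro G hG
    rw [← ht _ _ (hI S x hx T p G hG) D n j]
    exact rt_imo m hI (fun S x hx => (h S x hx).ps D n (u j).2) hx hs hA hR h1 h2 h3 h4 h5 h0 hG
  have e1 : ul (T.pr G) ≤ 1 := ul_le_const (UB_pr G) (Eventually.of_forall fun k => pr_le_one G k)
  have hle : ul (fun k => him p G L.Z Z k / (S.F k).n) ≤ ρ D n j := by
    rcases e1.eq_or_lt with e | e
    · have b := him_lim (p := p) h5 hG
      rw [e, one_mul] at b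
      exact b
    · have hG' : 0 < ul (T.pr fun k ω => ¬ G k ω) := by
        rw [ul_not]
        linarith
      have b := him_lim2 (p := p) h5 hG hG'
      have b2 := mul_le_mul_of_nonneg_left (key hG') (show 0 ≤ 1 - ul (T.pr G) by linarith)
      have b3 : ul (T.pr G) * ul (fun k => him p G L.Z Z k / (S.F k).n) ≤ ul (T.pr G) * ρ D n j := by linarith
      exact le_of_mul_le_mul_left b3 hG
  intro ε hε
  have t := ul_tendsto (him_UB (p := p) h5 hG)
  filter_upwards [t.eventually (gt_mem_nhds (show ul (fun k => him p G L.Z Z k / (S.F k).n) < ρ D n j + ε by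
    linarith))] with k hk
  rw [div_lt_iff₀ (S.F k).pos] at hk
  exact hk.le

end

/-! ### real windows -/

/-- windows of a type of leaves at two levels -/
theorem win_rate {Q : S.VV M} (l : Leaf S Q E) (a a' : ℝ) {η : ℝ} (hη : 0 < η) :
    ∀ᶠ k in UF, Pool.Agent.Helper31.EC.h (l.win a k) (l.win a' k) ≤ (l.e * |a - a'| + η) * (S.F k).n := by
  filter_upwards [sub_rate l.Y (id : Fin l.e → Fin l.e) a a' hη] with k hk
  rw [Fintype.card_fin] at hk
  refine le_trans ?_ hk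
  have e : ∀ b : ℝ, l.win b k = fc (l.La k) ⊔ fc (Setoid.ker (l.Y.cellv b k)) := fun b => fc_inf _ _
  rw [e, e]
  have h1 := h_sup_le (fc (l.La k)) (fc (Setoid.ker (l.Y.cellv a k)))
    (fc (l.La k) ⊔ fc (Setoid.ker (l.Y.cellv a' k)))
  have h2 : Pool.Agent.Helper31.EC.h (fc (l.La k)) (fc (l.La k) ⊔ fc (Setoid.ker (l.Y.cellv a' k))) = 0 :=
    h_zero le_sup_left
  have h3 : Pool.Agent.Helper31.EC.h (fc (Setoid.ker (l.Y.cellv a k)))
      (fc (l.La k) ⊔ fc (Setoid.ker (l.Y.cellv a' k))) ≤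
      Pool.Agent.Helper31.EC.h (fc (Setoid.ker (l.Y.cellv a k))) (fc (Setoid.ker (l.Y.cellv a' k))) :=
    h_anti le_sup_right
  have h4 : Pool.Agent.Helper31.EC.h (fc (Setoid.ker (l.Y.cellv a k))) (fc (Setoid.ker (l.Y.cellv a' k))) =
      Pool.Agent.Helper31.EC.h (fc (Setoid.ker fun ω (j : Fin l.e) => l.Y.cellv a k ω (id j)))
        (fc (Setoid.ker fun ω (j : Fin l.e) => l.Y.cellv a' k ω (id j))) := rfl
  rw [← h4]
  linarith

/-- triangle inequality -/
theorem h_tri3 {F : FSp} (x y z : FL F) : Pool.Agent.Helper31.EC.h x z ≤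
    Pool.Agent.Helper31.EC.h x y + Pool.Agent.Helper31.EC.h y z := by
  have h1 : Pool.Agent.Helper31.EC.h x z ≤ Pool.Agent.Helper31.EC.h (y ⊔ x) z := h_mono le_sup_right
  have h2 := h_chain y x z
  have h3 : Pool.Agent.Helper31.EC.h x (y ⊔ z) ≤ Pool.Agent.Helper31.EC.h x y := h_anti le_sup_left
  linarith

/-- RATES AT LIMITS OF WINDOWS: bases with windows `c j ≤ c₀`, forms with windows `c' j → c₀'` whose scores converge to
the score of the limit window -/
theorem rt_lim [Finite ι] {D : ℕ} {V W : Pu K} {x : K.Ob S} {s : MSys S M E ι} (hs : Giv s (m.o x)) {c₀ c₀' v₀ r₀ : ℝ}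
    {c c' v r : ℕ → ℝ} (hc : ∀ j, c j ≤ c₀) (hc' : Tendsto c' atTop (𝓝 c₀')) (hv : Tendsto v atTop (𝓝 v₀))
    (hr : Tendsto r atTop (𝓝 r₀)) (h : ∀ j, r j ∈ rtS E m D V W (c j) (c' j) (v j) x) :
    r₀ ∈ rtS E m D V W c₀ c₀' v₀ x := by
  refine ⟨ge_of_tendsto' hr fun j => (h j).1, fun δ hδ => ?_⟩
  have h4 : (0 : ℝ) < δ / 4 := by linarith
  have h2 : (0 : ℝ) < δ / 2 := by linarith
  have hE : (0 : ℝ) < E 0 + 1 := by positivity
  have t1 : Tendsto (fun j => (E 0 + 1) * |c' j - c₀'|) atTop (𝓝 0) := by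
    have t := (hc'.sub_const c₀').abs.const_mul ((E 0 : ℝ) + 1)
    rw [sub_self, abs_zero, mul_zero] at t
    exact t
  obtain ⟨j, ⟨j1, j2⟩, j3⟩ := (((t1.eventually (gt_mem_nhds h4)).and
    (hv.eventually (Metric.ball_mem_nhds _ h2))).and (hr.eventually (Metric.ball_mem_nhds _ h2))).exists
  have j2' := abs_lt.mp (show |v j - v₀| < δ / 2 from j2)
  have j3' := abs_lt.mp (show |r j - r₀| < δ / 2 from j3)
  have g1 := rtK_giv (E := E) (D := D) m (V := V) (W := W) (c := c j) (c' := c' j) (v := v j) hs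
    (A := V.pt x) (R := fun k => W.X (S.F k) (x k)) (Eventually.of_forall fun _ => rfl) (Eventually.of_forall fun _ => rfl)
  have g2 := rtK_giv (E := E) (D := D) m (V := V) (W := W) (c := c₀) (c' := c₀') (v := v₀) hs
    (A := V.pt x) (R := fun k => W.X (S.F k) (x k)) (Eventually.of_forall fun _ => rfl) (Eventually.of_forall fun _ => rfl)
  have w1 : ∀ᶠ k in UF, ∀ i, Pool.Agent.Helper31.EC.h ((s.lf i).win (c j) k) ((s.lf i).win c₀ k) ≤
      δ / 4 * (S.F k).n := by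
    refine eventually_all.mpr fun i => ?_
    have t : Tendsto (fun k => Pool.Agent.Helper31.EC.h ((s.lf i).win (c j) k) ((s.lf i).win c₀ k) / (S.F k).n) UF
        (𝓝 0) := (s.lf i).win_mono (hc j)
    filter_upwards [t.eventually (gt_mem_nhds h4)] with k hk
    rw [div_lt_iff₀ (S.F k).pos] at hk
    exact hk.le
  have w2 : ∀ᶠ k in UF, ∀ i, Pool.Agent.Helper31.EC.h ((s.lf i).win (c' j) k) ((s.lf i).win c₀' k) ≤
      (δ / 4 + δ / 4) * (S.F k).n := by
    refine eventually_all.mpr fun i => ?_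
    filter_upwards [win_rate (s.lf i) (c' j) c₀' h4] with k hk
    refine hk.trans (mul_le_mul_of_nonneg_right (add_le_add ?_ le_rfl) (S.F k).pos.le)
    have e1 : ((s.lf i).e : ℝ) ≤ E 0 + 1 := by
      have := (s.lf i).he
      have h5 : ((s.lf i).e : ℝ) ≤ E 0 := by exact_mod_cast this
      linarith
    exact (mul_le_mul_of_nonneg_right e1 (abs_nonneg _)).trans j1.le
  filter_upwards [(h j).2 (δ / 4) h4, g1, g2, w1, w2] with k a b1 b2 d1 d2
  obtain ⟨Z, f, a1, a2, a3, a4, a5, a6, a7, a8⟩ := (b1 _ _).mp a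
  refine (b2 _ _).mpr ⟨Z, f, a1, fun i => ?_, a3, fun i => ?_, a5, ?_, by linarith, ?_⟩
  · have hn := (S.F k).pos
    rcases i with _ | i
    · have a' := a2 none
      have e : δ / 4 * (S.F k).n ≤ δ * (S.F k).n := mul_le_mul_of_nonneg_right (by linarith) hn.le
      exact a'.trans e
    · have a' := a2 (some i)
      have b' := d1 i
      have e : δ / 4 * (S.F k).n + δ / 4 * (S.F k).n ≤ δ * (S.F k).n := by
        rw [← add_mul]
        exact mul_le_mul_of_nonneg_right (by linarith) hn.le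
      exact (h_tri3 (fc Z) ((s.lf i).win (c j) k) ((s.lf i).win c₀ k)).trans ((add_le_add a' b').trans e)
  · have hn := (S.F k).pos
    rcases i with _ | i
    · have a' := a4 none
      have e : δ / 4 * (S.F k).n ≤ δ * (S.F k).n := mul_le_mul_of_nonneg_right (by linarith) hn.le
      exact a'.trans e
    · have a' := a4 (some i)
      have b' := d2 i
      have e : δ / 4 * (S.F k).n + (δ / 4 + δ / 4) * (S.F k).n ≤ δ * (S.F k).n := by
        rw [← add_mul]
        exact mul_le_mul_of_nonneg_right (by linarith) hn.le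
      exact (h_tri3 (fc f.Z) ((s.lf i).win (c' j) k) ((s.lf i).win c₀' k)).trans ((add_le_add a' b').trans e)
  · have hn := (S.F k).pos
    have e : δ / 4 * (S.F k).n ≤ δ * (S.F k).n := mul_le_mul_of_nonneg_right (by linarith) hn.le
    have e5 : (2 : ℝ) ^ (δ / 4 * (S.F k).n) ≤ 2 ^ (δ * (S.F k).n) :=
      Real.rpow_le_rpow_of_exponent_le (by norm_num) e
    refine le_trans ((S.F k).pb_mono ?_) (a6.trans (by linarith))
    intro ω _ h6 h7
    exact h6 (h7.trans e5)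
  · have hn := (S.F k).pos
    refine a8.trans (mul_le_mul_of_nonneg_right ?_ hn.le)
    linarith

end

end Pool.Agent.Helper52.GF
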