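import Pool.Agent.Helper52.GF.Rig2
import Pool.Agent.Helper52.GF.Kv
import Pool.Agent.Helper84.KR.Rate2

/-! THE RATE OF THE OPTIMAL LITERAL K-FORM OVER THE K-LABELS OF ANOTHER WINDOW as a functional of robust classes: it is
attained, lsc along diagonals, its mean over an event and its complement is at most the value. -/

set_option autoImplicit false

namespace Pool.Agent.Helper52.GF

open Finset Filter Topology Matrix Pool.Agent.Helper69.RK Pool.Agent.Helper31.EC Pool.Agent.Helper31.EC.Sp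
open Pool.Agent.Helper40.EL Pool.Agent.Helper89.LX Pool.Agent.Helper59.EV Pool.Agent.Helper49.MD
open Pool.Agent.Helper84.MT Pool.Agent.Helper3.LF Pool.Agent.Helper36.AM
open Pool.Agent.Helper49.KL (LF)
open Pool.Agent.Helper84.KR (FLF Litv Rt RtF rt_iff)

noncomputable section

variable {S T : Sp}

/-! ### conditional entropies of literal partitions on events -/

section
variable (p : Pj T S) (G : ∀ k, (T.F k).Ω → Prop)

/-- the conditional entropy of literal partitions on an event -/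
def him (P Z : ∀ k, Setoid (S.F k).Ω) (k : ℕ) : ℝ :=
  h (fc (F := (Sp.im p G).F k) (P k)) (fc (F := (Sp.im p G).F k) (Z k))

theorem him_nonneg (P Z : ∀ k, Setoid (S.F k).Ω) (k : ℕ) : 0 ≤ him p G P Z k := h_nonneg _ _

theorem him_split (P Z : ∀ k, Setoid (S.F k).Ω) (k : ℕ) :
    (T.F k).pb (G k) * him p G P Z k + (1 - (T.F k).pb (G k)) * him p (fun k ω => ¬ G k ω) P Z k ≤
      h (fc (P k) : FL (S.F k)) (fc (Z k)) :=
  (h_im_split (p.fp k) (G k) (fc (P k)) (fc (Z k))).1

variable {p G}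

theorem him_le {P Z : ∀ k, Setoid (S.F k).Ω} (k : ℕ) :
    (T.F k).pb (G k) * him p G P Z k ≤ h (fc (P k) : FL (S.F k)) (fc (Z k)) := by
  have h1 := him_split p G P Z k
  have h2 := him_nonneg p (fun k ω => ¬ G k ω) P Z k
  have h3 : (T.F k).pb (G k) ≤ 1 := pr_le_one G k
  have h4 := mul_nonneg (show 0 ≤ 1 - (T.F k).pb (G k) by linarith) h2
  linarith

theorem him_UB {P Z : ∀ k, Setoid (S.F k).Ω} {r : ℝ} (hc : Pool.Agent.Helper84.KR.Cd P Z r)
    (hG : 0 < ul (T.pr G)) : UB (fun k => him p G P Z k / (S.F k).n) := by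
  have t := ul_tendsto (UB_pr G)
  have h1 := t.eventually (lt_mem_nhds (show ul (T.pr G) / 2 < ul (T.pr G) by linarith))
  have hp : 0 < ul (T.pr G) / 2 := by linarith
  refine UB_of_nonneg_le (C := |r + 1| / (ul (T.pr G) / 2))
    (Eventually.of_forall fun k => div_nonneg (him_nonneg p G P Z k) (S.F k).pos.le) ?_
  filter_upwards [h1, hc 1 one_pos] with k a b
  have hn := (S.F k).pos
  have c1 : ul (T.pr G) / 2 < (T.F k).pb (G k) := a
  have c2 := him_le (p := p) (G := G) (P := P) (Z := Z) k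
  have c3 := him_nonneg p G P Z k
  have c4 : ul (T.pr G) / 2 * him p G P Z k ≤ (T.F k).pb (G k) * him p G P Z k :=
    mul_le_mul_of_nonneg_right c1.le c3
  have c5 : (r + 1) * (S.F k).n ≤ |r + 1| * (S.F k).n := mul_le_mul_of_nonneg_right (le_abs_self _) hn.le
  rw [div_le_div_iff₀ hn hp]
  calc him p G P Z k * (ul (T.pr G) / 2) = ul (T.pr G) / 2 * him p G P Z k := mul_comm _ _
    _ ≤ |r + 1| * (S.F k).n := by linarith

/-- limits of conditional entropies on an event -/
theorem him_lim {P Z : ∀ k, Setoid (S.F k).Ω} {r : ℝ} (hc : Pool.Agent.Helper84.KR.Cd P Z r) (hG : 0 < ul (T.pr G)) :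
    ul (T.pr G) * ul (fun k => him p G P Z k / (S.F k).n) ≤ r := by
  have t := (ul_tendsto (UB_pr G)).mul (ul_tendsto (him_UB (p := p) hc hG))
  refine le_of_forall_pos_le_add fun ε hε => le_of_tendsto t ?_
  filter_upwards [hc ε hε] with k hk
  have hn := (S.F k).pos
  rw [mul_div_assoc', div_le_iff₀ hn]
  exact (him_le (p := p) (G := G) (P := P) (Z := Z) k).trans hk

/-- limits of conditional entropies on an event and its complement -/
theorem him_lim2 {P Z : ∀ k, Setoid (S.F k).Ω} {r : ℝ} (hc : Pool.Agent.Helper84.KR.Cd P Z r) (hG : 0 < ul (T.pr G))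
    (hG' : 0 < ul (T.pr fun k ω => ¬ G k ω)) :
    ul (T.pr G) * ul (fun k => him p G P Z k / (S.F k).n) +
      (1 - ul (T.pr G)) * ul (fun k => him p (fun k ω => ¬ G k ω) P Z k / (S.F k).n) ≤ r := by
  have tG := ul_tendsto (UB_pr G)
  have t := (tG.mul (ul_tendsto (him_UB (p := p) hc hG))).add
    ((tG.const_sub 1).mul (ul_tendsto (him_UB (p := p) hc hG')))
  refine le_of_forall_pos_le_add fun ε hε => le_of_tendsto t ?_
  filter_upwards [hc ε hε] with k hk
  have hn := (S.F k).pos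
  have h1 := (him_split p G P Z k).trans hk
  have h2 : T.pr G k * (him p G P Z k / (S.F k).n) + (1 - T.pr G k) * (him p (fun k ω => ¬ G k ω) P Z k / (S.F k).n) =
      ((T.F k).pb (G k) * him p G P Z k + (1 - (T.F k).pb (G k)) * him p (fun k ω => ¬ G k ω) P Z k) / (S.F k).n := by
    show (T.F k).pb (G k) * (him p G P Z k / (S.F k).n) +
      (1 - (T.F k).pb (G k)) * (him p (fun k ω => ¬ G k ω) P Z k / (S.F k).n) = _
    ring
  rw [h2, div_le_iff₀ hn]
  exact h1

/-- literal K-labels on events -/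
theorem dmf_imo {κ : Type} {A : κ → Part S} {Z : ∀ k, Setoid (S.F k).Ω} (h : (Lab.ofZ Z).DMf A)
    (hG : 0 < ul (T.pr G)) : (Lab.ofZ (S := Sp.im p G) Z).DMf fun i => (A i).im p G := by
  refine (Lab.ofZ_DMf (S := Sp.im p G) Z).mpr fun i => ?_
  have h1 := (Lab.ofZ_DMf Z).mp h i
  have t := ul_tendsto (UB_pr G)
  have hp : 0 < ul (T.pr G) / 2 := by linarith
  have h2 := t.eventually (lt_mem_nhds (show ul (T.pr G) / 2 < ul (T.pr G) by linarith))
  have t1 : Tendsto (fun k => Pool.Agent.Helper31.EC.h (fc (Z k)) (A i k) / (S.F k).n) UF (𝓝 0) := h1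
  have t2 := t1.div_const (ul (T.pr G) / 2)
  rw [zero_div] at t2
  refine tendsto_of_tendsto_of_tendsto_of_le_of_le' tendsto_const_nhds t2
    (Eventually.of_forall fun k => div_nonneg (h_nonneg _ _) ((Sp.im p G).F k).pos.le) ?_
  filter_upwards [h2] with k a
  have hn := (S.F k).pos
  have c1 : ul (T.pr G) / 2 < (T.F k).pb (G k) := a
  have c2 := (h_im_split (p.fp k) (G k) (fc (Z k)) (A i k)).1
  have c3 : 0 ≤ Pool.Agent.Helper31.EC.h (FSp.imap (p.fp k) (fun ω => ¬ G k ω) (fc (Z k)))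
    (FSp.imap (p.fp k) (fun ω => ¬ G k ω) (A i k)) := h_nonneg _ _
  have c4 : (T.F k).pb (G k) ≤ 1 := pr_le_one G k
  have c5 := mul_nonneg (show 0 ≤ 1 - (T.F k).pb (G k) by linarith) c3
  have c6 : 0 ≤ Pool.Agent.Helper31.EC.h (FSp.imap (p.fp k) (G k) (fc (Z k))) (FSp.imap (p.fp k) (G k) (A i k)) :=
    h_nonneg _ _
  have c7 := mul_le_mul_of_nonneg_right c1.le c6
  show Pool.Agent.Helper31.EC.h (FSp.imap (p.fp k) (G k) (fc (Z k))) (FSp.imap (p.fp k) (G k) (A i k)) / (S.F k).n ≤ _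
  rw [div_div, div_le_div_iff₀ hn (mul_pos hn hp)]
  have c8 : Pool.Agent.Helper31.EC.h (FSp.imap (p.fp k) (G k) (fc (Z k))) (FSp.imap (p.fp k) (G k) (A i k)) *
      (ul (T.pr G) / 2) ≤ Pool.Agent.Helper31.EC.h (fc (Z k)) (A i k) := by linarith
  calc Pool.Agent.Helper31.EC.h (FSp.imap (p.fp k) (G k) (fc (Z k))) (FSp.imap (p.fp k) (G k) (A i k)) *
      ((S.F k).n * (ul (T.pr G) / 2)) = (Pool.Agent.Helper31.EC.h (FSp.imap (p.fp k) (G k) (fc (Z k)))
        (FSp.imap (p.fp k) (G k) (A i k)) * (ul (T.pr G) / 2)) * (S.F k).n := by ring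
    _ ≤ Pool.Agent.Helper31.EC.h (fc (Z k)) (A i k) * (S.F k).n := mul_le_mul_of_nonneg_right c8 hn.le

end

/-! ### the functional -/

variable {M : ℕ} {E : ℕ → ℕ} {ι : Type} {K : FK} (m : Km K (KM M ι)) [Encodable ι]

section
variable (E) (D : ℕ)

/-- the finite predicate -/
def rtK (V W : Pu K) (c c' v r δ : ℝ) (F : FSp) (x : K.X F) : Prop :=
  RtF F ((kgk E m D).φ F x) (2 ^ (((kgk E m D).C + 1) * F.n)) (W.X F x) (fun i => (cdw m V c).c F x i)
    (fun i => (cdw m V c').c F x i) v r δ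

/-- the rates -/
def rtS (V W : Pu K) (c c' v : ℝ) {S : Sp} (x : K.Ob S) : Set ℝ :=
  {r | 0 ≤ r ∧ ∀ δ : ℝ, 0 < δ → ∀ᶠ k in UF, rtK E m D V W c c' v r δ (S.F k) (x k)}

/-- THE RATE, capped -/
def krt (V W : Pu K) (c c' v cap : ℝ) {S : Sp} (x : K.Ob S) : ℝ := sInf (insert cap (rtS E m D V W c c' v x))

end

section
variable {D : ℕ} {V W : Pu K} {c c' v cap : ℝ} {x : K.Ob S}

theorem rt_bdd (h0 : 0 ≤ cap) : BddBelow (insert cap (rtS E m D V W c c' v x)) :=
  ⟨0, by
    rintro r (rfl | hr)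
    · exact h0
    · exact hr.1⟩

theorem krt_nonneg (h0 : 0 ≤ cap) : 0 ≤ krt E m D V W c c' v cap x := by
  refine le_csInf ⟨cap, Set.mem_insert _ _⟩ ?_
  rintro r (rfl | hr)
  · exact h0
  · exact hr.1

theorem krt_le_cap (h0 : 0 ≤ cap) : krt E m D V W c c' v cap x ≤ cap :=
  csInf_le (rt_bdd m h0) (Set.mem_insert _ _)

theorem krt_le (h0 : 0 ≤ cap) {r : ℝ} (hr : r ∈ rtS E m D V W c c' v x) : krt E m D V W c c' v cap x ≤ r :=
  csInf_le (rt_bdd m h0) (Set.mem_insert_of_mem _ hr)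

theorem rtK_mono {F : FSp} {x : K.X F} {r r' δ δ' : ℝ} (h : rtK E m D V W c c' v r δ F x) (h1 : δ ≤ δ')
    (h3 : r + δ ≤ r' + δ') : rtK E m D V W c c' v r' δ' F x := RtF.mono h h1 (by linarith) h3

/-- the rate is attained below the cap -/
theorem krt_mem (h0 : 0 ≤ cap) (h : krt E m D V W c c' v cap x < cap) :
    krt E m D V W c c' v cap x ∈ rtS E m D V W c c' v x := by
  refine ⟨krt_nonneg m h0, fun δ hδ => ?_⟩
  obtain ⟨r, hr, hr'⟩ := exists_lt_of_csInf_lt ⟨cap, Set.mem_insert _ _⟩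
    (show sInf (insert cap (rtS E m D V W c c' v x)) < min cap (krt E m D V W c c' v cap x + δ / 2) from
      lt_min h (by
        show krt E m D V W c c' v cap x < krt E m D V W c c' v cap x + δ / 2
        linarith))
  rcases hr with rfl | hr
  · exact absurd hr' (not_lt.mpr (min_le_left _ _))
  · have h2 : r < krt E m D V W c c' v cap x + δ / 2 := hr'.trans_le (min_le_right _ _)
    filter_upwards [hr.2 (δ / 2) (by linarith)] with k hk
    exact rtK_mono m hk (by linarith) (by linarith)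

theorem rtS_up {r r' : ℝ} (hr : r ∈ rtS E m D V W c c' v x) (h : r ≤ r') : r' ∈ rtS E m D V W c c' v x :=
  ⟨hr.1.trans h, fun δ hδ => (hr.2 δ hδ).mono fun _ hk => rtK_mono m hk le_rfl (by linarith)⟩

theorem krt_le_iff (h0 : 0 ≤ cap) {r : ℝ} (hr : r < cap) :
    krt E m D V W c c' v cap x ≤ r ↔ r ∈ rtS E m D V W c c' v x :=
  ⟨fun h => rtS_up m (krt_mem m h0 (h.trans_lt hr)) h, fun h => krt_le m h0 h⟩

theorem krt_ev {y : K.Ob S} (e : ∀ᶠ k in UF, x k = y k) :
    krt E m D V W c c' v cap y = krt E m D V W c c' v cap x := by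
  have h1 : rtS E m D V W c c' v y = rtS E m D V W c c' v x := by
    ext r
    constructor
    · rintro ⟨a, b⟩
      refine ⟨a, fun δ hδ => ?_⟩
      filter_upwards [b δ hδ, e] with k hk hk'
      rw [hk']
      exact hk
    · rintro ⟨a, b⟩
      refine ⟨a, fun δ hδ => ?_⟩
      filter_upwards [b δ hδ, e] with k hk hk'
      rw [← hk']
      exact hk
  unfold krt
  rw [h1]

end

/-- lsc along diagonals -/
theorem krt_usc (B : K.Pd) (D : ℕ) (V W : Pu K) (c c' v : ℝ) {cap : ℝ} (h0 : 0 ≤ cap) :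
    DiagUsc B fun _ x => cap - krt E m D V W c c' v cap x := by
  intro S x _
  refine ⟨fun i j k => krt E m D V W c c' v cap (x j) < cap →
    rtK E m D V W c c' v (krt E m D V W c c' v cap (x j)) (1 / ((i : ℝ) + 1)) ((S j).F k) (x j k), fun i j => ?_,
    fun J hJ => ?_⟩
  · by_cases h1 : krt E m D V W c c' v cap (x j) < cap
    · exact ((krt_mem m h0 h1).2 _ (by positivity)).mono fun _ hk _ => hk
    · exact Eventually.of_forall fun _ h2 => absurd h2 h1
  · set g : ℕ → ℝ := fun k => krt E m D V W c c' v cap (x (J k)) with hg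
    have ug : UB g := UB_of_nonneg_le (Eventually.of_forall fun k => krt_nonneg m h0)
      (Eventually.of_forall fun k => krt_le_cap m h0)
    have tg := ul_tendsto ug
    have e1 : ul (fun k => cap - krt E m D V W c c' v cap (x (J k))) = cap - ul g := ul_eq (tg.const_sub cap)
    rw [e1]
    have key : krt E m D V W c c' v cap (K.dgo S x J hJ.lim) ≤ ul g := by
      rcases le_or_gt cap (ul g) with h2 | h2
      · exact (krt_le_cap m h0).trans h2
      · refine krt_le m h0 ⟨ge_of_tendsto' tg fun k => krt_nonneg m h0, fun δ hδ => ?_⟩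
        obtain ⟨i, hi⟩ := exists_index (half_pos hδ)
        filter_upwards [hJ.slow i, tg.eventually (gt_mem_nhds h2),
          tg.eventually (gt_mem_nhds (show ul g < ul g + δ / 2 by linarith))] with k a b d
        exact rtK_mono (E := E) m (F := (S (J k)).F k) (x := x (J k) k) (a b) (by linarith) (by
          show g k + 1 / ((i : ℝ) + 1) ≤ ul g + δ
          linarith)
    linarith

/-! ### pairs of literal labels -/

section pairs
variable {D : ℕ} {V W : Pu K} {c c' v : ℝ} {x : K.Ob S} {s : MSys S M E ι} [Finite ι]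

/-- the finite predicate for the data of the system -/
theorem rtK_giv (hs : Giv s (m.o x)) {A : Part S} {R : ∀ k, Setoid (S.F k).Ω} (hA : ∀ᶠ k in UF, V.pt x k = A k)
    (hR : ∀ᶠ k in UF, W.X (S.F k) (x k) = R k) : ∀ᶠ k in UF, ∀ r δ, rtK E m D V W c c' v r δ (S.F k) (x k) ↔
      RtF (S.F k) ((gaq s.Q D).φ k) ((gaq s.Q D).cp k) (R k) (fun i => scw s A c i k) (fun i => scw s A c' i k) v r δ := by
  have h1 : ∀ᶠ k in UF, ∀ i, (cdw m V c).cf x i k = scw s A c i k := eventually_all.mpr fun i => giv_cdw m hs hA c i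
  have h2 : ∀ᶠ k in UF, ∀ i, (cdw m V c').cf x i k = scw s A c' i k := eventually_all.mpr fun i => giv_cdw m hs hA c' i
  filter_upwards [h1, h2, hR, gk_phi (D := D) hs (show isMc M E ι S (m.o x) from ⟨s, hs⟩)] with k a b d e r δ
  have e1 : (fun i => (cdw m V c).c (S.F k) (x k) i) = fun i => scw s A c i k := funext a
  have e2 : (fun i => (cdw m V c').c (S.F k) (x k) i) = fun i => scw s A c' i k := funext b
  have e3 : (kgk E m D).φ (S.F k) (x k) = (gaq s.Q D).φ k := e
  unfold rtK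
  rw [e1, e2, d, e3]
  exact Iff.rfl

/-- THE RATE OF 84 in terms of the finite predicate -/
theorem rt_giv (hs : Giv s (m.o x)) {A : Part S} {R : ∀ k, Setoid (S.F k).Ω} (hA : ∀ᶠ k in UF, V.pt x k = A k)
    (hR : ∀ᶠ k in UF, W.X (S.F k) (x k) = R k) (hv : kxs E m D V W c' x = v) {r : ℝ} (hr : 0 ≤ r) :
    Rt (gaq s.Q D) R (scw s A c) (scw s A c') r ↔ r ∈ rtS E m D V W c c' v x := by
  have hR' : ∀ᶠ k in UF, W.pt x k = fc (R k) := hR.mono fun k e => by
    show fc (W.X (S.F k) (x k)) = fc (R k)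
    rw [e]
  obtain ⟨z, hz, hz'⟩ := kxs_attained m hs D hA hR' c'
  have h1 := rt_iff (A := scw s A c) (r := r) (KOpt_iff.mp hz)
  have e : ul (fun k => (z k).sc / (S.F k).n) = v := hz'.trans hv
  rw [e] at h1
  rw [h1]
  have h2 := rtK_giv (E := E) (D := D) m (V := V) (W := W) (c := c) (c' := c') (v := v) hs hA hR
  constructor
  · intro h
    refine ⟨hr, fun δ hδ => ?_⟩
    filter_upwards [h δ hδ, h2] with k a b
    exact (b r δ).mpr a
  · rintro ⟨_, h⟩ δ hδ
    filter_upwards [h δ hδ, h2] with k a b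
    exact (b r δ).mp a

/-- RIGIDITY of literal optimal K-forms in a class with constant scores -/
theorem rig_kxs {B : K.Pd} (hI : ImCl B) (hv : ∀ S x, B S x → kxs E m D V W c x = v) {x : K.Ob S} (hx : B S x)
    (hs : Giv s (m.o x)) {A : Part S} {R : ∀ k, Setoid (S.F k).Ω} (hA : ∀ᶠ k in UF, V.pt x k = A k)
    (hR : ∀ᶠ k in UF, W.pt x k = fc (R k)) {L : LF S (Mon M D)}
    (hL : (gaq s.Q D).OptfK (LC.kz fun k => fc (R k)) (scw s A c) L.fd) {p : Pj T S} {G : ∀ k, (T.F k).Ω → Prop}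
    (hG : 0 < ul (T.pr G)) :
    (gaq (s.im p G hG).Q D).OptfK (LC.kz (S := Sp.im p G) fun k => fc (F := (Sp.im p G).F k) (R k))
      (scw (s.im p G hG) (A.im p G) c) (L.im p G).fd := by
  have key : ∀ {G : ∀ k, (T.F k).Ω → Prop} (hG : 0 < ul (T.pr G)) (y : ∀ k, FD ((Sp.im p G).F k) (Mon M D)),
      ((gaq s.Q D).im p G).AdfK (LC.kz (S := Sp.im p G) fun k => fc (F := (Sp.im p G).F k) (R k))
      (fun i => (scw s A c i).im p G) y → ul (fun k => (y k).sc / (S.F k).n) ≤ v := by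
    intro G hG y hy
    rw [← hv _ _ (hI S x hx T p G hG)]
    refine sc_le_kxs m (giv_imo hs p G hG) (pu_im_pt V p G hA) (pu_im_pt W p G hR) ?_
    refine KFm_iff.mpr ⟨?_, hy.2⟩
    have e : scw (s.im p G hG) (A.im p G) c = fun i => (scw s A c i).im p G :=
      funext fun i => scw_im s A c p G hG i
    rw [e]
    exact hy.1
  have e : ul (fun k => (L.fd k).sc / (S.F k).n) = v :=
    (((kxs_opt m hs hA hR).mp (KOpt_iff.mpr hL)).2).trans (hv S x hx)
  have e2 : scw (s.im p G hG) (A.im p G) c = fun i => (scw s A c i).im p G :=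
    funext fun i => scw_im s A c p G hG i
  rw [e2]
  refine (LF.im_optK hL hG (fun y hy => ?_) fun h2 y hy => ?_).1
  · rw [e]
    exact key hG y hy
  · rw [e]
    exact key h2 y hy

/-- LITERAL PAIRS ON EVENTS -/
theorem rt_imo {B : K.Pd} (hI : ImCl B) (hv : ∀ S x, B S x → kxs E m D V W c' x = v) {x : K.Ob S} (hx : B S x)
    (hs : Giv s (m.o x)) {A : Part S} {R : ∀ k, Setoid (S.F k).Ω} (hA : ∀ᶠ k in UF, V.pt x k = A k)
    (hR : ∀ᶠ k in UF, W.X (S.F k) (x k) = R k) {Z : ∀ k, Setoid (S.F k).Ω} {L : LF S (Mon M D)} {r : ℝ}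
    (h1 : Litv R Z) (h2 : (Lab.ofZ Z).DMf (scw s A c)) (h3 : Litv R L.Z)
    (h4 : (gaq s.Q D).OptfK (LC.kz fun k => fc (R k)) (scw s A c') L.fd) (h5 : Pool.Agent.Helper84.KR.Cd L.Z Z r)
    {cap : ℝ} (h0 : 0 ≤ cap) {p : Pj T S} {G : ∀ k, (T.F k).Ω → Prop} (hG : 0 < ul (T.pr G)) :
    krt E m D V W c c' v cap (K.imo x p G) ≤ ul (fun k => him p G L.Z Z k / (S.F k).n) := by
  have ub := him_UB (p := p) h5 hG
  have t := ul_tendsto ub
  have hR' : ∀ᶠ k in UF, W.pt x k = fc (R k) := hR.mono fun k e => by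
    show fc (W.X (S.F k) (x k)) = fc (R k)
    rw [e]
  refine krt_le m h0 ?_
  have hRi : ∀ᶠ k in UF, W.X ((Sp.im p G).F k) (K.imo x p G k) = R k := by
    filter_upwards [hR] with k hk
    have e1 : W.X ((Sp.im p G).F k) (K.imo x p G k) = W.X (S.F k) (x k) := W.im (S.F k) (T.F k) (p.fp k) (G k) (x k)
    exact e1.trans hk
  refine (rt_giv m (giv_imo hs p G hG) (pu_im_pt V p G hA) hRi (hv _ _ (hI S x hx T p G hG))
    (ge_of_tendsto' t fun k => div_nonneg (him_nonneg p G L.Z Z k) (S.F k).pos.le)).mp ?_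
  refine ⟨Z, L.im p G, h1, ?_, h3, rig_kxs m hI hv hx hs hA hR' h4 hG, ?_⟩
  · have e : scw (s.im p G hG) (A.im p G) c = fun i => (scw s A c i).im p G :=
      funext fun i => scw_im s A c p G hG i
    rw [e]
    exact dmf_imo h2 hG
  · intro ε hε
    filter_upwards [t.eventually (gt_mem_nhds (show ul (fun k => him p G L.Z Z k / (S.F k).n) <
      ul (fun k => him p G L.Z Z k / (S.F k).n) + ε by linarith))] with k hk
    rw [div_lt_iff₀ (S.F k).pos] at hk
    exact hk.le

/-- MEANS OF RATES over an event and its complement -/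
theorem krt_spl {B : K.Pd} (hI : ImCl B) (hM : ∀ S x, B S x → isK E m S x)
    (hv : ∀ S x, B S x → kxs E m D V W c' x = v) {x : K.Ob S} (hx : B S x)
    {cap : ℝ} (h0 : 0 ≤ cap) (p : Pj T S) (G : ∀ k, (T.F k).Ω → Prop) (hG : 0 < ul (T.pr G))
    (hG' : 0 < ul (T.pr fun k ω => ¬ G k ω)) :
    ul (T.pr G) * krt E m D V W c c' v cap (K.imo x p G) +
      (1 - ul (T.pr G)) * krt E m D V W c c' v cap (K.imo x p fun k ω => ¬ G k ω) ≤ krt E m D V W c c' v cap x := by
  have e0 : 0 ≤ ul (T.pr G) := hG.le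
  have e1 : 0 ≤ 1 - ul (T.pr G) := by
    rw [← ul_not]
    exact hG'.le
  rcases lt_or_ge (krt E m D V W c c' v cap x) cap with h | h
  · obtain ⟨s, hs⟩ := hM S x hx
    have hr := krt_mem m h0 h
    obtain ⟨Z, L, a1, a2, a3, a4, a5⟩ := (rt_giv m hs (Eventually.of_forall fun _ => rfl)
      (Eventually.of_forall fun _ => rfl) (hv S x hx) hr.1).mpr hr
    have b1 := rt_imo m hI hv hx hs (Eventually.of_forall fun _ => rfl) (Eventually.of_forall fun _ => rfl)
      a1 a2 a3 a4 a5 h0 (p := p) hG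
    have b2 := rt_imo m hI hv hx hs (Eventually.of_forall fun _ => rfl) (Eventually.of_forall fun _ => rfl)
      a1 a2 a3 a4 a5 h0 (p := p) hG'
    have b3 := him_lim2 (p := p) a5 hG hG'
    have b4 := mul_le_mul_of_nonneg_left b1 e0
    have b5 := mul_le_mul_of_nonneg_left b2 e1
    linarith
  · have b1 : krt E m D V W c c' v cap (K.imo x p G) ≤ cap := krt_le_cap m h0
    have b2 : krt E m D V W c c' v cap (K.imo x p fun k ω => ¬ G k ω) ≤ cap := krt_le_cap m h0
    have b4 := mul_le_mul_of_nonneg_left b1 e0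
    have b5 := mul_le_mul_of_nonneg_left b2 e1
    linarith

/-- rates on typical events -/
theorem krt_typ {B : K.Pd} (hI : ImCl B) (hM : ∀ S x, B S x → isK E m S x)
    (hv : ∀ S x, B S x → kxs E m D V W c' x = v) {x : K.Ob S} (hx : B S x)
    {cap : ℝ} (h0 : 0 ≤ cap) (p : Pj T S) {G : ∀ k, (T.F k).Ω → Prop} (hG : Typ G) :
    krt E m D V W c c' v cap (K.imo x p G) ≤ krt E m D V W c c' v cap x := by
  have e1 : ul (T.pr G) = 1 := ul_eq ((Typ_iff G).mp hG)
  have hG0 : 0 < ul (T.pr G) := by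
    rw [e1]
    exact one_pos
  rcases lt_or_ge (krt E m D V W c c' v cap x) cap with h | h
  · obtain ⟨s, hs⟩ := hM S x hx
    have hr := krt_mem m h0 h
    obtain ⟨Z, L, a1, a2, a3, a4, a5⟩ := (rt_giv m hs (Eventually.of_forall fun _ => rfl)
      (Eventually.of_forall fun _ => rfl) (hv S x hx) hr.1).mpr hr
    have b1 := rt_imo m hI hv hx hs (Eventually.of_forall fun _ => rfl) (Eventually.of_forall fun _ => rfl)
      a1 a2 a3 a4 a5 h0 (p := p) hG0
    have b3 := him_lim (p := p) a5 hG0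
    rw [e1, one_mul] at b3
    exact b1.trans b3
  · exact (krt_le_cap m h0).trans h

/-- THE FUNCTIONAL `cap - rate` of a class with constant scores -/
def krtF {B : K.Pd} (hI : ImCl B) (hM : ∀ S x, B S x → isK E m S x) (D : ℕ) (V W : Pu K) (c c' v : ℝ)
    (hv : ∀ S x, B S x → kxs E m D V W c' x = v) (cap : ℝ) (h0 : 0 ≤ cap) : Fnl B where
  f := fun _ x => cap - krt E m D V W c c' v cap x
  M := cap
  nn := fun _ _ _ => sub_nonneg.mpr (krt_le_cap m h0)
  le := fun _ _ _ => sub_le_self _ (krt_nonneg m h0)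
  ev := fun _ _ _ _ e => by rw [krt_ev m e]
  usc := krt_usc m B D V W c c' v h0
  spl := fun S x hx T p G hG hG' => by
    have h1 := krt_spl m hI hM hv (c := c) hx h0 p G hG hG'
    have e : ul (T.pr G) * (cap - krt E m D V W c c' v cap (K.imo x p G)) +
        (1 - ul (T.pr G)) * (cap - krt E m D V W c c' v cap (K.imo x p fun k ω => ¬ G k ω)) =
        cap - (ul (T.pr G) * krt E m D V W c c' v cap (K.imo x p G) +
          (1 - ul (T.pr G)) * krt E m D V W c c' v cap (K.imo x p fun k ω => ¬ G k ω)) := by ring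
    rw [e]
    linarith
  typ := fun S x hx T p G hG => by
    have h1 := krt_typ m hI hM hv (c := c) hx h0 p hG
    linarith

end pairs

end

end Pool.Agent.Helper52.GF
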