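import Pool.Agent.Helper52.GF.Rob

/-! ROBUST CLASSES, level of systems (finitely many types): a class `TT` of systems whose lift is closed under slow
diagonals and restrictions has a robust subclass. -/

set_option autoImplicit false

namespace Pool.Agent.Helper52.GF

open Finset Filter Topology Matrix Pool.Agent.Helper69.RK Pool.Agent.Helper31.EC Pool.Agent.Helper31.EC.Sp
open Pool.Agent.Helper40.EL Pool.Agent.Helper89.LX Pool.Agent.Helper59.EV Pool.Agent.Helper49.MD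
open Pool.Agent.Helper84.MT Pool.Agent.Helper36.AM Pool.Agent.Helper3.LF

noncomputable section

variable {S T : Sp} {M : ℕ} {E : ℕ → ℕ} {ι : Type}

/-- the members of `TT` whose objects are in `C` -/
def cutT (TT : ∀ S : Sp, MSys S M E ι → Prop) (C : (KM M ι).Pd) : ∀ S : Sp, MSys S M E ι → Prop :=
  fun S s => TT S s ∧ C S (ob s)

theorem lft_cutT {TT : ∀ S : Sp, MSys S M E ι → Prop} {C : (KM M ι).Pd} (hC : Inv C)
    (h : ∀ S x, C S x → lft TT S x) : lft (cutT TT C) = C := by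
  funext S x
  apply propext
  constructor
  · rintro ⟨s, e, _, hs⟩
    exact hC S (ob s) x e hs
  · intro hx
    obtain ⟨s, e, hs⟩ := h S x hx
    exact ⟨s, e, hs, hC S x (ob s) (e.mono fun _ hk => hk.symm) hx⟩

/-- closed under restrictions, level of systems -/
theorem cutT_im {TT : ∀ S : Sp, MSys S M E ι → Prop} {C : (KM M ι).Pd} (hC : ImCl C)
    (h : ∀ S s, TT S s → ∀ (T : Sp) (p : Pj T S) (A : ∀ k, (T.F k).Ω → Prop) (hA : 0 < ul (T.pr A)),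
      TT (Sp.im p A) (s.im p A hA)) (S : Sp) (s : MSys S M E ι) (hs : cutT TT C S s) (T : Sp) (p : Pj T S)
    (A : ∀ k, (T.F k).Ω → Prop) (hA : 0 < ul (T.pr A)) : cutT TT C (Sp.im p A) (s.im p A hA) :=
  ⟨h S s hs.1 T p A hA, hC S (ob s) hs.2 T p A hA⟩

/-- ROBUST SUBCLASS of a class of systems -/
theorem robust_tt [Encodable ι] {TT : ∀ S : Sp, MSys S M E ι → Prop} (hT : Cls (lft TT)) (R : ℕ → ℝ) :
    ∃ C : (KM M ι).Pd, Cls C ∧ (∀ S x, C S x → lft TT S x) ∧ lft (cutT TT C) = C ∧ Nonempty (Rbc C E R) := by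
  obtain ⟨C, h1, h2, h3⟩ := exists_robust hT (fun S x hx => isM_isMc (lft_isM hx)) R
  exact ⟨C, h1, h2, lft_cutT h1.ev h2, h3⟩

section
variable [Encodable ι] [Finite ι] {TT : ∀ S : Sp, MSys S M E ι → Prop} {C : (KM M ι).Pd}

/-- CONSTANTS OF A ROBUST CLASS OF SYSTEMS: all windows `c`, all levels -/
theorem tt_const (h : Rbc C E fun _ => 1) :
    ∃ (i : ℝ → ℝ) (hq : ℝ → ℝ) (v : ℕ → ℝ → ℝ) (hc : Fin M → ℝ → ℝ → ℝ → ℝ) (hs : Set (Fin M) → ℝ → ℝ → ℝ)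
      (hl : ℝ → ℝ → ℝ), ∀ (S : Sp) (s : MSys S M E ι), C S (ob s) → ∀ c : ℝ, HQ s c = hq c ∧ (∀ D, s.vol D c = v D c) ∧
      volO s c = (⨅ D : ℕ, v D c) ∧ ∀ l : Lab S, s.IsKap c l → l.info = i c ∧
      (∀ z a b, Tendsto (fun k => Pool.Agent.Helper31.EC.h ((l k).p.map (cel2 s.Q z a b k)) (l k).v / (S.F k).n) UF
        (𝓝 (hc z a b c))) ∧
      (∀ J r, Tendsto (fun k => Pool.Agent.Helper31.EC.h ((l k).p.map (fc (Setoid.ker fun ω (j : {j // j ∈ J}) =>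
        s.Q.cellv r k ω j.1))) (l k).v / (S.F k).n) UF (𝓝 (hs J r c))) ∧
      (∀ r, Tendsto (fun k => Pool.Agent.Helper31.EC.h ((l k).p.map (pcr s.Q r k)) (l k).v / (S.F k).n) UF
        (𝓝 (hl r c))) := by
  refine ⟨fun c => h.a 0 (Sum.inr none) (1, 0) c, fun c => h.H 0 (Sum.inr none) (1, 0) c, fun D c => h.v D 0 c,
    fun z a b c => h.H 0 (Sum.inr (some z)) (a, b) c, fun J r c => h.H 0 (Sum.inl J) (r, 0) c,
    fun r c => h.H 0 (Sum.inr none) (r, 0) c, fun S s hs c => ?_⟩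
  have hg := Giv_ob s
  refine ⟨h.HQ hg hs (n := 0) rfl c, fun D => h.vol hg hs (n := 0) rfl D c, h.volO hg hs (n := 0) rfl c,
    fun l hl => ?_⟩
  have hl' : l.IsMaxf (scn s ((fun _ : ℕ => (1 : ℝ)) 0) c) := by
    show l.IsMaxf (scn s 1 c)
    rw [scn_fun]
    exact hl
  exact ⟨h.info hg hs hl', fun z a b => h.cel2 hg hs hl' z a b, fun J r => h.sub_cell hg hs hl' J r,
    fun r => h.cell hg hs hl' r⟩

end

/-- THE DIAGONAL OF LABELS `kappa_c` IS A LABEL `kappa_c`, systems -/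
theorem kap_lim [Encodable ι] [Finite ι] {C : (KM M ι).Pd} (h : Rbc C E fun _ => 1) (hC : DiagCl C) {S : ℕ → Sp}
    {s : ∀ j, MSys (S j) M E ι} (hs : ∀ j, C (S j) (ob (s j))) (c : ℝ) {l : ∀ j, Lab (S j)}
    (hl : ∀ j, (s j).IsKap c (l j)) :
    ∃ Q : ℕ → ℕ → ℕ → Prop, (∀ i j, ∀ᶠ k in UF, Q i j k) ∧ ∀ (J : ℕ → ℕ) (hJ : Slo S Q J)
      (t : MSys (dsp S J hJ.lim) M E ι), (∀ᶠ k in UF, ob t k = ob (s (J k)) k) → t.IsKap c (dlab l J hJ.lim) := by
  obtain ⟨Q, hQ, h1⟩ := kap_dg h hC hs (fun j => Giv_ob (s j)) 0 c (l := l) (fun j => by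
    show (l j).IsMaxf (scn (s j) 1 c)
    rw [scn_fun]
    exact hl j)
  refine ⟨Q, hQ, fun J hJ t ht => ?_⟩
  have h2 := h1 J hJ t (giv_iff.mpr ht)
  have h3 : scn t ((fun _ : ℕ => (1 : ℝ)) 0) c = t.cnd c := scn_fun t c
  rw [h3] at h2
  exact h2

end

end Pool.Agent.Helper52.GF
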