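import Pool.Agent.Helper52.GF.Kz
import Pool.Agent.Helper42.NS.Fnl

/-! CHANGES OF THE UNIT (truncations) of functionals of objects of a kind. -/

set_option autoImplicit false

namespace Pool.Agent.Helper52.GF

open Finset Filter Topology Matrix Pool.Agent.Helper69.RK Pool.Agent.Helper31.EC Pool.Agent.Helper31.EC.Sp
open Pool.Agent.Helper40.EL Pool.Agent.Helper49.MD
open Pool.Agent.Helper42.NS (ptr ptu unt)

noncomputable section

/-- the projection of the finite spaces with the changed unit -/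
def fpu {T F : FSp} (p : FPj T F) (e : ℝ) (he : 0 < e) : FPj (T.chg ⊤ e he) (F.chg ⊤ e he) where
  π := p.π
  law := p.law
  hZ := fun ω ω' h h' => ⟨fun g => ⟨trivial, (p.hZ ω ω' h h').mp g.2⟩, fun g => ⟨trivial, (p.hZ ω ω' h h').mpr g.2⟩⟩

/-- CHANGES OF THE UNIT of finite data of a kind -/
structure Ku (K : FK) where
  u : ∀ (F : FSp) (e : ℝ) (he : 0 < e), K.X F → K.X (F.chg ⊤ e he)
  im : ∀ (F T : FSp) (p : FPj T F) (E : T.Ω → Prop) (e : ℝ) (he : 0 < e) (x : K.X F),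
    u (FSp.im p E) e he (K.im p E x) = K.im (fpu p e he) E (u F e he x)

variable {K : FK} (U : Ku K) (e : ℝ) (he : 0 < e)

/-- the object with the changed unit -/
def Ku.o {S : Sp} (x : K.Ob S) : K.Ob (S.chg S.tr e he) := fun k => U.u (S.F k) e he (x k)

theorem Ku.o_imo {S T : Sp} (x : K.Ob S) (p : Pj T S) (E : ∀ k, (T.F k).Ω → Prop) :
    U.o e he (K.imo x p E) = K.imo (U.o e he x) (ptr p e he) E :=
  funext fun k => U.im (S.F k) (T.F k) (p.fp k) (E k) e he (x k)

theorem Ku.f_imo {B : K.Pd} (Φ : Fnl B) {S T : Sp} (x : K.Ob S) (p : Pj T S) (E : ∀ k, (T.F k).Ω → Prop) :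
    Φ.f ((Sp.im p E).chg (Sp.im p E).tr e he) (U.o e he (K.imo x p E)) =
      Φ.f (Sp.im (ptr p e he) E) (K.imo (U.o e he x) (ptr p e he) E) :=
  congrArg (fun z : K.Ob (Sp.im (ptr p e he) E) => Φ.f (Sp.im (ptr p e he) E) z) (U.o_imo e he x p E)

/-- the class is closed under changes of the unit -/
def UnCl (B : K.Pd) : Prop := ∀ (S : Sp) (x : K.Ob S), B S x → B (S.chg S.tr e he) (U.o e he x)

/-- THE FUNCTIONAL OF THE TRUNCATION -/
def fnlU {B : K.Pd} (hB : UnCl U e he B) (Φ : Fnl B) : Fnl B where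
  f := fun S x => Φ.f (S.chg S.tr e he) (U.o e he x)
  M := Φ.M
  nn := fun S x hx => Φ.nn _ _ (hB S x hx)
  le := fun S x hx => Φ.le _ _ (hB S x hx)
  ev := fun S x y hx hxy => Φ.ev _ (U.o e he x) (U.o e he y) (hB S x hx) (by
    filter_upwards [hxy] with k hk
    show U.u (S.F k) e he (x k) = U.u (S.F k) e he (y k)
    rw [hk])
  usc := by
    intro S x hx
    obtain ⟨E, hE, h1⟩ := Φ.usc (fun j => (S j).chg (S j).tr e he) (fun j => U.o e he (x j)) fun j => hB _ _ (hx j)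
    exact ⟨E, hE, fun J hd => h1 J ⟨hd.tend, hd.lim.const_mul_atTop he, hd.slow⟩⟩
  spl := by
    intro S x hx T p E hE hE'
    exact (Φ.spl _ (U.o e he x) (hB S x hx) _ (ptr p e he) E hE hE').trans (le_of_eq
      (congrArg₂ (fun a b => ul (T.pr E) * a + (1 - ul (T.pr E)) * b) (U.f_imo e he Φ x p E).symm
        (U.f_imo e he Φ x p fun k ω => ¬ E k ω).symm))
  typ := by
    intro S x hx T p E ht
    exact (Φ.typ _ (U.o e he x) (hB S x hx) _ (ptr p e he) E ht).trans_eq (U.f_imo e he Φ x p E).symm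

theorem fnlU_f {B : K.Pd} (hB : UnCl U e he B) (Φ : Fnl B) (S : Sp) (x : K.Ob S) :
    (fnlU U e he hB Φ).f S x = Φ.f (S.chg S.tr e he) (U.o e he x) := rfl

end

end Pool.Agent.Helper52.GF
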