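import Pool.Agent.Helper52.GF.Ms
import Pool.Agent.Helper14.MC.Vopt
import Pool.Agent.Helper49.MD.Canc

/-! FUNCTIONALS OF SYSTEMS OF LEAVES (countably many types): the volume of the hull of `kappa_c` in the degree `D`. -/

set_option autoImplicit false

namespace Pool.Agent.Helper52.GF

open Finset Filter Topology Matrix Pool.Agent.Helper69.RK Pool.Agent.Helper31.EC Pool.Agent.Helper31.EC.Sp
open Pool.Agent.Helper40.EL Pool.Agent.Helper89.LX Pool.Agent.Helper59.EV Pool.Agent.Helper49.MD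
open Pool.Agent.Helper84.MT Pool.Agent.Helper36.AM Pool.Agent.Helper3.LF
open Pool.Agent.Helper52.KP (glue)
open Pool.Agent.Helper95.LF (PdM)
open Pool.Agent.Helper14.MC
open Pool.Agent.Helper42.NS (osp osp_dl)
open Pool.Agent.Helper59.EV (sum_split_le)

noncomputable section

variable {S T : Sp} {M : ℕ} {E : ℕ → ℕ} {ι : Type} [Encodable ι] {D : ℕ}

/-- the gauge of forms of degree `D` at the point -/
def gkq (M : ℕ) (E : ℕ → ℕ) (ι : Type) [Encodable ι] (D : ℕ) : Gk (KM M ι) (isMc M E ι) (Mon M D) where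
  φ := fun F x ω A => phi (dlF F 1) A ((x : FMs F.Ω M ι).Q ω)
  im := fun _ _ _ _ _ _ _ => rfl
  add := fun _ _ _ _ _ => phi_add _ _ _ _
  nn := fun _ _ _ _ hA => phi_nonneg _ hA.2 _
  C := 2 * D + 1
  C0 := by positivity
  cap := by
    rintro S x ⟨s, hs, _⟩
    filter_upwards [(gaq s.Q D).cap, hs] with k hk e
    rw [← e]
    exact hk
  one := by
    rintro S x ⟨s, hs, _⟩
    obtain ⟨c, hc, h1⟩ := (gaq s.Q D).one
    refine ⟨c, hc, ?_⟩
    filter_upwards [h1, hs] with k hk e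
    rw [← e]
    exact hk

theorem gkq_C {x : (KM M ι).Ob S} (hx : isMc M E ι S x) : ((gkq M E ι D).gau hx).C = 2 * D + 1 := rfl

theorem gaq_C (Q : S.VV M) : (gaq Q D).C = 2 * D + 1 := rfl

theorem gk_cp {x : (KM M ι).Ob S} (hx : isMc M E ι S x) (Q : S.VV M) (k : ℕ) :
    ((gkq M E ι D).gau hx).cp k = (gaq Q D).cp k := by
  unfold Gau.cp
  rw [gkq_C, gaq_C]

theorem gk_phi {s : MSys S M E ι} {x : (KM M ι).Ob S} (h : Giv s x) (hx : isMc M E ι S x) :
    ∀ᶠ k in UF, ((gkq M E ι D).gau hx).φ k = (gaq s.Q D).φ k := by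
  filter_upwards [h.1] with k hk
  funext ω A
  show phi (dlF (S.F k) 1) A ((x k : FMs (S.F k).Ω M ι).Q ω) = phi (S.dl 1 k) A (s.Q.v k ω)
  rw [hk]
  rfl

theorem Fm_congr {κ : Type} [Fintype κ] [DecidableEq κ] {Φ Φ' : Gau S κ} (e1 : ∀ k, Φ.cp k = Φ'.cp k)
    (e2 : ∀ᶠ k in UF, Φ.φ k = Φ'.φ k) (y : ∀ k, FD (S.F k) κ) (h : Φ.Fm y) : Φ'.Fm y := by
  intro η hη
  filter_upwards [h η hη, e2] with k a b
  rw [e1 k, b] at a
  exact a

theorem fm_giv {s : MSys S M E ι} {x : (KM M ι).Ob S} (h : Giv s x) (hx : isMc M E ι S x)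
    (y : ∀ k, FD (S.F k) (Mon M D)) : ((gkq M E ι D).gau hx).Fm y ↔ (gaq s.Q D).Fm y :=
  ⟨Fm_congr (gk_cp hx s.Q) (gk_phi h hx) y, Fm_congr (fun k => (gk_cp hx s.Q k).symm)
    ((gk_phi h hx).mono fun _ e => e.symm) y⟩

/-- admissible sequences of an object given by a system -/
theorem adc_giv {s : MSys S M E ι} {x : (KM M ι).Ob S} (h : Giv s x) (hx : isMc M E ι S x) (r c : ℝ)
    (y : ∀ k, FD (S.F k) (Mon M D)) : (gkq M E ι D).Adc (cdm M ι r c) hx y ↔ (gaq s.Q D).Adc (scn s r c) y :=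
  (and_congr (cdm_DMf h r c (fun k => (y k).l)) (fm_giv h hx y)).trans (Gau.Adc_iff (gaq s.Q D)).symm

/-! ### the exponent -/

/-- the exponent of the determinant at the point -/
def fvq (M : ℕ) (E : ℕ → ℕ) (ι : Type) [Encodable ι] (D : ℕ) :
    Fv (KM M ι) (isMc M E ι) (Mon M D) (gkq M E ι D).C where
  v := fun F x ω A => Real.logb 2 (GQ (dlF F 1) A ((x : FMs F.Ω M ι).Q ω)) / (2 * F.n)
  im := fun _ _ _ _ _ _ _ => rfl
  M := ((2 * D + 1) + 1 + 3) * M
  M0 := by positivity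
  nn := fun F x ω A hA => div_nonneg (Real.logb_nonneg (by norm_num) (one_le_GQ _ hA.1 hA.psd.2 _))
    (mul_nonneg (by norm_num) F.pos.le)
  le := by
    classical
    rintro S x ⟨s, hs, _⟩
    set P : ∀ k, (S.F k).Ω → Matrix (Mon M D) (Mon M D) ℝ → Prop := fun k ω A =>
      Cpd (2 ^ (((2 * D + 1) + 1) * (S.F k).n)) A ∧
        ¬ Real.logb 2 (GQ (S.dl 1 k) A (s.Q.v k ω)) / (2 * (S.F k).n) ≤ ((2 * D + 1) + 1 + 3) * M with hP
    set A : ∀ k, (S.F k).Ω → Matrix (Mon M D) (Mon M D) ℝ := fun k ω =>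
      if h : ∃ A, P k ω A then h.choose else 1 with hA
    have hC : ∀ᶠ k in UF, ∀ ω, (S.F k).μ ω ≠ 0 → Cpd (2 ^ (((2 * D + 1) + 1) * (S.F k).n)) (A k ω) := by
      refine Eventually.of_forall fun k ω _ => ?_
      rw [hA]
      dsimp only
      by_cases h : ∃ A, P k ω A
      · rw [dif_pos h]
        exact h.choose_spec.1
      · rw [dif_neg h]
        apply Cpd_one
        apply Real.one_le_rpow (by norm_num)
        have := (S.F k).pos
        positivity
    filter_upwards [gexq_bd s.Q A ((2 * D + 1) + 1) (by positivity) hC, hs] with k h1 e ω hω B hB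
    by_contra hn
    rw [← e] at hn
    have hex : ∃ A, P k ω A := ⟨B, hB, hn⟩
    have h2 : A k ω = hex.choose := dif_pos hex
    have h3 := h1 ω hω
    unfold gexq at h3
    rw [h2] at h3
    exact hex.choose_spec.2 h3

/-- the value of an admissible sequence -/
theorem evv_fvq {s : MSys S M E ι} {x : (KM M ι).Ob S} (h : Giv s x) {y : ∀ k, FD (S.F k) (Mon M D)}
    (hy : ∀ᶠ k in UF, Cpf (gkq M E ι D).C (y k)) : ul (evv (fvq M E ι D).vk x y) = ul (vx s.Q y) := by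
  rw [(fvq M E ι D).evv_eq ⟨s, h⟩ hy]
  refine ul_congr ?_
  filter_upwards [h.1] with k hk
  unfold fval vx gx
  refine Finset.sum_congr rfl fun ω _ => ?_
  rw [hk]
  rfl

/-- THE LARGEST EXPONENT of the conditions `(r, c)` -/
def gvm (M : ℕ) (E : ℕ → ℕ) (ι : Type) [Encodable ι] (D : ℕ) (r c : ℝ) {S : Sp} (x : (KM M ι).Ob S) : ℝ :=
  gvf (gkq M E ι D) (fvq M E ι D).vk (cdm M ι r c) x

/-- THE VOLUME of the hull, conditions `(r, c)`, of an object -/
def vlm (M : ℕ) (E : ℕ → ℕ) (ι : Type) [Encodable ι] (D : ℕ) (r c : ℝ) {S : Sp} (x : (KM M ι).Ob S) : ℝ :=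
  M - gvm M E ι D r c x

/-- the functional -/
def gvM (M : ℕ) (E : ℕ → ℕ) (ι : Type) [Encodable ι] (D : ℕ) (r c : ℝ) : Fnl (isMc M E ι) :=
  gvF (gkq M E ι D) (fvq M E ι D).vk (cdm M ι r c) isMc_imCl

theorem vlm_eq (D : ℕ) (r c : ℝ) {S : Sp} (x : (KM M ι).Ob S) :
    vlm M E ι D r c x = M - (gvM M E ι D r c).f S x := rfl

theorem vlm_le (D : ℕ) (r c : ℝ) {x : (KM M ι).Ob S} (hx : isMc M E ι S x) : vlm M E ι D r c x ≤ M := by
  have h1 := gvf_nonneg (V := (fvq M E ι D).vk) (gkq M E ι D) (cdm M ι r c) hx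
  unfold vlm gvm
  linarith

/-- the volume is the least volume of the admissible forms -/
theorem vlm_le_vol {s : MSys S M E ι} {x : (KM M ι).Ob S} (h : Giv s x) (r c : ℝ) {y : ∀ k, FD (S.F k) (Mon M D)}
    (hy : (gaq s.Q D).Adc (scn s r c) y) : vlm M E ι D r c x ≤ vol s.Q D y := by
  have h1 := (adc_giv h ⟨s, h⟩ r c y).mpr hy
  have h2 := ev_le_gvf (V := (fvq M E ι D).vk) (gkq M E ι D) (cdm M ι r c) ⟨s, h⟩ h1
  rw [evv_fvq h (Adc_cpf (gkq M E ι D) (cdm M ι r c) ⟨s, h⟩ h1)] at h2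
  rw [Pool.Agent.Helper14.MC.vol_eq]
  unfold vlm gvm
  linarith

theorem vlm_attained {s : MSys S M E ι} {x : (KM M ι).Ob S} (h : Giv s x) (D : ℕ) (r c : ℝ) :
    ∃ y : ∀ k, FD (S.F k) (Mon M D), (gaq s.Q D).Adc (scn s r c) y ∧ vol s.Q D y = vlm M E ι D r c x := by
  obtain ⟨y, hy, e⟩ := gvf_attained (V := (fvq M E ι D).vk) (gkq M E ι D) (cdm M ι r c) (x := x) ⟨s, h⟩
  refine ⟨y, (adc_giv h ⟨s, h⟩ r c y).mp hy, ?_⟩
  rw [evv_fvq h (Adc_cpf (gkq M E ι D) (cdm M ι r c) ⟨s, h⟩ hy)] at e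
  rw [Pool.Agent.Helper14.MC.vol_eq, e]
  rfl

/-! ### optimal forms -/

/-- a form which dominates has the smaller volume -/
theorem vol_dom_le {Q : S.VV M} {x y : ∀ k, FD (S.F k) (Mon M D)} (hx : (gaq Q D).Fm x) (hy : (gaq Q D).Fm y)
    (hdm : ∀ e : ℝ, 0 < e → Tendsto (fun k => ((x k).jj (y k)).l.T.pb (fun w =>
      ¬ ∀ v, qf (((x k).jj (y k)).g' w) v ≤ 2 ^ (e * (S.F k).n) * qf (((x k).jj (y k)).g w) v)) UF (𝓝 0)) :
    vol Q D x ≤ vol Q D y := by
  classical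
  rw [Pool.Agent.Helper14.MC.vol_eq, Pool.Agent.Helper14.MC.vol_eq]
  have hx' : (gaq Q D).Adf (fun i : Fin 0 => i.elim0) x := Gau.Adf_iff.mpr ⟨fun i => i.elim0, hx⟩
  have hy' : (gaq Q D).Adf (fun i : Fin 0 => i.elim0) y := Gau.Adf_iff.mpr ⟨fun i => i.elim0, hy⟩
  have hUx := vx_UB hx'
  have hUy := vx_UB hy'
  set C : ℝ := (((gaq Q D).C + 1) + 3) * M with hC
  have hC0 : 0 ≤ C := by
    have := (gaq Q D).C0
    positivity
  have hbd := gexq_bd (oQ (lb y) Q) _ ((gaq Q D).C + 1) (by linarith [(gaq Q D).C0]) (adf_cap hy')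
  have hnn := gexq_nonneg (oQ (lb x) Q) _ _ (adf_cap hx')
  suffices h : ∀ e : ℝ, 0 < e → ul (vx Q y) ≤ ul (vx Q x) + e * M by
    have h2 : ul (vx Q y) ≤ ul (vx Q x) := by
      apply le_of_forall_pos_le_add
      intro ε hε
      have h3 := h (ε / (M + 1)) (by positivity)
      have h4 : ε / (M + 1) * M ≤ ε := by
        rw [div_mul_eq_mul_div, div_le_iff₀ (by positivity)]
        nlinarith
      linarith
    linarith
  intro e he
  have hdom := hdm e he
  have hle : ∀ᶠ k in UF, vx Q y k ≤ vx Q x k + (e * M + C * (((x k).jj (y k)).l.T.pb (fun w =>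
      ¬ ∀ v, qf (((x k).jj (y k)).g' w) v ≤ 2 ^ (e * (S.F k).n) * qf (((x k).jj (y k)).g w) v))) := by
    filter_upwards [hbd, hnn, hx' 1 one_pos, hy' 1 one_pos] with k b1 b2 b3 b4
    have hn := (S.F k).pos
    have e1 : vx Q y k = ∑ w, ((x k).jj (y k)).l.T.μ w *
        gx Q k ((y k).l.p.π (((x k).l.am (y k).l).p2.π w)) ((y k).g (((x k).l.am (y k).l).p2.π w)) :=
      (sum_push ((x k).l.am (y k).l).p2 (fun ω => gx Q k ((y k).l.p.π ω) ((y k).g ω))).symm
    have e2 : vx Q x k = ∑ w, ((x k).jj (y k)).l.T.μ w *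
        gx Q k ((x k).l.p.π (((x k).l.am (y k).l).p1.π w)) ((x k).g (((x k).l.am (y k).l).p1.π w)) :=
      (sum_push ((x k).l.am (y k).l).p1 (fun ω => gx Q k ((x k).l.p.π ω) ((x k).g ω))).symm
    have h1 := sum_split_le (F := ((x k).jj (y k)).l.T)
      (fun w => gx Q k ((y k).l.p.π (((x k).l.am (y k).l).p2.π w)) ((y k).g (((x k).l.am (y k).l).p2.π w)) -
        gx Q k ((x k).l.p.π (((x k).l.am (y k).l).p1.π w)) ((x k).g (((x k).l.am (y k).l).p1.π w)))
      (fun w => ∀ v, qf (((x k).jj (y k)).g' w) v ≤ 2 ^ (e * (S.F k).n) * qf (((x k).jj (y k)).g w) v)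
      (e * M) C (by positivity) hC0 (by
        intro w hw hE
        have s1 := ((x k).l.am (y k).l).p1.supp w hw
        have s2 := ((x k).l.am (y k).l).p2.supp w hw
        have s3 := (x k).jj_supp (y k) w hw
        have c1 := (b3.2.1 _ s1).1
        have c2 := (b4.2.1 _ s2).1
        rw [← s3]
        set p := Q.v k ((x k).l.p.π (((x k).l.am (y k).l).p1.π w)) with hp
        set g1 := (x k).g (((x k).l.am (y k).l).p1.π w) with hg1
        set g2 := (y k).g (((x k).l.am (y k).l).p2.π w) with hg2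
        have h2 := GQ_dom (S.dl 1 k) g1 g2 c1.1 c1.psd.2 c2.1 c2.psd.2 p (2 ^ (e * (S.F k).n))
          (Real.one_le_rpow (by norm_num) (by positivity)) hE
        have h3 := one_le_GQ (S.dl 1 k) c1.1 c1.psd.2 p
        have h4 := one_le_GQ (S.dl 1 k) c2.1 c2.psd.2 p
        have h5 := Real.logb_le_logb_of_le (b := 2) (by norm_num) (by linarith) h2
        rw [Real.logb_mul (by positivity) (by linarith), Real.logb_pow,
          Real.logb_rpow (by norm_num) (by norm_num)] at h5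
        show Real.logb 2 (GQ (S.dl 1 k) g2 p) / (2 * (S.F k).n) -
          Real.logb 2 (GQ (S.dl 1 k) g1 p) / (2 * (S.F k).n) ≤ e * M
        rw [← sub_div, div_le_iff₀ (by positivity)]
        have h6 : 0 ≤ (M : ℝ) * (e * (S.F k).n) := by positivity
        linarith) (by
        intro w hw
        have s1 := ((x k).l.am (y k).l).p1.supp w hw
        have s2 := ((x k).l.am (y k).l).p2.supp w hw
        have d1 := b1 _ s2
        have d2 := b2 _ s1
        have f1 : gexq (oQ (lb y) Q) (fun k (ω : (y k).l.T.Ω) => (y k).g ω) k (((x k).l.am (y k).l).p2.π w) =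
            gx Q k ((y k).l.p.π (((x k).l.am (y k).l).p2.π w)) ((y k).g (((x k).l.am (y k).l).p2.π w)) := by
          unfold gexq gx
          rw [osp_dl, osp_n]
          rfl
        have f2 : gexq (oQ (lb x) Q) (fun k (ω : (x k).l.T.Ω) => (x k).g ω) k (((x k).l.am (y k).l).p1.π w) =
            gx Q k ((x k).l.p.π (((x k).l.am (y k).l).p1.π w)) ((x k).g (((x k).l.am (y k).l).p1.π w)) := by
          unfold gexq gx
          rw [osp_dl, osp_n]
          rfl
        rw [f1] at d1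
        rw [f2] at d2
        linarith)
    have e3 : ∑ w, ((x k).jj (y k)).l.T.μ w *
        (gx Q k ((y k).l.p.π (((x k).l.am (y k).l).p2.π w)) ((y k).g (((x k).l.am (y k).l).p2.π w)) -
        gx Q k ((x k).l.p.π (((x k).l.am (y k).l).p1.π w)) ((x k).g (((x k).l.am (y k).l).p1.π w))) =
        vx Q y k - vx Q x k := by
      rw [e1, e2, ← Finset.sum_sub_distrib]
      exact Finset.sum_congr rfl fun w _ => by ring
    have h2 : ∑ w, ((x k).jj (y k)).l.T.μ w *
        (gx Q k ((y k).l.p.π (((x k).l.am (y k).l).p2.π w)) ((y k).g (((x k).l.am (y k).l).p2.π w)) -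
        gx Q k ((x k).l.p.π (((x k).l.am (y k).l).p1.π w)) ((x k).g (((x k).l.am (y k).l).p1.π w))) ≤
        e * M + C * (((x k).jj (y k)).l.T.pb (fun w =>
      ¬ ∀ v, qf (((x k).jj (y k)).g' w) v ≤ 2 ^ (e * (S.F k).n) * qf (((x k).jj (y k)).g w) v)) := h1
    rw [e3] at h2
    linarith
  have t1 := ul_tendsto hUx
  have t2 := ul_tendsto hUy
  have t3 := t1.add ((hdom.const_mul C).const_add (e * M))
  rw [mul_zero, add_zero] at t3
  exact le_of_tendsto_of_tendsto t2 t3 hle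

/-- THE OPTIMAL FORM HAS THE LEAST VOLUME, countable families -/
theorem vol_optc_le {Q : S.VV M} {κ : Type} [Encodable κ] {A : κ → Part S} {x y : ∀ k, FD (S.F k) (Mon M D)}
    (hx : (gaq Q D).Optc A x) (hy : (gaq Q D).Adc A y) : vol Q D x ≤ vol Q D y :=
  vol_dom_le (Gau.Adc.fm (gaq Q D) hx.1) (Gau.Adc.fm (gaq Q D) hy) fun e he => Gau.Optc.dom (gaq Q D) hx hy e he

/-- the volume of an optimal form -/
theorem vol_optc {s : MSys S M E ι} {x : (KM M ι).Ob S} (h : Giv s x) {r c : ℝ} {z : ∀ k, FD (S.F k) (Mon M D)}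
    (hz : (gaq s.Q D).Optc (scn s r c) z) : vol s.Q D z = vlm M E ι D r c x := by
  apply le_antisymm
  · obtain ⟨y, hy, e⟩ := vlm_attained h D r c
    rw [← e]
    exact vol_optc_le hz hy
  · exact vlm_le_vol h r c hz.1

omit [Encodable ι] in
theorem scn_fun (s : MSys S M E ι) (c : ℝ) : scn s 1 c = s.cnd c := funext fun i => scn_one s c i

/-- THE VOLUME OF THE WINDOW `c`, finitely many types -/
theorem vol_vlm [Finite ι] {s : MSys S M E ι} {x : (KM M ι).Ob S} (h : Giv s x) (D : ℕ) (c : ℝ) :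
    s.vol D c = vlm M E ι D 1 c x := by
  obtain ⟨z, hz⟩ := s.exists_can D c
  rw [← s.vol_eq hz.1]
  apply vol_optc h
  rw [scn_fun]
  exact (Gau.Optc_iff_Optf (gaq s.Q D)).mpr hz.1

/-- THE VOLUME OF THE WINDOW `c`, all degrees -/
def vlO (M : ℕ) (E : ℕ → ℕ) (ι : Type) [Encodable ι] (r c : ℝ) {S : Sp} (x : (KM M ι).Ob S) : ℝ :=
  ⨅ D : ℕ, vlm M E ι D r c x

theorem volO_vlO [Finite ι] {s : MSys S M E ι} {x : (KM M ι).Ob S} (h : Giv s x) (c : ℝ) :
    volO s c = vlO M E ι 1 c x := by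
  unfold volO vlO
  exact congrArg iInf (funext fun D => vol_vlm h D c)

end

end Pool.Agent.Helper52.GF
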