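import Pool.Agent.Helper59.EV.FdgS
import Pool.Agent.Helper49.MD.Lim

/-! FUNCTIONALS of objects of a kind. The information of a finite label about a partition of the space; glueing and
restriction. -/

set_option autoImplicit false

namespace Pool.Agent.Helper52.GF

open Finset Filter Topology Matrix Pool.Agent.Helper69.RK Pool.Agent.Helper31.EC Pool.Agent.Helper31.EC.Sp
open Pool.Agent.Helper40.EL Pool.Agent.Helper89.LX Pool.Agent.Helper59.EV
open Pool.Agent.Helper52.KP (glue)

noncomputable section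

/-- the information of a label about a partition of the space -/
def vX {F : FSp} (l : FLab F) (x : FL F) : ℝ := I l.v (l.p.map x) ⊥

variable {F T : FSp}

theorem vX_nonneg (l : FLab F) (x : FL F) : 0 ≤ vX l x := I_nonneg _ _ _

theorem vX_le_H (l : FLab F) (x : FL F) : vX l x ≤ H x := by
  have h1 := I_le_h_right l.v (l.p.map x) ⊥
  rw [h_bot, l.p.H_map] at h1
  exact h1

theorem vX_eq (l : FLab F) (x : FL F) : vX l x = l.info - l.leak x := by
  have h1 := l.info_eq_leak x
  unfold vX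
  linarith

theorem vX_le_info (l : FLab F) (x : FL F) : vX l x ≤ l.info := by
  rw [vX_eq]
  linarith [l.leak_nonneg x]

/-- the entropy of a partition over a label -/
theorem h_eq_vX (l : FLab F) (x : FL F) : h (l.p.map x) l.v = H x - vX l x := by
  unfold vX I h
  rw [← l.p.H_map x]
  simp only [sup_bot_eq]
  rw [sup_comm l.v, H_bot]
  ring

theorem vX_triv (x : FL F) : vX (FLab.triv F) x = 0 := by
  rw [vX_eq, FLab.triv_leak, FLab.triv_info, sub_zero]

/-- labels of an extension, as labels of the space -/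
theorem vX_down (p : FPj T F) (hn : T.n = F.n) (l : FLab T) (x : FL F) :
    vX (FLab.down p hn l) x = vX l (p.map x) := by
  unfold vX
  have h1 : (FLab.down p hn l).p.map x = l.p.map (p.map x) := FPj.comp_map _ _ _
  rw [h1]
  rfl

/-- labels of the space, as labels of an extension -/
theorem vX_up (p : FPj T F) (hn : T.n = F.n) (l : FLab F) (x : FL F) : vX (l.up' p hn) (p.map x) = vX l x := by
  have hx : (l.amx p).p1.map (l.p.map x) = (l.amx p).p2.map (p.map x) := by
    induction x using fc_ind with | _ A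
    apply le_antisymm
    · apply fc_le
      intro w w' h h' _ e
      have a : l.p.π w.1 = p.π w.2 := ((l.amx p).supp w h).1
      have a' : l.p.π w'.1 = p.π w'.2 := ((l.amx p).supp w' h').1
      have e' : A (p.π w.2) (p.π w'.2) := e
      show A (l.p.π w.1) (l.p.π w'.1)
      rw [a, a']; exact e'
    · apply fc_le
      intro w w' h h' _ e
      have a : l.p.π w.1 = p.π w.2 := ((l.amx p).supp w h).1
      have a' : l.p.π w'.1 = p.π w'.2 := ((l.amx p).supp w' h').1
      have e' : A (l.p.π w.1) (l.p.π w'.1) := e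
      show A (p.π w.2) (p.π w'.2)
      rw [← a, ← a']; exact e'
  have h0 : vX (l.up' p hn) (p.map x) = I ((l.amx p).p1.map l.v) ((l.amx p).p2.map (p.map x)) ⊥ := rfl
  have h1 := (l.amx p).p1.I_map l.v (l.p.map x) ⊥
  rw [(l.amx p).p1.map_bot] at h1
  rw [h0, ← hx, h1]
  rfl

/-- restriction to an event of the space -/
theorem vX_rst (l : FLab F) (E : F.Ω → Prop) (x : FL F) : vX (l.rst E) (F.rmap E x) =
    I (l.T.rmap (fun ω => E (l.p.π ω)) l.v) (l.T.rmap (fun ω => E (l.p.π ω)) (l.p.map x))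
      (l.T.rmap (fun ω => E (l.p.π ω)) ⊥) := by
  induction x using fc_ind
  rfl

theorem vX_rst_split (l : FLab F) (E : F.Ω → Prop) (x : FL F) :
    vX l x ≤ F.pb E * vX (l.rst E) (F.rmap E x) +
      (1 - F.pb E) * vX (l.rst fun ω => ¬ E ω) (F.rmap (fun ω => ¬ E ω) x) + 1 := by
  have h1 := (l.T.I_rsplit (fun ω => E (l.p.π ω)) l.v (l.p.map x) ⊥).2
  rw [(push_restμ l.p E).2] at h1
  rw [vX_rst, vX_rst]
  exact h1

theorem vX_rst_split' (l : FLab F) (E : F.Ω → Prop) (x : FL F) :
    F.pb E * vX (l.rst E) (F.rmap E x) +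
      (1 - F.pb E) * vX (l.rst fun ω => ¬ E ω) (F.rmap (fun ω => ¬ E ω) x) ≤ vX l x + 1 := by
  have h1 := (l.T.I_rsplit (fun ω => E (l.p.π ω)) l.v (l.p.map x) ⊥).1
  rw [(push_restμ l.p E).2] at h1
  rw [vX_rst, vX_rst]
  exact h1

/-- a label of the space, restricted to an event of an extension -/
def imL (p : FPj T F) (E : T.Ω → Prop) (hn : T.n = F.n) (l : FLab F) : FLab (FSp.im p E) :=
  FLab.down (FSp.imp p E) hn ((l.up' p hn).rst E)

theorem vX_imL (p : FPj T F) (E : T.Ω → Prop) (hn : T.n = F.n) (l : FLab F) (x : FL F) :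
    vX (imL p E hn l) (FSp.imap p E x) = vX ((l.up' p hn).rst E) (T.rmap E (p.map x)) := by
  have h1 : vX (imL p E hn l) (FSp.imap p E x) =
      vX ((l.up' p hn).rst E) ((FSp.imp p E).map (FSp.imap p E x)) :=
    vX_down (FSp.imp p E) hn ((l.up' p hn).rst E) (FSp.imap p E x)
  rw [h1, FSp.imp_imap]

/-- informations split over an event of an extension -/
theorem vX_im_split (p : FPj T F) (E : T.Ω → Prop) (hn : T.n = F.n) (l : FLab F) (x : FL F) :
    vX l x ≤ T.pb E * vX (imL p E hn l) (FSp.imap p E x) +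
      (1 - T.pb E) * vX (imL p (fun ω => ¬ E ω) hn l) (FSp.imap p (fun ω => ¬ E ω) x) + 1 := by
  rw [vX_imL, vX_imL, ← vX_up p hn l x]
  exact vX_rst_split (l.up' p hn) E (p.map x)

theorem vX_im_split' (p : FPj T F) (E : T.Ω → Prop) (hn : T.n = F.n) (l : FLab F) (x : FL F) :
    T.pb E * vX (imL p E hn l) (FSp.imap p E x) +
      (1 - T.pb E) * vX (imL p (fun ω => ¬ E ω) hn l) (FSp.imap p (fun ω => ¬ E ω) x) ≤ vX l x + 1 := by
  rw [vX_imL, vX_imL, ← vX_up p hn l x]
  exact vX_rst_split' (l.up' p hn) E (p.map x)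

/-- glueing -/
theorem vX_glue (p : FPj T F) (E : T.Ω → Prop) (l1 : FLab (FSp.im p E)) (l2 : FLab (FSp.im p fun ω => ¬ E ω))
    (x : FL F) : |vX (glue p E l1 l2) x - (T.pb E * vX l1 (FSp.imap p E x) +
      (1 - T.pb E) * vX l2 (FSp.imap p (fun ω => ¬ E ω) x))| ≤ 2 := by
  have h1 := abs_le.mp (Pool.Agent.Helper52.KP.glue_leak p E l1 l2 x)
  have h2 := abs_le.mp (Pool.Agent.Helper52.KP.glue_leak p E l1 l2 ⊥)
  rw [FSp.imap_bot, FSp.imap_bot, FLab.leak_bot, FLab.leak_bot, FLab.leak_bot] at h2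
  rw [vX_eq, vX_eq, vX_eq, abs_le]
  generalize T.pb E = P at h1 h2 ⊢
  constructor
  · linarith [h1.1, h1.2, h2.1, h2.2]
  · linarith [h1.1, h1.2, h2.1, h2.2]

/-- the label of a restricted label with forms -/
theorem imFD_l {ι : Type} (p : FPj T F) (E : T.Ω → Prop) (hn : T.n = F.n) (y : FD F ι) :
    (imFD p E hn y).l = imL p E hn y.l := rfl

theorem gluFD_l {ι : Type} (p : FPj T F) (E : T.Ω → Prop) (y1 : FD (FSp.im p E) ι)
    (y2 : FD (FSp.im p (fun ω => ¬ E ω)) ι) : (gluFD p E y1 y2).l = glue p E y1.l y2.l := rfl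

end

end Pool.Agent.Helper52.GF
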